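import Pool.Agent.Work.MP_3b7449_co.TP.Geo

/-!
# ChB (size S-M): in a pentagon one of two crossing folds is possible

`p_i = φ^i r`, `φ p4 = p0 = r`.  All pairs of corners at distance two are different
(`geo_dist`, `hnp`).  If no edge joins `p2` and `p4`: left.  Otherwise let `V e p2`, `V (α e) p4`;
`φ^3 p2 = p0 ≠ p2` (if `p2 = p0` then with `φ^5 = 1` on the face `φ r = r`).  `geo_adj` for
`d = p2`: `φ (α p3) = α p2`.  `geo_free` with `d = p2`, `w = p1` gives `Free p3 p1`: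
`¬ V p3 p1` (`geo_dist p1`), `¬ V p2 p1` (`V (α p1) p2`, loop), `¬ V p4 p1` (`geo_dist p4`, since
`φ (φ p4) = p1`).  `Free_symm`.
-/

namespace TwoPlane
namespace Mp

variable {D : Type} [DecidableEq D]

theorem chB (M : Mp D) (hT : M.Tight) (hnp : ∀ d ∈ M.S, M.φ d ≠ M.α d) (r : D)
    (hr : r ∈ M.S) (h : M.L5 r) :
    M.Free (M.φ (M.φ r)) (M.φ (M.φ (M.φ (M.φ r)))) ∨
      M.Free (M.φ r) (M.φ (M.φ (M.φ r))) := by
  have hl := hT.ok.loopless
  have h1 : M.φ r ∈ M.S := M.φS r hr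
  have h2 : M.φ (M.φ r) ∈ M.S := M.φS _ h1
  have h3 : M.φ (M.φ (M.φ r)) ∈ M.S := M.φS _ h2
  have h4 : M.φ (M.φ (M.φ (M.φ r))) ∈ M.S := M.φS _ h3
  have g2 := geo_dist M hT _ h2 (hnp _ h2)
  by_cases hex : ∃ e ∈ M.S, M.V e (M.φ (M.φ r)) ∧
      M.V (M.α e) (M.φ (M.φ (M.φ (M.φ r))))
  · right
    obtain ⟨e, he, e1, e2⟩ := hex
    have hne : M.φ (M.φ (M.φ (M.φ (M.φ r)))) ≠ M.φ (M.φ r) := by
      intro h5
      rw [h.2] at h5
      have h6 := h.2
      rw [← h5] at h6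
      -- φ φ φ r = r after replacing
      have h7 : M.φ (M.φ (M.φ r)) = r := h6
      rw [← h5] at h7
      exact h.1 h7
    obtain ⟨a1, a2, a3⟩ := geo_adj M hT _ e h2 he e1 e2 hne
    refine Free_symm M (geo_free M _ _ h2 a1 ?_ ?_ ?_)
    · intro hv
      exact geo_dist M hT _ h1 (hnp _ h1) (M.V_symm hv)
    · intro hv
      exact hl _ h1 (M.V_symm (M.V_trans (M.V_αφ h1) hv))
    · have := geo_dist M hT _ h4 (hnp _ h4)
      rwa [h.2] at this
  · left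
    refine ⟨g2, ?_⟩
    rintro d hd ⟨k1, k2⟩
    exact hex ⟨d, hd, k1, k2⟩

end Mp
end TwoPlane
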