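import Pool.Agent.Work.MP_3b7449_co.TP.Geo

/-!
# ChQ (size M): in a quadrilateral of a tight map one diagonal can be contracted

Write `q0 = q, q1, q2, q3` for the iterates (`φ q3 = q0`).
Case `φ q = α q` (pendant).  `V q0 q2` (`V (α q1) q2`, `α q1 = q`).  `σ q1 = φ (α q1) = q1`, so
`V x q1` implies `x = q1`.  `Free q1 q3`: `V q1 q3` would give `q3 = q1`, so `q2 = q0`; an edge `x`
with `V x q1`, `V (α x) q3` has `x = q1`, `α x = q0`, so `V q0 q3`, `V q2 q3`, and with
`V (α q2) q3` a loop.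
Case `φ q ≠ α q`.  `geo_dist`: `¬ V q0 q2`.  If no edge joins `q0` and `q2`, left alternative.
Otherwise let `V e q0`, `V (α e) q2`; `φ q2 ≠ q0` (if `φ (φ (φ q)) = q` then `φ q = q` because the
fourth iterate is `q`, a loop).  `geo_adj`: `φ (α q1) = α q0`, `φ e = α q1`.  Then
`Free q1 q3` by `geo_free` with `d = q0`: `¬ V q1 q3` by `geo_dist` for `q1` (if `φ q1 = α q1` then
`φ q1 = φ e`, `q1 = e`, `V q1 q0`, with `V (α q0) q1` a loop); `¬ V q0 q3`: `V (α q3) q0` would
make `q3` a loop; `¬ V q2 q3`: `V (α q2) q3` would make `q2` a loop.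
-/

namespace TwoPlane
namespace Mp

variable {D : Type} [DecidableEq D]

theorem chQ (M : Mp D) (hT : M.Tight) (q : D) (hq : q ∈ M.S) (h : M.L4 q) :
    M.Free q (M.φ (M.φ q)) ∨ M.Free (M.φ q) (M.φ (M.φ (M.φ q))) := by
  have hl := hT.ok.loopless
  have h1 : M.φ q ∈ M.S := M.φS q hq
  have h2 : M.φ (M.φ q) ∈ M.S := M.φS _ h1
  have h3 : M.φ (M.φ (M.φ q)) ∈ M.S := M.φS _ h2
  have v0 : M.V (M.α q) (M.φ q) := M.V_αφ hq
  have v1 : M.V (M.α (M.φ q)) (M.φ (M.φ q)) := M.V_αφ h1
  have v2 : M.V (M.α (M.φ (M.φ q))) (M.φ (M.φ (M.φ q))) := M.V_αφ h2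
  have v3 : M.V (M.α (M.φ (M.φ (M.φ q)))) q := by
    have := M.V_αφ h3
    rwa [h.2] at this
  by_cases hp : M.φ q = M.α q
  · right
    have hα1 : M.α (M.φ q) = q := by rw [hp, M.αα q hq]
    have v02 : M.V q (M.φ (M.φ q)) := by rw [hα1] at v1; exact v1
    -- the vertex of `φ q` has degree one
    have deg : ∀ x, M.V x (M.φ q) → x = M.φ q := by
      have hcl : ∀ y ∈ M.S, (y = M.φ q) → (M.σ y = M.φ q) := by
        intro y _ hy
        rw [hy]
        show M.φ (M.α (M.φ q)) = M.φ q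
        rw [hα1]
      have key : ∀ a b : D, M.V a b → ((a = M.φ q) ↔ (b = M.φ q)) := by
        intro a b hab
        induction hab with
        | rel a b h' =>
          rw [h'.2]
          exact ⟨hcl a h'.1, fun h2 => M.σback (fun y => y = M.φ q) hcl h'.1 h2⟩
        | refl a => exact Iff.rfl
        | symm a b _ ih => exact ih.symm
        | trans a b c _ _ ih1 ih2 => exact ih1.trans ih2
      intro x hx
      exact (key x _ hx).mpr rfl
    refine ⟨?_, ?_⟩
    · intro hv
      have e := deg _ (M.V_symm hv)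
      -- e : φ φ φ q = φ q
      have e2 := M.φinj _ h2 _ hq e
      exact h.1 e2
    · rintro x hx ⟨k1, k2⟩
      have e := deg x k1
      rw [e, hα1] at k2
      exact hl _ h2 (M.V_trans (M.V_symm v02) (M.V_trans k2 (M.V_symm v2)))
  · have g0 := geo_dist M hT q hq hp
    by_cases hex : ∃ e ∈ M.S, M.V e q ∧ M.V (M.α e) (M.φ (M.φ q))
    · right
      obtain ⟨e, he, e1, e2⟩ := hex
      have hne : M.φ (M.φ (M.φ q)) ≠ q := by
        intro h5
        have h6 := h.2
        rw [h5] at h6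
        rw [h6] at v0
        exact hl q hq (M.V_symm v0)
      obtain ⟨a1, a2, a3⟩ := geo_adj M hT q e hq he e1 e2 hne
      have hp1 : M.φ (M.φ q) ≠ M.α (M.φ q) := by
        intro h5
        have h6 : M.φ q = e := M.φinj _ h1 _ he (h5.trans a3.symm)
        rw [h6] at v0
        exact hl q hq (M.V_symm (M.V_trans v0 e1))
      refine geo_free M q _ hq a1 (geo_dist M hT _ h1 hp1) ?_ ?_
      · intro hv
        exact hl _ h3 (M.V_symm (M.V_trans v3 hv))
      · intro hv
        exact hl _ h2 (M.V_trans hv (M.V_symm v2))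
    · left
      refine ⟨g0, ?_⟩
      rintro d hd ⟨k1, k2⟩
      exact hex ⟨d, hd, k1, k2⟩

end Mp
end TwoPlane
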