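import Pool.Agent.Work.MP_3b7449_co.TP.Defs

/-!
# Faces (size M): faces of length 2 to 5

All statements are elementary computations with `φ`, `φinj` and the equations
`φ^k d = d`.  `fok d := L2 d ∨ L3 d ∨ L4 d ∨ L5 d`.  For `Fc d x` in each of the four cases
`x = φ^j d` with `j < k`, and every further iterate is reduced by `φ^k d = d`.
Exclusivity: `L2, L3`: `φ (φ d) = d` and `φ (φ (φ d)) = d` give `φ d = d`; `L3, L4`:
`φ d = d`; `L4, L5`: `φ d = d`; `L2, L4`: `φ (φ d) ≠ d`; `L2, L5`: `φ d = d`;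
`L3, L5`: `φ (φ d) = d` and `φ (φ (φ d)) = d`, so `φ d = d`.
-/

namespace TwoPlane
namespace Mp

variable {D : Type} [DecidableEq D]

theorem Fc_mem (M : Mp D) {d x : D} (hd : d ∈ M.S) (h : M.Fc d x) : x ∈ M.S := by
  have h1 := M.φS d hd
  have h2 := M.φS _ h1
  have h3 := M.φS _ h2
  have h4 := M.φS _ h3
  rcases h with h | h | h | h | h <;> rw [h] <;> assumption

theorem Fc_self (M : Mp D) (d : D) : M.Fc d d := Or.inl rfl

theorem excl (M : Mp D) (d : D) :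
    (M.L2 d → ¬ M.L3 d ∧ ¬ M.L4 d ∧ ¬ M.L5 d) ∧ (M.L3 d → ¬ M.L4 d ∧ ¬ M.L5 d) ∧
      (M.L4 d → ¬ M.L5 d) := by
  refine ⟨fun h => ⟨fun h' => ?_, fun h' => ?_, fun h' => ?_⟩,
    fun h => ⟨fun h' => ?_, fun h' => ?_⟩, fun h h' => ?_⟩
  · have e := h'.2
    rw [h.2] at e
    exact h.1 e
  · exact h'.1 h.2
  · have e := h'.2
    rw [h.2, h.2] at e
    exact h.1 e
  · have e := h'.2
    rw [h.2] at e
    exact h.1 e
  · have e := h'.2
    rw [h.2] at e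
    have e2 := h.2
    rw [e] at e2
    exact h.1 e2
  · have e := h'.2
    rw [h.2] at e
    exact h'.1 e

/-- the set `Fc d` is closed under `φ` in both directions -/
theorem Fc_φ (M : Mp D) {d x : D} (hd : d ∈ M.S)
    (hf : M.L2 d ∨ M.L3 d ∨ M.L4 d ∨ M.L5 d) (hx : x ∈ M.S) : M.Fc d x ↔ M.Fc d (M.φ x) := by
  have h1 := M.φS d hd
  have h2 := M.φS _ h1
  have h3 := M.φS _ h2
  have h4 := M.φS _ h3
  constructor
  · intro h
    rcases h with h | h | h | h | h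
    · exact Or.inr (Or.inl (by rw [h]))
    · exact Or.inr (Or.inr (Or.inl (by rw [h])))
    · exact Or.inr (Or.inr (Or.inr (Or.inl (by rw [h]))))
    · exact Or.inr (Or.inr (Or.inr (Or.inr (by rw [h]))))
    · rw [h]
      rcases hf with hf | hf | hf | hf
      · rw [hf.2, hf.2]
        exact Or.inr (Or.inl rfl)
      · rw [hf.2]
        exact Or.inr (Or.inr (Or.inl rfl))
      · rw [hf.2]
        exact Or.inr (Or.inl rfl)
      · rw [hf.2]
        exact Or.inl rfl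
  · intro h
    rcases h with h | h | h | h | h
    · rcases hf with hf | hf | hf | hf
      · have e := M.φinj x hx _ h1 (h.trans hf.2.symm)
        exact Or.inr (Or.inl e)
      · have e := M.φinj x hx _ h2 (h.trans hf.2.symm)
        exact Or.inr (Or.inr (Or.inl e))
      · have e := M.φinj x hx _ h3 (h.trans hf.2.symm)
        exact Or.inr (Or.inr (Or.inr (Or.inl e)))
      · have e := M.φinj x hx _ h4 (h.trans hf.2.symm)
        exact Or.inr (Or.inr (Or.inr (Or.inr e)))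
    · exact Or.inl (M.φinj x hx _ hd h)
    · exact Or.inr (Or.inl (M.φinj x hx _ h1 h))
    · exact Or.inr (Or.inr (Or.inl (M.φinj x hx _ h2 h)))
    · exact Or.inr (Or.inr (Or.inr (Or.inl (M.φinj x hx _ h3 h))))

/-- one step -/
private theorem Fc_step (M : Mp D) {d : D} (hf : M.L2 d ∨ M.L3 d ∨ M.L4 d ∨ M.L5 d) (y : D) :
    M.Fc d y ↔ M.Fc (M.φ d) y := by
  unfold Fc
  rcases hf with hf | hf | hf | hf
  · simp only [hf.2]
    generalize (y = d) = A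
    generalize (y = M.φ d) = B
    by_cases hA : A <;> by_cases hB : B <;> simp [hA, hB]
  · simp only [hf.2]
    generalize (y = d) = A
    generalize (y = M.φ d) = B
    generalize (y = M.φ (M.φ d)) = C
    by_cases hA : A <;> by_cases hB : B <;> by_cases hC : C <;> simp [hA, hB, hC]
  · simp only [hf.2]
    generalize (y = d) = A
    generalize (y = M.φ d) = B
    generalize (y = M.φ (M.φ d)) = C
    generalize (y = M.φ (M.φ (M.φ d))) = E
    by_cases hA : A <;> by_cases hB : B <;> by_cases hC : C <;> by_cases hE : E <;>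
      simp [hA, hB, hC, hE]
  · simp only [hf.2]
    generalize (y = d) = A
    generalize (y = M.φ d) = B
    generalize (y = M.φ (M.φ d)) = C
    generalize (y = M.φ (M.φ (M.φ d))) = E
    generalize (y = M.φ (M.φ (M.φ (M.φ d)))) = F
    by_cases hA : A <;> by_cases hB : B <;> by_cases hC : C <;> by_cases hE : E <;>
      by_cases hF : F <;> simp [hA, hB, hC, hE, hF]

private theorem L_step (M : Mp D) {d : D} (hd : d ∈ M.S)
    (hf : M.L2 d ∨ M.L3 d ∨ M.L4 d ∨ M.L5 d) :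
    (M.L2 d → M.L2 (M.φ d)) ∧ (M.L3 d → M.L3 (M.φ d)) ∧ (M.L4 d → M.L4 (M.φ d)) ∧
      (M.L5 d → M.L5 (M.φ d)) := by
  have h1 := M.φS d hd
  have h2 := M.φS _ h1
  refine ⟨fun h => ⟨fun e => h.1 (M.φinj _ h1 _ hd e), by rw [h.2]⟩,
    fun h => ⟨fun e => h.1 (M.φinj _ h1 _ hd e), by rw [h.2]⟩,
    fun h => ⟨fun e => h.1 (M.φinj _ h2 _ hd e), by rw [h.2]⟩,
    fun h => ⟨fun e => h.1 (M.φinj _ h1 _ hd e), by rw [h.2]⟩⟩

private theorem L_iff (M : Mp D) {d x : D} (hd : M.L2 d ∨ M.L3 d ∨ M.L4 d ∨ M.L5 d)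
    (h : (M.L2 d → M.L2 x) ∧ (M.L3 d → M.L3 x) ∧ (M.L4 d → M.L4 x) ∧ (M.L5 d → M.L5 x)) :
    (M.L2 d ↔ M.L2 x) ∧ (M.L3 d ↔ M.L3 x) ∧ (M.L4 d ↔ M.L4 x) ∧ (M.L5 d ↔ M.L5 x) := by
  obtain ⟨a, b, c, e⟩ := h
  obtain ⟨x2, x3, x4⟩ := M.excl x
  rcases hd with hd | hd | hd | hd
  · have hx := a hd
    obtain ⟨n3, n4, n5⟩ := x2 hx
    exact ⟨⟨a, fun _ => hd⟩, ⟨b, fun k => absurd k n3⟩, ⟨c, fun k => absurd k n4⟩,
      ⟨e, fun k => absurd k n5⟩⟩
  · have hx := b hd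
    obtain ⟨n4, n5⟩ := x3 hx
    exact ⟨⟨a, fun k => absurd hx (x2 k).1⟩, ⟨b, fun _ => hd⟩, ⟨c, fun k => absurd k n4⟩,
      ⟨e, fun k => absurd k n5⟩⟩
  · have hx := c hd
    have n5 := x4 hx
    exact ⟨⟨a, fun k => absurd hx (x2 k).2.1⟩, ⟨b, fun k => absurd hx (x3 k).1⟩,
      ⟨c, fun _ => hd⟩, ⟨e, fun k => absurd k n5⟩⟩
  · have hx := e hd
    exact ⟨⟨a, fun k => absurd hx (x2 k).2.2⟩, ⟨b, fun k => absurd hx (x3 k).2⟩,
      ⟨c, fun k => absurd hx (x4 k)⟩, ⟨e, fun _ => hd⟩⟩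

private theorem f_step (M : Mp D) {d : D} (hd : d ∈ M.S)
    (hf : M.L2 d ∨ M.L3 d ∨ M.L4 d ∨ M.L5 d) :
    M.L2 (M.φ d) ∨ M.L3 (M.φ d) ∨ M.L4 (M.φ d) ∨ M.L5 (M.φ d) := by
  obtain ⟨a, b, c, e⟩ := M.L_step hd hf
  rcases hf with hf | hf | hf | hf
  · exact Or.inl (a hf)
  · exact Or.inr (Or.inl (b hf))
  · exact Or.inr (Or.inr (Or.inl (c hf)))
  · exact Or.inr (Or.inr (Or.inr (e hf)))

private theorem both (M : Mp D) (P : D → D → Prop) (hr : ∀ d ∈ M.S, P d d)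
    (hs : ∀ d ∈ M.S, (M.L2 d ∨ M.L3 d ∨ M.L4 d ∨ M.L5 d) → P d (M.φ d))
    (ht : ∀ a b c, P a b → P b c → P a c) {d x : D} (hd : d ∈ M.S)
    (hf : M.L2 d ∨ M.L3 d ∨ M.L4 d ∨ M.L5 d) (hx : M.Fc d x) : P d x := by
  have m1 := M.φS d hd
  have m2 := M.φS _ m1
  have m3 := M.φS _ m2
  have f1 := M.f_step hd hf
  have f2 := M.f_step m1 f1
  have f3 := M.f_step m2 f2
  have p1 := hs d hd hf
  have p2 := ht _ _ _ p1 (hs _ m1 f1)
  have p3 := ht _ _ _ p2 (hs _ m2 f2)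
  have p4 := ht _ _ _ p3 (hs _ m3 f3)
  rcases hx with h | h | h | h | h
  · rw [h]; exact hr d hd
  · rw [h]; exact p1
  · rw [h]; exact p2
  · rw [h]; exact p3
  · rw [h]; exact p4

/-- darts of the same face -/
theorem Fc_iff (M : Mp D) {d x : D} (hd : d ∈ M.S)
    (hf : M.L2 d ∨ M.L3 d ∨ M.L4 d ∨ M.L5 d) (hx : M.Fc d x) (y : D) :
    M.Fc d y ↔ M.Fc x y :=
  M.both (fun a b => (M.Fc a y ↔ M.Fc b y)) (fun _ _ => Iff.rfl)
    (fun _ _ h => M.Fc_step h y) (fun _ _ _ h h' => h.trans h') hd hf hx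

theorem L_Fc (M : Mp D) {d x : D} (hd : d ∈ M.S)
    (hf : M.L2 d ∨ M.L3 d ∨ M.L4 d ∨ M.L5 d) (hx : M.Fc d x) :
    (M.L2 d ↔ M.L2 x) ∧ (M.L3 d ↔ M.L3 x) ∧ (M.L4 d ↔ M.L4 x) ∧ (M.L5 d ↔ M.L5 x) :=
  M.both (fun a b => (M.L2 a ↔ M.L2 b) ∧ (M.L3 a ↔ M.L3 b) ∧ (M.L4 a ↔ M.L4 b) ∧
      (M.L5 a ↔ M.L5 b)) (fun _ _ => ⟨Iff.rfl, Iff.rfl, Iff.rfl, Iff.rfl⟩)
    (fun _ hd h => M.L_iff h (M.L_step hd h))
    (fun _ _ _ h h' => ⟨h.1.trans h'.1, h.2.1.trans h'.2.1, h.2.2.1.trans h'.2.2.1,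
      h.2.2.2.trans h'.2.2.2⟩) hd hf hx

theorem VAt_Fc (M : Mp D) (R : Bool → D → D → Prop) {d x : D} (hd : d ∈ M.S)
    (hf : M.L2 d ∨ M.L3 d ∨ M.L4 d ∨ M.L5 d) (hx : M.Fc d x) (h : M.VAt R d) :
    M.VAt R x := by
  obtain ⟨e2, e3, e4, e5⟩ := M.L_Fc hd hf hx
  have hFc : ∀ y, M.Fc d y ↔ M.Fc x y := fun y => M.Fc_iff hd hf hx y
  unfold VAt at h ⊢
  simp only [hFc, e2, e3, e4, e5] at h
  exact h

private theorem it_S (M : Mp D) {d : D} (hd : d ∈ M.S) (n : ℕ) : M.φ^[n] d ∈ M.S := by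
  induction n with
  | zero => exact hd
  | succ n ih =>
    rw [Function.iterate_succ_apply']
    exact M.φS _ ih

private theorem it_cancel (M : Mp D) (n : ℕ) {a b : D} (ha : a ∈ M.S) (hb : b ∈ M.S)
    (h : M.φ^[n] a = M.φ^[n] b) : a = b := by
  induction n with
  | zero => exact h
  | succ n ih =>
    rw [Function.iterate_succ_apply', Function.iterate_succ_apply'] at h
    exact ih (M.φinj _ (M.it_S ha n) _ (M.it_S hb n) h)

private theorem L5_no (M : Mp D) {d : D} (h : M.L5 d) (k : ℕ) (h1 : 1 ≤ k) (h4 : k ≤ 4) :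
    M.φ^[k] d ≠ d := by
  intro e
  have h5 := h.2
  have hk : k = 1 ∨ k = 2 ∨ k = 3 ∨ k = 4 := by omega
  rcases hk with rfl | rfl | rfl | rfl
  · exact h.1 e
  · have e' : M.φ (M.φ d) = d := e
    rw [e', e'] at h5
    exact h.1 h5
  · have e' : M.φ (M.φ (M.φ d)) = d := e
    rw [e'] at h5
    rw [h5] at e'
    exact h.1 e'
  · have e' : M.φ (M.φ (M.φ (M.φ d))) = d := e
    rw [e'] at h5
    exact h.1 h5

private theorem L5_lt (M : Mp D) {d : D} (hd : d ∈ M.S) (h : M.L5 d) (i j : ℕ) (hij : i < j)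
    (hj : j < 5) : M.φ^[i] d ≠ M.φ^[j] d := by
  intro e
  have h1 : M.φ^[j] d = M.φ^[i] (M.φ^[j - i] d) := by
    rw [← Function.iterate_add_apply]
    congr 2
    omega
  rw [h1] at e
  have h2 := M.it_cancel i hd (M.it_S hd _) e
  exact M.L5_no h (j - i) (by omega) (by omega) h2.symm

/-- the five darts of a pentagon are different -/
theorem L5_inj (M : Mp D) {d : D} (hd : d ∈ M.S) (h : M.L5 d) (i j : Fin 5)
    (hij : M.it d i = M.it d j) : i = j := by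
  unfold it at hij
  rcases lt_trichotomy (i : ℕ) (j : ℕ) with h1 | h1 | h1
  · exact absurd hij (M.L5_lt hd h _ _ h1 j.2)
  · exact Fin.ext h1
  · exact absurd hij.symm (M.L5_lt hd h _ _ h1 i.2)

/-- positions in a pentagon are counted modulo 5 -/
theorem L5_it (M : Mp D) {d : D} (h : M.L5 d) (n : ℕ) : M.it d (n % 5) = M.it d n := by
  have hp : Function.IsPeriodicPt M.φ 5 d := h.2
  exact hp.iterate_mod_apply n

private theorem it_add (M : Mp D) {d : D} (h : M.L5 d) (i : Fin 5) (k : Fin 5) :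
    M.it d ((i + k : Fin 5) : ℕ) = M.φ^[(k : ℕ)] (M.it d i) := by
  rw [Fin.val_add, M.L5_it h]
  unfold it
  rw [← Function.iterate_add_apply, add_comm]

/-- a pentagon state in positions gives `VAt` -/
theorem VAt_pst (M : Mp D) (R : Bool → D → D → Prop) {d : D} (hd : d ∈ M.S) (h : M.L5 d)
    (i : Fin 5) (o m : Bool)
    (hR : ∀ c x y, M.Fc d x → R c x y →
      ∃ a b : Fin 5, pst i o m c a b ∧ x = M.it d a ∧ y = M.it d b) : M.VAt R d := by
  obtain ⟨e2, e3, e4⟩ := M.excl d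
  have hFi : M.Fc d (M.it d i) := by
    have hi := i.2
    have hk : (i : ℕ) = 0 ∨ (i : ℕ) = 1 ∨ (i : ℕ) = 2 ∨ (i : ℕ) = 3 ∨ (i : ℕ) = 4 := by omega
    unfold it
    rcases hk with hk | hk | hk | hk | hk <;> rw [hk]
    · exact Or.inl rfl
    · exact Or.inr (Or.inl rfl)
    · exact Or.inr (Or.inr (Or.inl rfl))
    · exact Or.inr (Or.inr (Or.inr (Or.inl rfl)))
    · exact Or.inr (Or.inr (Or.inr (Or.inr rfl)))
  refine ⟨fun h2 => absurd h (e2 h2).2.2, fun h3 => absurd h (e3 h3).2,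
    fun h4 => absurd h (e4 h4), fun _ => ⟨M.it d i, o, m, hFi, ?_⟩⟩
  intro c x y hx hxy
  obtain ⟨a, b, hp, hxa, hyb⟩ := hR c x y hx hxy
  rcases hp with ⟨h1, h2, h3⟩ | ⟨h1, h2, h3⟩ | ⟨h1, h2, h3⟩
  · left
    refine ⟨h1, ?_, ?_⟩
    · rw [hxa, h2]
      exact M.it_add h i 4
    · rw [hyb, h3]
      exact M.it_add h i 1
  · right
    left
    refine ⟨h1, ?_, ?_⟩
    · rw [hxa, h2]
    · rw [hyb, h3]
      exact M.it_add h i 2
  · right
    right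
    refine ⟨h1, ?_, ?_⟩
    · rw [hxa, h2]
      exact M.it_add h i 2
    · rw [hyb, h3]
      exact M.it_add h i 4

/-- a triangle state gives `VAt` -/
theorem VAt_tri (M : Mp D) (R : Bool → D → D → Prop) {d : D} (h : M.L3 d) (i : D)
    (hi : M.Fc d i) (c : Bool)
    (hR : ∀ c' x y, M.Fc d x → R c' x y → c' = c ∧ x = i ∧ y = M.φ i) : M.VAt R d := by
  obtain ⟨e2, e3, e4⟩ := M.excl d
  exact ⟨fun h2 => absurd h (e2 h2).1, fun _ => ⟨i, c, hi, hR⟩,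
    fun h4 => absurd h4 (e3 h).1, fun h5 => absurd h5 (e3 h).2⟩

end Mp
end TwoPlane
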