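import Pool.Agent.Work.MP_3b7449_co.TP.Geo
import Pool.Agent.Work.MP_3b7449_co.TP.Faces

/-!
# ChR (size M): the three cases at a root triangle next to a pentagon

`T = (r, t2, t3)`, `t3 = φ (φ r)`, `p = α t3`, pentagon `p = p0, p1, p2, p3, p4` (`p_i = φ^i p`,
`φ p4 = p0`).  `¬ V p0 p3`: `geo_dist` for `p3` (`φ (φ p3) = p0`).  `¬ V p1 p3`: `geo_dist p1`.
If no edge joins `p0, p3` and none joins `p1, p3`: first alternative.
If `V e p0`, `V (α e) p3`: `geo_adj` for `d = p3` and the edge `α e` (`φ^3 p3 = p1 ≠ p3`) gives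
`φ (α p4) = α p3`, `φ (α p3) = α e`, `φ (α e) = α p4`.  Second alternative; remains
`¬ Fc r (α p3)`: otherwise `t3` is one of `α p3`, `φ (α p3)`, `α p4` (the face of `α p3` is the
3-cycle `α p4, α p3, α e`).  `t3 = α p3` or `α p4` would give `p = p3` or `p = p4` (`L5_inj`);
`t3 = α e`: `r = φ t3 = α p4`, so `α r = p4`, but `L3 (α r)` and `L5 p4` (`L_Fc`, `excl`).
If `V e p1`, `V (α e) p3`: `geo_adj` for `d = p1` (`φ^3 p1 = p4 ≠ p1`): `φ (α p2) = α p1`,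
`φ (α p1) = e`, `φ e = α p2`.  Third alternative; `¬ Fc r (α p1)` in the same way
(`t3 = α p1`, `α p2`: `p = p1, p2`; `t3 = e`: `r = α p2`, `α r = p2`).
-/

namespace TwoPlane
namespace Mp

variable {D : Type} [DecidableEq D]

theorem chR (M : Mp D) (hT : M.Tight) (hnp : ∀ d ∈ M.S, M.φ d ≠ M.α d) (r p : D)
    (hr : r ∈ M.S) (h3 : M.L3 r) (h3' : M.L3 (M.α r)) (hp : p = M.α (M.φ (M.φ r)))
    (h5 : M.L5 p) :
    (M.Free p (M.it p 3) ∧ M.Free (M.it p 1) (M.it p 3)) ∨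
    (M.φ (M.α (M.it p 4)) = M.α (M.it p 3) ∧
      M.φ (M.φ (M.α (M.it p 3))) = M.α (M.it p 4) ∧ ¬ M.Fc r (M.α (M.it p 3))) ∨
    (M.φ (M.α (M.it p 2)) = M.α (M.it p 1) ∧
      M.φ (M.φ (M.α (M.it p 1))) = M.α (M.it p 2) ∧ ¬ M.Fc r (M.α (M.it p 1))) := by
  have hl := hT.ok.loopless
  have hαr := M.αS r hr
  have s1 : M.φ r ∈ M.S := M.φS r hr
  have s2 : M.φ (M.φ r) ∈ M.S := M.φS _ s1
  have ht3 : M.φ (M.φ (M.φ r)) = r := h3.2
  -- the pentagon
  have p0S : p ∈ M.S := by rw [hp]; exact M.αS _ s2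
  have p1S : M.φ p ∈ M.S := M.φS p p0S
  have p2S : M.φ (M.φ p) ∈ M.S := M.φS _ p1S
  have p3S : M.φ (M.φ (M.φ p)) ∈ M.S := M.φS _ p2S
  have p4S : M.φ (M.φ (M.φ (M.φ p))) ∈ M.S := M.φS _ p3S
  have p5 : M.φ (M.φ (M.φ (M.φ (M.φ p)))) = p := h5.2
  have hαp : M.α p = M.φ (M.φ r) := by rw [hp, M.αα _ s2]
  have i1 : M.it p 1 = M.φ p := rfl
  have i2 : M.it p 2 = M.φ (M.φ p) := rfl
  have i3 : M.it p 3 = M.φ (M.φ (M.φ p)) := rfl
  have i4 : M.it p 4 = M.φ (M.φ (M.φ (M.φ p))) := rfl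
  rw [i1, i2, i3, i4]
  have inj : ∀ i j : Fin 5, i ≠ j → M.it p i ≠ M.it p j := fun i j hij h =>
    hij (M.L5_inj p0S h5 i j h)
  have n03 : p ≠ M.φ (M.φ (M.φ p)) := inj 0 3 (by decide)
  have n04 : p ≠ M.φ (M.φ (M.φ (M.φ p))) := inj 0 4 (by decide)
  have n01 : p ≠ M.φ p := inj 0 1 (by decide)
  have n02 : p ≠ M.φ (M.φ p) := inj 0 2 (by decide)
  have n13 : M.φ p ≠ M.φ (M.φ (M.φ p)) := inj 1 3 (by decide)
  have n14 : M.φ p ≠ M.φ (M.φ (M.φ (M.φ p))) := inj 1 4 (by decide)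
  have g03 : ¬ M.V p (M.φ (M.φ (M.φ p))) := by
    have := geo_dist M hT _ p3S (hnp _ p3S)
    rw [p5] at this
    exact fun h => this (M.V_symm h)
  have g13 : ¬ M.V (M.φ p) (M.φ (M.φ (M.φ p))) := geo_dist M hT _ p1S (hnp _ p1S)
  -- the root is not opposite to a dart of the pentagon
  have noα : ∀ x, M.Fc p x → M.α r ≠ x := by
    intro x hx h
    have h6 := (M.L_Fc p0S (Or.inr (Or.inr (Or.inr h5))) hx).2.2.2.mp h5
    rw [← h] at h6
    exact ((M.excl _).2.1 h3').2 h6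
  have αinj : ∀ x ∈ M.S, ∀ y ∈ M.S, M.α x = M.α y → x = y := by
    intro x hx y hy h
    have := congrArg M.α h
    rwa [M.αα x hx, M.αα y hy] at this
  by_cases hA : ∃ e ∈ M.S, M.V e p ∧ M.V (M.α e) (M.φ (M.φ (M.φ p)))
  · right; left
    obtain ⟨e, he, e1, e2⟩ := hA
    have hne : M.φ (M.φ (M.φ (M.φ (M.φ (M.φ p))))) ≠ M.φ (M.φ (M.φ p)) := by
      rw [p5]; exact n13
    obtain ⟨a1, a2, a3⟩ := geo_adj M hT (M.φ (M.φ (M.φ p))) (M.α e) p3S (M.αS e he) e2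
      (by rw [M.αα e he, p5]; exact e1) hne
    refine ⟨a1, by rw [a2, a3], ?_⟩
    intro hFc
    -- the face of `α p3`
    have hr3 : ∀ y, M.Fc r y → y = r ∨ y = M.φ r ∨ y = M.φ (M.φ r) := by
      intro y hy
      rcases hy with h | h | h | h | h
      · exact Or.inl h
      · exact Or.inr (Or.inl h)
      · exact Or.inr (Or.inr h)
      · rw [ht3] at h; exact Or.inl h
      · rw [ht3] at h; exact Or.inr (Or.inl h)
    have key : M.φ (M.φ r) = M.α (M.φ (M.φ (M.φ p))) ∨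
        M.φ (M.φ r) = M.φ (M.α (M.φ (M.φ (M.φ p)))) ∨
        M.φ (M.φ r) = M.φ (M.φ (M.α (M.φ (M.φ (M.φ p))))) := by
      rcases hr3 _ hFc with h | h | h
      · right; right; rw [h]
      · right; left; rw [h]
      · left; rw [h]
    rcases key with h | h | h
    · exact n03 (hp.trans (by rw [h, M.αα _ p3S]))
    · -- `t3 = α e`
      have h6 : r = M.α (M.φ (M.φ (M.φ (M.φ p)))) := by
        rw [← ht3, h, a2, a3]
      refine noα (M.φ (M.φ (M.φ (M.φ p)))) (Or.inr (Or.inr (Or.inr (Or.inr rfl)))) ?_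
      rw [h6, M.αα _ p4S]
    · rw [a2, a3] at h
      exact n04 (hp.trans (by rw [h, M.αα _ p4S]))
  · by_cases hB : ∃ e ∈ M.S, M.V e (M.φ p) ∧ M.V (M.α e) (M.φ (M.φ (M.φ p)))
    · right; right
      obtain ⟨e, he, e1, e2⟩ := hB
      obtain ⟨a1, a2, a3⟩ := geo_adj M hT (M.φ p) e p1S he e1 e2 (fun h => n14 h.symm)
      refine ⟨a1, by rw [a2, a3], ?_⟩
      intro hFc
      have hr3 : ∀ y, M.Fc r y → y = r ∨ y = M.φ r ∨ y = M.φ (M.φ r) := by
        intro y hy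
        rcases hy with h | h | h | h | h
        · exact Or.inl h
        · exact Or.inr (Or.inl h)
        · exact Or.inr (Or.inr h)
        · rw [ht3] at h; exact Or.inl h
        · rw [ht3] at h; exact Or.inr (Or.inl h)
      have key : M.φ (M.φ r) = M.α (M.φ p) ∨ M.φ (M.φ r) = M.φ (M.α (M.φ p)) ∨
          M.φ (M.φ r) = M.φ (M.φ (M.α (M.φ p))) := by
        rcases hr3 _ hFc with h | h | h
        · right; right; rw [h]
        · right; left; rw [h]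
        · left; rw [h]
      rcases key with h | h | h
      · exact n01 (hp.trans (by rw [h, M.αα _ p1S]))
      · have h6 : r = M.α (M.φ (M.φ p)) := by
          rw [← ht3, h, a2, a3]
        refine noα (M.φ (M.φ p)) (Or.inr (Or.inr (Or.inl rfl))) ?_
        rw [h6, M.αα _ p2S]
      · rw [a2, a3] at h
        exact n02 (hp.trans (by rw [h, M.αα _ p2S]))
    · left
      refine ⟨⟨g03, ?_⟩, g13, ?_⟩
      · rintro d hd ⟨k1, k2⟩
        exact hA ⟨d, hd, k1, k2⟩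
      · rintro d hd ⟨k1, k2⟩
        exact hB ⟨d, hd, k1, k2⟩

end Mp
end TwoPlane
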