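import Pool.Agent.Work.MP_3b7449_co.TP.Forests

/-!
# Colour (size L): the partition of the edges

Data: `ExactR R I C`, and `forests_of` for both colours.  Colour of a diagonal `p`: choose `d` with
`p = s(d, φ (φ d))`, `len d = 4` or `5`.
* `len d = 5`: 1 if `R true d (φ (φ d))`, 2 if `R false d (φ (φ d))`, 0 otherwise.  (`d` is determined
  by `p`: `s(d, φ² d) = s(d', φ² d')` with `d' = φ² d`, `d = φ² d'` would give `φ⁴ d = d`.  With the state
  `i, o, m` of `e5`: exactly the darts `φ⁴ i` (colour `o`), `i` (colour `!o`), `φ² i` (colour `m`) have a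
  colour, and only one; note `φ² (φ⁴ i) = φ i`.)
* `len d = 4`: if `p = s(I d, φ² (I d))`, then 1 or 2 according to `C d`, otherwise 0.  (The other
  choice `φ² d` of `d` is in the same face, `I` and `C` are constant on faces.)
Sides have colour 0.
Crossing edges have different colours: in a pentagon with corners counted from `i` the colours of
the diagonals `s(φ^j i, φ^(j+2) i)` for `j = 0, …, 4` are `!o, 0, m, 0, o`, and `j`, `j + 1` are always
different; in a quadrilateral exactly one of the two diagonals has colour 0.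
Forests: for the colour `c` (1 for `true`, 2 for `false`) every edge `p` of the class is
`s(x, y)` with `R c x y` (pentagon: by definition; quadrilateral: `e4` with `x = I d`), so
`ends p = en (some ⟨(x, y), _⟩)`, and `ends (side r) = en none`.  The map from the class (with
`side r`) to `Option {..}` is injective (an edge is determined by the unordered pair `s(x, y)`),
`en` is injective and never on the diagonal, and the graph of the class is a subgraph of
`fromEdgeSet (range en)`: `SimpleGraph.IsAcyclic` passes to subgraphs (`IsAcyclic.anti` or `comap`,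
`SimpleGraph.fromEdgeSet_mono`).
-/

namespace TwoPlane

open Equiv.Perm

section colour

variable {D : Type} [Fintype D] [DecidableEq D] (M : PlaneMap D)

/-- the darts of the face of `d`, of length `n` -/
private def clf {n : ℕ} (d : D) (a : Fin n) : D := M.φ^[a.val] d

private theorem clf_inj {n : ℕ} {d : D} (h : M.len d = n) :
    Function.Injective (clf M d : Fin n → D) := by
  intro a b hab
  have h1 := Function.iterate_injOn_Iio_minimalPeriod (f := M.φ) (x := d)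
  have ha : a.val ∈ Set.Iio (Function.minimalPeriod M.φ d) := by
    rw [Set.mem_Iio]
    exact lt_of_lt_of_eq a.isLt h.symm
  have hb : b.val ∈ Set.Iio (Function.minimalPeriod M.φ d) := by
    rw [Set.mem_Iio]
    exact lt_of_lt_of_eq b.isLt h.symm
  exact Fin.ext (h1 ha hb hab)

private theorem clf_add {n : ℕ} {d : D} (h : M.len d = n) (a b : Fin n) (k : ℕ)
    (hb : b.val = (a.val + k) % n) : M.φ^[k] (clf M d a) = clf M d b := by
  subst h
  unfold clf
  rw [← Function.iterate_add_apply, hb, add_comm k]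
  exact Function.iterate_mod_minimalPeriod_eq.symm

private theorem clf_len (d : D) (k : ℕ) : M.len (M.φ^[k] d) = M.len d := by
  refine Function.minimalPeriod_apply_iterate ?_ k
  have h1 : M.φ ∈ Set.univ := Set.mem_univ _
  exact (M.φ.injective).mem_periodicPts d

/-- the diagonal `p` carries a virtual edge of colour `c` -/
private def clB (R : Bool → D → D → Prop) (I : D → D) (C : D → Bool) (c : Bool) (p : Sym2 D) :
    Prop :=
  ∃ x y, R c x y ∧ p = s(x, y) ∧
    (M.len x = 5 ∨ (x = I x ∧ y = M.φ (M.φ x) ∧ c = C x))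

private instance cl_dec (i : Fin 5) (o m : Bool) (c : Bool) (a b : Fin 5) :
    Decidable (Mp.pst i o m c a b) :=
  inferInstanceAs (Decidable ((c = o ∧ a = i + 4 ∧ b = i + 1) ∨ (c = !o ∧ a = i ∧ b = i + 2) ∨
    (c = m ∧ a = i + 2 ∧ b = i + 4)))

private theorem cl_dec5 : ∀ (j : Fin 5) (o m : Bool),
    (∃ c, (Mp.pst j o m c 0 2 ∨ Mp.pst j o m c 2 0) ∨
      (Mp.pst j o m c 1 3 ∨ Mp.pst j o m c 3 1)) ∧
    ∀ c, ¬ ((Mp.pst j o m c 0 2 ∨ Mp.pst j o m c 2 0) ∧
      (Mp.pst j o m c 1 3 ∨ Mp.pst j o m c 3 1)) := by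
  decide

private theorem cl_key5 (R : Bool → D → D → Prop) (I : D → D) (C : D → Bool)
    (hR : Mp.ExactR M.toMp R I C) (d : D) (h : M.len d = 5) :
    (∃ c, clB M R I C c s(d, M.φ (M.φ d)) ∨
      clB M R I C c s(M.φ d, M.φ (M.φ (M.φ d)))) ∧
    ∀ c, ¬ (clB M R I C c s(d, M.φ (M.φ d)) ∧
      clB M R I C c s(M.φ d, M.φ (M.φ (M.φ d)))) := by
  have hinj := clf_inj M h
  obtain ⟨i, o, m, hi, H⟩ := hR.e5 d (Finset.mem_univ d) ((M.toMp_L d).2.2.2.2 h)
  have hFc : ∀ a : Fin 5, M.toMp.Fc d (clf M d a) := by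
    intro a
    fin_cases a
    · exact Or.inl rfl
    · exact Or.inr (Or.inl rfl)
    · exact Or.inr (Or.inr (Or.inl rfl))
    · exact Or.inr (Or.inr (Or.inr (Or.inl rfl)))
    · exact Or.inr (Or.inr (Or.inr (Or.inr rfl)))
  obtain ⟨j, rfl⟩ : ∃ j : Fin 5, i = clf M d j := by
    rcases hi with h1 | h1 | h1 | h1 | h1
    · exact ⟨0, h1⟩
    · exact ⟨1, h1⟩
    · exact ⟨2, h1⟩
    · exact ⟨3, h1⟩
    · exact ⟨4, h1⟩
  have e1 : M.toMp.φ (clf M d j) = clf M d (j + 1) :=
    clf_add M h j (j + 1) 1 (Fin.val_add j 1)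
  have e2 : M.toMp.φ (M.toMp.φ (clf M d j)) = clf M d (j + 2) :=
    clf_add M h j (j + 2) 2 (Fin.val_add j 2)
  have e4 : M.toMp.φ (M.toMp.φ (M.toMp.φ (M.toMp.φ (clf M d j)))) = clf M d (j + 4) :=
    clf_add M h j (j + 4) 4 (Fin.val_add j 4)
  rw [e4, e2, e1] at H
  have H' : ∀ c (a b : Fin 5), R c (clf M d a) (clf M d b) ↔ Mp.pst j o m c a b := by
    intro c a b
    rw [H c _ _ (hFc a)]
    unfold Mp.pst
    rw [hinj.eq_iff, hinj.eq_iff, hinj.eq_iff, hinj.eq_iff, hinj.eq_iff, hinj.eq_iff]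
  have hB : ∀ c (a b : Fin 5), clB M R I C c s(clf M d a, clf M d b) ↔
      (Mp.pst j o m c a b ∨ Mp.pst j o m c b a) := by
    intro c a b
    constructor
    · rintro ⟨x, y, h1, h2, -⟩
      rw [Sym2.eq_iff] at h2
      rcases h2 with ⟨rfl, rfl⟩ | ⟨rfl, rfl⟩
      · exact Or.inl ((H' c a b).1 h1)
      · exact Or.inr ((H' c b a).1 h1)
    · rintro (h1 | h1)
      · exact ⟨_, _, (H' c a b).2 h1, rfl, Or.inl ((clf_len M d a.val).trans h)⟩
      · exact ⟨_, _, (H' c b a).2 h1, Sym2.eq_swap, Or.inl ((clf_len M d b.val).trans h)⟩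
  obtain ⟨k1, k2⟩ := cl_dec5 j o m
  refine ⟨?_, fun c hc => k2 c ⟨(hB c 0 2).1 hc.1, (hB c 1 3).1 hc.2⟩⟩
  obtain ⟨c, hc⟩ := k1
  exact ⟨c, hc.imp (fun h => (hB c 0 2).2 h) (fun h => (hB c 1 3).2 h)⟩

private theorem cl_dec4 : ∀ (j : Fin 4),
    (((0 = j ∧ 2 = j + 2) ∨ (2 = j ∧ 0 = j + 2)) ∨ ((1 = j ∧ 3 = j + 2) ∨ (3 = j ∧ 1 = j + 2))) ∧
    ¬ (((0 = j ∧ 2 = j + 2) ∨ (2 = j ∧ 0 = j + 2)) ∧
      ((1 = j ∧ 3 = j + 2) ∨ (3 = j ∧ 1 = j + 2))) := by
  decide

private theorem cl_key4 (R : Bool → D → D → Prop) (I : D → D) (C : D → Bool)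
    (hR : Mp.ExactR M.toMp R I C) (d : D) (h : M.len d = 4) :
    (∃ c, clB M R I C c s(d, M.φ (M.φ d)) ∨
      clB M R I C c s(M.φ d, M.φ (M.φ (M.φ d)))) ∧
    ∀ c, ¬ (clB M R I C c s(d, M.φ (M.φ d)) ∧
      clB M R I C c s(M.φ d, M.φ (M.φ (M.φ d)))) := by
  have hinj := clf_inj M h
  have hL4 : ∀ k : ℕ, M.toMp.L4 (M.φ^[k] d) := fun k =>
    (M.toMp_L _).2.2.1.2 ((clf_len M d k).trans h)
  have hIC : ∀ k : ℕ, I (M.φ^[k] d) = I d ∧ C (M.φ^[k] d) = C d := by
    intro k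
    induction k with
    | zero => exact ⟨rfl, rfl⟩
    | succ k ih =>
      obtain ⟨-, h2, h3, -⟩ := hR.e4 (M.φ^[k] d) (Finset.mem_univ _) (hL4 k)
      rw [Function.iterate_succ_apply']
      exact ⟨h2.trans ih.1, h3.trans ih.2⟩
  obtain ⟨hi, -, -, e, e', c₂, -, -, H⟩ := hR.e4 d (Finset.mem_univ d) (hL4 0)
  have hR1 : R (C d) (I d) (M.φ (M.φ (I d))) := (H _ _ _ hi).2 (Or.inl ⟨rfl, rfl, rfl⟩)
  obtain ⟨j, hj⟩ : ∃ j : Fin 4, I d = clf M d j := by
    rcases hi with h1 | h1 | h1 | h1 | h1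
    · exact ⟨0, h1⟩
    · exact ⟨1, h1⟩
    · exact ⟨2, h1⟩
    · exact ⟨3, h1⟩
    · exact ⟨0, h1.trans (hL4 0).2⟩
  have e2 : M.φ (M.φ (clf M d j)) = clf M d (j + 2) :=
    clf_add M h j (j + 2) 2 (Fin.val_add j 2)
  have hB : ∀ c (a b : Fin 4), clB M R I C c s(clf M d a, clf M d b) ↔
      (c = C d ∧ ((a = j ∧ b = j + 2) ∨ (b = j ∧ a = j + 2))) := by
    intro c a b
    have aux : ∀ a b : Fin 4, (M.len (clf M d a) = 5 ∨ (clf M d a = I (clf M d a) ∧
        clf M d b = M.φ (M.φ (clf M d a)) ∧ c = C (clf M d a))) →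
        c = C d ∧ (a = j ∧ b = j + 2) := by
      rintro a b (h1 | ⟨h1, h2, h3⟩)
      · have h4 := clf_len M d a.val
        unfold clf at h1
        omega
      · have h5 : a = j := by
          refine hinj ?_
          rw [h1, ← hj]
          exact (hIC a.val).1
        refine ⟨h3.trans (hIC a.val).2, h5, ?_⟩
        rw [h5, e2] at h2
        exact hinj h2
    constructor
    · rintro ⟨x, y, h1, h2, h3⟩
      rw [Sym2.eq_iff] at h2
      rcases h2 with ⟨rfl, rfl⟩ | ⟨rfl, rfl⟩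
      · obtain ⟨k1, k2⟩ := aux _ _ h3
        exact ⟨k1, Or.inl k2⟩
      · obtain ⟨k1, k2⟩ := aux _ _ h3
        exact ⟨k1, Or.inr k2⟩
    · rintro ⟨rfl, h1⟩
      have h3 : I (I d) = I d := by
        conv_lhs => rw [hj]
        exact (hIC j.val).1
      have h4 : C (I d) = C d := by
        rw [hj]
        exact (hIC j.val).2
      refine ⟨_, _, hR1, ?_, Or.inr ⟨h3.symm, rfl, h4.symm⟩⟩
      rw [hj, e2]
      rcases h1 with ⟨rfl, rfl⟩ | ⟨rfl, rfl⟩
      · rfl
      · exact Sym2.eq_swap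
  obtain ⟨k1, k2⟩ := cl_dec4 j
  refine ⟨⟨C d, k1.imp (fun h => (hB _ 0 2).2 ⟨rfl, h⟩) (fun h => (hB _ 1 3).2 ⟨rfl, h⟩)⟩,
    fun c hc => k2 ⟨((hB c 0 2).1 hc.1).2, ((hB c 1 3).1 hc.2).2⟩⟩

private theorem cl_key (R : Bool → D → D → Prop) (I : D → D) (C : D → Bool)
    (hR : Mp.ExactR M.toMp R I C) (d : D) (h : M.len d = 4 ∨ M.len d = 5) :
    (∃ c, clB M R I C c s(d, M.φ (M.φ d)) ∨
      clB M R I C c s(M.φ d, M.φ (M.φ (M.φ d)))) ∧
    ∀ c, ¬ (clB M R I C c s(d, M.φ (M.φ d)) ∧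
      clB M R I C c s(M.φ d, M.φ (M.φ (M.φ d)))) := by
  rcases h with h | h
  · exact cl_key4 M R I C hR d h
  · exact cl_key5 M R I C hR d h

private theorem cl_forest (hl : M.NoLoop)
    (h5 : ∀ d, M.len d ≤ 5) (r : D) (R : Bool → D → D → Prop) (I : D → D) (C : D → Bool)
    (hR : Mp.ExactR M.toMp R I C)
    (hT : M.toMp.Tot (fun c x y => R c x y ∨ (x = r ∧ y = M.α r))) (c : Bool) (F : Set M.Edge)
    (hF : ∀ e ∈ F, e = M.side r ∨ ∃ (p : M.Diag) (x y : D), e = Sum.inr p ∧ R c x y ∧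
      p.1 = s(x, y)) : M.Forest F := by
  obtain ⟨h1, h2, h3⟩ := forests_of M hl h5 r R I C hR hT c
  have hQ : ∀ e ∈ F, ∃ o : Option {p : D × D // R c p.1 p.2},
      M.ends e = (o.elim s(M.src r, M.src (M.α r)) (fun p => s(M.src p.1.1, M.src p.1.2)) :
        Sym2 M.Vert) ∧
      ((o = none ∧ e = M.side r) ∨
        ∃ (q : M.Diag) (p : {p : D × D // R c p.1 p.2}), o = some p ∧ e = Sum.inr q ∧
          q.1 = s(p.1.1, p.1.2)) := by
    intro e he
    rcases hF e he with h | ⟨p, x, y, rfl, h4, h6⟩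
    · exact ⟨none, by rw [h]; rfl, Or.inl ⟨rfl, h⟩⟩
    · refine ⟨some ⟨(x, y), h4⟩, ?_, Or.inr ⟨p, ⟨(x, y), h4⟩, rfl, rfl, h6⟩⟩
      change p.1.map M.src = _
      rw [h6]
      rfl
  refine ⟨?_, ?_, ?_⟩
  · intro e he
    obtain ⟨o, h4, -⟩ := hQ e he
    rw [h4]
    exact h1 o
  · intro e he e' he' hee
    obtain ⟨o, h4, h6⟩ := hQ e he
    obtain ⟨o', h4', h6'⟩ := hQ e' he'
    have h7 : o = o' := by
      refine h2 ?_
      exact h4.symm.trans (hee.trans h4')
    subst h7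
    rcases h6 with ⟨h8, h9⟩ | ⟨q, p, h8, h9, h10⟩
    · rcases h6' with ⟨h8', h9'⟩ | ⟨q', p', h8', h9', h10'⟩
      · exact h9.trans h9'.symm
      · rw [h8] at h8'
        cases h8'
    · rcases h6' with ⟨h8', h9'⟩ | ⟨q', p', h8', h9', h10'⟩
      · rw [h8'] at h8
        cases h8
      · have h11 : p = p' := Option.some_injective _ (h8.symm.trans h8')
        subst h11
        have h12 : q = q' := Subtype.ext (h10.trans h10'.symm)
        rw [h9, h9', h12]
  · refine SimpleGraph.IsAcyclic.anti (SimpleGraph.fromEdgeSet_mono ?_) h3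
    rintro _ ⟨e, he, rfl⟩
    obtain ⟨o, h4, -⟩ := hQ e he
    exact ⟨o, h4.symm⟩

end colour

theorem colour_of {D : Type} [Fintype D] [DecidableEq D] (M : PlaneMap D) (hl : M.NoLoop)
    (h5 : ∀ d, M.len d ≤ 5) (r : D) (R : Bool → D → D → Prop) (I : D → D) (C : D → Bool)
    (hR : Mp.ExactR M.toMp R I C)
    (hT : M.toMp.Tot (fun c x y => R c x y ∨ (x = r ∧ y = M.α r))) :
    ∃ κ : M.Edge → Fin 3,
      (∀ e e', M.Cross e e' → κ e ≠ κ e') ∧
      (∀ s : M.Side, κ (Sum.inl s) = 0) ∧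
      M.Forest ({e | κ e = 1} ∪ {M.side r}) ∧
      M.Forest ({e | κ e = 2} ∪ {M.side r}) := by
  classical
  set g : Sym2 D → Fin 3 := fun p =>
    if clB M R I C true p then 1 else if clB M R I C false p then 2 else 0 with hg
  have g1 : ∀ p, g p = 1 ↔ clB M R I C true p := by
    intro p
    rw [hg]
    dsimp only
    split_ifs with h1 h2
    · simp [h1]
    · simp [h1]
    · simp [h1]
  have g2 : ∀ p, g p = 2 → clB M R I C false p := by
    intro p
    rw [hg]
    dsimp only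
    split_ifs with h1 h2
    · simp
    · exact fun _ => h2
    · simp
  have g0 : ∀ p, g p = 0 → ∀ c, ¬ clB M R I C c p := by
    intro p
    rw [hg]
    dsimp only
    split_ifs with h1 h2
    · simp
    · simp
    · intro _ c
      cases c
      · exact h2
      · exact h1
  have hdiag : ∀ d, (M.len d = 4 ∨ M.len d = 5) →
      g s(d, M.φ (M.φ d)) ≠ g s(M.φ d, M.φ (M.φ (M.φ d))) := by
    intro d hd heq
    obtain ⟨⟨c, hc⟩, h2⟩ := cl_key M R I C hR d hd
    have h3 : g s(d, M.φ (M.φ d)) = 0 ∨ g s(d, M.φ (M.φ d)) = 1 ∨ g s(d, M.φ (M.φ d)) = 2 := by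
      generalize g s(d, M.φ (M.φ d)) = z
      revert z
      decide
    rcases h3 with h3 | h3 | h3
    · rcases hc with hc | hc
      · exact g0 _ h3 c hc
      · exact g0 _ (heq.symm.trans h3) c hc
    · exact h2 true ⟨(g1 _).1 h3, (g1 _).1 (heq.symm.trans h3)⟩
    · exact h2 false ⟨g2 _ h3, g2 _ (heq.symm.trans h3)⟩
  refine ⟨Sum.elim (fun _ => 0) (fun p => g p.1), ?_, fun _ => rfl, ?_, ?_⟩
  · intro e e' h
    rcases e with s | p
    · exact absurd h (by cases e' <;> exact id)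
    · rcases e' with s' | q
      · exact absurd h id
      · obtain ⟨d, hd, ⟨h1, h2⟩ | ⟨h1, h2⟩⟩ := h
        · change g p.1 ≠ g q.1
          rw [h1, h2]
          exact hdiag d hd
        · change g p.1 ≠ g q.1
          rw [h1, h2]
          exact (hdiag d hd).symm
  · refine cl_forest M hl h5 r R I C hR hT true _ ?_
    rintro e (he | he)
    · rcases e with s | p
      · exact absurd (show (0 : Fin 3) = 1 from he) (by decide)
      · obtain ⟨x, y, h1, h2, -⟩ := (g1 p.1).1 he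
        exact Or.inr ⟨p, x, y, rfl, h1, h2⟩
    · exact Or.inl he
  · refine cl_forest M hl h5 r R I C hR hT false _ ?_
    rintro e (he | he)
    · rcases e with s | p
      · exact absurd (show (0 : Fin 3) = 2 from he) (by decide)
      · obtain ⟨x, y, h1, h2, -⟩ := g2 p.1 he
        exact Or.inr ⟨p, x, y, rfl, h1, h2⟩
    · exact Or.inl he

end TwoPlane
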