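import Pool.Agent.Work.MP_3b7449_co.TP.Defs

/-!
# Core (size M): reduction of the connectivity to finitely many corners

`core_down`: induction on `EqvGen`; the statement is symmetric and transitive (use
transitivity and symmetry of `EqvGen` on `Fin k` and of `ρ`; in the transitive case with both
middle parts: `ρ (v j) (v i')` gives a step `j - i'` on `Fin k`).
`core_J`: for `i, j` in `J` join `v i` and `v j` through elements of `S'`, then `core_down`.
`core_cov`: `core_down` for `x` and `v i0`.  `core_tot`: lift the `EqvGen` on `Fin k` to `D`.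
`core_lnk`: `ρ = M.Lnk L0`; both kinds of steps are in `M.Lnk (L0 ∪ P)`.
-/

namespace TwoPlane
namespace Mp

variable {D : Type} [DecidableEq D]

theorem core_down {k : ℕ} (ρ : D → D → Prop) (hρ : Equivalence ρ) (v : Fin k → D)
    (L : Fin k → Fin k → Prop) {x y : D}
    (h : Relation.EqvGen (fun a b => ρ a b ∨ ∃ i j, L i j ∧ a = v i ∧ b = v j) x y) :
    ρ x y ∨ ∃ i j, ρ x (v i) ∧
      Relation.EqvGen (fun a b => ρ (v a) (v b) ∨ L a b) i j ∧ ρ (v j) y := by
  induction h with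
  | rel a b h =>
    rcases h with h | ⟨i, j, h1, rfl, rfl⟩
    · exact Or.inl h
    · exact Or.inr ⟨i, j, hρ.refl _, Relation.EqvGen.rel _ _ (Or.inr h1), hρ.refl _⟩
  | refl a => exact Or.inl (hρ.refl a)
  | symm a b _ ih =>
    rcases ih with ih | ⟨i, j, h1, h2, h3⟩
    · exact Or.inl (hρ.symm ih)
    · exact Or.inr ⟨j, i, hρ.symm h3, Relation.EqvGen.symm _ _ h2, hρ.symm h1⟩
  | trans a b c _ _ ih1 ih2 =>
    rcases ih1 with ih1 | ⟨i, j, h1, h2, h3⟩
    · rcases ih2 with ih2 | ⟨i', j', k1, k2, k3⟩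
      · exact Or.inl (hρ.trans ih1 ih2)
      · exact Or.inr ⟨i', j', hρ.trans ih1 k1, k2, k3⟩
    · rcases ih2 with ih2 | ⟨i', j', k1, k2, k3⟩
      · exact Or.inr ⟨i, j, h1, h2, hρ.trans h3 ih2⟩
      · exact Or.inr ⟨i, j', h1, Relation.EqvGen.trans _ _ _ h2
          (Relation.EqvGen.trans _ _ _ (Relation.EqvGen.rel _ _ (Or.inl (hρ.trans h3 k1))) k2), k3⟩

theorem core_J {k : ℕ} (ρ : D → D → Prop) (hρ : Equivalence ρ) (v : Fin k → D)
    (L : Fin k → Fin k → Prop) (J : Fin k → Prop) (S' : Finset D)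
    (hv : ∀ i, J i → ∃ x ∈ S',
      Relation.EqvGen (fun a b => ρ a b ∨ ∃ i j, L i j ∧ a = v i ∧ b = v j) x (v i))
    (h : ∀ x ∈ S', ∀ y ∈ S',
      Relation.EqvGen (fun a b => ρ a b ∨ ∃ i j, L i j ∧ a = v i ∧ b = v j) x y) :
    FinC J (fun i j => ρ (v i) (v j)) L := by
  intro i j hi hj
  obtain ⟨x, hx, hxi⟩ := hv i hi
  obtain ⟨y, hy, hyj⟩ := hv j hj
  have h1 := Relation.EqvGen.trans _ _ _ (Relation.EqvGen.symm _ _ hxi)
    (Relation.EqvGen.trans _ _ _ (h x hx y hy) hyj)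
  rcases core_down ρ hρ v L h1 with h2 | ⟨i', j', k1, k2, k3⟩
  · exact Relation.EqvGen.rel _ _ (Or.inl h2)
  · exact Relation.EqvGen.trans _ _ _ (Relation.EqvGen.rel _ _ (Or.inl k1))
      (Relation.EqvGen.trans _ _ _ k2 (Relation.EqvGen.rel _ _ (Or.inl k3)))

theorem core_cov {k : ℕ} (ρ : D → D → Prop) (hρ : Equivalence ρ) (v : Fin k → D)
    (L : Fin k → Fin k → Prop) {x : D} {i : Fin k}
    (h : Relation.EqvGen (fun a b => ρ a b ∨ ∃ i j, L i j ∧ a = v i ∧ b = v j) x (v i)) :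
    ∃ j, ρ x (v j) := by
  rcases core_down ρ hρ v L h with h2 | ⟨i', j', k1, k2, k3⟩
  · exact ⟨i, h2⟩
  · exact ⟨i', k1⟩

private theorem lift {k : ℕ} (ρ : D → D → Prop) (v : Fin k → D) (N : Fin k → Fin k → Prop)
    {i j : Fin k} (h : Relation.EqvGen (fun a b => ρ (v a) (v b) ∨ N a b) i j) :
    Relation.EqvGen (fun a b => ρ a b ∨ ∃ i j, N i j ∧ a = v i ∧ b = v j) (v i) (v j) := by
  induction h with
  | rel a b h =>
    rcases h with h | h
    · exact Relation.EqvGen.rel _ _ (Or.inl h)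
    · exact Relation.EqvGen.rel _ _ (Or.inr ⟨a, b, h, rfl, rfl⟩)
  | refl a => exact Relation.EqvGen.refl _
  | symm a b _ ih => exact Relation.EqvGen.symm _ _ ih
  | trans a b c _ _ ih1 ih2 => exact Relation.EqvGen.trans _ _ _ ih1 ih2

theorem core_tot {k : ℕ} (ρ : D → D → Prop) (hρ : Equivalence ρ) (v : Fin k → D)
    (N : Fin k → Fin k → Prop)
    (hN : FinC (fun _ => True) (fun i j => ρ (v i) (v j)) N) (S : Finset D)
    (hS : ∀ x ∈ S, ∃ i, ρ x (v i)) (x : D) (hx : x ∈ S) (y : D) (hy : y ∈ S) :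
    Relation.EqvGen (fun a b => ρ a b ∨ ∃ i j, N i j ∧ a = v i ∧ b = v j) x y := by
  obtain ⟨i, hi⟩ := hS x hx
  obtain ⟨j, hj⟩ := hS y hy
  exact Relation.EqvGen.trans _ _ _ (Relation.EqvGen.rel _ _ (Or.inl hi))
    (Relation.EqvGen.trans _ _ _ (lift ρ v N (hN i j trivial trivial))
      (Relation.EqvGen.rel _ _ (Or.inl (hρ.symm hj))))

theorem core_lnk (M : Mp D) (L0 P : D → D → Prop) {x y : D}
    (h : Relation.EqvGen (fun a b => M.Lnk L0 a b ∨ P a b) x y) :
    M.Lnk (fun a b => L0 a b ∨ P a b) x y := by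
  induction h with
  | rel a b h =>
    rcases h with h | h
    · exact M.Lnk_le (M.Lnk_equiv _) (fun a ha => M.V_Lnk (M.V_σ ha))
        (fun a b hab => M.Lnk_of (Or.inl hab)) h
    · exact M.Lnk_of (Or.inr h)
  | refl a => exact M.Lnk_refl _ a
  | symm a b _ ih => exact M.Lnk_symm ih
  | trans a b c _ _ ih1 ih2 => exact M.Lnk_trans ih1 ih2

theorem lnk_core (M : Mp D) (L0 P : D → D → Prop) {x y : D}
    (h : M.Lnk (fun a b => L0 a b ∨ P a b) x y) :
    Relation.EqvGen (fun a b => M.Lnk L0 a b ∨ P a b) x y := by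
  refine M.Lnk_le ⟨fun a => Relation.EqvGen.refl a, fun h => Relation.EqvGen.symm _ _ h,
    fun h h' => Relation.EqvGen.trans _ _ _ h h'⟩ ?_ ?_ h
  · intro a ha
    exact Relation.EqvGen.rel _ _ (Or.inl (M.V_Lnk (M.V_σ ha)))
  · intro a b hab
    rcases hab with hab | hab
    · exact Relation.EqvGen.rel _ _ (Or.inl (M.Lnk_of hab))
    · exact Relation.EqvGen.rel _ _ (Or.inr hab)

end Mp
end TwoPlane
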