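import Mathlib

/-!
# MP_3b7449_co : plane multigraphs and the 2-plane graphs obtained from them (FIXED)

A connected plane multigraph is given by the finite set `D` of its darts (edges with a
direction), the involution `α` which reverses a dart, and the permutation `φ` which sends a
dart to the next dart of the face on its left.  The next dart around the source of `d` is
`φ (α d)`; vertices are the cycles of this permutation, faces are the cycles of `φ`, and the
drawing is on the sphere iff it is connected and `V - E + F = 2`.

From a plane multigraph `M` we get a drawn multigraph: all the edges of `M` (type `Side`), and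
inside every face with 4 or 5 corners all its diagonals (type `Diag`).  A diagonal is written
as the unordered pair of its two corners; a corner is written as the dart that leaves it along
the face.  So the diagonals of a face are the pairs `s(d, φ (φ d))`: two in a quadrilateral, five
in a pentagon (the pentagram).  Drawn inside the face, `s(d, φ (φ d))` and `s(φ d, φ (φ (φ d)))`
cross, and these are the only crossings.
-/

namespace TwoPlane

/-- a connected plane multigraph with the set `D` of darts -/
structure PlaneMap (D : Type) [Fintype D] [DecidableEq D] where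
  /-- reversal of a dart -/
  α : Equiv.Perm D
  /-- next dart of the same face -/
  φ : Equiv.Perm D
  α_inv : ∀ d, α (α d) = d
  α_ne : ∀ d, α d ≠ d
  /-- the map is connected -/
  conn : ∀ X : Set D, (∀ d ∈ X, α d ∈ X) → (∀ d ∈ X, φ d ∈ X) → X.Nonempty → X = Set.univ
  /-- Euler's formula: vertices + faces = edges + 2 -/
  euler : Nat.card (Quotient (Equiv.Perm.SameCycle.setoid (α.trans φ))) +
    Nat.card (Quotient (Equiv.Perm.SameCycle.setoid φ)) = Fintype.card D / 2 + 2

namespace PlaneMap

variable {D : Type} [Fintype D] [DecidableEq D] (M : PlaneMap D)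

/-- the vertices: the cycles of `d ↦ φ (α d)` -/
def Vert : Type := Quotient (Equiv.Perm.SameCycle.setoid (M.α.trans M.φ))

/-- the source of a dart -/
def src (d : D) : M.Vert := Quotient.mk (Equiv.Perm.SameCycle.setoid (M.α.trans M.φ)) d

/-- the length of the face of `d` -/
noncomputable def len (d : D) : ℕ := Function.minimalPeriod M.φ d

/-- the edges of the plane multigraph -/
def Side : Type := {p : Sym2 D // ∃ d, p = s(d, M.α d)}

/-- the diagonals of the faces of length 4 and 5 -/
def Diag : Type := {p : Sym2 D // ∃ d, (M.len d = 4 ∨ M.len d = 5) ∧ p = s(d, M.φ (M.φ d))}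

/-- the edges of the drawn graph -/
def Edge : Type := M.Side ⊕ M.Diag

/-- the two ends of an edge -/
def ends : M.Edge → Sym2 M.Vert
  | Sum.inl p => p.1.map M.src
  | Sum.inr p => p.1.map M.src

/-- two edges of the drawn graph cross: only two diagonals of the same face whose corners
alternate, that is `s(d, φ² d)` and `s(φ d, φ³ d)` -/
def Cross : M.Edge → M.Edge → Prop
  | Sum.inr p, Sum.inr q => ∃ d, (M.len d = 4 ∨ M.len d = 5) ∧
      ((p.1 = s(d, M.φ (M.φ d)) ∧ q.1 = s(M.φ d, M.φ (M.φ (M.φ d)))) ∨
       (q.1 = s(d, M.φ (M.φ d)) ∧ p.1 = s(M.φ d, M.φ (M.φ (M.φ d)))))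
  | _, _ => False

/-- a set of edges is a forest (in the sense of multigraphs): no loop, no two parallel edges,
and the simple graph it forms on the vertices has no cycle -/
def Forest (F : Set M.Edge) : Prop :=
  (∀ e ∈ F, ¬ (M.ends e).IsDiag) ∧ Set.InjOn M.ends F ∧
    (SimpleGraph.fromEdgeSet (M.ends '' F)).IsAcyclic

/-- no loop -/
def NoLoop : Prop := ∀ d, M.src d ≠ M.src (M.α d)

/-- a dart as an edge of the drawn graph -/
def side (d : D) : M.Edge := Sum.inl ⟨s(d, M.α d), d, rfl⟩

end PlaneMap

end TwoPlane
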