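import Pool.Agent.Work.MP_3b7449_co.TP.Scheme
import Pool.Agent.Work.MP_3b7449_co.TP.Plane

/-!
# Exact (size M): exact states

`ExactR M R I C`: `R` is equal to a state in every face (not only contained in it), and in the faces
of length 4 the state diagonal is `(I d, φ (φ (I d)))` of colour `C d` (`I`, `C` are constant on faces).
`exact_of`: let `R0` be the valid choice of `TC`.  The setoid `d ~ d'` iff `Fc d d'` (on
`M.S = univ`; reflexive, symmetric, transitive by `Fc_iff`, all faces have length 2 to 5); for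
every class choose a representative `ρ d` (constant on faces: `Fc d (ρ d)`), and for `ρ d` the data
from `VAt R0 (ρ d)`: `i, c` (length 3), `i, c, e, e', c₂` (length 4), `i, o, m` (length 5).
Define `R c x y` by these data of `ρ x` with equality.  Then `R0 c x y → R c x y` (`VAt` at `ρ x`, with
`Fc (ρ x) x`), so `Tot` is inherited (`Lnk_le` or monotonicity of `EqvGen`).
-/

namespace TwoPlane
namespace Mp

variable {D : Type} [DecidableEq D]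

/-- `R` is exactly a state in every face -/
structure ExactR (M : Mp D) (R : Bool → D → D → Prop) (I : D → D) (C : D → Bool) : Prop where
  same : ∀ c x y, R c x y → M.Fc x y
  e2 : ∀ d ∈ M.S, M.L2 d → ∀ c x y, M.Fc d x → ¬ R c x y
  e3 : ∀ d ∈ M.S, M.L3 d → ∃ i c, M.Fc d i ∧
      ∀ c' x y, M.Fc d x → (R c' x y ↔ (c' = c ∧ x = i ∧ y = M.φ i))
  e4 : ∀ d ∈ M.S, M.L4 d → M.Fc d (I d) ∧ I (M.φ d) = I d ∧ C (M.φ d) = C d ∧
      ∃ e e' c₂, M.Fc d e ∧ M.Fc d e' ∧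
      ∀ c' x y, M.Fc d x → (R c' x y ↔
        ((c' = C d ∧ x = I d ∧ y = M.φ (M.φ (I d))) ∨ (c' = c₂ ∧ x = e ∧ y = e')))
  e5 : ∀ d ∈ M.S, M.L5 d → ∃ i o m, M.Fc d i ∧
      ∀ c' x y, M.Fc d x → (R c' x y ↔
        ((c' = o ∧ x = M.φ (M.φ (M.φ (M.φ i))) ∧ y = M.φ i) ∨
        (c' = !o ∧ x = i ∧ y = M.φ (M.φ i)) ∨
        (c' = m ∧ x = M.φ (M.φ i) ∧ y = M.φ (M.φ (M.φ (M.φ i))))))

theorem exact_of [Fintype D] (M : Mp D) (hS : M.S = Finset.univ) (hf : M.FaceOk) (r : D)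
    (h : M.TC r) : ∃ (R : Bool → D → D → Prop) (I : D → D) (C : D → Bool),
      ExactR M R I C ∧ M.Tot (fun c x y => R c x y ∨ (x = r ∧ y = M.α r)) := by
  classical
  obtain ⟨R0, ⟨_, hVA⟩, hTot⟩ := h
  have hm : ∀ d, d ∈ M.S := fun d => by rw [hS]; exact Finset.mem_univ d
  have hfo : ∀ d, M.L2 d ∨ M.L3 d ∨ M.L4 d ∨ M.L5 d := fun d => hf d (hm d)
  have hiff : ∀ {d x : D}, M.Fc d x → ∀ y, (M.Fc d y ↔ M.Fc x y) :=
    fun {d x} h y => M.Fc_iff (hm d) (hfo d) h y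
  have hsymm : ∀ {d x : D}, M.Fc d x → M.Fc x d := fun {d x} h => (hiff h d).1 (M.Fc_self d)
  have hstep : ∀ {d x : D}, M.Fc d x → M.Fc d (M.φ x) :=
    fun {d x} h => (M.Fc_φ (hm d) (hfo d) (hm x)).1 h
  -- representatives
  obtain ⟨ρ, hρ1, hρ2⟩ : ∃ ρ : D → D, (∀ d, M.Fc (ρ d) d) ∧ ∀ d x, M.Fc d x → ρ d = ρ x := by
    let st : Setoid D := ⟨fun a b => M.Fc a b, ⟨fun a => M.Fc_self a, fun h => hsymm h,
      fun {a b c} h h' => (hiff h c).2 h'⟩⟩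
    refine ⟨fun d => (Quotient.mk st d).out, fun d => Quotient.mk_out (s := st) d, fun d x h => ?_⟩
    have : Quotient.mk st d = Quotient.mk st x := Quotient.sound (s := st) h
    show (Quotient.mk st d).out = (Quotient.mk st x).out
    rw [this]
  -- data
  have h3 : ∀ d, ∃ i c, M.L3 d → (M.Fc d i ∧
      ∀ c' x y, M.Fc d x → R0 c' x y → c' = c ∧ x = i ∧ y = M.φ i) := by
    intro d
    by_cases hd : M.L3 d
    · obtain ⟨i, c, h1⟩ := (hVA d (hm d)).2.1 hd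
      exact ⟨i, c, fun _ => h1⟩
    · exact ⟨d, true, fun h => absurd h hd⟩
  have h4 : ∀ d, ∃ i c e e' c₂, M.L4 d → (M.Fc d i ∧ M.Fc d e ∧ M.Fc d e' ∧
      ∀ c' x y, M.Fc d x → R0 c' x y →
        (c' = c ∧ x = i ∧ y = M.φ (M.φ i)) ∨ (c' = c₂ ∧ x = e ∧ y = e')) := by
    intro d
    by_cases hd : M.L4 d
    · obtain ⟨i, c, e, e', c₂, h1⟩ := (hVA d (hm d)).2.2.1 hd
      exact ⟨i, c, e, e', c₂, fun _ => h1⟩
    · exact ⟨d, true, d, d, true, fun h => absurd h hd⟩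
  have h5 : ∀ d, ∃ i o m, M.L5 d → (M.Fc d i ∧
      ∀ c' x y, M.Fc d x → R0 c' x y →
        (c' = o ∧ x = M.φ (M.φ (M.φ (M.φ i))) ∧ y = M.φ i) ∨
        (c' = !o ∧ x = i ∧ y = M.φ (M.φ i)) ∨
        (c' = m ∧ x = M.φ (M.φ i) ∧ y = M.φ (M.φ (M.φ (M.φ i))))) := by
    intro d
    by_cases hd : M.L5 d
    · obtain ⟨i, o, m, h1⟩ := (hVA d (hm d)).2.2.2 hd
      exact ⟨i, o, m, fun _ => h1⟩
    · exact ⟨d, true, true, fun h => absurd h hd⟩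
  choose i3 c3 h3 using h3
  choose i4 c4 e4 f4 k4 h4 using h4
  choose i5 o5 m5 h5 using h5
  obtain ⟨R, hR⟩ : ∃ R : Bool → D → D → Prop, ∀ c x y, R c x y ↔
      ((M.L3 (ρ x) ∧ c = c3 (ρ x) ∧ x = i3 (ρ x) ∧ y = M.φ (i3 (ρ x))) ∨
      (M.L4 (ρ x) ∧ ((c = c4 (ρ x) ∧ x = i4 (ρ x) ∧ y = M.φ (M.φ (i4 (ρ x)))) ∨
        (c = k4 (ρ x) ∧ x = e4 (ρ x) ∧ y = f4 (ρ x)))) ∨
      (M.L5 (ρ x) ∧ ((c = o5 (ρ x) ∧ x = M.φ (M.φ (M.φ (M.φ (i5 (ρ x))))) ∧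
          y = M.φ (i5 (ρ x))) ∨
        (c = !(o5 (ρ x)) ∧ x = i5 (ρ x) ∧ y = M.φ (M.φ (i5 (ρ x)))) ∨
        (c = m5 (ρ x) ∧ x = M.φ (M.φ (i5 (ρ x))) ∧
          y = M.φ (M.φ (M.φ (M.φ (i5 (ρ x))))))))) := ⟨_, fun _ _ _ => Iff.rfl⟩
  have hρφ : ∀ d, ρ (M.φ d) = ρ d := fun d => (hρ2 d (M.φ d) (hstep (M.Fc_self d))).symm
  have hL : ∀ d, (M.L2 (ρ d) ↔ M.L2 d) ∧ (M.L3 (ρ d) ↔ M.L3 d) ∧ (M.L4 (ρ d) ↔ M.L4 d) ∧
      (M.L5 (ρ d) ↔ M.L5 d) := fun d => M.L_Fc (hm _) (hfo _) (hρ1 d)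
  refine ⟨R, fun d => i4 (ρ d), fun d => c4 (ρ d), ⟨?_, ?_, ?_, ?_, ?_⟩, ?_⟩
  · -- same
    intro c x y hxy
    have key : M.Fc (ρ x) y := by
      rcases (hR c x y).1 hxy with ⟨hl, -, -, hy⟩ | ⟨hl, h6⟩ | ⟨hl, h6⟩
      · rw [hy]
        exact hstep (h3 _ hl).1
      · rcases h6 with ⟨-, -, hy⟩ | ⟨-, -, hy⟩
        · rw [hy]
          exact hstep (hstep (h4 _ hl).1)
        · rw [hy]
          exact (h4 _ hl).2.2.1
      · rcases h6 with ⟨-, -, hy⟩ | ⟨-, -, hy⟩ | ⟨-, -, hy⟩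
        · rw [hy]
          exact hstep (h5 _ hl).1
        · rw [hy]
          exact hstep (hstep (h5 _ hl).1)
        · rw [hy]
          exact hstep (hstep (hstep (hstep (h5 _ hl).1)))
    exact (hiff (hρ1 x) y).1 key
  · -- length 2
    intro d _ h2 c x y hx hxy
    have hxd : ρ x = ρ d := (hρ2 d x hx).symm
    have h2' := (hL d).1.2 h2
    obtain ⟨n3, n4, n5⟩ := (M.excl (ρ d)).1 h2'
    rcases (hR c x y).1 hxy with ⟨hl, -⟩ | ⟨hl, -⟩ | ⟨hl, -⟩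
    · exact n3 (hxd ▸ hl)
    · exact n4 (hxd ▸ hl)
    · exact n5 (hxd ▸ hl)
  · -- length 3
    intro d _ hd
    have hd' := (hL d).2.1.2 hd
    obtain ⟨n4, n5⟩ := (M.excl (ρ d)).2.1 hd'
    refine ⟨i3 (ρ d), c3 (ρ d), (hiff (hρ1 d) _).1 (h3 _ hd').1, fun c' x y hx => ?_⟩
    have hxd : ρ x = ρ d := (hρ2 d x hx).symm
    rw [hR, hxd]
    constructor
    · rintro (⟨-, h6⟩ | ⟨h6, -⟩ | ⟨h6, -⟩)
      · exact h6
      · exact absurd h6 n4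
      · exact absurd h6 n5
    · intro h6
      exact Or.inl ⟨hd', h6⟩
  · -- length 4
    intro d _ hd
    have hd' := (hL d).2.2.1.2 hd
    have n5 := (M.excl (ρ d)).2.2 hd'
    have n3 : ¬ M.L3 (ρ d) := fun h6 => ((M.excl (ρ d)).2.1 h6).1 hd'
    refine ⟨(hiff (hρ1 d) _).1 (h4 _ hd').1, ?_, ?_, e4 (ρ d), f4 (ρ d), k4 (ρ d),
      (hiff (hρ1 d) _).1 (h4 _ hd').2.1, (hiff (hρ1 d) _).1 (h4 _ hd').2.2.1,
      fun c' x y hx => ?_⟩
    · show i4 (ρ (M.φ d)) = i4 (ρ d)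
      rw [hρφ]
    · show c4 (ρ (M.φ d)) = c4 (ρ d)
      rw [hρφ]
    have hxd : ρ x = ρ d := (hρ2 d x hx).symm
    rw [hR, hxd]
    constructor
    · rintro (⟨h6, -⟩ | ⟨-, h6⟩ | ⟨h6, -⟩)
      · exact absurd h6 n3
      · exact h6
      · exact absurd h6 n5
    · intro h6
      exact Or.inr (Or.inl ⟨hd', h6⟩)
  · -- length 5
    intro d _ hd
    have hd' := (hL d).2.2.2.2 hd
    have n4 : ¬ M.L4 (ρ d) := fun h6 => (M.excl (ρ d)).2.2 h6 hd'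
    have n3 : ¬ M.L3 (ρ d) := fun h6 => ((M.excl (ρ d)).2.1 h6).2 hd'
    refine ⟨i5 (ρ d), o5 (ρ d), m5 (ρ d), (hiff (hρ1 d) _).1 (h5 _ hd').1,
      fun c' x y hx => ?_⟩
    have hxd : ρ x = ρ d := (hρ2 d x hx).symm
    rw [hR, hxd]
    constructor
    · rintro (⟨h6, -⟩ | ⟨h6, -⟩ | ⟨-, h6⟩)
      · exact absurd h6 n3
      · exact absurd h6 n4
      · exact h6
    · intro h6
      exact Or.inr (Or.inr ⟨hd', h6⟩)
  · -- everything is connected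
    have hsub : ∀ c x y, R0 c x y → R c x y := by
      intro c x y hxy
      have hx := hρ1 x
      rw [hR]
      rcases hfo (ρ x) with hl | hl | hl | hl
      · exact absurd hxy ((hVA _ (hm (ρ x))).1 hl c x y hx)
      · exact Or.inl ⟨hl, (h3 _ hl).2 c x y hx hxy⟩
      · exact Or.inr (Or.inl ⟨hl, (h4 _ hl).2.2.2 c x y hx hxy⟩)
      · exact Or.inr (Or.inr ⟨hl, (h5 _ hl).2 c x y hx hxy⟩)
    intro c x hx y hy
    refine M.Lnk_le (M.Lnk_equiv _) (fun _ ha => M.V_Lnk (M.V_σ ha)) (fun a b h1 => ?_)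
      (hTot c x hx y hy)
    rcases h1 with h1 | h1
    · exact M.Lnk_of (Or.inl (hsub c a b h1))
    · exact M.Lnk_of (Or.inr h1)

end Mp
end TwoPlane
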