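import Pool.Agent.Work.MP_3b7449_co.TP.ToMp
import Pool.Agent.Work.MP_3b7449_co.TP.Exact

/-!
# Count (size M-L): the number of virtual edges

`P = {t : Bool × D × D // R t.1 t.2.1 t.2.2}`.  Map `t` to the face (cycle of `φ`) of `t.2.1`.
Over a face of length `k` there are at most `k - 2` elements: `k = 2`: none (`e2`); `k = 3`: at most
one; `k = 4`: at most two; `k = 5`: at most three (`e3`, `e4`, `e5` at a dart `d` of the face; the
darts of the face of `d` are exactly those with `Fc d x`, which is `SameCycle φ d x`).  The number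
of darts over a face is `k = len d` (the darts `φ^j d`, `j < k`, are different).  Sum over the faces
(`Finset.card_eq_sum_card_fiberwise` or sigma types): `card P ≤ ∑ (k - 2)`, and
`∑ k = card D`, so `card P + 2 * (number of faces) ≤ card D`.
-/

namespace TwoPlane

open Equiv.Perm

private theorem cnt_fiber {D : Type} [Fintype D] [DecidableEq D] (M : PlaneMap D) (d : D) (F : Finset D)
    (hF : ∀ x, x ∈ F ↔ M.φ.SameCycle x d) : M.len d ≤ F.card := by
  classical
  have hinj : Set.InjOn (fun j => M.φ^[j] d) (↑(Finset.range (M.len d)) : Set ℕ) := by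
    intro a ha b hb hab
    have ha' : a < M.len d := by simpa using ha
    have hb' : b < M.len d := by simpa using hb
    exact Function.iterate_injOn_Iio_minimalPeriod (f := M.φ) (x := d) ha' hb' hab
  calc M.len d = ((Finset.range (M.len d)).image fun j => M.φ^[j] d).card := by
        rw [Finset.card_image_of_injOn hinj, Finset.card_range]
    _ ≤ F.card := by
        refine Finset.card_le_card fun x hx => ?_
        obtain ⟨j, -, rfl⟩ := Finset.mem_image.1 hx
        rw [hF]
        refine SameCycle.symm ⟨(j : ℤ), ?_⟩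
        rw [zpow_natCast, Equiv.Perm.iterate_eq_pow]

private theorem cnt_fc {D : Type} [Fintype D] [DecidableEq D] (M : PlaneMap D) (d x : D)
    (h5 : M.len d ≤ 5) (h : M.φ.SameCycle x d) : M.toMp.Fc d x := by
  obtain ⟨n, hn⟩ := h.symm.exists_nat_pow_eq
  have h1 : M.φ^[n % M.len d] d = x := by
    rw [← hn, ← Equiv.Perm.iterate_eq_pow]
    exact Function.iterate_mod_minimalPeriod_eq
  have h0 : 0 < M.len d := Function.minimalPeriod_pos_of_mem_periodicPts (M.φ.injective.mem_periodicPts d)
  have h2 : n % M.len d < 5 := lt_of_lt_of_le (Nat.mod_lt _ h0) h5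
  obtain ⟨k, hk⟩ : ∃ k, k = n % M.len d := ⟨_, rfl⟩
  rw [← hk] at h1 h2
  unfold Mp.Fc
  rw [← h1]
  change M.φ^[k] d = d ∨ M.φ^[k] d = M.φ d ∨ M.φ^[k] d = M.φ (M.φ d) ∨ M.φ^[k] d = M.φ (M.φ (M.φ d)) ∨
    M.φ^[k] d = M.φ (M.φ (M.φ (M.φ d)))
  interval_cases k
  · exact Or.inl rfl
  · exact Or.inr (Or.inl rfl)
  · exact Or.inr (Or.inr (Or.inl rfl))
  · exact Or.inr (Or.inr (Or.inr (Or.inl rfl)))
  · exact Or.inr (Or.inr (Or.inr (Or.inr rfl)))

theorem count_le {D : Type} [Fintype D] [DecidableEq D] (M : PlaneMap D) (hl : M.NoLoop)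
    (h5 : ∀ d, M.len d ≤ 5) (R : Bool → D → D → Prop) (I : D → D) (C : D → Bool)
    (hR : Mp.ExactR M.toMp R I C) :
    Nat.card {t : Bool × D × D // R t.1 t.2.1 t.2.2} +
      2 * Nat.card (Quotient (SameCycle.setoid M.φ)) ≤ Fintype.card D := by
  classical
  have _f : Fintype (Quotient (SameCycle.setoid M.φ)) := Fintype.ofFinite _
  obtain ⟨P, hPdef⟩ : ∃ P : Finset (Bool × D × D), ∀ t, t ∈ P ↔ R t.1 t.2.1 t.2.2 :=
    ⟨Finset.univ.filter fun t => R t.1 t.2.1 t.2.2, fun t => by rw [Finset.mem_filter]; simp⟩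
  have hP : Nat.card {t : Bool × D × D // R t.1 t.2.1 t.2.2} = P.card := by
    rw [Nat.card_eq_fintype_card, Fintype.card_subtype]
    congr 1
    ext t
    rw [Finset.mem_filter, hPdef]
    simp
  have hok := M.toMp_ok hl h5
  have key : ∀ q : Quotient (SameCycle.setoid M.φ),
      (P.filter fun t => (Quotient.mk (SameCycle.setoid M.φ) t.2.1) = q).card + 2 ≤
        (Finset.univ.filter fun x => (Quotient.mk (SameCycle.setoid M.φ) x) = q).card := by
    intro q
    induction q using Quotient.inductionOn with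
    | _ d =>
      have hsc : ∀ x, (Quotient.mk (SameCycle.setoid M.φ) x) = Quotient.mk (SameCycle.setoid M.φ) d →
          M.φ.SameCycle x d := fun x hx => Quotient.exact hx
      have hD := cnt_fiber M d
        (Finset.univ.filter fun x => (Quotient.mk (SameCycle.setoid M.φ) x) =
          Quotient.mk (SameCycle.setoid M.φ) d) (by
          intro x
          rw [Finset.mem_filter]
          exact ⟨fun h => hsc x h.2, fun h => ⟨Finset.mem_univ _, Quotient.sound h⟩⟩)
      have hmem : ∀ t ∈ P.filter (fun t => (Quotient.mk (SameCycle.setoid M.φ) t.2.1) =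
          Quotient.mk (SameCycle.setoid M.φ) d), R t.1 t.2.1 t.2.2 ∧ M.toMp.Fc d t.2.1 := by
        intro t ht
        rw [Finset.mem_filter, hPdef] at ht
        exact ⟨ht.1, cnt_fc M d _ (h5 d) (hsc _ ht.2)⟩
      have hdS : d ∈ M.toMp.S := Finset.mem_univ d
      obtain ⟨t2, t3, t4, t5⟩ := M.toMp_L d
      rcases hok.face d hdS with h | h | h | h
      · have hlen := t2.1 h
        have he : P.filter (fun t => (Quotient.mk (SameCycle.setoid M.φ) t.2.1) =
            Quotient.mk (SameCycle.setoid M.φ) d) = ∅ := by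
          rw [Finset.eq_empty_iff_forall_notMem]
          intro t ht
          obtain ⟨h1, h2⟩ := hmem t ht
          exact hR.e2 d hdS h _ _ _ h2 h1
        rw [he, Finset.card_empty]
        omega
      · have hlen := t3.1 h
        obtain ⟨i, c, -, hi⟩ := hR.e3 d hdS h
        have hle : (P.filter (fun t => (Quotient.mk (SameCycle.setoid M.φ) t.2.1) =
            Quotient.mk (SameCycle.setoid M.φ) d)).card ≤ 1 := by
          refine (Finset.card_le_card (t := {(c, i, M.toMp.φ i)}) fun t ht => ?_).trans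
            (Finset.card_singleton _).le
          obtain ⟨h1, h2⟩ := hmem t ht
          obtain ⟨a1, a2, a3⟩ := (hi _ _ _ h2).1 h1
          rw [Finset.mem_singleton]
          exact Prod.ext a1 (Prod.ext a2 a3)
        omega
      · have hlen := t4.1 h
        obtain ⟨-, -, -, e, e', c₂, -, -, hi⟩ := hR.e4 d hdS h
        have hle : (P.filter (fun t => (Quotient.mk (SameCycle.setoid M.φ) t.2.1) =
            Quotient.mk (SameCycle.setoid M.φ) d)).card ≤ 2 := by
          refine (Finset.card_le_card
            (t := {(C d, I d, M.toMp.φ (M.toMp.φ (I d))), (c₂, e, e')}) fun t ht => ?_).trans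
            Finset.card_le_two
          obtain ⟨h1, h2⟩ := hmem t ht
          rw [Finset.mem_insert, Finset.mem_singleton]
          rcases (hi _ _ _ h2).1 h1 with ⟨a1, a2, a3⟩ | ⟨a1, a2, a3⟩
          · exact Or.inl (Prod.ext a1 (Prod.ext a2 a3))
          · exact Or.inr (Prod.ext a1 (Prod.ext a2 a3))
        omega
      · have hlen := t5.1 h
        obtain ⟨i, o, m, -, hi⟩ := hR.e5 d hdS h
        have hle : (P.filter (fun t => (Quotient.mk (SameCycle.setoid M.φ) t.2.1) =
            Quotient.mk (SameCycle.setoid M.φ) d)).card ≤ 3 := by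
          refine (Finset.card_le_card
            (t := {(o, M.toMp.φ (M.toMp.φ (M.toMp.φ (M.toMp.φ i))), M.toMp.φ i),
              (!o, i, M.toMp.φ (M.toMp.φ i)),
              (m, M.toMp.φ (M.toMp.φ i), M.toMp.φ (M.toMp.φ (M.toMp.φ (M.toMp.φ i))))})
              fun t ht => ?_).trans Finset.card_le_three
          obtain ⟨h1, h2⟩ := hmem t ht
          rw [Finset.mem_insert, Finset.mem_insert, Finset.mem_singleton]
          rcases (hi _ _ _ h2).1 h1 with ⟨a1, a2, a3⟩ | ⟨a1, a2, a3⟩ | ⟨a1, a2, a3⟩
          · exact Or.inl (Prod.ext a1 (Prod.ext a2 a3))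
          · exact Or.inr (Or.inl (Prod.ext a1 (Prod.ext a2 a3)))
          · exact Or.inr (Or.inr (Prod.ext a1 (Prod.ext a2 a3)))
        omega
  have e1 : P.card = ∑ q : Quotient (SameCycle.setoid M.φ),
      (P.filter fun t => (Quotient.mk (SameCycle.setoid M.φ) t.2.1) = q).card :=
    Finset.card_eq_sum_card_fiberwise fun t _ => Finset.mem_coe.2 (Finset.mem_univ _)
  have e2 : Fintype.card D = ∑ q : Quotient (SameCycle.setoid M.φ),
      (Finset.univ.filter fun x => (Quotient.mk (SameCycle.setoid M.φ) x) = q).card := by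
    rw [← Finset.card_univ]
    exact Finset.card_eq_sum_card_fiberwise fun t _ => Finset.mem_coe.2 (Finset.mem_univ _)
  have e3 := Finset.sum_le_sum fun q (_ : q ∈ (Finset.univ : Finset (Quotient (SameCycle.setoid M.φ)))) => key q
  rw [Finset.sum_add_distrib, ← e1, ← e2, Finset.sum_const, Finset.card_univ, smul_eq_mul] at e3
  rw [hP, Nat.card_eq_fintype_card]
  omega

end TwoPlane
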