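import Pool.Agent.Work.MP_3b7449_co.TP.CutP

/-!
# CutC (size M): one side of a cycle: vertices, loops, connectivity, faces

`M' = M.cut I K ψ h`.
`cut_V`: a `σ'`-step from `d` in `S'`: `σ' d = φ' (α d)` is `σ d` if `α d ∉ K`, and `ψ (α d)` if
`α d ∈ K`, where `V (ψ (α d)) (α (α d)) = V _ d` by `ψV`.  (All darts of `S'` are in `M.S`.)
`cut_conn`: let `X'` be closed for `M'` and true somewhere on `S'`.  By `Kconn` it is constant on
`K`.  If it is true on `K`: `X d := ¬ I d ∨ X' d` is closed for `M` (`I` is `φ`-invariant; for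
`I d` with `α d ∈ K` use that `X'` is true on `K` and closed under `α`), so true everywhere; for
`d ∈ K` fine, for `I d` we get `X' d`.  If it is false on `K`: `X d := I d ∧ X' d` is closed for
`M` and true somewhere, so true everywhere, but `K` is not empty and `¬ I k`.
`cut_ok`: faces in `I` are unchanged (`φ' = φ` there, since `I d` implies `d ∉ K`).
-/

namespace TwoPlane
namespace Mp

variable {D : Type} [DecidableEq D]

private theorem cs_mem (M : Mp D) (I : D → Prop) [DecidablePred I] (K : Finset D) (ψ : D → D)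
    (h : M.Side I K ψ) {x : D} : x ∈ (M.cut I K ψ h).S ↔ (x ∈ M.S ∧ I x) ∨ x ∈ K := by
  show x ∈ M.S.filter I ∪ K ↔ _
  rw [Finset.mem_union, Finset.mem_filter]

private theorem cs_sub (M : Mp D) (I : D → Prop) [DecidablePred I] (K : Finset D) (ψ : D → D)
    (h : M.Side I K ψ) {x : D} (hx : x ∈ (M.cut I K ψ h).S) : x ∈ M.S := by
  rcases (M.cs_mem I K ψ h).1 hx with h1 | h1
  · exact h1.1
  · exact h.KS x h1

private theorem cs_φK (M : Mp D) (I : D → Prop) [DecidablePred I] (K : Finset D) (ψ : D → D)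
    (h : M.Side I K ψ) {x : D} (hx : x ∈ K) : (M.cut I K ψ h).φ x = ψ x := by
  show (if x ∈ K then ψ x else M.φ x) = ψ x
  rw [if_pos hx]

private theorem cs_φI (M : Mp D) (I : D → Prop) [DecidablePred I] (K : Finset D) (ψ : D → D)
    (h : M.Side I K ψ) {x : D} (hx : I x) : (M.cut I K ψ h).φ x = M.φ x := by
  show (if x ∈ K then ψ x else M.φ x) = M.φ x
  rw [if_neg fun hk => h.KI x hk hx]

theorem cut_V (M : Mp D) (I : D → Prop) [DecidablePred I] (K : Finset D) (ψ : D → D)
    (h : M.Side I K ψ) {x y : D} (h' : (M.cut I K ψ h).V x y) : M.V x y := by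
  induction h' with
  | rel x y hr =>
    obtain ⟨hx, hy⟩ := hr
    have hxS := M.cs_sub I K ψ h hx
    have e : y = if M.α x ∈ K then ψ (M.α x) else M.φ (M.α x) := hy
    by_cases hk : M.α x ∈ K
    · rw [if_pos hk] at e
      have h1 := h.ψV _ hk
      rw [M.αα x hxS] at h1
      rw [e]
      exact M.V_symm h1
    · rw [if_neg hk] at e
      rw [e]
      exact M.V_σ hxS
  | refl x => exact M.V_refl x
  | symm x y _ ih => exact M.V_symm ih
  | trans x y z _ _ ih1 ih2 => exact M.V_trans ih1 ih2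

theorem cut_conn (M : Mp D) (I : D → Prop) [DecidablePred I] (K : Finset D) (ψ : D → D)
    (h : M.Side I K ψ) (hc : M.Conn) : (M.cut I K ψ h).Conn := by
  intro X' hα hφ hex
  have hα' : ∀ d ∈ (M.cut I K ψ h).S, (X' d ↔ X' (M.α d)) := hα
  have hKS : ∀ k ∈ K, k ∈ (M.cut I K ψ h).S := fun k hk => (M.cs_mem I K ψ h).2 (Or.inr hk)
  have hIS : ∀ d ∈ M.S, I d → d ∈ (M.cut I K ψ h).S := fun d hd hi =>
    (M.cs_mem I K ψ h).2 (Or.inl ⟨hd, hi⟩)
  obtain ⟨k0, hk0⟩ := h.Kne
  have hK := h.Kconn X' (fun k hk => by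
    have h1 := hφ k (hKS k hk)
    rwa [M.cs_φK I K ψ h hk] at h1)
  have hback : ∀ d ∈ M.S, ¬ I d → I (M.α d) → d ∈ K := by
    intro d hd h1 h2
    rcases h.hIK _ (M.αS d hd) h2 with h3 | h3
    · rw [M.αα d hd] at h3
      exact absurd h3 h1
    · rwa [M.αα d hd] at h3
  by_cases hX : X' k0
  · have hKt : ∀ k ∈ K, X' k := fun k hk => (hK k0 hk0 k hk).1 hX
    have key := hc (fun d => ¬ I d ∨ X' d) (by
        intro d hd
        by_cases hi : I d
        · have hdS := hIS d hd hi
          rcases h.hIK d hd hi with h1 | h1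
          · constructor
            · rintro (h2 | h2)
              · exact absurd hi h2
              · exact Or.inr ((hα' d hdS).1 h2)
            · rintro (h2 | h2)
              · exact absurd h1 h2
              · exact Or.inr ((hα' d hdS).2 h2)
          · exact ⟨fun _ => Or.inl (h.KI _ h1), fun _ => Or.inr ((hα' d hdS).2 (hKt _ h1))⟩
        · refine ⟨fun _ => ?_, fun _ => Or.inl hi⟩
          by_cases hi2 : I (M.α d)
          · have hk := hback d hd hi hi2
            exact Or.inr ((hα' d (hKS d hk)).1 (hKt d hk))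
          · exact Or.inl hi2) (by
        intro d hd
        by_cases hi : I d
        · have hdS := hIS d hd hi
          have h1 := hφ d hdS
          rw [M.cs_φI I K ψ h hi] at h1
          have hi2 := (h.hI d hd).1 hi
          constructor
          · rintro (h2 | h2)
            · exact absurd hi h2
            · exact Or.inr (h1.1 h2)
          · rintro (h2 | h2)
            · exact absurd hi2 h2
            · exact Or.inr (h1.2 h2)
        · exact ⟨fun _ => Or.inl fun h2 => hi ((h.hI d hd).2 h2), fun _ => Or.inl hi⟩)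
      ⟨k0, h.KS k0 hk0, Or.inl (h.KI k0 hk0)⟩
    intro d hd
    rcases (M.cs_mem I K ψ h).1 hd with h1 | h1
    · rcases key d h1.1 with h2 | h2
      · exact absurd h1.2 h2
      · exact h2
    · exact hKt d h1
  · exfalso
    have hKt : ∀ k ∈ K, ¬ X' k := fun k hk hx => hX ((hK k hk k0 hk0).1 hx)
    obtain ⟨d0, hd0, hx0⟩ := hex
    have hI0 : d0 ∈ M.S ∧ I d0 := by
      rcases (M.cs_mem I K ψ h).1 hd0 with h1 | h1
      · exact h1
      · exact absurd hx0 (hKt _ h1)
    have key := hc (fun d => I d ∧ X' d) (by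
        intro d hd
        by_cases hi : I d
        · have hdS := hIS d hd hi
          rcases h.hIK d hd hi with h1 | h1
          · exact ⟨fun h2 => ⟨h1, (hα' d hdS).1 h2.2⟩, fun h2 => ⟨hi, (hα' d hdS).2 h2.2⟩⟩
          · exact ⟨fun h2 => absurd ((hα' d hdS).1 h2.2) (hKt _ h1),
              fun h2 => absurd h2.1 (h.KI _ h1)⟩
        · refine ⟨fun h2 => absurd h2.1 hi, fun h2 => ?_⟩
          have hk := hback d hd hi h2.1
          exact absurd ((hα' d (hKS d hk)).2 h2.2) (hKt d hk)) (by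
        intro d hd
        by_cases hi : I d
        · have hdS := hIS d hd hi
          have h1 := hφ d hdS
          rw [M.cs_φI I K ψ h hi] at h1
          have hi2 := (h.hI d hd).1 hi
          exact ⟨fun h2 => ⟨hi2, h1.1 h2.2⟩, fun h2 => ⟨hi, h1.2 h2.2⟩⟩
        · exact ⟨fun h2 => absurd h2.1 hi, fun h2 => absurd ((h.hI d hd).2 h2.1) hi⟩)
      ⟨d0, hI0.1, hI0.2, hx0⟩
    exact h.KI k0 hk0 (key k0 (h.KS k0 hk0)).1

theorem cut_ok (M : Mp D) (I : D → Prop) [DecidablePred I] (K : Finset D) (ψ : D → D)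
    (h : M.Side I K ψ) (hOk : M.Ok)
    (hK : ∀ k ∈ K, (M.cut I K ψ h).L2 k ∨ (M.cut I K ψ h).L3 k) :
    (M.cut I K ψ h).Ok := by
  refine ⟨M.cut_planar I K ψ h hOk.planar, M.cut_conn I K ψ h hOk.conn, ?_, ?_⟩
  · intro d hd hV
    exact hOk.loopless d (M.cs_sub I K ψ h hd) (M.cut_V I K ψ h hV)
  · intro d hd
    rcases (M.cs_mem I K ψ h).1 hd with h1 | h1
    · obtain ⟨hdS, hi0⟩ := h1
      have s1 := M.φS d hdS
      have s2 := M.φS _ s1
      have s3 := M.φS _ s2
      have s4 := M.φS _ s3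
      have i1 := (h.hI d hdS).1 hi0
      have i2 := (h.hI _ s1).1 i1
      have i3 := (h.hI _ s2).1 i2
      have i4 := (h.hI _ s3).1 i3
      have e0 := M.cs_φI I K ψ h hi0
      have e1 := M.cs_φI I K ψ h i1
      have e2 := M.cs_φI I K ψ h i2
      have e3 := M.cs_φI I K ψ h i3
      have e4 := M.cs_φI I K ψ h i4
      unfold L2 L3 L4 L5
      rw [e0, e1, e2, e3, e4]
      exact hOk.face d hdS
    · rcases hK d h1 with h2 | h2
      · exact Or.inl h2
      · exact Or.inr (Or.inl h2)

end Mp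
end TwoPlane
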