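import Pool.Agent.Work.MP_3b7449_co.TP.Defs

/-!
# CutP (size M): one side of a cycle keeps the homological planarity

`M' = M.cut I K ψ h`, `S' = {d ∈ S | I d} ∪ K`, `φ' = ψ` on `K` and `φ` on `I`.  Let `g'` be
balanced on `M'`.  Extend it: `g d = g' d` if `I d ∨ d ∈ K`; otherwise `g d = g' k` if there is
`k ∈ K` with `V d k` (unique by `Kdist`), otherwise `g d = 0`.
A. For `d` in `S'`: `g (σ d) = g' (σ' d)`, where `σ' d = φ' (α d)`.  If `α d ∈ K`, then `σ' d =
   ψ (α d)`, `σ d = φ (α d)` is not in `I` (`hI`), and `V (σ d) (ψ (α d))` (`V d (σ d)` and `ψV`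
   at `k = α d` with `α k = d`); so `g (σ d) = g' (ψ (α d))` by definition (if `σ d ∈ K` use
   `Kdist`).  If `α d ∉ K` then `I (α d)` and `σ' d = σ d` is in `I`.
B. For `d` in `M.S` outside `S'`: `α d` is outside `S'` too (`hIK`, `KαI`), `σ d = φ (α d)` is not
   in `I`, `V d (σ d)`, and `g (σ d) = g d` by the definition.
C. `g` is balanced on `M`: the sum at `d` is `(g (σ d) + g d) + (g (σ (α d)) + g (α d))` because
   `φ d = σ (α d)`.  For `d` in `S'` (then `α d` in `S'`) use A and the balance of `g'`; for `d`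
   outside use B.
D. `g = f + h` on `M.S`.  On `S'` (a subset of `M.S`) take the same `f`, `h`.
   `f (φ' d) = f d`: clear for `d` in `I`; for `d = k ∈ K`: `f k = f (φ k)`, and `V (φ k) (ψ k)`
   (`φ k = σ (α k)`, `V (α k) (σ (α k))`, `ψV`), so `h (φ k) = h (ψ k)` (`V_const`), and
   `g (φ k) = g' (ψ k) = g (ψ k)` (part A for `d = α k`), hence `f (φ k) = f (ψ k)`.
   `h (σ' d) = h d`: `σ' d` is `σ d` or `ψ (α d)`, and `V d (σ' d)`.
-/

namespace TwoPlane
namespace Mp

variable {D : Type} [DecidableEq D]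

theorem cut_planar (M : Mp D) (I : D → Prop) [DecidablePred I] (K : Finset D) (ψ : D → D)
    (h : M.Side I K ψ) (hp : M.Planar) : (M.cut I K ψ h).Planar := by
  classical
  intro g' hg'
  have memS : ∀ d, d ∈ (M.cut I K ψ h).S ↔ (d ∈ M.S ∧ I d) ∨ d ∈ K := by
    intro d
    show d ∈ M.S.filter I ∪ K ↔ _
    rw [Finset.mem_union, Finset.mem_filter]
  have φ' : ∀ d, (M.cut I K ψ h).φ d = if d ∈ K then ψ d else M.φ d := fun _ => rfl
  -- extension of the function
  let g : D → ZMod 2 := fun d => if I d ∨ d ∈ K then g' d else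
    if hk : ∃ k ∈ K, M.V d k then g' hk.choose else 0
  have gin : ∀ d, I d ∨ d ∈ K → g d = g' d := fun d hd => by simp [g, hd]
  have gk : ∀ d, ¬ I d → ∀ k ∈ K, M.V d k → g d = g' k := by
    intro d hd k hk hdk
    by_cases hdK : d ∈ K
    · rw [gin d (Or.inr hdK), h.Kdist d hdK k hk hdk]
    · have hex : ∃ k ∈ K, M.V d k := ⟨k, hk, hdk⟩
      have h1 := hex.choose_spec
      have h2 : hex.choose = k := h.Kdist _ h1.1 k hk (M.V_trans (M.V_symm h1.2) hdk)
      have : g d = g' hex.choose := by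
        simp only [g, hd, hdK, or_self, if_false]
        rw [dif_pos hex]
      rw [this, h2]
  have gcongr : ∀ d e, ¬ I d → ¬ I e → M.V d e → g d = g e := by
    intro d e hd he hde
    by_cases hex : ∃ k ∈ K, M.V e k
    · obtain ⟨k, hk, hek⟩ := hex
      rw [gk e he k hk hek, gk d hd k hk (M.V_trans hde hek)]
    · have hd' : d ∉ K := fun hd' => hex ⟨d, hd', M.V_symm hde⟩
      have he' : e ∉ K := fun he' => hex ⟨e, he', M.V_refl e⟩
      have hex' : ¬ ∃ k ∈ K, M.V d k := fun ⟨k, hk, hdk⟩ =>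
        hex ⟨k, hk, M.V_trans (M.V_symm hde) hdk⟩
      simp only [g, hd, he, hd', he', or_self, if_false]
      rw [dif_neg hex, dif_neg hex']
  have αmem : ∀ d ∈ (M.cut I K ψ h).S, M.α d ∈ (M.cut I K ψ h).S := (M.cut I K ψ h).αS
  have sub : ∀ d ∈ (M.cut I K ψ h).S, d ∈ M.S := by
    intro d hd
    rcases (memS d).mp hd with h1 | h1
    · exact h1.1
    · exact h.KS d h1
  -- A
  have A : ∀ d ∈ (M.cut I K ψ h).S, g (M.φ (M.α d)) = g' ((M.cut I K ψ h).φ (M.α d)) := by
    intro d hd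
    have hdS := sub d hd
    rw [φ']
    split_ifs with hk
    · have n1 : ¬ I (M.φ (M.α d)) := fun hI =>
        h.KI _ hk ((h.hI _ (M.αS d hdS)).mpr hI)
      refine gk _ n1 _ (h.ψK _ hk) ?_
      have v1 := h.ψV _ hk
      rw [M.αα d hdS] at v1
      exact M.V_trans (M.V_symm (M.V_σ hdS)) (M.V_symm v1)
    · have hI : I (M.α d) := by
        rcases (memS _).mp (αmem d hd) with h1 | h1
        · exact h1.2
        · exact absurd h1 hk
      exact gin _ (Or.inl ((h.hI _ (M.αS d hdS)).mp hI))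
  -- outside
  have out : ∀ d ∈ M.S, d ∉ (M.cut I K ψ h).S → M.α d ∉ (M.cut I K ψ h).S := by
    intro d hd hn hα
    apply hn
    have := αmem _ hα
    rwa [M.αα d hd] at this
  have nI : ∀ d ∈ M.S, d ∉ (M.cut I K ψ h).S → ¬ I d := fun d hd hn hI =>
    hn ((memS d).mpr (Or.inl ⟨hd, hI⟩))
  have B : ∀ d ∈ M.S, d ∉ (M.cut I K ψ h).S → g (M.φ (M.α d)) = g d := by
    intro d hd hn
    have h1 := nI _ (M.αS d hd) (out d hd hn)
    have h2 : ¬ I (M.φ (M.α d)) := fun hI => h1 ((h.hI _ (M.αS d hd)).mpr hI)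
    exact gcongr _ _ h2 (nI d hd hn) (M.V_symm (M.V_σ hd))
  have hbal : ∀ d ∈ M.S, g d + g (M.α d) + g (M.φ d) + g (M.φ (M.α d)) = 0 := by
    intro d hd
    have e1 : M.φ d = M.φ (M.α (M.α d)) := by rw [M.αα d hd]
    by_cases hm : d ∈ (M.cut I K ψ h).S
    · have hm' := αmem d hm
      have a1 := A d hm
      have a2 := A _ hm'
      rw [e1, a1, a2]
      have k1 : g d = g' d := gin d (((memS d).mp hm).imp (fun h => h.2) id)
      have k2 : g (M.α d) = g' (M.α d) := gin _ (((memS _).mp hm').imp (fun h => h.2) id)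
      rw [k1, k2, M.αα d hd]
      exact hg' d hm
    · have b1 := B d hd hm
      have b2 := B _ (M.αS d hd) (out d hd hm)
      rw [e1, b1, b2]
      have : ∀ x y : ZMod 2, x + y + y + x = 0 := by decide
      exact this _ _
  obtain ⟨f, h', hf, hh, hgfh⟩ := hp g hbal
  refine ⟨f, h', ?_, ?_, ?_⟩
  · intro d hd
    have hdS := sub d hd
    rw [φ']
    split_ifs with hk
    · -- `d` in `K`
      have v0 : M.V (M.α d) (M.φ d) := M.V_αφ hdS
      have v1 : M.V (M.φ d) (ψ d) := M.V_trans (M.V_symm v0) (M.V_symm (h.ψV d hk))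
      have e1 : h' (M.φ d) = h' (ψ d) := M.V_const h' hh v1
      have e2 : g (M.φ d) = g' (ψ d) := by
        have := A _ (αmem d hd)
        rw [M.αα d hdS, φ', if_pos hk] at this
        exact this
      have e3 : g (ψ d) = g' (ψ d) := gin _ (Or.inr (h.ψK d hk))
      have e4 := hgfh (M.φ d) (M.φS d hdS)
      have e5 := hgfh (ψ d) (h.KS _ (h.ψK d hk))
      rw [e2, ← e3, e5, e1] at e4
      rw [add_right_cancel e4]
      exact hf d hdS
    · exact hf d hdS
  · intro d hd
    have hdS := sub d hd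
    show h' ((M.cut I K ψ h).φ (M.α d)) = h' d
    rw [φ']
    split_ifs with hk
    · have v1 := h.ψV _ hk
      rw [M.αα d hdS] at v1
      exact M.V_const h' hh v1
    · exact hh d hdS
  · intro d hd
    rw [← gin d (((memS d).mp hd).imp (fun h => h.2) id)]
    exact hgfh d (sub d hd)

end Mp
end TwoPlane
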