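import Mathlib

/-!
# MP_3b7449_co, board modtwp : definitions (FIXED)

Combinatorial maps on a finite set of darts, in a form in which sub-maps use the same
type of darts.  `α d` is the opposite dart, `φ d` the next dart of the same face, so that
`σ d = φ (α d)` is the next dart around the same vertex (the source of `d`).

* vertices = classes of `V` (generated by `σ`);
* a pair of darts in one face is a pair of *corners* (corner of `d` = corner at the source
  of `d`, between the dart before `d` and `d`); a *virtual edge* is such a pair;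
* `Planar` is the homological form of genus 0 (no use of the Euler formula):
  every balanced function on the corners is the sum of a face function and a vertex function;
* `Valid M R` : in every face of length 2, 3, 4, 5 the virtual edges of the two colours
  `true`, `false` are chosen inside one of the allowed states;
* `TC M r` : there is a valid choice such that for both colours the virtual edges together
  with the root edge `r` connect all the vertices.
-/

namespace TwoPlane

/-- combinatorial map with the set `S` of darts -/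
structure Mp (D : Type) [DecidableEq D] where
  S : Finset D
  α : D → D
  φ : D → D
  αS : ∀ d ∈ S, α d ∈ S
  φS : ∀ d ∈ S, φ d ∈ S
  αα : ∀ d ∈ S, α (α d) = d
  αne : ∀ d ∈ S, α d ≠ d
  φinj : ∀ d ∈ S, ∀ e ∈ S, φ d = φ e → d = e

namespace Mp

variable {D : Type} [DecidableEq D]

/-- next dart around the source vertex -/
def σ (M : Mp D) (d : D) : D := M.φ (M.α d)

/-- same vertex -/
def V (M : Mp D) : D → D → Prop :=
  Relation.EqvGen (fun a b => a ∈ M.S ∧ b = M.σ a)

/-- connection by vertices and by the links `L` -/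
def Lnk (M : Mp D) (L : D → D → Prop) : D → D → Prop :=
  Relation.EqvGen (fun a b => (a ∈ M.S ∧ b = M.σ a) ∨ L a b)

/-- for both colours the links connect everything -/
def Tot (M : Mp D) (L : Bool → D → D → Prop) : Prop :=
  ∀ c : Bool, ∀ x ∈ M.S, ∀ y ∈ M.S, M.Lnk (L c) x y

/-- connected map -/
def Conn (M : Mp D) : Prop :=
  ∀ X : D → Prop, (∀ d ∈ M.S, (X d ↔ X (M.α d))) → (∀ d ∈ M.S, (X d ↔ X (M.φ d))) →
    (∃ d ∈ M.S, X d) → ∀ d ∈ M.S, X d

/-- no loop -/
def Loopless (M : Mp D) : Prop := ∀ d ∈ M.S, ¬ M.V d (M.α d)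

/-- genus 0, homological form over the field with two elements -/
def Planar (M : Mp D) : Prop :=
  ∀ g : D → ZMod 2,
    (∀ d ∈ M.S, g d + g (M.α d) + g (M.φ d) + g (M.φ (M.α d)) = 0) →
    ∃ f h : D → ZMod 2, (∀ d ∈ M.S, f (M.φ d) = f d) ∧ (∀ d ∈ M.S, h (M.σ d) = h d) ∧
      ∀ d ∈ M.S, g d = f d + h d

/-- the face of `d` has length 2 -/
def L2 (M : Mp D) (d : D) : Prop := M.φ d ≠ d ∧ M.φ (M.φ d) = d
/-- the face of `d` has length 3 -/
def L3 (M : Mp D) (d : D) : Prop := M.φ d ≠ d ∧ M.φ (M.φ (M.φ d)) = d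
/-- the face of `d` has length 4 -/
def L4 (M : Mp D) (d : D) : Prop :=
  M.φ (M.φ d) ≠ d ∧ M.φ (M.φ (M.φ (M.φ d))) = d
/-- the face of `d` has length 5 -/
def L5 (M : Mp D) (d : D) : Prop :=
  M.φ d ≠ d ∧ M.φ (M.φ (M.φ (M.φ (M.φ d)))) = d

/-- every face has length 2, 3, 4 or 5 -/
def FaceOk (M : Mp D) : Prop := ∀ d ∈ M.S, M.L2 d ∨ M.L3 d ∨ M.L4 d ∨ M.L5 d

/-- `x` is one of the first five darts of the face of `d` -/
def Fc (M : Mp D) (d x : D) : Prop :=
  x = d ∨ x = M.φ d ∨ x = M.φ (M.φ d) ∨ x = M.φ (M.φ (M.φ d)) ∨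
    x = M.φ (M.φ (M.φ (M.φ d)))

/-- connected loopless planar map with all faces of length 2 to 5 -/
structure Ok (M : Mp D) : Prop where
  planar : M.Planar
  conn : M.Conn
  loopless : M.Loopless
  face : M.FaceOk

/-- the virtual edges `R` are allowed in the face of `d` (length 2: none; length 3: one edge
between consecutive corners; length 4: one diagonal of any colour and one more pair of any
colour; length 5: with corners `0,1,2,3,4` read from some dart `i`: `{4,1}` of colour `o`,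
`{0,2}` of the other colour and `{2,4}` of any colour `m`) -/
def VAt (M : Mp D) (R : Bool → D → D → Prop) (d : D) : Prop :=
    (M.L2 d → ∀ c x y, M.Fc d x → ¬ R c x y) ∧
    (M.L3 d → ∃ i c, M.Fc d i ∧
      ∀ c' x y, M.Fc d x → R c' x y → c' = c ∧ x = i ∧ y = M.φ i) ∧
    (M.L4 d → ∃ i c e e' c₂, M.Fc d i ∧ M.Fc d e ∧ M.Fc d e' ∧
      ∀ c' x y, M.Fc d x → R c' x y →
        (c' = c ∧ x = i ∧ y = M.φ (M.φ i)) ∨ (c' = c₂ ∧ x = e ∧ y = e')) ∧
    (M.L5 d → ∃ i o m, M.Fc d i ∧
      ∀ c' x y, M.Fc d x → R c' x y →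
        (c' = o ∧ x = M.φ (M.φ (M.φ (M.φ i))) ∧ y = M.φ i) ∨
        (c' = !o ∧ x = i ∧ y = M.φ (M.φ i)) ∨
        (c' = m ∧ x = M.φ (M.φ i) ∧ y = M.φ (M.φ (M.φ (M.φ i)))))

/-- valid choice of virtual edges -/
def Valid (M : Mp D) (R : Bool → D → D → Prop) : Prop :=
  (∀ c x y, R c x y → x ∈ M.S) ∧ ∀ d ∈ M.S, M.VAt R d

/-- the tight condition for the root edge `r` -/
def TC (M : Mp D) (r : D) : Prop :=
  ∃ R : Bool → D → D → Prop, M.Valid R ∧
    M.Tot (fun c x y => R c x y ∨ (x = r ∧ y = M.α r))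

/-- induction hypothesis: all smaller maps are fine -/
def IH (M : Mp D) : Prop :=
  ∀ M' : Mp D, M'.S.card < M.S.card → M'.Ok → ∀ r ∈ M'.S, M'.TC r

/-- `a` and `b` are different vertices and not adjacent -/
def Free (M : Mp D) (a b : D) : Prop :=
  ¬ M.V a b ∧ ∀ d ∈ M.S, ¬ (M.V d a ∧ M.V (M.α d) b)

/-- `M'` is a reduction of `M` in which the pairs `Lk` are identified -/
structure Red (M M' : Mp D) (Lk : D → D → Prop) : Prop where
  sub : M'.S ⊆ M.S
  hV : ∀ x y, M'.V x y → M.Lnk Lk x y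
  hα : ∀ r ∈ M'.S, M.Lnk (fun x y => Lk x y ∨ (x = r ∧ y = M.α r)) r (M'.α r)

/-- outside the union `cfg` of faces of `M` the maps `M` and `M'` have the same faces -/
structure Agree (M M' : Mp D) (cfg : D → Prop) : Prop where
  inv : ∀ d ∈ M.S, (cfg d ↔ cfg (M.φ d))
  out : ∀ d ∈ M.S, ¬ cfg d → d ∈ M'.S ∧ M'.φ d = M.φ d

/-- reduced maps: no digon, simple, every 3-cycle is facial -/
structure Tight (M : Mp D) : Prop where
  ok : M.Ok
  noL2 : ∀ d ∈ M.S, ¬ M.L2 d
  simple : ∀ d ∈ M.S, ∀ e ∈ M.S, M.V d e → M.V (M.α d) (M.α e) → d = e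
  tri : ∀ a ∈ M.S, ∀ b ∈ M.S, ∀ c ∈ M.S, M.V (M.α a) b → M.V (M.α b) c → M.V (M.α c) a →
    (M.φ a = b ∧ M.φ b = c ∧ M.φ c = a) ∨
    (M.φ (M.α b) = M.α a ∧ M.φ (M.α c) = M.α b ∧ M.φ (M.α a) = M.α c)

/-- indicator of the dart `u` -/
def dl (u d : D) : ZMod 2 := if d = u then 1 else 0

/-- indicator of the edge of `u` -/
def ed (M : Mp D) (u d : D) : ZMod 2 := dl u d + dl (M.α u) d

/-- potential for the edge function `z` with defects at the corners `u` and `v` -/
def Pot (M : Mp D) (z : D → ZMod 2) (u v : D) : Prop :=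
  ∃ g : D → ZMod 2, ∀ d ∈ M.S, g (M.σ d) + g d = z d + dl u d + dl v d

/-- planar, connected, loopless -/
structure Pcl (M : Mp D) : Prop where
  planar : M.Planar
  conn : M.Conn
  loopless : M.Loopless

/-- the `n`-th dart of the face of `d` -/
def it (M : Mp D) (d : D) (n : ℕ) : D := M.φ^[n] d

/-- links of a pentagon state on the positions `0, …, 4` -/
def pst (i : Fin 5) (o m : Bool) (c : Bool) (a b : Fin 5) : Prop :=
  (c = o ∧ a = i + 4 ∧ b = i + 1) ∨ (c = !o ∧ a = i ∧ b = i + 2) ∨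
    (c = m ∧ a = i + 2 ∧ b = i + 4)

/-- `E` and the links `L` connect all the positions in `J` -/
def FinC {k : ℕ} (J : Fin k → Prop) (E L : Fin k → Fin k → Prop) : Prop :=
  ∀ i j, J i → J j → Relation.EqvGen (fun a b => E a b ∨ L a b) i j

/-! ### basic lemmas -/

theorem surj_of (S : Finset D) (f : D → D) (hS : ∀ d ∈ S, f d ∈ S)
    (hi : ∀ d ∈ S, ∀ e ∈ S, f d = f e → d = e) (d : D) (hd : d ∈ S) : ∃ e ∈ S, f e = d := by
  have h := Finset.surj_on_of_inj_on_of_card_le (s := S) (t := S) (fun a _ => f a)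
    (fun a ha => hS a ha) (fun a b ha hb hab => hi a ha b hb hab) le_rfl d hd
  obtain ⟨e, he, h2⟩ := h
  exact ⟨e, he, h2.symm⟩

theorem back_of (S : Finset D) (f : D → D) (hS : ∀ d ∈ S, f d ∈ S)
    (hi : ∀ d ∈ S, ∀ e ∈ S, f d = f e → d = e) (B : D → Prop)
    (hB : ∀ d ∈ S, B d → B (f d)) (d : D) (hd : d ∈ S) (h : B (f d)) : B d := by
  classical
  obtain ⟨e, he, h2⟩ := surj_of (S.filter B) f
    (fun x hx => by
      rw [Finset.mem_filter] at hx ⊢
      exact ⟨hS x hx.1, hB x hx.1 hx.2⟩)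
    (fun x hx y hy hxy => hi x (Finset.mem_filter.1 hx).1 y (Finset.mem_filter.1 hy).1 hxy)
    (f d) (Finset.mem_filter.2 ⟨hS d hd, h⟩)
  rw [Finset.mem_filter] at he
  have := hi e he.1 d hd h2
  rw [← this]
  exact he.2

variable (M : Mp D)

theorem φsurj {d : D} (hd : d ∈ M.S) : ∃ e ∈ M.S, M.φ e = d :=
  surj_of M.S M.φ M.φS M.φinj d hd

theorem σS {d : D} (hd : d ∈ M.S) : M.σ d ∈ M.S := M.φS _ (M.αS _ hd)

theorem σinj : ∀ d ∈ M.S, ∀ e ∈ M.S, M.σ d = M.σ e → d = e := by
  intro d hd e he h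
  have h1 := M.φinj _ (M.αS d hd) _ (M.αS e he) h
  have h2 : M.α (M.α d) = M.α (M.α e) := by rw [h1]
  rwa [M.αα d hd, M.αα e he] at h2

/-- a set closed under `σ` is closed backwards -/
theorem σback (B : D → Prop) (hB : ∀ d ∈ M.S, B d → B (M.σ d)) {d : D} (hd : d ∈ M.S)
    (h : B (M.σ d)) : B d :=
  back_of M.S M.σ (fun _ h => M.σS h) M.σinj B hB d hd h

/-- a set closed under `φ` is closed backwards -/
theorem φback (B : D → Prop) (hB : ∀ d ∈ M.S, B d → B (M.φ d)) {d : D} (hd : d ∈ M.S)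
    (h : B (M.φ d)) : B d :=
  back_of M.S M.φ M.φS M.φinj B hB d hd h

theorem V_refl (a : D) : M.V a a := Relation.EqvGen.refl a
theorem V_symm {a b : D} (h : M.V a b) : M.V b a := Relation.EqvGen.symm _ _ h
theorem V_trans {a b c : D} (h : M.V a b) (h' : M.V b c) : M.V a c :=
  Relation.EqvGen.trans _ _ _ h h'

theorem V_σ {a : D} (ha : a ∈ M.S) : M.V a (M.σ a) := Relation.EqvGen.rel _ _ ⟨ha, rfl⟩

theorem V_αφ {a : D} (ha : a ∈ M.S) : M.V (M.α a) (M.φ a) := by
  have h := M.V_σ (M.αS a ha)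
  unfold σ at h
  rwa [M.αα a ha] at h

theorem V_mem {a b : D} (h : M.V a b) : a ∈ M.S ↔ b ∈ M.S := by
  induction h with
  | rel x y h => rw [h.2]; exact ⟨fun h' => M.σS h', fun _ => h.1⟩
  | refl x => exact Iff.rfl
  | symm x y _ ih => exact ih.symm
  | trans x y z _ _ ih1 ih2 => exact ih1.trans ih2

/-- a `σ`-invariant function is constant on vertices -/
theorem V_const {β : Type*} (h : D → β) (hh : ∀ d ∈ M.S, h (M.σ d) = h d) {a b : D}
    (hab : M.V a b) : h a = h b := by
  induction hab with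
  | rel x y h' => rw [h'.2]; exact (hh x h'.1).symm
  | refl x => rfl
  | symm x y _ ih => exact ih.symm
  | trans x y z _ _ ih1 ih2 => exact ih1.trans ih2

theorem Lnk_refl (L : D → D → Prop) (a : D) : M.Lnk L a a := Relation.EqvGen.refl a
theorem Lnk_symm {L : D → D → Prop} {a b : D} (h : M.Lnk L a b) : M.Lnk L b a :=
  Relation.EqvGen.symm _ _ h
theorem Lnk_trans {L : D → D → Prop} {a b c : D} (h : M.Lnk L a b) (h' : M.Lnk L b c) :
    M.Lnk L a c := Relation.EqvGen.trans _ _ _ h h'
theorem Lnk_of {L : D → D → Prop} {a b : D} (h : L a b) : M.Lnk L a b :=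
  Relation.EqvGen.rel _ _ (Or.inr h)
theorem V_Lnk {L : D → D → Prop} {a b : D} (h : M.V a b) : M.Lnk L a b := by
  induction h with
  | rel x y h => exact Relation.EqvGen.rel _ _ (Or.inl h)
  | refl x => exact Relation.EqvGen.refl x
  | symm x y _ ih => exact Relation.EqvGen.symm _ _ ih
  | trans x y z _ _ ih1 ih2 => exact Relation.EqvGen.trans _ _ _ ih1 ih2

/-- universal property of `Lnk` -/
theorem Lnk_le {L : D → D → Prop} {E : D → D → Prop} (hE : Equivalence E)
    (h1 : ∀ a ∈ M.S, E a (M.σ a)) (h2 : ∀ a b, L a b → E a b) {a b : D} (h : M.Lnk L a b) :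
    E a b := by
  induction h with
  | rel x y h =>
    rcases h with h | h
    · rw [h.2]; exact h1 x h.1
    · exact h2 x y h
  | refl x => exact hE.refl x
  | symm x y _ ih => exact hE.symm ih
  | trans x y z _ _ ih1 ih2 => exact hE.trans ih1 ih2

theorem Lnk_equiv (L : D → D → Prop) : Equivalence (M.Lnk L) :=
  ⟨fun a => M.Lnk_refl L a, fun h => M.Lnk_symm h, fun h h' => M.Lnk_trans h h'⟩

theorem V_equiv : Equivalence M.V :=
  ⟨fun a => M.V_refl a, fun h => M.V_symm h, fun h h' => M.V_trans h h'⟩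

/-! ### the three operations -/

/-- delete the edge `r` (two faces are merged, or a pendant edge is removed) -/
def del (M : Mp D) (r : D) (hr : r ∈ M.S) (hl : M.Loopless) : Mp D where
  S := (M.S.erase r).erase (M.α r)
  α := M.α
  φ := fun d => if M.φ d = r then M.φ (M.α r) else if M.φ d = M.α r then M.φ r else M.φ d
  αS := by
    intro d hd
    simp only [Finset.mem_erase] at hd ⊢
    obtain ⟨h1, h2, h3⟩ := hd
    refine ⟨fun h => h2 ?_, fun h => h1 ?_, M.αS d h3⟩
    · have : M.α (M.α d) = M.α (M.α r) := by rw [h]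
      rwa [M.αα d h3, M.αα r hr] at this
    · rw [← h, M.αα d h3]
  φS := by
    intro d hd
    simp only [Finset.mem_erase] at hd ⊢
    obtain ⟨h1, h2, h3⟩ := hd
    have hσ : M.V r (M.φ (M.α r)) := M.V_σ hr
    have hσ' : M.V (M.α r) (M.φ r) := M.V_αφ hr
    split_ifs with h4 h5
    · refine ⟨fun h => hl r hr ?_, fun h => h1 ?_, M.φS _ (M.αS r hr)⟩
      · rw [h] at hσ
        exact hσ
      · exact M.φinj d h3 _ (M.αS r hr) (h4.trans h.symm)
    · refine ⟨fun h => h2 ?_, fun h => hl r hr ?_, M.φS _ hr⟩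
      · exact M.φinj d h3 _ hr (h5.trans h.symm)
      · rw [h] at hσ'
        exact M.V_symm hσ'
    · exact ⟨h5, h4, M.φS d h3⟩
  αα := fun d hd => M.αα d (Finset.mem_of_mem_erase (Finset.mem_of_mem_erase hd))
  αne := fun d hd => M.αne d (Finset.mem_of_mem_erase (Finset.mem_of_mem_erase hd))
  φinj := by
    intro d hd e he h
    simp only [Finset.mem_erase] at hd he
    obtain ⟨h1, h2, h3⟩ := hd
    obtain ⟨k1, k2, k3⟩ := he
    have hσ : M.V r (M.φ (M.α r)) := M.V_σ hr
    have hσ' : M.V (M.α r) (M.φ r) := M.V_αφ hr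
    have hne : M.φ (M.α r) ≠ M.φ r := fun hh => hl r hr
      (M.V_trans hσ (hh ▸ M.V_symm hσ'))
    split_ifs at h with a1 a2 a3 a4 a5 a6
    · exact M.φinj d h3 e k3 (a1.trans a2.symm)
    · exact absurd h hne
    · exact absurd (M.φinj _ (M.αS r hr) e k3 h).symm k1
    · exact absurd h.symm hne
    · exact M.φinj d h3 e k3 (a4.trans a6.symm)
    · exact absurd (M.φinj r hr e k3 h).symm k2
    · exact absurd (M.φinj d h3 _ (M.αS r hr) h) h1
    · exact absurd (M.φinj d h3 r hr h) h2
    · exact M.φinj d h3 e k3 h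

/-- fold the two consecutive darts `a`, `φ a` of a face together: both darts are removed
and their opposite darts become opposite to each other.  The source of `a` and the target of
`φ a` are identified.  If the face is `{a, φ a}` this removes a digon. -/
def fold (M : Mp D) (a : D) (ha : a ∈ M.S) (h1 : M.φ a ≠ a) (h2 : M.α a ≠ M.φ a) : Mp D where
  S := (M.S.erase a).erase (M.φ a)
  α := fun d => if d = M.α a then M.α (M.φ a) else if d = M.α (M.φ a) then M.α a else M.α d
  φ := fun d => if M.φ d = a then M.φ (M.φ a) else M.φ d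
  αS := by
    intro d hd
    simp only [Finset.mem_erase] at hd ⊢
    obtain ⟨h3, h4, h5⟩ := hd
    have hb : M.φ a ∈ M.S := M.φS a ha
    split_ifs with k1 k2
    · refine ⟨M.αne _ hb, fun h => h2 ?_, M.αS _ hb⟩
      have h6 := congrArg M.α h
      rw [M.αα _ hb] at h6
      exact h6.symm
    · exact ⟨h2, M.αne a ha, M.αS a ha⟩
    · refine ⟨fun h => k2 ?_, fun h => k1 ?_, M.αS d h5⟩
      · rw [← h, M.αα d h5]
      · rw [← h, M.αα d h5]
  φS := by
    intro d hd
    simp only [Finset.mem_erase] at hd ⊢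
    obtain ⟨h3, h4, h5⟩ := hd
    have hb : M.φ a ∈ M.S := M.φS a ha
    split_ifs with k1
    · refine ⟨fun h => h1 (M.φinj _ hb a ha h), fun h => h3 ?_, M.φS _ hb⟩
      exact M.φinj d h5 _ hb (k1.trans h.symm)
    · exact ⟨fun h => h4 (M.φinj d h5 a ha h), k1, M.φS d h5⟩
  αα := by
    intro d hd
    simp only [Finset.mem_erase] at hd
    obtain ⟨h3, h4, h5⟩ := hd
    have hb : M.φ a ∈ M.S := M.φS a ha
    have hab : M.α (M.φ a) ≠ M.α a := by
      intro h
      have : M.α (M.α (M.φ a)) = M.α (M.α a) := by rw [h]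
      rw [M.αα _ hb, M.αα _ ha] at this
      exact h1 this
    by_cases k1 : d = M.α a
    · simp only [k1, if_true]
      rw [if_neg hab]
    · by_cases k2 : d = M.α (M.φ a)
      · simp [k2, hab]
      · simp only [k1, k2, if_false]
        have e1 : M.α d ≠ M.α a := by
          intro h
          have : M.α (M.α d) = M.α (M.α a) := by rw [h]
          rw [M.αα _ h5, M.αα _ ha] at this
          exact h4 this
        have e2 : M.α d ≠ M.α (M.φ a) := by
          intro h
          have : M.α (M.α d) = M.α (M.α (M.φ a)) := by rw [h]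
          rw [M.αα _ h5, M.αα _ hb] at this
          exact h3 this
        rw [if_neg e1, if_neg e2, M.αα d h5]
  αne := by
    intro d hd
    simp only [Finset.mem_erase] at hd
    obtain ⟨h3, h4, h5⟩ := hd
    have hb : M.φ a ∈ M.S := M.φS a ha
    have hab : M.α (M.φ a) ≠ M.α a := by
      intro h
      have : M.α (M.α (M.φ a)) = M.α (M.α a) := by rw [h]
      rw [M.αα _ hb, M.αα _ ha] at this
      exact h1 this
    by_cases k1 : d = M.α a
    · simp only [k1, if_true]
      exact hab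
    · by_cases k2 : d = M.α (M.φ a)
      · simp only [k2, if_true]
        rw [if_neg hab]
        exact fun h => hab h.symm
      · simp only [k1, k2, if_false]
        exact M.αne d h5
  φinj := by
    intro d hd e he h
    simp only [Finset.mem_erase] at hd he
    obtain ⟨h3, h4, h5⟩ := hd
    obtain ⟨k3, k4, k5⟩ := he
    have hb : M.φ a ∈ M.S := M.φS a ha
    split_ifs at h with a1 a2 a3
    · exact M.φinj d h5 e k5 (a1.trans a2.symm)
    · exact absurd (M.φinj _ hb e k5 h).symm k3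
    · exact absurd (M.φinj d h5 _ hb h) h3
    · exact M.φinj d h5 e k5 h

/-- data for cutting out one side `I` of a cycle; `K` are the darts of the closing face, all
on the other side, and `ψ` is the face permutation of the closing face -/
structure Side (M : Mp D) (I : D → Prop) (K : Finset D) (ψ : D → D) : Prop where
  hI : ∀ d ∈ M.S, (I d ↔ I (M.φ d))
  KS : ∀ k ∈ K, k ∈ M.S
  KI : ∀ k ∈ K, ¬ I k
  KαI : ∀ k ∈ K, I (M.α k)
  hIK : ∀ d ∈ M.S, I d → I (M.α d) ∨ M.α d ∈ K
  ψK : ∀ k ∈ K, ψ k ∈ K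
  ψinj : ∀ k ∈ K, ∀ k' ∈ K, ψ k = ψ k' → k = k'
  ψV : ∀ k ∈ K, M.V (ψ k) (M.α k)
  Kdist : ∀ k ∈ K, ∀ k' ∈ K, M.V k k' → k = k'
  Kconn : ∀ X : D → Prop, (∀ k ∈ K, (X k ↔ X (ψ k))) → ∀ k ∈ K, ∀ k' ∈ K, (X k ↔ X k')
  Kne : K.Nonempty

/-- the side `I` of a cycle, closed by the face `K` -/
def cut (M : Mp D) (I : D → Prop) [DecidablePred I] (K : Finset D) (ψ : D → D)
    (h : M.Side I K ψ) : Mp D where
  S := M.S.filter I ∪ K
  α := M.α
  φ := fun d => if d ∈ K then ψ d else M.φ d
  αS := by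
    intro d hd
    rw [Finset.mem_union, Finset.mem_filter] at hd ⊢
    rcases hd with hd | hd
    · rcases h.hIK d hd.1 hd.2 with h1 | h1
      · exact Or.inl ⟨M.αS d hd.1, h1⟩
      · exact Or.inr h1
    · exact Or.inl ⟨M.αS d (h.KS d hd), h.KαI d hd⟩
  φS := by
    intro d hd
    rw [Finset.mem_union, Finset.mem_filter] at hd ⊢
    split_ifs with h1
    · exact Or.inr (h.ψK d h1)
    · rcases hd with hd | hd
      · exact Or.inl ⟨M.φS d hd.1, (h.hI d hd.1).1 hd.2⟩
      · exact absurd hd h1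
  αα := by
    intro d hd
    rw [Finset.mem_union, Finset.mem_filter] at hd
    rcases hd with hd | hd
    · exact M.αα d hd.1
    · exact M.αα d (h.KS d hd)
  αne := by
    intro d hd
    rw [Finset.mem_union, Finset.mem_filter] at hd
    rcases hd with hd | hd
    · exact M.αne d hd.1
    · exact M.αne d (h.KS d hd)
  φinj := by
    intro d hd e he hde
    rw [Finset.mem_union, Finset.mem_filter] at hd he
    have key : ∀ x y, x ∈ K → y ∉ K → (y ∈ M.S ∧ I y ∨ y ∈ K) → ψ x ≠ M.φ y := by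
      intro x y hx hy hy' hxy
      rcases hy' with hy' | hy'
      · have h1 := h.ψK x hx
        rw [hxy] at h1
        exact h.KI _ h1 ((h.hI y hy'.1).1 hy'.2)
      · exact hy hy'
    split_ifs at hde with a1 a2 a3
    · exact h.ψinj d a1 e a2 hde
    · exact absurd hde (key d e a1 a2 he)
    · exact absurd hde.symm (key e d a3 a1 hd)
    · rcases hd with hd | hd
      · rcases he with he | he
        · exact M.φinj d hd.1 e he.1 hde
        · exact absurd he a3
      · exact absurd hd a1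

end Mp

end TwoPlane
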