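import Pool.Agent.Work.MP_3b7449_co.TP.Defs

/-!
# DelC (size M): deleting an edge keeps the map connected

`del_conn`: `r` and `α r` are in different faces, witnessed by the `φ`-invariant set `Y`.
Let `X'` be closed for `M'` (in both directions) and true at some dart of `M'.S`.  Put
`n = φ r`, `n' = φ (α r)`, `φ p = r`, `φ p' = α r` (lemma `φsurj`).  `n ≠ r`, `n' ≠ α r`
(loopless: `V (α r) (φ r)`, `V r (φ (α r))`), `n ≠ α r` and `p ≠ α r` because of `Y`; so
`n, n', p, p'` are in `M'.S`.
Claim `X' n ↔ X' p`.  If `X' n` and not `X' p`, let `B d := Y d ∧ d ≠ r ∧ X' d`; `B` is closed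
under `φ` on `M.S` (if `B d` then `φ d ≠ r` since otherwise `d = p`, `φ d ≠ α r` because of
`Y`, so `φ' d = φ d`).  `B (φ r)` holds, so `φback` gives `B r`, contradiction.  Same with
`¬ X'` for the other direction.
`φ' p = n'` and `φ' p' = n`, so `X'` has the same value at `n, p, n', p'`.
Put `X d := if d = r ∨ d = α r then X' n else X' d`: it is closed for `M` (both directions),
so it is true everywhere by `M.Conn`.

`del_conn_pend`: `φ r = α r` (pendant edge).  `n' = φ (α r)`, `φ p = r`.  If `n' = r`, then
`{r, α r}` is closed under `α` and `φ`; the set `X d := d ≠ r ∧ d ≠ α r ∧ X' d` is closed, so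
`M.Conn` would give `X r`, contradiction.  Otherwise `n', p` are in `M'.S` and `φ' p = n'`;
`X d := if d = r ∨ d = α r then X' n' else X' d` is closed.
-/

namespace TwoPlane
namespace Mp

variable {D : Type} [DecidableEq D]

theorem del_conn (M : Mp D) (r : D) (hr : r ∈ M.S) (hl : M.Loopless) (hc : M.Conn)
    (Y : D → Prop) (hY : ∀ d ∈ M.S, (Y d ↔ Y (M.φ d))) (h1 : Y r) (h2 : ¬ Y (M.α r)) :
    (M.del r hr hl).Conn := by
  classical
  intro X' hα' hφ' hex
  have hαr : M.α r ∈ M.S := M.αS r hr
  have hαα : M.α (M.α r) = r := M.αα r hr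
  have hne : M.α r ≠ r := M.αne r hr
  have v1 : M.V (M.α r) (M.φ r) := M.V_αφ hr
  have v2 : M.V r (M.φ (M.α r)) := M.V_σ hr
  have n1 : M.φ r ≠ r := fun h => hl r hr (by rw [h] at v1; exact M.V_symm v1)
  have n2 : M.φ (M.α r) ≠ M.α r := fun h => hl r hr (by rw [h] at v2; exact v2)
  obtain ⟨p, hp, hpr⟩ := M.φsurj hr
  obtain ⟨p', hp', hpr'⟩ := M.φsurj hαr
  have Yn : Y (M.φ r) := (hY r hr).mp h1
  have Yn' : ¬ Y (M.φ (M.α r)) := fun h => h2 ((hY _ hαr).mpr h)
  have Yp : Y p := (hY p hp).mpr (by rw [hpr]; exact h1)
  have Yp' : ¬ Y p' := fun h => h2 (by rw [← hpr']; exact (hY p' hp').mp h)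
  have mem : ∀ d ∈ M.S, d ≠ r → d ≠ M.α r → d ∈ (M.del r hr hl).S := by
    intro d hd a b
    show d ∈ (M.S.erase r).erase (M.α r)
    simp [Finset.mem_erase, a, b, hd]
  have φ' : ∀ d, (M.del r hr hl).φ d = if M.φ d = r then M.φ (M.α r) else
      if M.φ d = M.α r then M.φ r else M.φ d := fun _ => rfl
  have nn : M.φ r ∈ (M.del r hr hl).S := mem _ (M.φS r hr) n1 (fun h => h2 (h ▸ Yn))
  have nn' : M.φ (M.α r) ∈ (M.del r hr hl).S :=
    mem _ (M.φS _ hαr) (fun h => Yn' (by rw [h]; exact h1)) n2
  have pr : p ≠ r := fun h => n1 (by rw [← h, hpr, h])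
  have pα : p ≠ M.α r := fun h => h2 (h ▸ Yp)
  have pr' : p' ≠ r := fun h => Yp' (h ▸ h1)
  have pα' : p' ≠ M.α r := fun h => n2 (by rw [h] at hpr'; exact hpr')
  have pp := mem p hp pr pα
  have pp' := mem p' hp' pr' pα'
  have c1 : X' p ↔ X' (M.φ (M.α r)) := by
    have := hφ' p pp
    rwa [φ' p, if_pos hpr] at this
  have c2 : X' p' ↔ X' (M.φ r) := by
    have := hφ' p' pp'
    rwa [φ' p', if_neg (by rw [hpr']; exact hne), if_pos hpr'] at this
  have key : ∀ Z : D → Prop, (∀ d ∈ (M.del r hr hl).S, Z d → Z ((M.del r hr hl).φ d)) →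
      Z (M.φ r) → Z p := by
    intro Z hZ hZn
    by_contra hZp
    have := M.φback (fun d => Y d ∧ d ≠ r ∧ Z d) (by
      rintro d hd ⟨k1, k2, k3⟩
      have m1 : M.φ d ≠ r := by
        intro h
        have : d = p := M.φinj d hd p hp (h.trans hpr.symm)
        rw [this] at k3
        exact hZp k3
      have m2 : Y (M.φ d) := (hY d hd).mp k1
      have m3 : M.φ d ≠ M.α r := fun h => h2 (h ▸ m2)
      have m4 : d ≠ M.α r := fun h => h2 (h ▸ k1)
      have m5 := hZ d (mem d hd k2 m4) k3
      rw [φ' d, if_neg m1, if_neg m3] at m5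
      exact ⟨m2, m1, m5⟩) hr ⟨Yn, n1, hZn⟩
    exact this.2.1 rfl
  have c3 : X' (M.φ r) ↔ X' p := by
    constructor
    · exact key X' (fun d hd h => (hφ' d hd).mp h)
    · intro h
      by_contra hn
      exact key (fun d => ¬ X' d) (fun d hd h h' => h ((hφ' d hd).mpr h')) hn h
  have all := hc (fun d => if d = r ∨ d = M.α r then X' (M.φ r) else X' d) (by
      intro d hd
      by_cases a : d = r
      · subst a; simp
      · by_cases b : d = M.α r
        · subst b; simp [hαα]
        · have e1 : M.α d ≠ r := fun h => b (by rw [← h, M.αα d hd])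
          have e2 : M.α d ≠ M.α r := fun h => a (by
            have := congrArg M.α h
            rwa [M.αα d hd, hαα] at this)
          simp only [a, b, e1, e2, or_self, if_false]
          exact hα' d (mem d hd a b)) (by
      intro d hd
      by_cases a : d = r
      · subst a
        have : ¬ (M.φ d = d ∨ M.φ d = M.α d) := by
          rintro (h | h)
          · exact n1 h
          · exact h2 (h ▸ Yn)
        simp only [this, true_or, if_true, if_false]
      · by_cases b : d = M.α r
        · subst b
          have : ¬ (M.φ (M.α r) = r ∨ M.φ (M.α r) = M.α r) := by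
            rintro (h | h)
            · exact Yn' (by rw [h]; exact h1)
            · exact n2 h
          simp only [this, or_true, if_true, if_false]
          exact c3.trans c1
        · simp only [a, b, or_self, if_false]
          by_cases e1 : M.φ d = r
          · have : d = p := M.φinj d hd p hp (e1.trans hpr.symm)
            subst this
            simp only [e1, true_or, if_true]
            exact c3.symm
          · by_cases e2 : M.φ d = M.α r
            · have : d = p' := M.φinj d hd p' hp' (e2.trans hpr'.symm)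
              subst this
              simp only [e2, or_true, if_true]
              exact c2
            · simp only [e1, e2, or_self, if_false]
              have := hφ' d (mem d hd a b)
              rwa [φ' d, if_neg e1, if_neg e2] at this) (by
      obtain ⟨d, hd, hx⟩ := hex
      have hd1 : d ∈ (M.S.erase r).erase (M.α r) := hd
      simp only [Finset.mem_erase] at hd1
      refine ⟨d, hd1.2.2, ?_⟩
      simp only [hd1.1, hd1.2.1, or_self, if_false]
      exact hx)
  intro d hd
  have hd1 : d ∈ (M.S.erase r).erase (M.α r) := hd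
  simp only [Finset.mem_erase] at hd1
  have := all d hd1.2.2
  simpa only [hd1.1, hd1.2.1, or_self, if_false] using this

theorem del_conn_pend (M : Mp D) (r : D) (hr : r ∈ M.S) (hl : M.Loopless) (hc : M.Conn)
    (h : M.φ r = M.α r) : (M.del r hr hl).Conn := by
  classical
  intro X' hα' hφ' hex
  have hαr : M.α r ∈ M.S := M.αS r hr
  have hαα : M.α (M.α r) = r := M.αα r hr
  have hne : M.α r ≠ r := M.αne r hr
  have v2 : M.V r (M.φ (M.α r)) := M.V_σ hr
  have n2 : M.φ (M.α r) ≠ M.α r := fun h => hl r hr (by rw [h] at v2; exact v2)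
  have mem : ∀ d ∈ M.S, d ≠ r → d ≠ M.α r → d ∈ (M.del r hr hl).S := by
    intro d hd a b
    show d ∈ (M.S.erase r).erase (M.α r)
    simp [Finset.mem_erase, a, b, hd]
  have φ' : ∀ d, (M.del r hr hl).φ d = if M.φ d = r then M.φ (M.α r) else
      if M.φ d = M.α r then M.φ r else M.φ d := fun _ => rfl
  have αo : ∀ d ∈ M.S, d ≠ r → d ≠ M.α r → M.α d ≠ r ∧ M.α d ≠ M.α r := by
    intro d hd a b
    refine ⟨fun h => b (by rw [← h, M.αα d hd]), fun h => a ?_⟩
    have := congrArg M.α h
    rwa [M.αα d hd, hαα] at this
  obtain ⟨d0, hd0, hx0⟩ := hex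
  have hd01 : d0 ∈ (M.S.erase r).erase (M.α r) := hd0
  simp only [Finset.mem_erase] at hd01
  by_cases hn : M.φ (M.α r) = r
  · exfalso
    have all := hc (fun d => d ≠ r ∧ d ≠ M.α r ∧ X' d) (by
      intro d hd
      by_cases a : d = r
      · subst a; simp
      · by_cases b : d = M.α r
        · subst b; simp [hαα]
        · obtain ⟨e1, e2⟩ := αo d hd a b
          have := hα' d (mem d hd a b)
          constructor
          · rintro ⟨_, _, h3⟩; exact ⟨e1, e2, this.mp h3⟩
          · rintro ⟨_, _, h3⟩; exact ⟨a, b, this.mpr h3⟩) (by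
      intro d hd
      by_cases a : d = r
      · subst a
        constructor
        · rintro ⟨h3, _⟩; exact absurd rfl h3
        · rintro ⟨_, h3, _⟩; exact absurd h h3
      · by_cases b : d = M.α r
        · subst b
          constructor
          · rintro ⟨_, h3, _⟩; exact absurd rfl h3
          · rintro ⟨h3, _⟩; exact absurd hn h3
        · have e1 : M.φ d ≠ r := fun h3 => b (M.φinj d hd _ hαr (h3.trans hn.symm))
          have e2 : M.φ d ≠ M.α r := fun h3 => a (M.φinj d hd r hr (h3.trans h.symm))
          have := hφ' d (mem d hd a b)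
          rw [φ' d, if_neg e1, if_neg e2] at this
          constructor
          · rintro ⟨_, _, h3⟩; exact ⟨e1, e2, this.mp h3⟩
          · rintro ⟨_, _, h3⟩; exact ⟨a, b, this.mpr h3⟩)
      ⟨d0, hd01.2.2, hd01.2.1, hd01.1, hx0⟩ r hr
    exact all.1 rfl
  · obtain ⟨p, hp, hpr⟩ := M.φsurj hr
    have pr : p ≠ r := fun h3 => hne (by rw [← h, ← h3, hpr, h3])
    have pα : p ≠ M.α r := fun h3 => hn (by rw [← h3, hpr])
    have pp := mem p hp pr pα
    have c1 : X' p ↔ X' (M.φ (M.α r)) := by
      have := hφ' p pp
      rwa [φ' p, if_pos hpr] at this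
    have all := hc (fun d => if d = r ∨ d = M.α r then X' (M.φ (M.α r)) else X' d) (by
        intro d hd
        by_cases a : d = r
        · subst a; simp
        · by_cases b : d = M.α r
          · subst b; simp [hαα]
          · obtain ⟨e1, e2⟩ := αo d hd a b
            simp only [a, b, e1, e2, or_self, if_false]
            exact hα' d (mem d hd a b)) (by
        intro d hd
        by_cases a : d = r
        · subst a
          simp [h]
        · by_cases b : d = M.α r
          · subst b
            have : ¬ (M.φ (M.α r) = r ∨ M.φ (M.α r) = M.α r) := by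
              rintro (h3 | h3)
              · exact hn h3
              · exact n2 h3
            simp only [this, or_true, if_true, if_false]
          · simp only [a, b, or_self, if_false]
            by_cases e1 : M.φ d = r
            · have : d = p := M.φinj d hd p hp (e1.trans hpr.symm)
              subst this
              simp only [e1, true_or, if_true]
              exact c1
            · by_cases e2 : M.φ d = M.α r
              · exact absurd (M.φinj d hd r hr (e2.trans h.symm)) a
              · simp only [e1, e2, or_self, if_false]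
                have := hφ' d (mem d hd a b)
                rwa [φ' d, if_neg e1, if_neg e2] at this) (by
        refine ⟨d0, hd01.2.2, ?_⟩
        simp only [hd01.1, hd01.2.1, or_self, if_false]
        exact hx0)
    intro d hd
    have hd1 : d ∈ (M.S.erase r).erase (M.α r) := hd
    simp only [Finset.mem_erase] at hd1
    have := all d hd1.2.2
    simpa only [hd1.1, hd1.2.1, or_self, if_false] using this

end Mp
end TwoPlane
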