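import Pool.Agent.Work.MP_3b7449_co.TP.Defs

/-!
# DelP (size S-M): deleting an edge keeps the homological planarity

Notation: `M' = M.del r hr hl`, `p' = φ' `.  Let `g'` be balanced on `M'`.  Define on all of `D`
`g d = g' (φ (α r))` for `d = r`, `g d = g' (φ r)` for `d = α r`, `g d = g' d` otherwise.
1. `g (φ r) = g (α r)` and `g (φ (α r)) = g r`.  (By looplessness `φ r ≠ r` and
   `φ (α r) ≠ α r`: `V (α r) (φ r)` and `V r (φ (α r))`.  If `φ r = α r` the first is trivial,
   otherwise `φ r` is not `r`, `α r` and `g (φ r) = g' (φ r) = g (α r)`.  Second: same.)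
2. `g` is balanced on `M`: at `d = r` and `d = α r` by 1; for `d` in `M'.S` also `α d` is in
   `M'.S`, and `g (φ d) = g' (φ' d)`, `g (φ (α d)) = g' (φ' (α d))` by definition of `φ'`.
3. Planarity of `M` gives `g = f + h`.  `f (α r) = f r`: by 1 `g (φ (α r)) = g r`, i.e.
   `f (φ (α r)) + h (φ (α r)) = f r + h r`, and `f (φ (α r)) = f (α r)`,
   `h (φ (α r)) = h (σ r) = h r`.
4. The same `f`, `h` work for `M'`: `f (φ' d) = f d` (if `φ d = r`: `f (φ (α r)) = f (α r) =
   f r = f (φ d) = f d`, if `φ d = α r`: `f (φ r) = f r = f (α r) = f d`), and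
   `h (σ' d) = h d` with `σ' d = φ' (α d)` (if `σ d = r` then `σ' d = σ r`, and
   `h (σ r) = h r = h (σ d) = h d`; if `σ d = α r` then `σ' d = φ r = σ (α r)`).
   `g' d = g d = f d + h d` on `M'.S`.
-/

namespace TwoPlane
namespace Mp

variable {D : Type} [DecidableEq D]

theorem del_planar (M : Mp D) (r : D) (hr : r ∈ M.S) (hl : M.Loopless) (h : M.Planar) :
    (M.del r hr hl).Planar := by
  intro g' hg'
  have hαr : M.α r ∈ M.S := M.αS r hr
  have hαα : M.α (M.α r) = r := M.αα r hr
  have hne : M.α r ≠ r := M.αne r hr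
  have v1 : M.V (M.α r) (M.φ r) := M.V_αφ hr
  have v2 : M.V r (M.φ (M.α r)) := M.V_σ hr
  have n1 : M.φ r ≠ r := fun h => hl r hr (by rw [h] at v1; exact M.V_symm v1)
  have n2 : M.φ (M.α r) ≠ M.α r := fun h => hl r hr (by rw [h] at v2; exact v2)
  have n3 : M.φ r ≠ M.φ (M.α r) := fun h => hne (M.φinj _ hr _ hαr h).symm
  -- the function on the whole map
  let g : D → ZMod 2 := fun d => if d = r then g' (M.φ (M.α r)) else
    if d = M.α r then g' (M.φ r) else g' d
  have gr : g r = g' (M.φ (M.α r)) := by simp [g]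
  have gα : g (M.α r) = g' (M.φ r) := by simp [g, hne]
  have go : ∀ d, d ≠ r → d ≠ M.α r → g d = g' d := fun d h1 h2 => by simp [g, h1, h2]
  have e1 : g (M.φ r) = g (M.α r) := by
    by_cases h1 : M.φ r = M.α r
    · rw [h1]
    · rw [go _ n1 h1, gα]
  have e2 : g (M.φ (M.α r)) = g r := by
    by_cases h1 : M.φ (M.α r) = r
    · rw [h1]
    · rw [go _ h1 n2, gr]
  -- the face map of the new map
  have φ' : ∀ d, (M.del r hr hl).φ d = if M.φ d = r then M.φ (M.α r) else
      if M.φ d = M.α r then M.φ r else M.φ d := fun _ => rfl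
  have gφ : ∀ d, g (M.φ d) = g' ((M.del r hr hl).φ d) := by
    intro d
    rw [φ' d]
    split_ifs with h1 h2
    · rw [h1, gr]
    · rw [h2, gα]
    · exact go _ h1 h2
  have hbal : ∀ d ∈ M.S, g d + g (M.α d) + g (M.φ d) + g (M.φ (M.α d)) = 0 := by
    intro d hd
    by_cases h1 : d = r
    · subst h1
      rw [e1, e2]
      have : ∀ a b : ZMod 2, a + b + b + a = 0 := by decide
      exact this _ _
    · by_cases h2 : d = M.α r
      · subst h2
        rw [hαα, e1, e2]
        have : ∀ a b : ZMod 2, a + b + b + a = 0 := by decide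
        exact this _ _
      · have hd' : d ∈ (M.del r hr hl).S := by
          show d ∈ (M.S.erase r).erase (M.α r)
          simp [Finset.mem_erase, h1, h2, hd]
        have h3 : M.α d ≠ r := fun h => h2 (by rw [← h, M.αα d hd])
        have h4 : M.α d ≠ M.α r := fun h => h1 (by
          have := congrArg M.α h
          rwa [M.αα d hd, hαα] at this)
        have := hg' d hd'
        rw [go _ h1 h2, go _ h3 h4, gφ, gφ]
        exact this
  obtain ⟨f, h', hf, hh, hgfh⟩ := h g hbal
  have fr : f (M.α r) = f r := by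
    have k1 := hgfh (M.φ (M.α r)) (M.φS _ hαr)
    have k2 := hgfh r hr
    have k3 := hf (M.α r) hαr
    have k4 : h' (M.φ (M.α r)) = h' r := hh r hr
    rw [e2, k2, k3, k4] at k1
    exact (add_right_cancel k1).symm
  refine ⟨f, h', ?_, ?_, ?_⟩
  · intro d hd
    have hd' : d ∈ M.S := Finset.mem_of_mem_erase (Finset.mem_of_mem_erase hd)
    rw [φ' d]
    split_ifs with h1 h2
    · rw [hf _ hαr, fr, ← h1, hf d hd']
    · rw [hf _ hr, ← fr, ← h2, hf d hd']
    · exact hf d hd'
  · intro d hd
    have hd' : d ∈ M.S := Finset.mem_of_mem_erase (Finset.mem_of_mem_erase hd)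
    show h' ((M.del r hr hl).φ (M.α d)) = h' d
    have hs : h' (M.φ (M.α d)) = h' d := hh d hd'
    rw [φ' (M.α d)]
    split_ifs with h1 h2
    · have : h' (M.φ (M.α r)) = h' r := hh r hr
      rw [this, ← h1, hs]
    · have : h' (M.φ (M.α (M.α r))) = h' (M.α r) := hh (M.α r) hαr
      rw [hαα] at this
      rw [this, ← h2, hs]
    · exact hs
  · intro d hd
    have hd1 : d ∈ (M.S.erase r).erase (M.α r) := hd
    simp only [Finset.mem_erase] at hd1
    rw [← go d hd1.2.1 hd1.1]
    exact hgfh d hd1.2.2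

end Mp
end TwoPlane
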