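import Pool.Agent.Work.MP_3b7449_co.TP.Defs

/-!
# DelV (size S): vertices after deleting an edge

`σ' d = φ' (α d)` is `σ d`, or (if `σ d = r`) `φ (α r) = σ r = σ (σ d)`, or (if `σ d = α r`)
`φ r = σ (α r) = σ (σ d)` (use `α (α r) = r`).  So every `σ'`-step of a dart of `M'.S` stays in
the class of `V`.  Induction on `EqvGen`.  Looplessness follows.
-/

namespace TwoPlane
namespace Mp

variable {D : Type} [DecidableEq D]

theorem del_V (M : Mp D) (r : D) (hr : r ∈ M.S) (hl : M.Loopless) {x y : D}
    (h : (M.del r hr hl).V x y) : M.V x y := by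
  induction h with
  | rel x y h =>
    obtain ⟨hx, hy⟩ := h
    have hx' : x ∈ M.S := Finset.mem_of_mem_erase (Finset.mem_of_mem_erase hx)
    have h1 : M.V x (M.σ x) := M.V_σ hx'
    have hy' : y = if M.φ (M.α x) = r then M.φ (M.α r) else
        if M.φ (M.α x) = M.α r then M.φ r else M.φ (M.α x) := hy
    rw [hy']
    split_ifs with h2 h3
    · have h4 : M.σ x = r := h2
      rw [h4] at h1
      exact M.V_trans h1 (M.V_σ hr)
    · have h4 : M.σ x = M.α r := h3
      rw [h4] at h1
      exact M.V_trans h1 (M.V_αφ hr)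
    · exact h1
  | refl x => exact M.V_refl x
  | symm x y _ ih => exact M.V_symm ih
  | trans x y z _ _ ih1 ih2 => exact M.V_trans ih1 ih2

theorem del_loopless (M : Mp D) (r : D) (hr : r ∈ M.S) (hl : M.Loopless) :
    (M.del r hr hl).Loopless := by
  intro d hd h
  exact hl d (Finset.mem_of_mem_erase (Finset.mem_of_mem_erase hd)) (M.del_V r hr hl h)

end Mp
end TwoPlane
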