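import Pool.Agent.Work.MP_3b7449_co.TP.InvDim
import Pool.Agent.Work.MP_3b7449_co.TP.Defs

/-!
# EulerP (size L): the Euler formula gives the homological planarity

Work in `D → ZMod 2`, `n = Fintype.card D` (even: `α` has no fixed point; `n = 2 * (n / 2)`).
`σ = α.trans φ` (`σ d = φ (α d)`).  `Bf = invSub φ`, `Bh = invSub σ`,
`A = {g | ∀ d, g d + g (α d) + g (φ d) + g (φ (α d)) = 0}`.
1. `Bf ⊔ Bh ≤ A`: for `f`: `f (φ d) = f d`, `f (φ (α d)) = f (α d)`; for `h`: `h (φ (α d)) = h d`
   and `h (φ d) = h (σ (α d)) = h (α d)`.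
2. `Bf ⊓ Bh` is the line of constant functions: such a function is invariant under `φ` and under
   `α` (`f (α d) = f (φ (α d)) = f (σ d) = f d`), so constant by `M.conn` (take
   `X = {d | f d = f d₀}`).  By `Submodule.finrank_sup_add_finrank_inf_eq` and `finrank_invSub`,
   `finrank (Bf ⊔ Bh) = (number of faces) + (number of vertices) - 1 = n / 2 + 1`.
3. `finrank A ≤ n / 2 + 1`: let `T` be the matrix with
   `(T g) d = g d + g (α d) + g (φ d) + g (φ (α d))` (sum of four permutation matrices).  `A` is the
   kernel of `T`, `finrank A = n - rank T`, `rank T = rank Tᵀ` (`Matrix.rank_transpose`), and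
   `(Tᵀ ζ) x = ζ x + ζ (α x) + ζ (φ⁻¹ x) + ζ (α (φ⁻¹ x))`.  If `Tᵀ ζ = 0` then `η = ζ + ζ ∘ α` is
   invariant under `φ` and `α`, so constant by `M.conn`.  The map `ζ ↦ ζ + ζ ∘ α` from the
   kernel of `Tᵀ` has range of dimension at most 1, and its kernel is contained in
   `invSub α`, of dimension the number of cycles of `α`, which is `n / 2` (all cycles have two
   elements).  So `finrank (ker Tᵀ) ≤ n / 2 + 1` and `rank T ≥ n / 2 - 1`.
   (Any other proof of 3 is fine.)
4. `Bf ⊔ Bh ≤ A` and the dimensions agree, so they are equal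
   (`Submodule.eq_of_le_of_finrank_le`); `Submodule.mem_sup`.
-/

namespace TwoPlane

open Equiv.Perm

/-- a plane multigraph as a map on all the darts -/
def PlaneMap.toMp {D : Type} [Fintype D] [DecidableEq D] (M : PlaneMap D) : Mp D where
  S := Finset.univ
  α := M.α
  φ := M.φ
  αS := fun _ _ => Finset.mem_univ _
  φS := fun _ _ => Finset.mem_univ _
  αα := fun d _ => M.α_inv d
  αne := fun d _ => M.α_ne d
  φinj := fun _ _ _ _ h => M.φ.injective h

section euler

variable {D : Type} [Fintype D] [DecidableEq D] (M : PlaneMap D)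

private theorem eul_two (x : ZMod 2) : x + x = 0 := by
  revert x
  decide

private theorem eul_eq {x y : ZMod 2} (h : x + y = 0) : x = y := by
  revert x y
  decide

/-- the matrix of the balance conditions -/
private def eulT : Matrix D D (ZMod 2) := fun d x =>
  (if x = d then 1 else 0) + (if x = M.α d then 1 else 0) + (if x = M.φ d then 1 else 0) +
    (if x = M.φ (M.α d) then 1 else 0)

private theorem eulT_mulVec (g : D → ZMod 2) (d : D) :
    (eulT M).mulVec g d = g d + g (M.α d) + g (M.φ d) + g (M.φ (M.α d)) := by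
  unfold eulT Matrix.mulVec dotProduct
  simp only [add_mul, ite_mul, one_mul, zero_mul, Finset.sum_add_distrib, Finset.sum_ite_eq',
    Finset.mem_univ, if_true]

private theorem eulT_tr (g : D → ZMod 2) (x : D) :
    (eulT M).transpose.mulVec g x =
      g x + g (M.α x) + g (M.φ.symm x) + g (M.α (M.φ.symm x)) := by
  have h1 : ∀ d, (x = M.α d) ↔ (d = M.α x) := by
    intro d
    constructor
    · rintro rfl
      exact (M.α_inv d).symm
    · rintro rfl
      exact (M.α_inv x).symm
  have h2 : ∀ d, (x = M.φ d) ↔ (d = M.φ.symm x) := by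
    intro d
    constructor
    · rintro rfl
      exact (M.φ.symm_apply_apply d).symm
    · rintro rfl
      exact (M.φ.apply_symm_apply x).symm
  have h3 : ∀ d, (x = M.φ (M.α d)) ↔ (d = M.α (M.φ.symm x)) := by
    intro d
    rw [h2 (M.α d)]
    constructor
    · intro h
      rw [← h, M.α_inv]
    · rintro rfl
      exact M.α_inv _
  have h0 : ∀ d, (x = d) ↔ (d = x) := fun d => eq_comm
  have hT : (eulT M).transpose.mulVec g x = ∑ d, ((if d = x then (1 : ZMod 2) else 0) +
      (if d = M.α x then 1 else 0) + (if d = M.φ.symm x then 1 else 0) +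
      (if d = M.α (M.φ.symm x) then 1 else 0)) * g d := by
    unfold Matrix.mulVec dotProduct
    refine Finset.sum_congr rfl fun d _ => ?_
    change ((if x = d then (1 : ZMod 2) else 0) +
        (if x = M.α d then 1 else 0) + (if x = M.φ d then 1 else 0) +
        (if x = M.φ (M.α d) then 1 else 0)) * g d = _
    rw [if_congr (h0 d) rfl rfl, if_congr (h1 d) rfl rfl, if_congr (h2 d) rfl rfl,
      if_congr (h3 d) rfl rfl]
  rw [hT]
  simp only [add_mul, ite_mul, one_mul, zero_mul,
    Finset.sum_add_distrib, Finset.sum_ite_eq', Finset.mem_univ, if_true]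

/-- an invariant function is constant -/
private theorem eul_const {f : D → ZMod 2} (h1 : ∀ d, f (M.α d) = f d) (h2 : ∀ d, f (M.φ d) = f d)
    (d₀ d : D) : f d = f d₀ := by
  have h := M.conn {d | f d = f d₀} (fun x hx => (h1 x).trans hx) (fun x hx => (h2 x).trans hx)
    ⟨d₀, rfl⟩
  have h3 : d ∈ {d | f d = f d₀} := by
    rw [h]
    exact Set.mem_univ d
  exact h3

/-- the sum over the two darts of an edge -/
private def eulP : (D → ZMod 2) →ₗ[ZMod 2] (D → ZMod 2) where
  toFun ζ := fun d => ζ d + ζ (M.α d)
  map_add' := by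
    intro f g
    funext d
    simp only [Pi.add_apply]
    ring
  map_smul' := by
    intro c f
    funext d
    simp only [Pi.smul_apply, RingHom.id_apply, smul_eq_mul]
    ring

private theorem eulP_ker : LinearMap.ker (eulP M) = invSub M.α := by
  ext f
  rw [LinearMap.mem_ker]
  constructor
  · intro h d
    have h1 : f d + f (M.α d) = 0 := congrFun h d
    exact (eul_eq h1).symm
  · intro h
    funext d
    have h1 : f (M.α d) = f d := h d
    change f d + f (M.α d) = 0
    rw [h1]
    exact eul_two _

private theorem eul_span {f : D → ZMod 2} (hf : ∀ d d', f d = f d') :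
    f ∈ Submodule.span (ZMod 2) {(fun _ => 1 : D → ZMod 2)} := by
  rw [Submodule.mem_span_singleton]
  rcases isEmpty_or_nonempty D with h | ⟨⟨d₀⟩⟩
  · exact ⟨0, funext fun d => isEmptyElim d⟩
  · refine ⟨f d₀, funext fun d => ?_⟩
    rw [Pi.smul_apply, smul_eq_mul, mul_one]
    exact hf d₀ d

private theorem eul_span_rank :
    Module.finrank (ZMod 2) (Submodule.span (ZMod 2) {(fun _ => 1 : D → ZMod 2)}) ≤ 1 :=
  (finrank_span_le_card _).trans (by simp)

/-- the number of edges -/
private theorem eul_edges : 2 * Nat.card (Quotient (SameCycle.setoid M.α)) = Fintype.card D := by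
  classical
  have hcyc : ∀ x y, SameCycle M.α x y ↔ (y = x ∨ y = M.α x) := by
    intro x y
    constructor
    · rintro ⟨i, rfl⟩
      have hsq : M.α ^ (2 : ℤ) = 1 := by
        ext d
        change (M.α ^ (2 : ℕ)) d = d
        rw [pow_two, Equiv.Perm.mul_apply, M.α_inv]
      rcases Int.even_or_odd' i with ⟨k, rfl | rfl⟩
      · left
        rw [zpow_mul, hsq, one_zpow]
        rfl
      · right
        rw [zpow_add, zpow_mul, hsq, one_zpow, one_mul, zpow_one]
    · rintro (rfl | rfl)
      · exact SameCycle.refl _ _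
      · exact ⟨1, by rw [zpow_one]⟩
  rw [Nat.card_eq_fintype_card]
  have h1 := Finset.card_eq_sum_card_fiberwise
    (f := (Quotient.mk (SameCycle.setoid M.α) : D → Quotient (SameCycle.setoid M.α)))
    (s := Finset.univ) (t := Finset.univ) (fun _ _ => Finset.mem_coe.2 (Finset.mem_univ _))
  have h2 : ∀ q ∈ (Finset.univ : Finset (Quotient (SameCycle.setoid M.α))),
      (Finset.univ.filter (fun d : D => Quotient.mk (SameCycle.setoid M.α) d = q)).card = 2 := by
    intro q _
    induction q using Quotient.inductionOn with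
    | h x =>
      have h3 : Finset.univ.filter (fun d : D => Quotient.mk (SameCycle.setoid M.α) d =
          Quotient.mk (SameCycle.setoid M.α) x) = {x, M.α x} := by
        ext d
        rw [Finset.mem_filter, Finset.mem_insert, Finset.mem_singleton]
        constructor
        · rintro ⟨-, h⟩
          have h4 : SameCycle M.α d x := Quotient.exact h
          exact (hcyc x d).1 h4.symm
        · intro h
          exact ⟨Finset.mem_univ _, Quotient.sound (((hcyc x d).2 h).symm : SameCycle M.α d x)⟩
      rw [h3, Finset.card_pair (M.α_ne x).symm]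
  rw [Finset.sum_congr rfl h2, Finset.sum_const, smul_eq_mul, Finset.card_univ,
    Finset.card_univ] at h1
  rw [h1, mul_comm]

end euler

theorem PlaneMap.toMp_planar {D : Type} [Fintype D] [DecidableEq D] (M : PlaneMap D) :
    M.toMp.Planar := by
  classical
  -- dimensions
  have hn : Module.finrank (ZMod 2) (D → ZMod 2) = Fintype.card D :=
    Module.finrank_fintype_fun_eq_card (ZMod 2)
  have hE := eul_edges M
  have hα : Module.finrank (ZMod 2) (invSub M.α) = Nat.card (Quotient (SameCycle.setoid M.α)) :=
    finrank_invSub M.α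
  have hφ := finrank_invSub M.φ
  have hσ := finrank_invSub (M.α.trans M.φ)
  have heul := M.euler
  -- the kernel of the transposed matrix
  have hN : Module.finrank (ZMod 2) (LinearMap.ker (eulT M).transpose.mulVecLin) ≤
      Nat.card (Quotient (SameCycle.setoid M.α)) + 1 := by
    have h1 := LinearMap.finrank_range_add_finrank_ker
      ((eulP M).domRestrict (LinearMap.ker (eulT M).transpose.mulVecLin))
    have h2 : Module.finrank (ZMod 2) (LinearMap.range
        ((eulP M).domRestrict (LinearMap.ker (eulT M).transpose.mulVecLin))) ≤ 1 := by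
      refine (Submodule.finrank_mono (t := Submodule.span (ZMod 2)
        {(fun _ => 1 : D → ZMod 2)}) ?_).trans eul_span_rank
      rintro _ ⟨⟨ζ, hζ⟩, rfl⟩
      have hζ' : ∀ x, ζ x + ζ (M.α x) + ζ (M.φ.symm x) + ζ (M.α (M.φ.symm x)) = 0 := by
        intro x
        rw [← eulT_tr]
        exact congrFun (LinearMap.mem_ker.1 hζ) x
      refine eul_span fun d d' => ?_
      change (fun d => ζ d + ζ (M.α d)) d = (fun d => ζ d + ζ (M.α d)) d'
      refine eul_const M (f := fun d => ζ d + ζ (M.α d)) (fun x => ?_) (fun x => ?_) d' d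
      · rw [M.α_inv, add_comm]
      · have h3 := hζ' (M.φ x)
        rw [Equiv.symm_apply_apply] at h3
        refine eul_eq ?_
        rw [← h3]
        ring
    have h3 : Module.finrank (ZMod 2) (LinearMap.ker
        ((eulP M).domRestrict (LinearMap.ker (eulT M).transpose.mulVecLin))) ≤
        Module.finrank (ZMod 2) (invSub M.α) := by
      rw [← Submodule.finrank_map_subtype_eq, ← eulP_ker]
      refine Submodule.finrank_mono ?_
      rintro _ ⟨⟨ζ, hζ⟩, h4, rfl⟩
      exact h4
    omega
  -- the kernel of the matrix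
  have hA : Module.finrank (ZMod 2) (LinearMap.ker (eulT M).mulVecLin) ≤
      Nat.card (Quotient (SameCycle.setoid M.α)) + 1 := by
    have h1 := LinearMap.finrank_range_add_finrank_ker (eulT M).mulVecLin
    have h2 := LinearMap.finrank_range_add_finrank_ker (eulT M).transpose.mulVecLin
    have h3 := Matrix.rank_transpose (eulT M)
    unfold Matrix.rank at h3
    omega
  -- the sum of the two spaces
  have hinf : Module.finrank (ZMod 2) ↥(invSub M.φ ⊓ invSub (M.α.trans M.φ)) ≤ 1 := by
    refine (Submodule.finrank_mono (t := Submodule.span (ZMod 2)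
      {(fun _ => 1 : D → ZMod 2)}) ?_).trans eul_span_rank
    rintro f ⟨h1, h2⟩
    have h1' : ∀ d, f (M.φ d) = f d := h1
    have h2' : ∀ d, f (M.φ (M.α d)) = f d := h2
    refine eul_span fun d d' => ?_
    refine eul_const M (fun x => ?_) h1' d' d
    rw [← h1' (M.α x), h2']
  have hsum := Submodule.finrank_sup_add_finrank_inf_eq (invSub M.φ) (invSub (M.α.trans M.φ))
  have hle : invSub M.φ ⊔ invSub (M.α.trans M.φ) ≤ LinearMap.ker (eulT M).mulVecLin := by
    refine sup_le (fun f hf => ?_) (fun h hh => ?_)
    · have hf' : ∀ d, f (M.φ d) = f d := hf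
      rw [LinearMap.mem_ker]
      funext d
      rw [Matrix.mulVecLin_apply, eulT_mulVec, hf', hf', Pi.zero_apply]
      linear_combination eul_two (f d) + eul_two (f (M.α d))
    · have hh' : ∀ d, h (M.φ (M.α d)) = h d := hh
      rw [LinearMap.mem_ker]
      funext d
      have h1 : h (M.φ d) = h (M.α d) := by
        have h2 := hh' (M.α d)
        rw [M.α_inv] at h2
        exact h2
      rw [Matrix.mulVecLin_apply, eulT_mulVec, hh', h1, Pi.zero_apply]
      linear_combination eul_two (h d) + eul_two (h (M.α d))
  have heq : invSub M.φ ⊔ invSub (M.α.trans M.φ) = LinearMap.ker (eulT M).mulVecLin := by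
    refine Submodule.eq_of_le_of_finrank_le hle ?_
    omega
  intro g hg
  have hgA : g ∈ LinearMap.ker (eulT M).mulVecLin := by
    rw [LinearMap.mem_ker]
    funext d
    rw [Matrix.mulVecLin_apply, eulT_mulVec]
    exact hg d (Finset.mem_univ d)
  rw [← heq, Submodule.mem_sup] at hgA
  obtain ⟨f, hf, h, hh, hfh⟩ := hgA
  refine ⟨f, h, fun d _ => hf d, fun d _ => hh d, fun d _ => ?_⟩
  rw [← hfh]
  rfl

end TwoPlane
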