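import Pool.Agent.Work.MP_3b7449_co.TP.Defs

/-!
# FoldC (size M): a fold keeps the map connected

`b = φ a`, `q = φ b`, `M' = M.fold a ..`.  Let `X'` be closed for `M'` (both directions).

Digon case `q = a`: `X d := if d = a ∨ d = b then X' (α a) else X' d` is closed for `M`
(`α a`, `α b` are in `M'.S`, `α' (α a) = α b`; for `d` in `M'.S` we have `φ d ≠ a, b`).

General case, `¬ V a q`: `q ≠ a`, `q ≠ b` so `q` is in `M'.S`.
Claim `X' q ↔ X' (α b)`.  For `d` in `M.S` with `V d q` and `d ≠ α b`: `d ≠ a` (`¬ V a q`),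
`d ≠ b` (`V b q` and `V (α b) q` would be a loop), `d ≠ α a` (`V (α a) b`), `σ d ≠ a`
(`V d (σ d)`); so `α' d = α d`, `σ' d = φ' (α d) = σ d`, and `X' d ↔ X' (σ d)`.
If `X' q` and not `X' (α b)`: `B d := V d q ∧ X' d` is closed under `σ`, contains
`q = σ (α b)`, so `σback` gives `B (α b)`, contradiction.  If `¬ X' q` and `X' (α b)`: same with
`B d := V d q ∧ ¬ X' d`.
Let `φ p = a` (`φsurj`); `p ≠ a`, `p ≠ b`, `φ' p = q`.  So `X' p ↔ X' q ↔ X' (α b) ↔ X' (α a)`.
`X d := if d = a ∨ d = b then X' (α a) else X' d` is closed for `M`: `α`: clear;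
`φ a = b`; `φ b = q`; `φ p = a`; other `d`: `φ' d = φ d`.
-/

namespace TwoPlane
namespace Mp

variable {D : Type} [DecidableEq D]

private theorem fold_aux (M : Mp D) (a : D) (ha : a ∈ M.S) (h1 : M.φ a ≠ a)
    (h2 : M.α a ≠ M.φ a) (X' : D → Prop)
    (hα' : ∀ d ∈ (M.fold a ha h1 h2).S, (X' d ↔ X' ((M.fold a ha h1 h2).α d)))
    (d : D) (hd : d ∈ M.S) :
    ((if d = a ∨ d = M.φ a then X' (M.α a) else X' d) ↔
      (if M.α d = a ∨ M.α d = M.φ a then X' (M.α a) else X' (M.α d))) := by
  have hb : M.φ a ∈ M.S := M.φS a ha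
  have hαa : M.α a ∈ M.S := M.αS a ha
  have mem : ∀ d ∈ M.S, d ≠ a → d ≠ M.φ a → d ∈ (M.fold a ha h1 h2).S := by
    intro d hd x y
    show d ∈ (M.S.erase a).erase (M.φ a)
    simp [Finset.mem_erase, x, y, hd]
  have α' : ∀ d, (M.fold a ha h1 h2).α d = if d = M.α a then M.α (M.φ a) else
      if d = M.α (M.φ a) then M.α a else M.α d := fun _ => rfl
  have a1 : M.α a ≠ a := M.αne a ha
  have b1 : M.α (M.φ a) ≠ M.φ a := M.αne _ hb
  have b2 : M.α (M.φ a) ≠ a := by
    intro h
    have := congrArg M.α h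
    rw [M.αα _ hb] at this
    exact h2 this.symm
  have c : X' (M.α a) ↔ X' (M.α (M.φ a)) := by
    have := hα' (M.α a) (mem _ hαa a1 h2)
    rwa [α', if_pos rfl] at this
  by_cases x : d = a
  · subst x
    have : ¬ (M.α d = d ∨ M.α d = M.φ d) := by
      rintro (h | h)
      · exact a1 h
      · exact h2 h
    simp only [this, true_or, if_true, if_false]
  · by_cases y : d = M.φ a
    · subst y
      have : ¬ (M.α (M.φ a) = a ∨ M.α (M.φ a) = M.φ a) := by
        rintro (h | h)
        · exact b2 h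
        · exact b1 h
      simp only [this, or_true, if_true, if_false]
      exact c
    · simp only [x, y, or_self, if_false]
      by_cases u : d = M.α a
      · subst u
        simp [M.αα a ha]
      · by_cases v : d = M.α (M.φ a)
        · subst v
          simp only [M.αα _ hb, or_true, if_true]
          exact c.symm
        · have e1 : M.α d ≠ a := fun h => u (by rw [← h, M.αα d hd])
          have e2 : M.α d ≠ M.φ a := fun h => v (by rw [← h, M.αα d hd])
          simp only [e1, e2, or_self, if_false]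
          have := hα' d (mem d hd x y)
          rwa [α', if_neg u, if_neg v] at this

theorem fold_conn (M : Mp D) (a : D) (ha : a ∈ M.S) (h1 : M.φ a ≠ a) (h2 : M.α a ≠ M.φ a)
    (hl : M.Loopless) (hc : M.Conn) (hv : ¬ M.V a (M.φ (M.φ a))) :
    (M.fold a ha h1 h2).Conn := by
  classical
  intro X' hα' hφ' hex
  have hb : M.φ a ∈ M.S := M.φS a ha
  have hq : M.φ (M.φ a) ∈ M.S := M.φS _ hb
  have hαa : M.α a ∈ M.S := M.αS a ha
  have hαb : M.α (M.φ a) ∈ M.S := M.αS _ hb
  have mem : ∀ d ∈ M.S, d ≠ a → d ≠ M.φ a → d ∈ (M.fold a ha h1 h2).S := by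
    intro d hd x y
    show d ∈ (M.S.erase a).erase (M.φ a)
    simp [Finset.mem_erase, x, y, hd]
  have α' : ∀ d, (M.fold a ha h1 h2).α d = if d = M.α a then M.α (M.φ a) else
      if d = M.α (M.φ a) then M.α a else M.α d := fun _ => rfl
  have φ' : ∀ d, (M.fold a ha h1 h2).φ d = if M.φ d = a then M.φ (M.φ a) else M.φ d :=
    fun _ => rfl
  have a1 : M.α a ≠ a := M.αne a ha
  have b1 : M.α (M.φ a) ≠ M.φ a := M.αne _ hb
  have b2 : M.α (M.φ a) ≠ a := by
    intro h
    have := congrArg M.α h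
    rw [M.αα _ hb] at this
    exact h2 this.symm
  have qa : M.φ (M.φ a) ≠ a := fun h => hv (by rw [h]; exact M.V_refl a)
  have qb : M.φ (M.φ a) ≠ M.φ a := fun h => h1 (M.φinj _ hb a ha h)
  have mq := mem _ hq qa qb
  have mαa := mem _ hαa a1 h2
  have mαb := mem _ hαb b2 b1
  have vab : M.V (M.α a) (M.φ a) := M.V_αφ ha
  have vbq : M.V (M.α (M.φ a)) (M.φ (M.φ a)) := M.V_αφ hb
  have c : X' (M.α a) ↔ X' (M.α (M.φ a)) := by
    have := hα' (M.α a) mαa
    rwa [α', if_pos rfl] at this
  have step : ∀ d ∈ M.S, M.V d (M.φ (M.φ a)) → d ≠ M.α (M.φ a) → (X' d ↔ X' (M.σ d)) := by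
    intro d hd hdv hne
    have n1 : d ≠ a := fun h => hv (h ▸ hdv)
    have n2 : d ≠ M.φ a := fun h => hl (M.φ a) hb (M.V_trans (h ▸ hdv) (M.V_symm vbq))
    have n3 : d ≠ M.α a := fun h => hl (M.φ a) hb
      (M.V_trans (M.V_trans (M.V_symm vab) (h ▸ hdv)) (M.V_symm vbq))
    have n4 : M.φ (M.α d) ≠ a := fun h => hv (by
      have := M.V_σ hd
      unfold σ at this
      rw [h] at this
      exact M.V_trans (M.V_symm this) hdv)
    have md := mem d hd n1 n2
    have k1 := hα' d md
    have k2 := hφ' _ ((M.fold a ha h1 h2).αS d md)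
    rw [α', if_neg n3, if_neg hne] at k1 k2
    rw [φ', if_neg n4] at k2
    exact k1.trans k2
  have hσ : M.σ (M.α (M.φ a)) = M.φ (M.φ a) := by
    unfold σ
    rw [M.αα _ hb]
  have c2 : X' (M.φ (M.φ a)) ↔ X' (M.α (M.φ a)) := by
    have key : ∀ Z : D → Prop, (∀ d ∈ M.S, M.V d (M.φ (M.φ a)) → d ≠ M.α (M.φ a) →
        Z d → Z (M.σ d)) → Z (M.φ (M.φ a)) → Z (M.α (M.φ a)) := by
      intro Z hZ hq'
      by_contra hn
      have := M.σback (fun d => M.V d (M.φ (M.φ a)) ∧ Z d) (by
        rintro d hd ⟨k1, k2⟩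
        have hne : d ≠ M.α (M.φ a) := fun h => hn (h ▸ k2)
        exact ⟨M.V_trans (M.V_symm (M.V_σ hd)) k1, hZ d hd k1 hne k2⟩) hαb
        (by rw [hσ]; exact ⟨M.V_refl _, hq'⟩)
      exact hn this.2
    constructor
    · exact key X' (fun d hd k1 k2 k3 => (step d hd k1 k2).mp k3)
    · intro h
      by_contra hn
      exact key (fun d => ¬ X' d) (fun d hd k1 k2 k3 k4 => k3 ((step d hd k1 k2).mpr k4)) hn h
  obtain ⟨p, hp, hpa⟩ := M.φsurj ha
  have pa : p ≠ a := fun h => h1 (by rw [← h, hpa, h])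
  have pb : p ≠ M.φ a := fun h => qa (by rw [← h, hpa])
  have c3 : X' p ↔ X' (M.φ (M.φ a)) := by
    have := hφ' p (mem p hp pa pb)
    rwa [φ', if_pos hpa] at this
  have all := hc (fun d => if d = a ∨ d = M.φ a then X' (M.α a) else X' d)
    (fun d hd => fold_aux M a ha h1 h2 X' hα' d hd) (by
      intro d hd
      by_cases x : d = a
      · subst x; simp
      · by_cases y : d = M.φ a
        · subst y
          simp only [qa, qb, or_true, or_self, if_true, if_false]
          exact c.trans c2.symm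
        · simp only [x, y, or_self, if_false]
          by_cases e1 : M.φ d = a
          · have : d = p := M.φinj d hd p hp (e1.trans hpa.symm)
            subst this
            simp only [e1, true_or, if_true]
            exact c3.trans (c2.trans c.symm)
          · have e2 : M.φ d ≠ M.φ a := fun h => x (M.φinj d hd a ha h)
            simp only [e1, e2, or_self, if_false]
            have := hφ' d (mem d hd x y)
            rwa [φ', if_neg e1] at this) (by
      obtain ⟨d, hd, hx⟩ := hex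
      have hd1 : d ∈ (M.S.erase a).erase (M.φ a) := hd
      simp only [Finset.mem_erase] at hd1
      refine ⟨d, hd1.2.2, ?_⟩
      simp only [hd1.1, hd1.2.1, or_self, if_false]
      exact hx)
  intro d hd
  have hd1 : d ∈ (M.S.erase a).erase (M.φ a) := hd
  simp only [Finset.mem_erase] at hd1
  have := all d hd1.2.2
  simpa only [hd1.1, hd1.2.1, or_self, if_false] using this

theorem fold_conn_digon (M : Mp D) (a : D) (ha : a ∈ M.S) (h1 : M.φ a ≠ a)
    (h2 : M.α a ≠ M.φ a) (hc : M.Conn) (h3 : M.φ (M.φ a) = a) :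
    (M.fold a ha h1 h2).Conn := by
  classical
  intro X' hα' hφ' hex
  have hb : M.φ a ∈ M.S := M.φS a ha
  have mem : ∀ d ∈ M.S, d ≠ a → d ≠ M.φ a → d ∈ (M.fold a ha h1 h2).S := by
    intro d hd x y
    show d ∈ (M.S.erase a).erase (M.φ a)
    simp [Finset.mem_erase, x, y, hd]
  have φ' : ∀ d, (M.fold a ha h1 h2).φ d = if M.φ d = a then M.φ (M.φ a) else M.φ d :=
    fun _ => rfl
  have all := hc (fun d => if d = a ∨ d = M.φ a then X' (M.α a) else X' d)
    (fun d hd => fold_aux M a ha h1 h2 X' hα' d hd) (by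
      intro d hd
      by_cases x : d = a
      · subst x; simp
      · by_cases y : d = M.φ a
        · subst y; simp [h3]
        · simp only [x, y, or_self, if_false]
          have e1 : M.φ d ≠ a := fun h => y (M.φinj d hd _ hb (h.trans h3.symm))
          have e2 : M.φ d ≠ M.φ a := fun h => x (M.φinj d hd a ha h)
          simp only [e1, e2, or_self, if_false]
          have := hφ' d (mem d hd x y)
          rwa [φ', if_neg e1] at this) (by
      obtain ⟨d, hd, hx⟩ := hex
      have hd1 : d ∈ (M.S.erase a).erase (M.φ a) := hd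
      simp only [Finset.mem_erase] at hd1
      refine ⟨d, hd1.2.2, ?_⟩
      simp only [hd1.1, hd1.2.1, or_self, if_false]
      exact hx)
  intro d hd
  have hd1 : d ∈ (M.S.erase a).erase (M.φ a) := hd
  simp only [Finset.mem_erase] at hd1
  have := all d hd1.2.2
  simpa only [hd1.1, hd1.2.1, or_self, if_false] using this

end Mp
end TwoPlane
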