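import Pool.Agent.Work.MP_3b7449_co.TP.FoldV

/-!
# FoldL (size S-M): a fold keeps the map loopless

`b = φ a`, `q = φ b`, `V (α a) b`, `V (α b) q`.  Let `d` be in `M'.S` with `V' d (α' d)`; use
`fold_V'`.
* `d = α a` (`α' d = α b`) or `d = α b` (`α' d = α a`): `V (α a) (α b)` would give `V b q`,
  hence `V b (α b)`, a loop; `V (α a) a` is a loop; `V (α a) q` gives `V b q` again.
* otherwise `α' d = α d`: `V d (α d)` is a loop; `d, α d` both in the class of `a`, or both in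
  the class of `q`: loop; `V d a ∧ V (α d) q` contradicts `Free` at `d`, and
  `V d q ∧ V (α d) a` contradicts `Free` at `α d` (`α (α d) = d`).
In the digon case `q = a` the last two cases are loops too.
-/

namespace TwoPlane
namespace Mp

variable {D : Type} [DecidableEq D]

private theorem foldL_core (M : Mp D) (a : D) (ha : a ∈ M.S) (h1 : M.φ a ≠ a)
    (h2 : M.α a ≠ M.φ a) (hl : M.Loopless)
    (hf : ∀ d ∈ M.S, ¬ (M.V d a ∧ M.V (M.α d) (M.φ (M.φ a)))) :
    (M.fold a ha h1 h2).Loopless := by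
  intro d hd hV
  have hb : M.φ a ∈ M.S := M.φS a ha
  have hd3 : d ∈ M.S := Finset.mem_of_mem_erase (Finset.mem_of_mem_erase hd)
  have va : M.V (M.α a) (M.φ a) := M.V_αφ ha
  have vb : M.V (M.α (M.φ a)) (M.φ (M.φ a)) := M.V_αφ hb
  have hbq : ¬ M.V (M.φ a) (M.φ (M.φ a)) := fun h => hl _ hb (M.V_trans h (M.V_symm vb))
  have hV' := fold_V' M a ha h1 h2 hV
  change M.V d (if d = M.α a then M.α (M.φ a) else if d = M.α (M.φ a) then M.α a else M.α d) ∨
    ((M.V d a ∨ M.V d (M.φ (M.φ a))) ∧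
      (M.V (if d = M.α a then M.α (M.φ a) else if d = M.α (M.φ a) then M.α a else M.α d) a ∨
        M.V (if d = M.α a then M.α (M.φ a) else if d = M.α (M.φ a) then M.α a else M.α d)
          (M.φ (M.φ a)))) at hV'
  have key1 : ¬ M.V (M.α a) (M.α (M.φ a)) := fun h =>
    hbq (M.V_trans (M.V_symm va) (M.V_trans h vb))
  have key2 : ¬ M.V (M.α a) a := fun h => hl a ha (M.V_symm h)
  have key3 : ¬ M.V (M.α a) (M.φ (M.φ a)) := fun h => hbq (M.V_trans (M.V_symm va) h)
  split_ifs at hV' with k1 k2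
  · rw [k1] at hV'
    rcases hV' with h | ⟨h | h, _⟩
    · exact key1 h
    · exact key2 h
    · exact key3 h
  · rcases hV' with h | ⟨_, h | h⟩
    · rw [k2] at h
      exact key1 (M.V_symm h)
    · exact key2 h
    · exact key3 h
  · rcases hV' with h | ⟨h | h, h' | h'⟩
    · exact hl d hd3 h
    · exact hl d hd3 (M.V_trans h (M.V_symm h'))
    · exact hf d hd3 ⟨h, h'⟩
    · refine hf (M.α d) (M.αS d hd3) ⟨h', ?_⟩
      rw [M.αα d hd3]
      exact h
    · exact hl d hd3 (M.V_trans h (M.V_symm h'))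

theorem fold_loopless (M : Mp D) (a : D) (ha : a ∈ M.S) (h1 : M.φ a ≠ a)
    (h2 : M.α a ≠ M.φ a) (hl : M.Loopless) (hf : M.Free a (M.φ (M.φ a))) :
    (M.fold a ha h1 h2).Loopless :=
  foldL_core M a ha h1 h2 hl hf.2

theorem fold_loopless_digon (M : Mp D) (a : D) (ha : a ∈ M.S) (h1 : M.φ a ≠ a)
    (h2 : M.α a ≠ M.φ a) (hl : M.Loopless) (h3 : M.φ (M.φ a) = a) :
    (M.fold a ha h1 h2).Loopless := by
  refine foldL_core M a ha h1 h2 hl ?_
  rintro d hd ⟨h, h'⟩
  rw [h3] at h'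
  exact hl d hd (M.V_trans h (M.V_symm h'))

end Mp
end TwoPlane
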