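import Pool.Agent.Work.MP_3b7449_co.TP.Defs

/-!
# FoldP (size M): a fold keeps the homological planarity

`b = φ a`, `q = φ b`, `M' = M.fold a ..`.  `q ≠ b`; `φ (α a) ≠ b` and `φ (α b) ≠ b` (as `φ a = b`
and `φ` is injective, `α a ≠ a`, `α b ≠ a`).  Let `g'` be balanced on `M'`.  Define `g` on `D`:
`g a = g' q`, `g b = g' (α b) + g' q + g' (φ' (α b))`, `g d = g' d` otherwise (if `q = a`, i.e.
for a digon, `g' q = g' a` is just some value).
1. `g q = g a` (clear if `q = a`; otherwise `q` is not `a`, `b`).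
2. `g (φ d) = g' (φ' d)` for all `d` in `M'.S` (if `φ d = a` both sides are `g' q`; `φ d = b`
   is impossible, since `d ≠ a`).  `α a`, `α b` are in `M'.S`.
3. Balance at `b` (and at `α b`): `g b + g (α b) + g (φ b) + g (φ (α b)) =
   (g' (α b) + g' q + g' (φ' (α b))) + g' (α b) + g' q + g' (φ' (α b)) = 0`.
   Balance at `a` (and at `α a`): `g a + g (α a) + g b + g (φ (α a)) =
   g' (α a) + g' (α b) + g' (φ' (α a)) + g' (φ' (α b)) = 0`, the balance of `g'` at `α a`
   (`α' (α a) = α b`).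
   Other `d`: `α' d = α d`, clear by 2.
4. `g = f + h` on `M.S`.  `h a = h q`: `g a = g q`, `f a = f b = f q`.
5. `f`, `h` work for `M'`: `f (φ' d) = f d` (if `φ d = a`: `f q = f b = f a = f d`);
   `h (σ' d) = h d`, `σ' d = φ' (α' d)`: for `d = α a`: `σ' d = σ b` or (if `φ (α b) = a`) `q`;
   `h (α a) = h (σ (α a)) = h b = h (σ b)`, and if `σ b = a` then `h b = h a = h q`.
   For `d = α b`: `σ' d = σ a` or (if `σ a = a`) `q`; `h (α b) = h (σ (α b)) = h q = h a = h (σ a)`.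
   Otherwise `σ' d = σ d` or (if `σ d = a`) `q`, and `h q = h a`.
-/

namespace TwoPlane
namespace Mp

variable {D : Type} [DecidableEq D]

theorem fold_planar (M : Mp D) (a : D) (ha : a ∈ M.S) (h1 : M.φ a ≠ a)
    (h2 : M.α a ≠ M.φ a) (hp : M.Planar) : (M.fold a ha h1 h2).Planar := by
  intro g' hg'
  have two : (2 : ZMod 2) = 0 := by decide
  have hb : M.φ a ∈ M.S := M.φS a ha
  have hq : M.φ (M.φ a) ∈ M.S := M.φS _ hb
  have hqb : M.φ (M.φ a) ≠ M.φ a := fun h => h1 (M.φinj _ hb a ha h)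
  have hαab : M.α (M.φ a) ≠ M.α a := by
    intro h
    have h3 := congrArg M.α h
    rw [M.αα _ hb, M.αα _ ha] at h3
    exact h1 h3
  have hαba : M.α (M.φ a) ≠ a := by
    intro h
    have h3 := congrArg M.α h
    rw [M.αα _ hb] at h3
    exact h2 h3.symm
  have hmem : ∀ d, d ∈ (M.fold a ha h1 h2).S ↔ d ∈ M.S ∧ d ≠ a ∧ d ≠ M.φ a := by
    intro d
    change d ∈ (M.S.erase a).erase (M.φ a) ↔ _
    rw [Finset.mem_erase, Finset.mem_erase]
    tauto
  have ma : M.α a ∈ (M.fold a ha h1 h2).S := (hmem _).2 ⟨M.αS a ha, M.αne a ha, h2⟩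
  have mb : M.α (M.φ a) ∈ (M.fold a ha h1 h2).S :=
    (hmem _).2 ⟨M.αS _ hb, hαba, M.αne _ hb⟩
  have fφ : ∀ z, (M.fold a ha h1 h2).φ z = if M.φ z = a then M.φ (M.φ a) else M.φ z :=
    fun z => rfl
  have fα : ∀ z, (M.fold a ha h1 h2).α z =
    if z = M.α a then M.α (M.φ a) else if z = M.α (M.φ a) then M.α a else M.α z := fun z => rfl
  have fσ : ∀ z, (M.fold a ha h1 h2).σ z = (M.fold a ha h1 h2).φ ((M.fold a ha h1 h2).α z) :=
    fun z => rfl
  set φ' := (M.fold a ha h1 h2).φ with hφ'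
  set α' := (M.fold a ha h1 h2).α with hα'
  -- the extension
  obtain ⟨g, hg⟩ : ∃ g : D → ZMod 2, g = fun d => if d = a then g' (M.φ (M.φ a)) else
    if d = M.φ a then g' (M.α (M.φ a)) + g' (M.φ (M.φ a)) + g' (φ' (M.α (M.φ a))) else g' d :=
    ⟨_, rfl⟩
  have ga : g a = g' (M.φ (M.φ a)) := by rw [hg]; simp
  have gb : g (M.φ a) = g' (M.α (M.φ a)) + g' (M.φ (M.φ a)) + g' (φ' (M.α (M.φ a))) := by
    simp only [hg]
    rw [if_neg h1]
    simp
  have go : ∀ d, d ≠ a → d ≠ M.φ a → g d = g' d := by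
    intro d h3 h4
    simp only [hg]
    rw [if_neg h3, if_neg h4]
  have gq : g (M.φ (M.φ a)) = g a := by
    by_cases h3 : M.φ (M.φ a) = a
    · rw [h3]
    · rw [go _ h3 hqb, ga]
  have g2 : ∀ d ∈ (M.fold a ha h1 h2).S, g (M.φ d) = g' (φ' d) := by
    intro d hd
    have hd' := (hmem d).1 hd
    rw [fφ d]
    split_ifs with h3
    · rw [h3, ga]
    · exact go _ h3 (fun h4 => hd'.2.1 (M.φinj d hd'.1 a ha h4))
  have balb : g (M.φ a) + g (M.α (M.φ a)) + g (M.φ (M.φ a)) + g (M.φ (M.α (M.φ a))) = 0 := by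
    rw [gb, go (M.α (M.φ a)) hαba (M.αne _ hb), gq, ga, g2 _ mb]
    linear_combination (g' (M.α (M.φ a)) + g' (M.φ (M.φ a)) + g' (φ' (M.α (M.φ a)))) * two
  have bala : g a + g (M.α a) + g (M.φ a) + g (M.φ (M.α a)) = 0 := by
    have h3 := hg' _ ma
    have h4 : α' (M.α a) = M.α (M.φ a) := by rw [fα]; simp
    rw [h4] at h3
    rw [gb, go (M.α a) (M.αne a ha) h2, ga, g2 _ ma]
    linear_combination h3 + g' (M.φ (M.φ a)) * two
  have hbal : ∀ d ∈ M.S, g d + g (M.α d) + g (M.φ d) + g (M.φ (M.α d)) = 0 := by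
    intro d hd
    by_cases d1 : d = a
    · rw [d1]; exact bala
    by_cases d2 : d = M.φ a
    · rw [d2]; exact balb
    by_cases d3 : d = M.α a
    · rw [d3, M.αα a ha]
      linear_combination bala
    by_cases d4 : d = M.α (M.φ a)
    · rw [d4, M.αα _ hb]
      linear_combination balb
    have md : d ∈ (M.fold a ha h1 h2).S := (hmem d).2 ⟨hd, d1, d2⟩
    have e1 : M.α d ≠ a := by
      intro h
      have h3 := congrArg M.α h
      rw [M.αα d hd] at h3
      exact d3 h3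
    have e2 : M.α d ≠ M.φ a := by
      intro h
      have h3 := congrArg M.α h
      rw [M.αα d hd] at h3
      exact d4 h3
    have md' : M.α d ∈ (M.fold a ha h1 h2).S := (hmem _).2 ⟨M.αS d hd, e1, e2⟩
    have h3 := hg' d md
    have h4 : α' d = M.α d := by rw [fα, if_neg d3, if_neg d4]
    rw [h4] at h3
    rw [go d d1 d2, go _ e1 e2, g2 d md, g2 _ md']
    exact h3
  obtain ⟨f, h, hf, hh, hfh⟩ := hp g hbal
  have faq : f (M.φ (M.φ a)) = f a := by rw [hf _ hb, hf _ ha]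
  have haq : h (M.φ (M.φ a)) = h a := by
    have k1 := hfh a ha
    have k2 := hfh _ hq
    rw [gq, faq, k1] at k2
    exact (add_left_cancel k2).symm
  have hαa : h (M.α a) = h (M.φ a) := by
    have k1 := hh (M.α a) (M.αS a ha)
    unfold σ at k1
    rw [M.αα a ha] at k1
    exact k1.symm
  have hαb : h (M.α (M.φ a)) = h (M.φ (M.φ a)) := by
    have k1 := hh (M.α (M.φ a)) (M.αS _ hb)
    unfold σ at k1
    rw [M.αα _ hb] at k1
    exact k1.symm
  have hpost : ∀ z, h (φ' z) = h (M.φ z) := by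
    intro z
    rw [fφ z]
    split_ifs with h3
    · rw [haq, h3]
    · rfl
  refine ⟨f, h, ?_, ?_, ?_⟩
  · intro d hd
    have hd' := (hmem d).1 hd
    rw [fφ d]
    split_ifs with h3
    · rw [faq, ← hf d hd'.1, h3]
    · exact hf d hd'.1
  · intro d hd
    have hd' := (hmem d).1 hd
    rw [fσ d, hpost, fα d]
    split_ifs with h3 h4
    · rw [h3, hαa]
      exact hh _ hb
    · rw [h4, hαb, haq]
      exact hh a ha
    · exact hh d hd'.1
  · intro d hd
    have hd' := (hmem d).1 hd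
    rw [← go d hd'.2.1 hd'.2.2]
    exact hfh d hd'.1

end Mp
end TwoPlane
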