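import Pool.Agent.Work.MP_3b7449_co.TP.FoldV
import Pool.Agent.Work.MP_3b7449_co.TP.DelV

/-!
# RedL (size M): reductions and links

* `red_del`: `Red.hV` from `del_V`, `V_Lnk`; `α' = α`.
* `red_fold`: `hV` is `fold_V`; `hα`: for `r = α a`: `α' r = α b` (`b = φ a`), and
  `α a = r`, link `(r, α r) = (α a, a)`, `a ~ q = φ b` by the link, `q ~ α b` (`V (α b) q`).
  For `r = α b`: `α' r = α a`; `r = α b ~ (link) α r = b ~ α a` (`V (α a) b`).
  Otherwise `α' r = α r`.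
* `red_trans`: `Lnk_le` for `M'.Lnk` into `M.Lnk (..)`.
* `red_use`: `Lnk_le` again: `M'.σ`-steps by `hV`, `R`-steps, and the step `(r, M'.α r)` by `hα`.
* `fold_cov`: `b ~ α a` (`V (α a) b`), `a ~ q ~ α b`; `α a`, `α b` are in `M'.S`.
* `del_cov`: `σ r = φ (α r)`, `σ (α r) = φ r` are in `M'.S` (loopless; `Y` separates the faces).
-/

namespace TwoPlane
namespace Mp

variable {D : Type} [DecidableEq D]

theorem red_del (M : Mp D) (r : D) (hr : r ∈ M.S) (hl : M.Loopless) :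
    M.Red (M.del r hr hl) (fun _ _ => False) where
  sub := fun d hd => Finset.mem_of_mem_erase (Finset.mem_of_mem_erase hd)
  hV := fun x y h => M.V_Lnk (M.del_V r hr hl h)
  hα := fun x _ => M.Lnk_of (Or.inr ⟨rfl, rfl⟩)

theorem red_fold (M : Mp D) (a : D) (ha : a ∈ M.S) (h1 : M.φ a ≠ a) (h2 : M.α a ≠ M.φ a) :
    M.Red (M.fold a ha h1 h2) (fun x y => x = a ∧ y = M.φ (M.φ a)) where
  sub := fun d hd => Finset.mem_of_mem_erase (Finset.mem_of_mem_erase hd)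
  hV := fun x y h => M.fold_V a ha h1 h2 h
  hα := by
    intro r hr
    have hb : M.φ a ∈ M.S := M.φS a ha
    have vab : M.V (M.α a) (M.φ a) := M.V_αφ ha
    have vbq : M.V (M.α (M.φ a)) (M.φ (M.φ a)) := M.V_αφ hb
    have hα' : (M.fold a ha h1 h2).α r = if r = M.α a then M.α (M.φ a) else
      if r = M.α (M.φ a) then M.α a else M.α r := rfl
    rw [hα']
    split_ifs with k1 k2
    · have e2 : M.α r = a := by rw [k1, M.αα a ha]
      have key : ∀ L : D → D → Prop, L a (M.φ (M.φ a)) → L r (M.α r) →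
          M.Lnk L r (M.α (M.φ a)) := by
        intro L l1 l2
        have e1 := M.Lnk_of l2
        rw [e2] at e1
        exact M.Lnk_trans (M.Lnk_trans e1 (M.Lnk_of l1)) (M.V_Lnk (M.V_symm vbq))
      exact key _ (Or.inl ⟨rfl, rfl⟩) (Or.inr ⟨rfl, rfl⟩)
    · have e2 : M.α r = M.φ a := by rw [k2, M.αα _ hb]
      have key : ∀ L : D → D → Prop, L r (M.α r) → M.Lnk L r (M.α a) := by
        intro L l2
        have e1 := M.Lnk_of l2
        rw [e2] at e1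
        exact M.Lnk_trans e1 (M.V_Lnk (M.V_symm vab))
      exact key _ (Or.inr ⟨rfl, rfl⟩)
    · exact M.Lnk_of (Or.inr ⟨rfl, rfl⟩)

theorem red_mono {M M' : Mp D} {L L' : D → D → Prop} (h : M.Red M' L)
    (h' : ∀ x y, L x y → L' x y) : M.Red M' L' where
  sub := h.sub
  hV := fun x y hxy => M.Lnk_le (M.Lnk_equiv L') (fun a ha => M.V_Lnk (M.V_σ ha))
    (fun a b hab => M.Lnk_of (h' a b hab)) (h.hV x y hxy)
  hα := fun r hr => M.Lnk_le (M.Lnk_equiv _) (fun a ha => M.V_Lnk (M.V_σ ha))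
    (fun a b hab => by
      rcases hab with hab | hab
      · exact M.Lnk_of (Or.inl (h' a b hab))
      · exact M.Lnk_of (Or.inr hab)) (h.hα r hr)

theorem red_lnk {M M' : Mp D} {L L' : D → D → Prop} (h : M.Red M' L) {x y : D}
    (hL : M'.Lnk L' x y) : M.Lnk (fun x y => L x y ∨ L' x y) x y := by
  refine M'.Lnk_le (M.Lnk_equiv _) ?_ ?_ hL
  · intro a ha
    exact M.Lnk_le (M.Lnk_equiv _) (fun a ha => M.V_Lnk (M.V_σ ha))
      (fun a b hab => M.Lnk_of (Or.inl hab)) (h.hV _ _ (M'.V_σ ha))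
  · intro a b hab
    exact M.Lnk_of (Or.inr hab)

theorem red_use {M M' : Mp D} {L : D → D → Prop} (h : M.Red M' L) (R : D → D → Prop) (r : D)
    (hr : r ∈ M'.S) {x y : D}
    (hL : M'.Lnk (fun x y => R x y ∨ (x = r ∧ y = M'.α r)) x y) :
    M.Lnk (fun x y => (R x y ∨ L x y) ∨ (x = r ∧ y = M.α r)) x y := by
  refine M'.Lnk_le (M.Lnk_equiv _) ?_ ?_ hL
  · intro a ha
    exact M.Lnk_le (M.Lnk_equiv _) (fun a ha => M.V_Lnk (M.V_σ ha))
      (fun a b hab => M.Lnk_of (Or.inl (Or.inr hab))) (h.hV _ _ (M'.V_σ ha))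
  · intro a b hab
    rcases hab with hab | ⟨rfl, rfl⟩
    · exact M.Lnk_of (Or.inl (Or.inl hab))
    · refine M.Lnk_le (M.Lnk_equiv _) (fun a ha => M.V_Lnk (M.V_σ ha)) ?_ (h.hα _ hr)
      intro u v huv
      rcases huv with huv | huv
      · exact M.Lnk_of (Or.inl (Or.inr huv))
      · exact M.Lnk_of (Or.inr huv)

theorem red_trans {M M' M'' : Mp D} {L L' : D → D → Prop} (h : M.Red M' L)
    (h' : M'.Red M'' L') : M.Red M'' (fun x y => L x y ∨ L' x y) where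
  sub := fun d hd => h.sub (h'.sub hd)
  hV := fun x y hxy => red_lnk h (h'.hV x y hxy)
  hα := by
    intro r hr
    refine M'.Lnk_le (M.Lnk_equiv _) ?_ ?_ (h'.hα r hr)
    · intro a ha
      exact M.Lnk_le (M.Lnk_equiv _) (fun a ha => M.V_Lnk (M.V_σ ha))
        (fun a b hab => M.Lnk_of (Or.inl (Or.inl hab))) (h.hV _ _ (M'.V_σ ha))
    · intro a b hab
      rcases hab with hab | ⟨rfl, rfl⟩
      · exact M.Lnk_of (Or.inl (Or.inr hab))
      · refine M.Lnk_le (M.Lnk_equiv _) (fun a ha => M.V_Lnk (M.V_σ ha)) ?_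
          (h.hα _ (h'.sub hr))
        intro u v huv
        rcases huv with huv | huv
        · exact M.Lnk_of (Or.inl (Or.inl huv))
        · exact M.Lnk_of (Or.inr huv)

theorem fold_cov (M : Mp D) (a : D) (ha : a ∈ M.S) (h1 : M.φ a ≠ a) (h2 : M.α a ≠ M.φ a)
    (x : D) (hx : x ∈ M.S) :
    ∃ y ∈ (M.fold a ha h1 h2).S, M.Lnk (fun x y => x = a ∧ y = M.φ (M.φ a)) x y := by
  have hb : M.φ a ∈ M.S := M.φS a ha
  have mem : ∀ d ∈ M.S, d ≠ a → d ≠ M.φ a → d ∈ (M.fold a ha h1 h2).S := by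
    intro d hd x y
    show d ∈ (M.S.erase a).erase (M.φ a)
    simp [Finset.mem_erase, x, y, hd]
  have vab : M.V (M.α a) (M.φ a) := M.V_αφ ha
  have vbq : M.V (M.α (M.φ a)) (M.φ (M.φ a)) := M.V_αφ hb
  have b2 : M.α (M.φ a) ≠ a := by
    intro h
    have := congrArg M.α h
    rw [M.αα _ hb] at this
    exact h2 this.symm
  by_cases k1 : x = a
  · subst k1
    exact ⟨M.α (M.φ x), mem _ (M.αS _ hb) b2 (M.αne _ hb),
      M.Lnk_trans (M.Lnk_of ⟨rfl, rfl⟩) (M.V_Lnk (M.V_symm vbq))⟩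
  · by_cases k2 : x = M.φ a
    · subst k2
      exact ⟨M.α a, mem _ (M.αS _ ha) (M.αne _ ha) h2, M.V_Lnk (M.V_symm vab)⟩
    · exact ⟨x, mem x hx k1 k2, M.Lnk_refl _ x⟩

theorem del_cov (M : Mp D) (r : D) (hr : r ∈ M.S) (hl : M.Loopless) (Y : D → Prop)
    (hY : ∀ d ∈ M.S, (Y d ↔ Y (M.φ d))) (h1 : Y r) (h2 : ¬ Y (M.α r)) (x : D)
    (hx : x ∈ M.S) : ∃ y ∈ (M.del r hr hl).S, M.V x y := by
  have hαr : M.α r ∈ M.S := M.αS r hr
  have mem : ∀ d ∈ M.S, d ≠ r → d ≠ M.α r → d ∈ (M.del r hr hl).S := by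
    intro d hd a b
    show d ∈ (M.S.erase r).erase (M.α r)
    simp [Finset.mem_erase, a, b, hd]
  have v1 : M.V (M.α r) (M.φ r) := M.V_αφ hr
  have v2 : M.V r (M.φ (M.α r)) := M.V_σ hr
  have n1 : M.φ r ≠ r := fun h => hl r hr (by rw [h] at v1; exact M.V_symm v1)
  have n2 : M.φ (M.α r) ≠ M.α r := fun h => hl r hr (by rw [h] at v2; exact v2)
  have Yn : Y (M.φ r) := (hY r hr).mp h1
  have Yn' : ¬ Y (M.φ (M.α r)) := fun h => h2 ((hY _ hαr).mpr h)
  by_cases k1 : x = r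
  · subst k1
    exact ⟨M.φ (M.α x), mem _ (M.φS _ hαr) (fun h => Yn' (by rw [h]; exact h1)) n2, v2⟩
  · by_cases k2 : x = M.α r
    · subst k2
      exact ⟨M.φ r, mem _ (M.φS _ hr) n1 (fun h => h2 (h ▸ Yn)), v1⟩
    · exact ⟨x, mem x hx k1 k2, M.V_refl x⟩

end Mp
end TwoPlane
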