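import Pool.Agent.Work.MP_3b7449_co.TP.DelP
import Pool.Agent.Work.MP_3b7449_co.TP.DelC
import Pool.Agent.Work.MP_3b7449_co.TP.FoldL
import Pool.Agent.Work.MP_3b7449_co.TP.FoldP
import Pool.Agent.Work.MP_3b7449_co.TP.FoldC
import Pool.Agent.Work.MP_3b7449_co.TP.RedL

/-!
# Ex (size S-M): the operations, bundled

Just collect the previous modules.  In `fold_ex`: `φ a ≠ a` by looplessness (`V (α a) (φ a)`),
and `α a ≠ φ a` because otherwise `α (φ a) = a` and `V (α (φ a)) (φ (φ a))` contradicts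
`Free.1`.  In `del_ex_pend`: the darts different from `r`, `α r` are in `M'.S`, and
`V r (φ (α r))` with `φ (α r)` in `M'.S` (`φ (α r) ≠ α r` by looplessness, `≠ r` by hypothesis).
-/

namespace TwoPlane
namespace Mp

variable {D : Type} [DecidableEq D]

theorem fold_ex (M : Mp D) (hM : M.Pcl) (a : D) (ha : a ∈ M.S) (hf : M.Free a (M.φ (M.φ a))) :
    ∃ M' : Mp D, M'.Pcl ∧ M'.S = (M.S.erase a).erase (M.φ a) ∧
      (∀ d, M'.φ d = if M.φ d = a then M.φ (M.φ a) else M.φ d) ∧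
      (∀ d, M'.α d = if d = M.α a then M.α (M.φ a) else
        if d = M.α (M.φ a) then M.α a else M.α d) ∧
      M.Red M' (fun x y => x = a ∧ y = M.φ (M.φ a)) ∧
      (∀ x y, M'.V x y →
        M.V x y ∨ ((M.V x a ∨ M.V x (M.φ (M.φ a))) ∧ (M.V y a ∨ M.V y (M.φ (M.φ a))))) ∧
      (∀ x ∈ M.S, ∃ y ∈ M'.S, M.Lnk (fun x y => x = a ∧ y = M.φ (M.φ a)) x y) := by
  have hl := hM.loopless
  have hb := M.φS a ha
  have h1 : M.φ a ≠ a := by
    intro h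
    have v := M.V_αφ ha
    rw [h] at v
    exact hl a ha (M.V_symm v)
  have h2 : M.α a ≠ M.φ a := by
    intro h
    have v := M.V_αφ hb
    rw [← h, M.αα a ha, h] at v
    exact hf.1 v
  exact ⟨M.fold a ha h1 h2, ⟨M.fold_planar a ha h1 h2 hM.planar,
      M.fold_conn a ha h1 h2 hl hM.conn hf.1, M.fold_loopless a ha h1 h2 hl hf⟩, rfl,
    fun _ => rfl, fun _ => rfl, M.red_fold a ha h1 h2, fun _ _ h => M.fold_V' a ha h1 h2 h,
    M.fold_cov a ha h1 h2⟩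

theorem fold_ex_digon (M : Mp D) (hM : M.Pcl) (a : D) (ha : a ∈ M.S) (h : M.L2 a)
    (h2 : M.α a ≠ M.φ a) :
    ∃ M' : Mp D, M'.Pcl ∧ M'.S = (M.S.erase a).erase (M.φ a) ∧
      (∀ d ∈ M'.S, M'.φ d = M.φ d) ∧
      M.Red M' (fun _ _ => False) ∧ (∀ x ∈ M.S, ∃ y ∈ M'.S, M.V x y) := by
  have h1 := h.1
  have hr := M.red_fold a ha h1 h2
  refine ⟨M.fold a ha h1 h2, ⟨M.fold_planar a ha h1 h2 hM.planar,
      M.fold_conn_digon a ha h1 h2 hM.conn h.2,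
      M.fold_loopless_digon a ha h1 h2 hM.loopless h.2⟩, rfl, ?_, ⟨hr.sub, ?_, ?_⟩, ?_⟩
  · intro d _
    show (if M.φ d = a then M.φ (M.φ a) else M.φ d) = M.φ d
    split_ifs with h3
    · rw [h.2, h3]
    · rfl
  · intro x y hxy
    refine M.Lnk_le (M.Lnk_equiv _) (fun a ha => M.V_Lnk (M.V_σ ha)) ?_ (hr.hV x y hxy)
    rintro u w ⟨rfl, rfl⟩
    rw [h.2]
    exact M.Lnk_refl _ _
  · intro r hrS
    refine M.Lnk_le (M.Lnk_equiv _) (fun a ha => M.V_Lnk (M.V_σ ha)) ?_ (hr.hα r hrS)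
    rintro u w (⟨rfl, rfl⟩ | huw)
    · rw [h.2]
      exact M.Lnk_refl _ _
    · exact M.Lnk_of (Or.inr huw)
  · intro x hx
    obtain ⟨y, hy, hxy⟩ := M.fold_cov a ha h1 h2 x hx
    refine ⟨y, hy, M.Lnk_le M.V_equiv (fun a ha => M.V_σ ha) ?_ hxy⟩
    rintro u w ⟨rfl, rfl⟩
    rw [h.2]
    exact M.V_refl _

theorem del_ex (M : Mp D) (hM : M.Pcl) (r : D) (hr : r ∈ M.S) (Y : D → Prop)
    (hY : ∀ d ∈ M.S, (Y d ↔ Y (M.φ d))) (h1 : Y r) (h2 : ¬ Y (M.α r)) :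
    ∃ M' : Mp D, M'.Pcl ∧ M'.S = (M.S.erase r).erase (M.α r) ∧ (∀ d, M'.α d = M.α d) ∧
      (∀ d, M'.φ d = if M.φ d = r then M.φ (M.α r) else
        if M.φ d = M.α r then M.φ r else M.φ d) ∧
      M.Red M' (fun _ _ => False) ∧ (∀ x y, M'.V x y → M.V x y) ∧
      (∀ x ∈ M.S, ∃ y ∈ M'.S, M.V x y) := by
  have hl := hM.loopless
  exact ⟨M.del r hr hl, ⟨M.del_planar r hr hl hM.planar, M.del_conn r hr hl hM.conn Y hY h1 h2,
    M.del_loopless r hr hl⟩, rfl, fun _ => rfl, fun _ => rfl, M.red_del r hr hl,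
    fun _ _ h => M.del_V r hr hl h, M.del_cov r hr hl Y hY h1 h2⟩

theorem del_ex_pend (M : Mp D) (hM : M.Pcl) (r : D) (hr : r ∈ M.S) (h : M.φ r = M.α r)
    (h' : M.φ (M.α r) ≠ r) :
    ∃ M' : Mp D, M'.Pcl ∧ M'.S = (M.S.erase r).erase (M.α r) ∧ (∀ d, M'.α d = M.α d) ∧
      (∀ d, M'.φ d = if M.φ d = r then M.φ (M.α r) else
        if M.φ d = M.α r then M.φ r else M.φ d) ∧
      M.Red M' (fun _ _ => False) ∧ (∀ x y, M'.V x y → M.V x y) ∧
      (∀ x ∈ M.S, x ≠ M.α r → ∃ y ∈ M'.S, M.V x y) := by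
  have hl := hM.loopless
  refine ⟨M.del r hr hl, ⟨M.del_planar r hr hl hM.planar, M.del_conn_pend r hr hl hM.conn h,
    M.del_loopless r hr hl⟩, rfl, fun _ => rfl, fun _ => rfl, M.red_del r hr hl,
    fun _ _ h => M.del_V r hr hl h, ?_⟩
  intro x hx hxα
  have mem : ∀ d ∈ M.S, d ≠ r → d ≠ M.α r → d ∈ (M.del r hr hl).S := by
    intro d hd a b
    show d ∈ (M.S.erase r).erase (M.α r)
    simp [Finset.mem_erase, a, b, hd]
  by_cases hxr : x = r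
  · subst hxr
    have v := M.V_σ hx
    refine ⟨M.φ (M.α x), mem _ (M.φS _ (M.αS x hx)) h' ?_, v⟩
    intro h3
    have v' : M.V x (M.φ (M.α x)) := v
    rw [h3] at v'
    exact hl x hx v'
  · exact ⟨x, mem x hx hxr hxα, M.V_refl x⟩

end Mp
end TwoPlane
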