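import Pool.Agent.Work.MP_3b7449_co.TP.FinLib

/-!
# FinA (size M): pendant vertex (position 1) in a pentagon, positions 0 and 2 are one vertex

Finite check over all pairs of equivalence relations on five points (verified by a computer
outside Lean: no exception).  Suggested proof: (1) `EqvGen (E ∪ L)` connects `J` iff
every `χ : Fin 5 → Bool` which is constant on the pairs of `E` and `L` is constant on `J`
(32 functions); (2) an equivalence relation on `Fin 5` is given by its 10 truth values, or by a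
label function (52 partitions: for `E` take `lab i = ` the least `j` with `E i j`); list the 52
label functions and prove by `decide` that every transitive choice of the 10 truth values is
one of them; (3) for a partition `p` let `mask p : Nat` have one bit for every possible set of
links of one colour (for a pentagon: `{d_i}`, `{d_i, e_i}`, `{f_i}`, `{f_i, e_i}` with
`d_i = (i+4, i+1)`, `f_i = (i, i+2)`, `e_i = (i+2, i+4)`, possibly together with the extra links)
telling whether it connects; then the statement is a check of bit masks for `52 * 52` pairs, to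
be done by `decide` with `Nat.land`, `Nat.testBit` (fast in the kernel).  Any other proof is
fine, e.g. `decide +kernel` on a well chosen Boolean function (no `native_decide`).
-/

namespace TwoPlane
namespace Mp

variable {D : Type} [DecidableEq D]

private def tp (l : List (Fin 5 × Fin 5)) : List (Bool × Fin 5 × Fin 5) :=
  l.flatMap fun x => [(true, x.1, x.2), (false, x.1, x.2)]

private def tA : List (ℕ × ℕ × ℕ × ℕ × Bool) :=
  [(63, 63, 1048575, 1048575, false), (20, 40, 802055, 248590, false), (5, 10, 508880, 933040,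
  false), (17, 34, 1048535, 1048510, false), (0, 0, 262400, 133120, false), (63, 63, 853955,
  724540, false), (20, 40, 344005, 708410, false), (20, 40, 263425, 133640, false), (5, 10,
  1033555, 998060, false), (17, 34, 261205, 848810, false), (0, 0, 1025, 520, false), (5, 10,
  328000, 657440, false), (0, 0, 65600, 524320, false), (17, 34, 66625, 524840, false), (0, 0,
  0, 0, false)]

private def tAr : List (ℕ × ℕ × ℕ × ℕ × Bool) :=
  [(63, 63, 1048575, 1048575, false), (20, 40, 802055, 248590, false), (63, 63, 508880, 933040,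
  false), (63, 63, 1048535, 1048510, false), (20, 40, 262400, 133120, false)]


theorem finA (E : Bool → Fin 5 → Fin 5 → Prop) (hE : ∀ c, Equivalence (E c))
    (h02 : ∀ c, E c 0 2) (c0 : Bool) (p q : Fin 5)
    (hpq : (p = 2 ∧ q = 3) ∨ (p = 3 ∧ q = 4) ∨ (p = 4 ∧ q = 2))
    (h : ∀ c, FinC (fun i => i ≠ 1) (E c) (fun a b => c = c0 ∧ a = p ∧ b = q)) :
    ∃ i o m, ∀ c, FinC (fun _ => True) (E c) (pst i o m c) := by
  have h' : ∃ o ∈ tp [(2, 3), (3, 4), (4, 2)], ∀ c, FinC (fun i => i ≠ 1) (E c)
      (fun a b => (a, b) ∈ FL.tl o c) := by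
    refine ⟨(c0, p, q), ?_, fun c => ?_⟩
    · rcases hpq with ⟨rfl, rfl⟩ | ⟨rfl, rfl⟩ | ⟨rfl, rfl⟩ <;> cases c0 <;> decide
    · have h1 := h c
      intro i j hi hj
      have h2 : (fun a b : Fin 5 => E c a b ∨ (a, b) ∈ FL.tl (c0, p, q) c) =
          fun a b => E c a b ∨ (c = c0 ∧ a = p ∧ b = q) := by
        funext a b
        rw [← FL.tl_spec (c0, p, q) c a b]
      rw [h2]
      exact h1 i j hi hj
  have h3 := FL.fin_rel (tp [(2, 3), (3, 4), (4, 2)]) (fun o c => FL.tl o c) 0 [2, 3, 4]
    (fun i => i ≠ 1)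
    (by decide) FL.sts FL.pl (fun _ => false) (fun p => Nat.beq (p.getD 0 0) (p.getD 2 0)) tA
    (by decide +kernel) (by decide +kernel) E hE
    (fun c p _ hp => by
      have h4 : FL.lb p 0 = FL.lb p 2 := (hp 0 2).1 (h02 c)
      show Nat.beq (FL.lb p 0) (FL.lb p 2) = true
      rw [h4]
      exact Nat.beq_refl _) h'
  rcases h3 with ⟨s, _, h4⟩ | ⟨p, _, h4, _⟩
  · refine ⟨s.1, s.2.1, s.2.2, fun c => ?_⟩
    have h5 : pst s.1 s.2.1 s.2.2 c = fun a b => (a, b) ∈ FL.pl s c := by
      funext a b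
      exact propext (FL.pl_spec s c a b)
    rw [h5]
    exact h4 c
  · exact absurd h4 (by decide)

theorem finAroot (E : Bool → Fin 5 → Fin 5 → Prop) (hE : ∀ c, Equivalence (E c))
    (h02 : ∀ c, E c 0 2) (h01 : ∀ c, E c 0 1) (c0 : Bool) (p q : Fin 5)
    (hpq : (p = 2 ∧ q = 3) ∨ (p = 3 ∧ q = 4) ∨ (p = 4 ∧ q = 2))
    (h : ∀ c, FinC (fun _ => True) (E c)
      (fun a b => (a = 2 ∧ b = 3) ∨ (c = c0 ∧ a = p ∧ b = q))) :
    ∃ i o m, ∀ c, FinC (fun _ => True) (E c) (pst i o m c) := by
  have h' : ∃ o ∈ tp [(2, 3), (3, 4), (4, 2)], ∀ c, FinC (fun _ => True) (E c)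
      (fun a b => (a, b) ∈ ((2, 3) :: FL.tl o c)) := by
    refine ⟨(c0, p, q), ?_, fun c => ?_⟩
    · rcases hpq with ⟨rfl, rfl⟩ | ⟨rfl, rfl⟩ | ⟨rfl, rfl⟩ <;> cases c0 <;> decide
    · have h1 := h c
      intro i j hi hj
      have h2 : (fun a b : Fin 5 => E c a b ∨ (a, b) ∈ ((2, 3) :: FL.tl (c0, p, q) c)) =
          fun a b => E c a b ∨ ((a = 2 ∧ b = 3) ∨ (c = c0 ∧ a = p ∧ b = q)) := by
        funext a b
        rw [List.mem_cons, ← FL.tl_spec (c0, p, q) c a b, Prod.mk.injEq]
      rw [h2]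
      exact h1 i j hi hj
  have h3 := FL.fin_rel (tp [(2, 3), (3, 4), (4, 2)]) (fun o c => (2, 3) :: FL.tl o c)
    0 [1, 2, 3, 4] (fun _ => True) (by decide) FL.sts FL.pl (fun _ => false)
    (fun p => Nat.beq (p.getD 0 0) (p.getD 2 0) && Nat.beq (p.getD 0 0) (p.getD 1 0)) tAr
    (by decide +kernel) (by decide +kernel) E hE
    (fun c p _ hp => by
      have h4 : FL.lb p 0 = FL.lb p 2 := (hp 0 2).1 (h02 c)
      have h5 : FL.lb p 0 = FL.lb p 1 := (hp 0 1).1 (h01 c)
      show (Nat.beq (FL.lb p 0) (FL.lb p 2) && Nat.beq (FL.lb p 0) (FL.lb p 1)) = true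
      rw [← h4, ← h5, Nat.beq_refl]
      rfl) h'
  rcases h3 with ⟨s, _, h4⟩ | ⟨p, _, h4, _⟩
  · refine ⟨s.1, s.2.1, s.2.2, fun c => ?_⟩
    have h5 : pst s.1 s.2.1 s.2.2 c = fun a b => (a, b) ∈ FL.pl s c := by
      funext a b
      exact propext (FL.pl_spec s c a b)
    rw [h5]
    exact h4 c
  · exact absurd h4 (by decide)

end Mp
end TwoPlane
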