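import Pool.Agent.Work.MP_3b7449_co.TP.FinLib

/-!
# FinFast : a fast kernel check for the tables of `FinLib`

A colouring of the five points by two colours is a number `n < 32` (bit `i` is the colour of the
point `i`); a set of colourings is a number below `2 ^ 32`. Links and classes connect the points of
`J` if and only if every colouring which is constant on them is constant on `J`.
-/

namespace TwoPlane
namespace Mp
namespace FL

/-- the set of colourings which agree on two points -/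
def S (a b : Fin 5) : ℕ :=
  mk (fun n => Nat.testBit n (a : ℕ) == Nat.testBit n (b : ℕ)) (List.range 32)

theorem S_spec : ∀ (a b : Fin 5) (n : Fin 32), Nat.testBit (S a b) (n : ℕ) =
    (Nat.testBit (n : ℕ) (a : ℕ) == Nat.testBit (n : ℕ) (b : ℕ)) := by
  decide +kernel

/-- the set of colourings which are constant on all links of a list -/
def ml (L : List (Fin 5 × Fin 5)) : ℕ :=
  L.foldr (fun ab acc => Nat.land (S ab.1 ab.2) acc) 4294967295

theorem ml_spec (L : List (Fin 5 × Fin 5)) (n : Fin 32) : Nat.testBit (ml L) (n : ℕ) = true ↔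
    ∀ ab ∈ L, Nat.testBit (n : ℕ) (ab.1 : ℕ) = Nat.testBit (n : ℕ) (ab.2 : ℕ) := by
  induction L with
  | nil =>
    have h : ∀ n : Fin 32, Nat.testBit 4294967295 (n : ℕ) = true := by decide +kernel
    exact ⟨fun _ ab hab => absurd hab (List.not_mem_nil), fun _ => h n⟩
  | cons ab L ih =>
    have h1 : ml (ab :: L) = S ab.1 ab.2 &&& ml L := rfl
    rw [h1, Nat.testBit_land, Bool.and_eq_true, ih, S_spec, beq_iff_eq, List.forall_mem_cons]

theorem ml_lt (L : List (Fin 5 × Fin 5)) : ml L < 2 ^ 32 := by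
  induction L with
  | nil => decide
  | cons ab L ih =>
    have h1 : ml (ab :: L) = S ab.1 ab.2 &&& ml L := rfl
    rw [h1]
    exact lt_of_le_of_lt Nat.and_le_right ih

/-- the pairs of points in one class -/
def cls (p : List ℕ) : List (Fin 5 × Fin 5) :=
  [(0, 1), (0, 2), (0, 3), (0, 4), (1, 2), (1, 3), (1, 4), (2, 3), (2, 4), (3, 4)].filter
    fun ab => Nat.beq (lb p ab.1) (lb p ab.2)

theorem mem_cls (p : List ℕ) (χ : Fin 5 → Bool) : (∀ ab ∈ cls p, χ ab.1 = χ ab.2) ↔
    ∀ i j, lb p i = lb p j → χ i = χ j := by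
  constructor
  · intro h
    have key : ∀ i j : Fin 5, i < j → lb p i = lb p j → χ i = χ j := by
      intro i j hij he
      have hin : ∀ i j : Fin 5, i < j → (i, j) ∈ ([(0, 1), (0, 2), (0, 3), (0, 4), (1, 2), (1, 3),
          (1, 4), (2, 3), (2, 4), (3, 4)] : List (Fin 5 × Fin 5)) := by
        decide
      exact h (i, j) (List.mem_filter.2 ⟨hin i j hij, by
        show Nat.beq (lb p i) (lb p j) = true
        rw [he]
        exact Nat.beq_refl _⟩)
    intro i j he
    rcases lt_trichotomy i j with h1 | h1 | h1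
    · exact key i j h1 he
    · rw [h1]
    · exact (key j i h1 he.symm).symm
  · intro h ab hab
    exact h _ _ (Nat.eq_of_beq_eq_true (List.mem_filter.1 hab).2)

/-- is the set of colourings `x` contained in `y`? -/
def kt (x y : ℕ) : Bool := Nat.beq (Nat.land x y) x

theorem bits5 : ∀ b0 b1 b2 b3 b4 : Bool, ∃ n : Fin 32, Nat.testBit (n : ℕ) 0 = b0 ∧
    Nat.testBit (n : ℕ) 1 = b1 ∧ Nat.testBit (n : ℕ) 2 = b2 ∧ Nat.testBit (n : ℕ) 3 = b3 ∧
    Nat.testBit (n : ℕ) 4 = b4 := by
  decide +kernel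

theorem exists_bits (χ : Fin 5 → Bool) : ∃ n : Fin 32, ∀ i : Fin 5, Nat.testBit (n : ℕ) (i : ℕ) = χ i := by
  obtain ⟨n, h0, h1, h2, h3, h4⟩ := bits5 (χ 0) (χ 1) (χ 2) (χ 3) (χ 4)
  refine ⟨n, fun i => ?_⟩
  fin_cases i
  · exact h0
  · exact h1
  · exact h2
  · exact h3
  · exact h4

theorem eqv_const (E L : Fin 5 → Fin 5 → Prop) (χ : Fin 5 → Bool) (hE : ∀ i j, E i j → χ i = χ j)
    (hL : ∀ i j, L i j → χ i = χ j) (i j : Fin 5)
    (h : Relation.EqvGen (fun a b => E a b ∨ L a b) i j) : χ i = χ j := by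
  induction h with
  | rel x y h =>
    rcases h with h | h
    · exact hE x y h
    · exact hL x y h
  | refl x => rfl
  | symm x y _ ih => exact ih.symm
  | trans x y z _ _ ih1 ih2 => exact ih1.trans ih2

/-- the fast test is correct -/
theorem kt_spec (p : List ℕ) (E : Fin 5 → Fin 5 → Prop) (hE : ∀ i j, E i j ↔ lb p i = lb p j)
    (L : List (Fin 5 × Fin 5)) (j0 : Fin 5) (Js : List (Fin 5)) (J : Fin 5 → Prop)
    (hJ : ∀ i, J i ↔ i ∈ j0 :: Js) (LL : Fin 5 → Fin 5 → Prop) (hL : ∀ a b, LL a b ↔ (a, b) ∈ L) :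
    FinC J E LL ↔ kt (Nat.land (ml (cls p)) (ml L)) (ml (Js.map (fun j => (j0, j)))) = true := by
  have hx : ∀ n : Fin 32, Nat.testBit (Nat.land (ml (cls p)) (ml L)) (n : ℕ) = true ↔
      ((∀ i j, E i j → Nat.testBit (n : ℕ) (i : ℕ) = Nat.testBit (n : ℕ) (j : ℕ)) ∧
        (∀ i j, LL i j → Nat.testBit (n : ℕ) (i : ℕ) = Nat.testBit (n : ℕ) (j : ℕ))) := by
    intro n
    have h1 : Nat.testBit (Nat.land (ml (cls p)) (ml L)) (n : ℕ) =
        (Nat.testBit (ml (cls p)) (n : ℕ) && Nat.testBit (ml L) (n : ℕ)) := Nat.testBit_land _ _ _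
    rw [h1, Bool.and_eq_true, ml_spec, ml_spec, mem_cls p (fun i => Nat.testBit (n : ℕ) (i : ℕ))]
    constructor
    · rintro ⟨h2, h3⟩
      exact ⟨fun i j h => h2 i j ((hE i j).1 h), fun i j h => h3 (i, j) ((hL i j).1 h)⟩
    · rintro ⟨h2, h3⟩
      exact ⟨fun i j h => h2 i j ((hE i j).2 h), fun ab h => h3 ab.1 ab.2 ((hL ab.1 ab.2).2 h)⟩
  have hy : ∀ n : Fin 32, Nat.testBit (ml (Js.map (fun j => (j0, j)))) (n : ℕ) = true ↔
      ∀ i, J i → Nat.testBit (n : ℕ) (j0 : ℕ) = Nat.testBit (n : ℕ) (i : ℕ) := by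
    intro n
    rw [ml_spec]
    constructor
    · intro h i hi
      rcases List.mem_cons.1 ((hJ i).1 hi) with h1 | h1
      · rw [h1]
      · exact h (j0, i) (List.mem_map.2 ⟨i, h1, rfl⟩)
    · intro h ab hab
      obtain ⟨j, hj, rfl⟩ := List.mem_map.1 hab
      exact h j ((hJ j).2 (List.mem_cons_of_mem _ hj))
  have hlt : Nat.land (ml (cls p)) (ml L) < 2 ^ 32 := lt_of_le_of_lt Nat.and_le_right (ml_lt L)
  have htb : ∀ k, Nat.testBit (Nat.land (Nat.land (ml (cls p)) (ml L))
      (ml (Js.map (fun j => (j0, j))))) k = (Nat.testBit (Nat.land (ml (cls p)) (ml L)) k &&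
        Nat.testBit (ml (Js.map (fun j => (j0, j)))) k) := fun k => Nat.testBit_land _ _ _
  constructor
  · intro h
    have h1 : Nat.land (Nat.land (ml (cls p)) (ml L)) (ml (Js.map (fun j => (j0, j)))) =
        Nat.land (ml (cls p)) (ml L) := by
      apply Nat.eq_of_testBit_eq
      intro k
      rw [htb]
      by_cases hk : k < 32
      · cases h3 : Nat.testBit (Nat.land (ml (cls p)) (ml L)) k
        · rfl
        · obtain ⟨h4, h5⟩ := (hx ⟨k, hk⟩).1 h3
          have h6 := (hy ⟨k, hk⟩).2 (fun i hi => eqv_const E LL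
            (fun i => Nat.testBit k (i : ℕ)) h4 h5 j0 i (h j0 i ((hJ j0).2 List.mem_cons_self) hi))
          rw [Bool.true_and]
          exact h6
      · have h3 : Nat.testBit (Nat.land (ml (cls p)) (ml L)) k = false :=
          Nat.testBit_lt_two_pow (lt_of_lt_of_le hlt
            (Nat.pow_le_pow_right (by norm_num) (not_lt.1 hk)))
        rw [h3, Bool.false_and]
    unfold kt
    rw [h1]
    exact Nat.beq_refl _
  · intro h
    classical
    have h1 : Nat.land (Nat.land (ml (cls p)) (ml L)) (ml (Js.map (fun j => (j0, j)))) =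
        Nat.land (ml (cls p)) (ml L) := Nat.eq_of_beq_eq_true h
    obtain ⟨n, hn⟩ := exists_bits
      (fun k => decide (Relation.EqvGen (fun a b => E a b ∨ LL a b) j0 k))
    have hR : ∀ x y, (E x y ∨ LL x y) → Nat.testBit (n : ℕ) (x : ℕ) = Nat.testBit (n : ℕ) (y : ℕ) := by
      intro x y hxy
      rw [hn, hn]
      apply decide_eq_decide.2
      exact ⟨fun h => Relation.EqvGen.trans _ _ _ h (Relation.EqvGen.rel _ _ hxy),
        fun h => Relation.EqvGen.trans _ _ _ h
          (Relation.EqvGen.symm _ _ (Relation.EqvGen.rel _ _ hxy))⟩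
    have h2 := (hx n).2 ⟨fun i j h => hR i j (Or.inl h), fun i j h => hR i j (Or.inr h)⟩
    rw [← h1, htb, Bool.and_eq_true] at h2
    have h3 := (hy n).1 h2.2
    have h4 : ∀ i, J i → Relation.EqvGen (fun a b => E a b ∨ LL a b) j0 i := by
      intro i hi
      have h5 := h3 i hi
      rw [hn, hn] at h5
      exact (decide_eq_decide.1 h5).1 (Relation.EqvGen.refl _)
    intro i j hi hj
    exact Relation.EqvGen.trans _ _ _ (Relation.EqvGen.symm _ _ (h4 i hi)) (h4 j hj)

theorem cnb_eq (p : List ℕ) (hp : p.length = 5) (L : List (Fin 5 × Fin 5)) (j0 : Fin 5)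
    (Js : List (Fin 5)) : cnb p (lk L) ((j0 :: Js).map (fun i : Fin 5 => (i : ℕ))) =
      kt (Nat.land (ml (cls p)) (ml L)) (ml (Js.map (fun j => (j0, j)))) := by
  rw [Bool.eq_iff_iff, ← kt_spec p (fun i j => lb p i = lb p j) (fun _ _ => Iff.rfl) L j0 Js
    (fun i => i ∈ j0 :: Js) (fun _ => Iff.rfl) (fun a b => (a, b) ∈ L) (fun _ _ => Iff.rfl)]
  exact (cnb_spec p hp (fun i j => lb p i = lb p j) (fun _ _ => Iff.rfl) L j0 Js
    (fun i => i ∈ j0 :: Js) (fun _ => Iff.rfl) (fun a b => (a, b) ∈ L) (fun _ _ => Iff.rfl)).symm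

theorem mk_map {α β : Type} (f : β → Bool) (g : α → β) (l : List α) :
    mk (fun a => f (g a)) l = mk f (l.map g) := by
  induction l with
  | nil => rfl
  | cons a l ih => rw [List.map_cons, mk_cons, mk_cons, ih]

/-- one row of the fast table: `C` is the set of colourings constant on the classes -/
def row (A1 A0 B1 B0 : List ℕ) (y z : ℕ) (C : ℕ) : ℕ × ℕ × ℕ × ℕ × Bool :=
  (mk (fun m => kt (Nat.land C m) y) A1, mk (fun m => kt (Nat.land C m) y) A0,
    mk (fun m => kt (Nat.land C m) z) B1, mk (fun m => kt (Nat.land C m) z) B0, false)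

/-- the fast form of the table of `FinLib` -/
theorem tab_fast {α β : Type} (opts : List α) (hl : α → Bool → List (Fin 5 × Fin 5)) (j0 : Fin 5)
    (Js : List (Fin 5)) (sl : List β) (sL : β → Bool → List (Fin 5 × Fin 5))
    (A1 A0 B1 B0 Cs : List ℕ) (y z : ℕ)
    (h1 : opts.map (fun o => ml (hl o true)) = A1) (h2 : opts.map (fun o => ml (hl o false)) = A0)
    (h3 : sl.map (fun s => ml (sL s true)) = B1) (h4 : sl.map (fun s => ml (sL s false)) = B0)
    (h5 : labs.map (fun p => ml (cls p)) = Cs) (h6 : ml (Js.map (fun j => (j0, j))) = y)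
    (h7 : ml (([1, 2, 3, 4] : List (Fin 5)).map (fun j => ((0 : Fin 5), j))) = z)
    (T : List (ℕ × ℕ × ℕ × ℕ × Bool)) (hT : Cs.map (row A1 A0 B1 B0 y z) = T) :
    tab opts hl ((j0 :: Js).map (fun i : Fin 5 => (i : ℕ))) sl sL (fun _ => false)
      (fun _ => true) = T := by
  subst hT h1 h2 h3 h4 h5 h6 h7
  unfold tab
  rw [List.map_map, List.filter_true]
  apply List.map_congr_left
  intro p hp
  have hl5 := labs_len p hp
  have e1 : ∀ L : List (Fin 5 × Fin 5), cnb p (lk L) [0, 1, 2, 3, 4] =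
      kt (Nat.land (ml (cls p)) (ml L))
        (ml (([1, 2, 3, 4] : List (Fin 5)).map (fun j => ((0 : Fin 5), j)))) := fun L =>
    cnb_eq p hl5 L 0 [1, 2, 3, 4]
  have e2 : ∀ (c : Bool), (fun o => cnb p (lk (hl o c)) ((j0 :: Js).map (fun i : Fin 5 => (i : ℕ)))) =
      fun o => kt (Nat.land (ml (cls p)) (ml (hl o c))) (ml (Js.map (fun j => (j0, j)))) := fun c => by
    funext o
    exact cnb_eq p hl5 (hl o c) j0 Js
  have e3 : ∀ (c : Bool), (fun s => cnb p (lk (sL s c)) [0, 1, 2, 3, 4]) =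
      fun s => kt (Nat.land (ml (cls p)) (ml (sL s c)))
        (ml (([1, 2, 3, 4] : List (Fin 5)).map (fun j => ((0 : Fin 5), j)))) := fun c => by
    funext s
    exact e1 (sL s c)
  rw [e2, e2, e3, e3]
  show _ = row _ _ _ _ _ _ (ml (cls p))
  unfold row
  rw [← mk_map, ← mk_map, ← mk_map, ← mk_map]

end FL
end Mp
end TwoPlane
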