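import Pool.Agent.Work.MP_3b7449_co.TP.Defs

/-!
# FinLib : finite checks over equivalence relations on five points
-/

namespace TwoPlane
namespace Mp
namespace FL

/-- the 52 partitions of five points, as lists of labels (least element of the class) -/
def labs : List (List ℕ) :=
  (List.range 2).flatMap fun b => (List.range 3).flatMap fun c => (List.range 4).flatMap fun d =>
    (List.range 5).flatMap fun e =>
      let p := [0, b, c, d, e]
      if p.all (fun x => Nat.beq (p.getD x 0) x) then [p] else []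

/-- merge the classes of two points -/
def mrg (p : List ℕ) (ab : ℕ × ℕ) : List ℕ :=
  p.map (fun x => bif Nat.beq x (p.getD ab.2 0) then p.getD ab.1 0 else x)

/-- do the classes of `p` and the links `L` connect the points of `J`? -/
def cnb (p : List ℕ) (L : List (ℕ × ℕ)) (J : List ℕ) : Bool :=
  J.all (fun j => Nat.beq ((L.foldl mrg p).getD j 0) ((L.foldl mrg p).getD (J.headD 0) 0))

/-- bit mask of a Boolean function on a list -/
def mk {α : Type} (f : α → Bool) (l : List α) : ℕ :=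
  l.foldr (fun a acc => 2 * acc + (bif f a then 1 else 0)) 0

theorem mk_nil {α : Type} (f : α → Bool) : mk f [] = 0 := rfl

theorem mk_cons {α : Type} (f : α → Bool) (a : α) (l : List α) :
    mk f (a :: l) = 2 * mk f l + (bif f a then 1 else 0) := rfl

theorem land_bits (x y : ℕ) (b c : Bool) :
    (2 * x + (bif b then 1 else 0)) &&& (2 * y + (bif c then 1 else 0)) =
      2 * (x &&& y) + (bif (b && c) then 1 else 0) := by
  have h : ∀ (z : ℕ) (d : Bool), 2 * z + (bif d then 1 else 0) = Nat.bit d z := by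
    intro z d
    cases d <;> simp [Nat.bit_val]
  rw [h, h, h, Nat.land_bit]

theorem mk_land {α : Type} (f g : α → Bool) (l : List α) :
    (mk f l &&& mk g l) ≠ 0 ↔ ∃ a ∈ l, f a = true ∧ g a = true := by
  induction l with
  | nil => simp [mk_nil]
  | cons a l ih =>
    rw [mk_cons, mk_cons, land_bits]
    constructor
    · intro h
      by_cases h1 : (mk f l &&& mk g l) = 0
      · rw [h1] at h
        by_cases h2 : (f a && g a) = true
        · rw [Bool.and_eq_true] at h2
          exact ⟨a, List.mem_cons_self, h2.1, h2.2⟩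
        · rw [Bool.not_eq_true] at h2
          simp [h2] at h
      · obtain ⟨b, hb, h2⟩ := ih.1 h1
        exact ⟨b, List.mem_cons_of_mem _ hb, h2⟩
    · rintro ⟨b, hb, h2, h3⟩
      rcases List.mem_cons.1 hb with rfl | hb
      · simp [h2, h3]
      · have := ih.2 ⟨b, hb, h2, h3⟩
        omega

/-- the label function of a list -/
def lb (p : List ℕ) (i : Fin 5) : ℕ := p.getD i 0

theorem lb_mrg (p : List ℕ) (hp : p.length = 5) (a b : Fin 5) (i : Fin 5) :
    lb (mrg p ((a : ℕ), (b : ℕ))) i = if lb p i = lb p b then lb p a else lb p i := by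
  unfold lb mrg
  rw [List.getD_eq_getElem _ _ (by rw [List.length_map, hp]; exact i.2), List.getElem_map]
  have h1 : p[(i : ℕ)]'(by rw [hp]; exact i.2) = p.getD (i : ℕ) 0 :=
    (List.getD_eq_getElem _ _ _).symm
  rw [h1]
  by_cases h : p.getD (i : ℕ) 0 = p.getD (b : ℕ) 0
  · rw [if_pos h, h]
    simp
  · rw [if_neg h]
    have : Nat.beq (p.getD (i : ℕ) 0) (p.getD (b : ℕ) 0) = false := by
      cases h2 : Nat.beq (p.getD (i : ℕ) 0) (p.getD (b : ℕ) 0)
      · rfl
      · exact absurd (Nat.eq_of_beq_eq_true h2) h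
    rw [this]
    rfl

theorem mrg_spec (p : List ℕ) (hp : p.length = 5) (a b : Fin 5) (E : Fin 5 → Fin 5 → Prop)
    (hE : ∀ i j, E i j ↔ lb p i = lb p j) (i j : Fin 5) :
    Relation.EqvGen (fun x y => E x y ∨ (x = a ∧ y = b)) i j ↔
      lb (mrg p ((a : ℕ), (b : ℕ))) i = lb (mrg p ((a : ℕ), (b : ℕ))) j := by
  constructor
  · intro h
    induction h with
    | rel x y h =>
      rcases h with h | ⟨rfl, rfl⟩
      · rw [lb_mrg p hp, lb_mrg p hp, (hE x y).1 h]
      · rw [lb_mrg p hp, lb_mrg p hp]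
        simp
    | refl x => rfl
    | symm x y _ ih => exact ih.symm
    | trans x y z _ _ ih1 ih2 => exact ih1.trans ih2
  · intro h
    rw [lb_mrg p hp, lb_mrg p hp] at h
    have hab : Relation.EqvGen (fun x y => E x y ∨ (x = a ∧ y = b)) a b :=
      Relation.EqvGen.rel _ _ (Or.inr ⟨rfl, rfl⟩)
    have hr : ∀ x y, lb p x = lb p y →
        Relation.EqvGen (fun x y => E x y ∨ (x = a ∧ y = b)) x y := fun x y hxy =>
      Relation.EqvGen.rel _ _ (Or.inl ((hE x y).2 hxy))
    by_cases h1 : lb p i = lb p b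
    · by_cases h2 : lb p j = lb p b
      · exact hr i j (h1.trans h2.symm)
      · rw [if_pos h1, if_neg h2] at h
        exact Relation.EqvGen.trans _ _ _ (hr i b h1)
          (Relation.EqvGen.trans _ _ _ (Relation.EqvGen.symm _ _ hab) (hr a j h))
    · by_cases h2 : lb p j = lb p b
      · rw [if_neg h1, if_pos h2] at h
        exact Relation.EqvGen.trans _ _ _ (hr i a h)
          (Relation.EqvGen.trans _ _ _ hab (hr b j h2.symm))
      · rw [if_neg h1, if_neg h2] at h
        exact hr i j h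

theorem len_mrg (p : List ℕ) (ab : ℕ × ℕ) : (mrg p ab).length = p.length := by
  unfold mrg
  rw [List.length_map]

/-- links given by a list of pairs of points -/
def lk (L : List (Fin 5 × Fin 5)) : List (ℕ × ℕ) := L.map (fun ab => ((ab.1 : ℕ), (ab.2 : ℕ)))

theorem eqv_cons (E : Fin 5 → Fin 5 → Prop) (ab : Fin 5 × Fin 5) (L : List (Fin 5 × Fin 5))
    (i j : Fin 5) :
    Relation.EqvGen (fun x y => E x y ∨ (x, y) ∈ ab :: L) i j ↔
      Relation.EqvGen (fun x y =>
        Relation.EqvGen (fun x y => E x y ∨ (x = ab.1 ∧ y = ab.2)) x y ∨ (x, y) ∈ L) i j := by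
  constructor
  · intro h
    induction h with
    | rel x y h =>
      rcases h with h | h
      · exact Relation.EqvGen.rel _ _ (Or.inl (Relation.EqvGen.rel _ _ (Or.inl h)))
      · rcases List.mem_cons.1 h with h | h
        · refine Relation.EqvGen.rel _ _ (Or.inl (Relation.EqvGen.rel _ _ (Or.inr ?_)))
          rw [← h]
          exact ⟨rfl, rfl⟩
        · exact Relation.EqvGen.rel _ _ (Or.inr h)
    | refl x => exact Relation.EqvGen.refl _
    | symm x y _ ih => exact Relation.EqvGen.symm _ _ ih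
    | trans x y z _ _ ih1 ih2 => exact Relation.EqvGen.trans _ _ _ ih1 ih2
  · intro h
    induction h with
    | rel x y h =>
      rcases h with h | h
      · induction h with
        | rel x y h =>
          rcases h with h | ⟨rfl, rfl⟩
          · exact Relation.EqvGen.rel _ _ (Or.inl h)
          · exact Relation.EqvGen.rel _ _ (Or.inr (List.mem_cons_self))
        | refl x => exact Relation.EqvGen.refl _
        | symm x y _ ih => exact Relation.EqvGen.symm _ _ ih
        | trans x y z _ _ ih1 ih2 => exact Relation.EqvGen.trans _ _ _ ih1 ih2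
      · exact Relation.EqvGen.rel _ _ (Or.inr (List.mem_cons_of_mem _ h))
    | refl x => exact Relation.EqvGen.refl _
    | symm x y _ ih => exact Relation.EqvGen.symm _ _ ih
    | trans x y z _ _ ih1 ih2 => exact Relation.EqvGen.trans _ _ _ ih1 ih2

theorem fold_spec (L : List (Fin 5 × Fin 5)) : ∀ (p : List ℕ) (hp : p.length = 5)
    (E : Fin 5 → Fin 5 → Prop) (hE : ∀ i j, E i j ↔ lb p i = lb p j) (i j : Fin 5),
    (Relation.EqvGen (fun x y => E x y ∨ (x, y) ∈ L) i j ↔
      lb ((lk L).foldl mrg p) i = lb ((lk L).foldl mrg p) j) := by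
  induction L with
  | nil =>
    intro p hp E hE i j
    constructor
    · intro h
      show lb p i = lb p j
      induction h with
      | rel x y h =>
        rcases h with h | h
        · exact (hE x y).1 h
        · simp at h
      | refl x => rfl
      | symm x y _ ih => exact ih.symm
      | trans x y z _ _ ih1 ih2 => exact ih1.trans ih2
    · intro h
      exact Relation.EqvGen.rel _ _ (Or.inl ((hE i j).2 h))
  | cons ab L ih =>
    intro p hp E hE i j
    have h1 := ih (mrg p ((ab.1 : ℕ), (ab.2 : ℕ))) (by rw [len_mrg, hp])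
      (fun x y => Relation.EqvGen (fun x y => E x y ∨ (x = ab.1 ∧ y = ab.2)) x y)
      (fun x y => mrg_spec p hp ab.1 ab.2 E hE x y) i j
    show _ ↔ lb ((lk L).foldl mrg (mrg p ((ab.1 : ℕ), (ab.2 : ℕ)))) i =
      lb ((lk L).foldl mrg (mrg p ((ab.1 : ℕ), (ab.2 : ℕ)))) j
    rw [← h1]
    exact eqv_cons E ab L i j

/-- the Boolean test is correct -/
theorem cnb_spec (p : List ℕ) (hp : p.length = 5) (E : Fin 5 → Fin 5 → Prop)
    (hE : ∀ i j, E i j ↔ lb p i = lb p j) (L : List (Fin 5 × Fin 5)) (j0 : Fin 5)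
    (Js : List (Fin 5)) (J : Fin 5 → Prop) (hJ : ∀ i, J i ↔ i ∈ j0 :: Js)
    (LL : Fin 5 → Fin 5 → Prop) (hL : ∀ a b, LL a b ↔ (a, b) ∈ L) :
    FinC J E LL ↔ cnb p (lk L) ((j0 :: Js).map (fun i : Fin 5 => (i : ℕ))) = true := by
  have hLL : LL = fun a b => (a, b) ∈ L := by
    funext a b
    exact propext (hL a b)
  subst hLL
  have key := fold_spec L p hp E hE
  unfold cnb
  rw [List.all_eq_true]
  constructor
  · intro h x hx
    obtain ⟨i, hi, rfl⟩ := List.mem_map.1 hx
    have h1 := (key i j0).1 (h i j0 ((hJ i).2 hi) ((hJ j0).2 List.mem_cons_self))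
    have h2 : ((j0 :: Js).map (fun i : Fin 5 => (i : ℕ))).headD 0 = (j0 : ℕ) := rfl
    rw [h2]
    show Nat.beq (lb ((lk L).foldl mrg p) i) (lb ((lk L).foldl mrg p) j0) = true
    rw [h1]
    exact Nat.beq_refl _
  · intro h i j hi hj
    rw [key i j]
    have h2 : ((j0 :: Js).map (fun i : Fin 5 => (i : ℕ))).headD 0 = (j0 : ℕ) := rfl
    have h3 := h (i : ℕ) (List.mem_map.2 ⟨i, (hJ i).1 hi, rfl⟩)
    have h4 := h (j : ℕ) (List.mem_map.2 ⟨j, (hJ j).1 hj, rfl⟩)
    rw [h2] at h3 h4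
    exact (Nat.eq_of_beq_eq_true h3).trans (Nat.eq_of_beq_eq_true h4).symm

theorem labs_len : ∀ p ∈ labs, p.length = 5 := by decide +kernel

/-- every equivalence relation on five points is in the table -/
theorem exists_lab (E : Fin 5 → Fin 5 → Prop) (hE : Equivalence E) :
    ∃ p ∈ labs, p.length = 5 ∧ ∀ i j, E i j ↔ lb p i = lb p j := by
  classical
  have hex : ∀ i : Fin 5, ∃ n : ℕ, ∃ h : n < 5, E i ⟨n, h⟩ := fun i =>
    ⟨i, i.2, hE.refl i⟩
  let m : Fin 5 → ℕ := fun i => Nat.find (hex i)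
  have hm : ∀ i, ∃ h : m i < 5, E i ⟨m i, h⟩ := fun i => Nat.find_spec (hex i)
  have hmle : ∀ i, m i ≤ (i : ℕ) := fun i => Nat.find_min' (hex i) ⟨i.2, hE.refl i⟩
  have hiff : ∀ i j, E i j ↔ m i = m j := by
    intro i j
    constructor
    · intro h
      apply le_antisymm
      · obtain ⟨h1, h2⟩ := hm j
        exact Nat.find_min' (hex i) ⟨h1, hE.trans h h2⟩
      · obtain ⟨h1, h2⟩ := hm i
        exact Nat.find_min' (hex j) ⟨h1, hE.trans (hE.symm h) h2⟩
    · intro h
      obtain ⟨h1, h2⟩ := hm i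
      obtain ⟨h3, h4⟩ := hm j
      have : (⟨m i, h1⟩ : Fin 5) = ⟨m j, h3⟩ := by
        apply Fin.ext
        exact h
      rw [this] at h2
      exact hE.trans h2 (hE.symm h4)
  have hidem : ∀ i (h : m i < 5), m ⟨m i, h⟩ = m i := by
    intro i h
    obtain ⟨h1, h2⟩ := hm i
    exact ((hiff i ⟨m i, h⟩).1 h2).symm
  have h0 : m 0 = 0 := Nat.le_zero.1 (hmle 0)
  have key : ∀ (b : Fin 2) (c : Fin 3) (d : Fin 4) (e : Fin 5),
      ([0, (b : ℕ), (c : ℕ), (d : ℕ), (e : ℕ)].all (fun x =>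
        Nat.beq (([0, (b : ℕ), (c : ℕ), (d : ℕ), (e : ℕ)] : List ℕ).getD x 0) x)) = true →
      ([0, (b : ℕ), (c : ℕ), (d : ℕ), (e : ℕ)] : List ℕ) ∈ labs := by
    decide +kernel
  have l1 : m 1 < 2 := Nat.lt_succ_of_le (hmle 1)
  have l2 : m 2 < 3 := Nat.lt_succ_of_le (hmle 2)
  have l3 : m 3 < 4 := Nat.lt_succ_of_le (hmle 3)
  have l4 : m 4 < 5 := Nat.lt_succ_of_le (hmle 4)
  have hlb : ∀ i : Fin 5, lb [0, m 1, m 2, m 3, m 4] i = m i := by
    intro i
    fin_cases i
    · exact h0.symm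
    · rfl
    · rfl
    · rfl
    · rfl
  refine ⟨[0, m 1, m 2, m 3, m 4], ?_, rfl, ?_⟩
  · apply key ⟨m 1, l1⟩ ⟨m 2, l2⟩ ⟨m 3, l3⟩ ⟨m 4, l4⟩
    rw [List.all_eq_true]
    intro x hx
    have hx2 : ∃ i : Fin 5, x = m i := by
      simp only [List.mem_cons, List.not_mem_nil, or_false] at hx
      rcases hx with h | h | h | h | h
      · exact ⟨0, h.trans h0.symm⟩
      · exact ⟨1, h⟩
      · exact ⟨2, h⟩
      · exact ⟨3, h⟩
      · exact ⟨4, h⟩
    obtain ⟨i, rfl⟩ := hx2
    have hlt : m i < 5 := lt_of_le_of_lt (hmle i) i.2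
    have h3 := hlb ⟨m i, hlt⟩
    rw [hidem i hlt] at h3
    have h4 : ([0, m 1, m 2, m 3, m 4] : List ℕ).getD (m i) 0 = m i := h3
    show Nat.beq (([0, m 1, m 2, m 3, m 4] : List ℕ).getD (m i) 0) (m i) = true
    rw [h4]
    exact Nat.beq_refl _
  · intro i j
    rw [hlb, hlb]
    exact hiff i j

/-- all the 20 states of a pentagon -/
def sts : List (Fin 5 × Bool × Bool) :=
  [0, 1, 2, 3, 4].flatMap fun i => [true, false].flatMap fun o => [true, false].map fun m =>
    (i, o, m)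

theorem mem_sts (s : Fin 5 × Bool × Bool) : s ∈ sts := by
  revert s
  decide +kernel

/-- the links of colour `c` of a pentagon state -/
def pl (s : Fin 5 × Bool × Bool) (c : Bool) : List (Fin 5 × Fin 5) :=
  (bif c == s.2.1 then [(s.1 + 4, s.1 + 1)] else []) ++
    ((bif c == !s.2.1 then [(s.1, s.1 + 2)] else []) ++
      (bif c == s.2.2 then [(s.1 + 2, s.1 + 4)] else []))

theorem pl_spec (s : Fin 5 × Bool × Bool) (c : Bool) (a b : Fin 5) :
    pst s.1 s.2.1 s.2.2 c a b ↔ (a, b) ∈ pl s c := by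
  obtain ⟨i, o, m⟩ := s
  unfold pst pl
  cases c <;> cases o <;> cases m <;> simp

/-- the links of colour `c` of a triangle state `(p, q)` of colour `c0` -/
def tl (s : Bool × Fin 5 × Fin 5) (c : Bool) : List (Fin 5 × Fin 5) :=
  bif c == s.1 then [(s.2.1, s.2.2)] else []

theorem tl_spec (s : Bool × Fin 5 × Fin 5) (c : Bool) (a b : Fin 5) :
    (c = s.1 ∧ a = s.2.1 ∧ b = s.2.2) ↔ (a, b) ∈ tl s c := by
  obtain ⟨c0, p, q⟩ := s
  unfold tl
  cases c <;> cases c0 <;> simp

/-- the table of a finite check -/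
def tab {α β : Type} (opts : List α) (hl : α → Bool → List (Fin 5 × Fin 5)) (Jl : List ℕ)
    (sl : List β) (sL : β → Bool → List (Fin 5 × Fin 5)) (exc : List ℕ → Bool)
    (flt : List ℕ → Bool) : List (ℕ × ℕ × ℕ × ℕ × Bool) :=
  (labs.filter flt).map fun p =>
    (mk (fun o => cnb p (lk (hl o true)) Jl) opts, mk (fun o => cnb p (lk (hl o false)) Jl) opts,
      mk (fun s => cnb p (lk (sL s true)) [0, 1, 2, 3, 4]) sl,
      mk (fun s => cnb p (lk (sL s false)) [0, 1, 2, 3, 4]) sl, exc p)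

/-- the check on a table -/
def chk (T : List (ℕ × ℕ × ℕ × ℕ × Bool)) : Bool :=
  T.all fun x => T.all fun y => Nat.beq (Nat.land x.1 y.2.1) 0 ||
    !(Nat.beq (Nat.land x.2.2.1 y.2.2.2.1) 0) || x.2.2.2.2

theorem fin_main {α β : Type} (opts : List α) (hl : α → Bool → List (Fin 5 × Fin 5))
    (Jl : List ℕ) (sl : List β) (sL : β → Bool → List (Fin 5 × Fin 5))
    (exc : List ℕ → Bool) (flt : List ℕ → Bool) (T : List (ℕ × ℕ × ℕ × ℕ × Bool))
    (hT : tab opts hl Jl sl sL exc flt = T) (hc : chk T = true)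
    (p q : List ℕ) (hp : p ∈ labs) (hq : q ∈ labs) (hfp : flt p = true) (hfq : flt q = true)
    (h : ∃ o ∈ opts, cnb p (lk (hl o true)) Jl = true ∧ cnb q (lk (hl o false)) Jl = true) :
    (∃ s ∈ sl, cnb p (lk (sL s true)) [0, 1, 2, 3, 4] = true ∧
      cnb q (lk (sL s false)) [0, 1, 2, 3, 4] = true) ∨ exc p = true := by
  have h1 : (mk (fun o => cnb p (lk (hl o true)) Jl) opts &&&
      mk (fun o => cnb q (lk (hl o false)) Jl) opts) ≠ 0 := (mk_land _ _ _).2 h
  unfold chk at hc
  rw [List.all_eq_true] at hc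
  have hx : (mk (fun o => cnb p (lk (hl o true)) Jl) opts,
      mk (fun o => cnb p (lk (hl o false)) Jl) opts,
      mk (fun s => cnb p (lk (sL s true)) [0, 1, 2, 3, 4]) sl,
      mk (fun s => cnb p (lk (sL s false)) [0, 1, 2, 3, 4]) sl, exc p) ∈ T := by
    rw [← hT]
    exact List.mem_map.2 ⟨p, List.mem_filter.2 ⟨hp, hfp⟩, rfl⟩
  have hy : (mk (fun o => cnb q (lk (hl o true)) Jl) opts,
      mk (fun o => cnb q (lk (hl o false)) Jl) opts,
      mk (fun s => cnb q (lk (sL s true)) [0, 1, 2, 3, 4]) sl,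
      mk (fun s => cnb q (lk (sL s false)) [0, 1, 2, 3, 4]) sl, exc q) ∈ T := by
    rw [← hT]
    exact List.mem_map.2 ⟨q, List.mem_filter.2 ⟨hq, hfq⟩, rfl⟩
  have h2 := hc _ hx
  rw [List.all_eq_true] at h2
  have h3 := h2 _ hy
  simp only [Bool.or_eq_true, Bool.not_eq_true'] at h3
  rcases h3 with (h3 | h3) | h3
  · exact absurd (Nat.eq_of_beq_eq_true h3) h1
  · left
    rw [← mk_land]
    intro h4
    have : Nat.beq (Nat.land (mk (fun s => cnb p (lk (sL s true)) [0, 1, 2, 3, 4]) sl)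
      (mk (fun s => cnb q (lk (sL s false)) [0, 1, 2, 3, 4]) sl)) 0 = true := by
      have h5 : Nat.land (mk (fun s => cnb p (lk (sL s true)) [0, 1, 2, 3, 4]) sl)
        (mk (fun s => cnb q (lk (sL s false)) [0, 1, 2, 3, 4]) sl) = 0 := h4
      rw [h5]
      rfl
    rw [this] at h3
    exact absurd h3 (by decide)
  · right
    exact h3

/-- the same in terms of relations -/
theorem fin_rel {α β : Type} (opts : List α) (hl : α → Bool → List (Fin 5 × Fin 5))
    (j0 : Fin 5) (Js : List (Fin 5)) (J : Fin 5 → Prop) (hJ : ∀ i, J i ↔ i ∈ j0 :: Js)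
    (sl : List β) (sL : β → Bool → List (Fin 5 × Fin 5))
    (exc : List ℕ → Bool) (flt : List ℕ → Bool) (T : List (ℕ × ℕ × ℕ × ℕ × Bool))
    (hT : tab opts hl ((j0 :: Js).map (fun i : Fin 5 => (i : ℕ))) sl sL exc flt = T)
    (hc : chk T = true)
    (E : Bool → Fin 5 → Fin 5 → Prop) (hE : ∀ c, Equivalence (E c))
    (hflt : ∀ c p, p ∈ labs → (∀ i j, E c i j ↔ lb p i = lb p j) → flt p = true)
    (h : ∃ o ∈ opts, ∀ c, FinC J (E c) (fun a b => (a, b) ∈ hl o c)) :
    (∃ s ∈ sl, ∀ c, FinC (fun _ => True) (E c) (fun a b => (a, b) ∈ sL s c)) ∨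
      (∃ p ∈ labs, exc p = true ∧ ∀ i j, E true i j ↔ lb p i = lb p j) := by
  obtain ⟨p, hp, hpl, hpE⟩ := exists_lab (E true) (hE true)
  obtain ⟨q, hq, hql, hqE⟩ := exists_lab (E false) (hE false)
  obtain ⟨o, ho, h1⟩ := h
  have h2 := fin_main opts hl _ sl sL exc flt T hT hc p q hp hq (hflt true p hp hpE)
    (hflt false q hq hqE) ⟨o, ho,
      (cnb_spec p hpl (E true) hpE (hl o true) j0 Js J hJ _ (fun a b => Iff.rfl)).1 (h1 true),
      (cnb_spec q hql (E false) hqE (hl o false) j0 Js J hJ _ (fun a b => Iff.rfl)).1 (h1 false)⟩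
  have hall : ∀ i : Fin 5, True ↔ i ∈ (0 : Fin 5) :: [1, 2, 3, 4] := by decide
  rcases h2 with ⟨s, hs, h3, h4⟩ | h2
  · left
    refine ⟨s, hs, fun c => ?_⟩
    cases c
    · exact (cnb_spec q hql (E false) hqE (sL s false) 0 [1, 2, 3, 4] (fun _ => True) hall _
        (fun a b => Iff.rfl)).2 h4
    · exact (cnb_spec p hpl (E true) hpE (sL s true) 0 [1, 2, 3, 4] (fun _ => True) hall _
        (fun a b => Iff.rfl)).2 h3
  · right
    exact ⟨p, hp, h2, hpE⟩

end FL
end Mp
end TwoPlane
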