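import Pool.Agent.Work.MP_3b7449_co.TP.FinLib

/-!
# FinR3 (size M-L): root triangle and pentagon, identification `0 ~ 1 ~ 3`

Finite check over all pairs of equivalence relations on five points (verified by a computer
outside Lean: no exception except that both relations have the classes `{0, 2}, {1, 4}, {3}`).  Suggested proof: (1) `EqvGen (E ∪ L)` connects `J` iff
every `χ : Fin 5 → Bool` which is constant on the pairs of `E` and `L` is constant on `J`
(32 functions); (2) an equivalence relation on `Fin 5` is given by its 10 truth values, or by a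
label function (52 partitions: for `E` take `lab i = ` the least `j` with `E i j`); list the 52
label functions and prove by `decide` that every transitive choice of the 10 truth values is
one of them; (3) for a partition `p` let `mask p : Nat` have one bit for every possible set of
links of one colour (for a pentagon: `{d_i}`, `{d_i, e_i}`, `{f_i}`, `{f_i, e_i}` with
`d_i = (i+4, i+1)`, `f_i = (i, i+2)`, `e_i = (i+2, i+4)`, possibly together with the extra links)
telling whether it connects; then the statement is a check of bit masks for `52 * 52` pairs, to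
be done by `decide` with `Nat.land`, `Nat.testBit` (fast in the kernel).  Any other proof is
fine, e.g. `decide +kernel` on a well chosen Boolean function (no `native_decide`).
-/

namespace TwoPlane
namespace Mp

variable {D : Type} [DecidableEq D]

/-- pentagon state and colour of the root triangle -/
private def s3 : List ((Fin 5 × Bool × Bool) × Bool) :=
  FL.sts.flatMap fun s => [(s, true), (s, false)]

private def l3 (s : (Fin 5 × Bool × Bool) × Bool) (c : Bool) : List (Fin 5 × Fin 5) :=
  (bif c == s.2 then [(0, 1)] else []) ++ FL.pl s.1 c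

private def ex3 (p : List ℕ) : Bool :=
  Nat.beq (p.getD 0 0) (p.getD 2 0) && (Nat.beq (p.getD 1 0) (p.getD 4 0) &&
    !(Nat.beq (p.getD 0 0) (p.getD 1 0)))

private def t3 : List (ℕ × ℕ × ℕ × ℕ × Bool) :=
  [(1, 1, 1099511627775, 1099511627775, false), (0, 0, 1031059734591, 68464607484, false), (1, 1,
  274610516736, 1082599198464, false), (1, 1, 1099511624511, 1099511615484, false), (0, 0,
  206158626816, 51552190464, false), (0, 0, 1072697331, 4228903119, false), (0, 0,
  1031651135487, 67860492543, false), (0, 0, 53477427, 3222012108, false), (1, 1, 274877906931,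
  1086626725839, false), (1, 1, 1099297718271, 1098706124799, false), (0, 0, 206212104243,
  54774202572, false), (0, 0, 805307136, 201375744, false), (0, 0, 206963933952, 51753566208,
  false), (0, 0, 858784563, 3423387852, false), (0, 0, 0, 0, false), (1, 1, 1062291371359,
  1029366001658, false), (1, 1, 512711718263, 1026413277166, true), (0, 0, 481127759895,
  62827397352, false), (1, 1, 1099334907743, 1098168332026, false), (1, 1, 412316170103,
  1078031544046, true), (0, 0, 343688675351, 45643333864, false), (1, 1, 237565866240,
  1013794770432, false), (1, 1, 100126781696, 996610706944, true), (1, 1, 375095914775,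
  1007885913832, false), (0, 0, 68719542272, 34368126976, false), (1, 1, 1063004405759,
  1030775373823, false), (1, 1, 513103888373, 1026211643311, false), (0, 0, 481159217205,
  63900876972, false), (1, 1, 1099511070719, 1099510578943, false), (1, 1, 412171468789,
  1077762784943, false), (0, 0, 343720132661, 46716813484, false), (1, 1, 238102737664,
  1013861895680, false), (1, 1, 100663653120, 996677832192, false), (1, 1, 375664243509,
  1009026518700, false), (0, 0, 68719542272, 34368126976, false), (0, 0, 359662931, 2819530954,
  false), (0, 0, 391120241, 3893010574, false), (0, 0, 481322796373, 62424391850, false), (0,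
  0, 17825809, 2148008072, false), (0, 0, 896534355, 2886656202, false), (0, 0, 927991665,
  3960135822, false), (0, 0, 344420583253, 45307453610, false), (0, 0, 17825809, 2148008072,
  false), (1, 1, 237657093459, 1016480050890, false), (1, 1, 100249466225, 1000369467022,
  false), (1, 1, 375022515541, 1007348657834, false), (0, 0, 68737368081, 36516135048, false),
  (0, 0, 268435712, 134250496, false), (0, 0, 268435712, 134250496, false), (0, 0, 68987977984,
  34502377472, false), (0, 0, 286261521, 2282258568, false), (0, 0, 0, 0, false)]


theorem finR3 (E : Bool → Fin 5 → Fin 5 → Prop) (hE : ∀ c, Equivalence (E c))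
    (h : ∀ c, FinC (fun _ => True) (E c) (fun a b => (a = 0 ∧ b = 1) ∨ (a = 1 ∧ b = 3))) :
    (∃ i o m cT, ∀ c, FinC (fun _ => True) (E c)
      (fun a b => pst i o m c a b ∨ (c = cT ∧ a = 0 ∧ b = 1))) ∨
    (E true 0 2 ∧ E true 1 4 ∧ ¬ E true 0 1) := by
  have h3 := FL.fin_rel [()] (fun _ _ => [(0, 1), (1, 3)]) 0 [1, 2, 3, 4] (fun _ => True)
    (by decide) s3 l3 ex3 (fun _ => true) t3 (by decide +kernel) (by decide +kernel) E hE
    (fun _ _ _ _ => rfl) ⟨(), by decide, fun c i j hi hj => by
      have h1 := h c i j hi hj
      have h2 : (fun a b : Fin 5 => E c a b ∨ (a, b) ∈ [((0 : Fin 5), (1 : Fin 5)), (1, 3)]) =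
          fun a b => E c a b ∨ ((a = 0 ∧ b = 1) ∨ (a = 1 ∧ b = 3)) := by
        funext a b
        rw [List.mem_cons, List.mem_cons, Prod.mk.injEq, Prod.mk.injEq]
        simp
      rw [h2]
      exact h1⟩
  rcases h3 with ⟨s, _, h4⟩ | ⟨p, _, h4, h5⟩
  · left
    refine ⟨s.1.1, s.1.2.1, s.1.2.2, s.2, fun c i j hi hj => ?_⟩
    have h6 := h4 c i j hi hj
    have h7 : (fun a b : Fin 5 => E c a b ∨ (a, b) ∈ l3 s c) =
        fun a b => E c a b ∨ (pst s.1.1 s.1.2.1 s.1.2.2 c a b ∨ (c = s.2 ∧ a = 0 ∧ b = 1)) := by
      funext a b
      rw [FL.pl_spec s.1 c a b]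
      unfold l3
      rw [List.mem_append, or_comm (a := (a, b) ∈ FL.pl s.1 c)]
      have h8 : ((a, b) ∈ (bif c == s.2 then [((0 : Fin 5), (1 : Fin 5))] else [])) =
          (c = s.2 ∧ a = 0 ∧ b = 1) := by
        cases c <;> cases s.2 <;> simp
      rw [h8]
    rw [h7] at h6
    exact h6
  · right
    unfold ex3 at h4
    rw [Bool.and_eq_true, Bool.and_eq_true, Bool.not_eq_true'] at h4
    obtain ⟨h6, h7, h8⟩ := h4
    refine ⟨(h5 0 2).2 (Nat.eq_of_beq_eq_true h6), (h5 1 4).2 (Nat.eq_of_beq_eq_true h7),
      fun h9 => ?_⟩
    have h10 : p.getD 0 0 = p.getD 1 0 := (h5 0 1).1 h9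
    rw [h10, Nat.beq_refl] at h8
    exact absurd h8 (by decide)

end Mp
end TwoPlane
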