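import Pool.Agent.Work.MP_3b7449_co.TP.ToMp

/-!
# Opt (size M): pentagulations give graphs with `5 n - 10` edges

All faces have length 5.  `Nat.card Side = card D / 2`: the map `d ↦ s(d, α d)` from `D` to `Side` is
surjective with fibres of two elements `d, α d`.  `Nat.card Diag = card D`: the map
`d ↦ s(d, φ (φ d))` is a bijection from `D` to `Diag` (injective: `d' = φ² d` and `d = φ² d'` would give
`φ⁴ d = d`).  `5 * (number of faces) = card D` (every cycle of `φ` has 5 elements), and
`n + card D / 5 = card D / 2 + 2`, `card D` even: `card D = 10 k`, `n = 3 k + 2`, number of edges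
`5 k + 10 k = 15 k = 5 n - 10`.
-/

namespace TwoPlane

open Equiv.Perm

private theorem opt_fib {A B : Type} [Finite A] (f : A → B) (hs : Function.Surjective f)
    (k : ℕ) (h : ∀ b, Nat.card {a // f a = b} = k) : Nat.card A = k * Nat.card B := by
  have : Finite B := Finite.of_surjective f hs
  have : Fintype B := Fintype.ofFinite B
  rw [← Nat.card_congr (Equiv.sigmaFiberEquiv f), Nat.card_sigma]
  simp only [h]
  rw [Finset.sum_const, Finset.card_univ, smul_eq_mul, Nat.card_eq_fintype_card, mul_comm]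

private theorem opt_side {D : Type} [Fintype D] [DecidableEq D] (M : PlaneMap D) :
    Nat.card D = 2 * Nat.card M.Side := by
  refine opt_fib (fun d => (⟨s(d, M.α d), d, rfl⟩ : M.Side)) ?_ 2 ?_
  · rintro ⟨p, d, hd⟩
    exact ⟨d, Subtype.ext hd.symm⟩
  · rintro ⟨p, d, hd⟩
    have h1 : ∀ a, ((⟨s(a, M.α a), a, rfl⟩ : M.Side) = ⟨p, d, hd⟩) ↔
        a ∈ ({d, M.α d} : Set D) := by
      intro a
      rw [Subtype.mk.injEq, hd, Sym2.eq_iff, Set.mem_insert_iff, Set.mem_singleton_iff]
      constructor
      · rintro (h | h)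
        · exact Or.inl h.1
        · exact Or.inr h.1
      · rintro (h | h)
        · exact Or.inl ⟨h, by rw [h]⟩
        · exact Or.inr ⟨h, by rw [h, M.α_inv]⟩
    rw [Nat.card_congr (Equiv.subtypeEquivRight h1)]
    exact Set.ncard_pair (Ne.symm (M.α_ne d))

private theorem opt_face {D : Type} [Fintype D] [DecidableEq D] (M : PlaneMap D)
    (h5 : ∀ d, M.len d = 5) :
    Nat.card D = 5 * Nat.card (Quotient (Equiv.Perm.SameCycle.setoid M.φ)) := by
  refine opt_fib (fun d => Quotient.mk (Equiv.Perm.SameCycle.setoid M.φ) d) Quotient.mk_surjective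
    5 ?_
  intro b
  obtain ⟨d, rfl⟩ := Quotient.mk_surjective b
  have hper : Function.IsPeriodicPt M.φ 5 d := by
    have h := Function.isPeriodicPt_minimalPeriod M.φ d
    have h' : Function.minimalPeriod M.φ d = 5 := h5 d
    rwa [h'] at h
  have h1 : ∀ a, (Quotient.mk (Equiv.Perm.SameCycle.setoid M.φ) a =
      Quotient.mk (Equiv.Perm.SameCycle.setoid M.φ) d) ↔
      a ∈ ((Finset.univ.image (fun i : Fin 5 => M.φ^[(i : ℕ)] d) : Finset D) : Set D) := by
    intro a
    rw [Finset.mem_coe, Finset.mem_image]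
    constructor
    · intro h
      have h2 : SameCycle M.φ a d := Quotient.exact h
      obtain ⟨n, -, -, hn⟩ := h2.symm.exists_pow_eq
      refine ⟨⟨n % 5, Nat.mod_lt _ (by norm_num)⟩, Finset.mem_univ _, ?_⟩
      rw [← hn]
      have h3 := hper.iterate_mod_apply n
      have h4 : M.φ^[n] d = (M.φ ^ n) d := by
        rw [Equiv.Perm.iterate_eq_pow]
      rw [← h4]
      exact h3
    · rintro ⟨i, -, hi⟩
      refine Quotient.sound ?_
      refine SameCycle.symm ⟨((i : ℕ) : ℤ), ?_⟩
      rw [zpow_natCast, ← hi, Equiv.Perm.iterate_eq_pow]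
  rw [Nat.card_congr (Equiv.subtypeEquivRight h1)]
  change Nat.card ((Finset.univ.image (fun i : Fin 5 => M.φ^[(i : ℕ)] d) : Finset D) : Set D) = 5
  rw [Nat.card_coe_set_eq, Set.ncard_coe_finset, Finset.card_image_of_injective,
    Finset.card_univ, Fintype.card_fin]
  intro i j hij
  have h2 : (i : ℕ) = (j : ℕ) := by
    have hi : (i : ℕ) < Function.minimalPeriod M.φ d := by
      have h' : Function.minimalPeriod M.φ d = 5 := h5 d
      rw [h']
      exact i.2
    have hj : (j : ℕ) < Function.minimalPeriod M.φ d := by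
      have h' : Function.minimalPeriod M.φ d = 5 := h5 d
      rw [h']
      exact j.2
    exact Function.iterate_injOn_Iio_minimalPeriod hi hj hij
  exact Fin.ext h2

private theorem opt_diag {D : Type} [Fintype D] [DecidableEq D] (M : PlaneMap D)
    (h5 : ∀ d, M.len d = 5) : Nat.card D = Nat.card M.Diag := by
  refine Nat.card_eq_of_bijective
    (fun d => (⟨s(d, M.φ (M.φ d)), d, Or.inr (h5 d), rfl⟩ : M.Diag)) ⟨?_, ?_⟩
  · intro d d' h
    have h : s(d, M.φ (M.φ d)) = s(d', M.φ (M.φ d')) := congrArg Subtype.val h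
    rw [Sym2.eq_iff] at h
    rcases h with h | ⟨h1, h2⟩
    · exact h.1
    · exfalso
      have h3 : M.φ^[4] d = d := by
        change M.φ (M.φ (M.φ (M.φ d))) = d
        rw [h2, ← h1]
      have h4 : Function.minimalPeriod M.φ d ∣ 4 := Function.IsPeriodicPt.minimalPeriod_dvd h3
      have h' : Function.minimalPeriod M.φ d = 5 := h5 d
      rw [h'] at h4
      revert h4
      decide
  · rintro ⟨p, d, hd, hp⟩
    exact ⟨d, Subtype.ext hp.symm⟩

theorem card_edge_opt {D : Type} [Fintype D] [DecidableEq D] (M : PlaneMap D)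
    (h5 : ∀ d, M.len d = 5) : Nat.card M.Edge + 10 = 5 * Nat.card M.Vert := by
  have e1 := opt_side M
  have e2 := opt_face M h5
  have e3 := opt_diag M h5
  have e4 := M.euler
  rw [← Nat.card_eq_fintype_card] at e4
  have f1 : Finite M.Side := by
    unfold PlaneMap.Side
    infer_instance
  have f2 : Finite M.Diag := by
    unfold PlaneMap.Diag
    infer_instance
  have e5 : Nat.card M.Edge = Nat.card M.Side + Nat.card M.Diag := by
    unfold PlaneMap.Edge
    exact Nat.card_sum
  have e6 : Nat.card M.Vert =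
      Nat.card (Quotient (Equiv.Perm.SameCycle.setoid (M.α.trans M.φ))) := rfl
  rw [← e6] at e4
  omega

end TwoPlane
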