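import Pool.Agent.Work.MP_3b7449_co.TP.ToMp

/-!
# TwoPl (size M): the drawn graph is 2-plane

An edge crossing `p = s(d, φ² d)` is a diagonal of the same face.  If `len d = 5`, the edges crossing
`p` are `s(φ d, φ³ d)` and `s(φ⁴ d, φ d)` (`= s(φ⁴ d, φ⁶ d)`); if `len d = 4`, only `s(φ d, φ³ d)`.  From
`Cross`: there is `d'` with `p = s(d', φ² d')` and the other is `s(φ d', φ³ d')`, or `p = s(φ d', φ³ d')`
and the other is `s(d', φ² d')`; `d'` is determined up to `φ²` in a quadrilateral.  So the set is
contained in a set of two elements; `Set.ncard_le_ncard`, `Set.ncard_insert_le`.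
-/

namespace TwoPlane

open Equiv.Perm

private def tok {D : Type} [Fintype D] [DecidableEq D] (M : PlaneMap D) : M.Edge → Sym2 D
  | Sum.inl p => p.1
  | Sum.inr p => p.1

theorem cross_le_two {D : Type} [Fintype D] [DecidableEq D] (M : PlaneMap D) (e : M.Edge) :
    {e' | M.Cross e e'}.Finite ∧ {e' | M.Cross e e'}.ncard ≤ 2 := by
  rcases e with p | p
  · have h : {e' | M.Cross (Sum.inl p) e'} = ∅ := by
      ext e'
      simp only [Set.mem_setOf_eq, Set.mem_empty_iff_false, iff_false]
      exact fun h => h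
    rw [h]
    exact ⟨Set.finite_empty, by simp⟩
  · obtain ⟨pv, d, hd, rfl⟩ := p
    have per : ∀ k, M.len d = k → M.φ^[k] d = d := by
      intro k hk
      have h := Function.iterate_minimalPeriod (f := M.φ) (x := d)
      have h' : Function.minimalPeriod M.φ d = k := hk
      rwa [h'] at h
    have inj : ∀ x y, M.φ x = M.φ y → x = y := fun x y h => M.φ.injective h
    let S2 : Set (Sym2 D) := {s(M.φ d, M.φ (M.φ (M.φ d))), s(M.φ (M.φ (M.φ (M.φ d))), M.φ d)}
    have hfin : S2.Finite := by simp [S2]
    have hcard : S2.ncard ≤ 2 := by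
      refine (Set.ncard_insert_le _ _).trans ?_
      rw [Set.ncard_singleton]
    have key : ∀ e' ∈ {e' | M.Cross (Sum.inr ⟨s(d, M.φ (M.φ d)), d, hd, rfl⟩) e'},
        (∃ q, e' = Sum.inr q) ∧ tok M e' ∈ S2 := by
      intro e' he'
      rcases e' with q | q
      · exact (he' : False).elim
      · refine ⟨⟨q, rfl⟩, ?_⟩
        show q.1 ∈ S2
        obtain ⟨d', hd', h | h⟩ := (he' : ∃ d', (M.len d' = 4 ∨ M.len d' = 5) ∧
          ((s(d, M.φ (M.φ d)) = s(d', M.φ (M.φ d')) ∧ q.1 = s(M.φ d', M.φ (M.φ (M.φ d')))) ∨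
          (q.1 = s(d', M.φ (M.φ d')) ∧ s(d, M.φ (M.φ d)) = s(M.φ d', M.φ (M.φ (M.φ d'))))))
        · obtain ⟨h1, h2⟩ := h
          rw [h2]
          rcases Sym2.eq_iff.mp h1 with ⟨a, b⟩ | ⟨a, b⟩
          · subst a
            exact Or.inl rfl
          · left
            rw [← b]
            have : M.φ (M.φ (M.φ (M.φ d))) = d := by rw [b]; exact a.symm
            rw [this]
            exact Sym2.eq_swap
        · obtain ⟨h2, h1⟩ := h
          rw [h2]
          rcases Sym2.eq_iff.mp h1 with ⟨a, b⟩ | ⟨a, b⟩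
          · rcases hd with hd | hd
            · have h4 : M.φ (M.φ (M.φ (M.φ d))) = d := per 4 hd
              have h5 : d' = M.φ (M.φ (M.φ d)) := inj _ _ (by rw [h4]; exact a.symm)
              left
              rw [← a, h5]
              exact Sym2.eq_swap
            · have h4 : M.φ (M.φ (M.φ (M.φ (M.φ d)))) = d := per 5 hd
              have h5 : d' = M.φ (M.φ (M.φ (M.φ d))) := inj _ _ (by rw [h4]; exact a.symm)
              right
              rw [← a, h5]
              exact rfl
          · have h5 : M.φ d = d' := inj _ _ b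
            left
            rw [← h5]
    have hinj : Set.InjOn (tok M)
        {e' | M.Cross (Sum.inr ⟨s(d, M.φ (M.φ d)), d, hd, rfl⟩) e'} := by
      intro x hx y hy hxy
      obtain ⟨q, rfl⟩ := (key x hx).1
      obtain ⟨q', rfl⟩ := (key y hy).1
      exact congrArg Sum.inr (Subtype.ext hxy)
    refine ⟨Set.Finite.of_injOn (fun x hx => (key x hx).2) hinj hfin, ?_⟩
    exact (Set.ncard_le_ncard_of_injOn _ (fun x hx => (key x hx).2) hinj hfin).trans hcard

end TwoPlane
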