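import Pool.Agent.Work.MP_3b7449_co.TP.Main
import Pool.Agent.Work.MP_3b7449_co.TP.Colour
import Pool.Agent.Work.MP_3b7449_co.TP.TwoPl
import Pool.Agent.Work.MP_3b7449_co.TP.Opt

/-!
# Final (size S): the theorem

`toMp_ok`, `main_TC` for the dart `r`, `exact_of`, `colour_of`; `cross_le_two`; `card_edge_opt`.
-/

namespace TwoPlane

open Equiv.Perm

theorem final {D : Type} [Fintype D] [DecidableEq D] (M : PlaneMap D) (hl : M.NoLoop)
    (h5 : ∀ d, M.len d ≤ 5) (r : D) :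
    (∀ e, {e' | M.Cross e e'}.Finite ∧ {e' | M.Cross e e'}.ncard ≤ 2) ∧
    ((∀ d, M.len d = 5) → Nat.card M.Edge + 10 = 5 * Nat.card M.Vert) ∧
    ∃ κ : M.Edge → Fin 3,
      (∀ e e', M.Cross e e' → κ e ≠ κ e') ∧
      (∀ s : M.Side, κ (Sum.inl s) = 0) ∧
      M.Forest ({e | κ e = 1} ∪ {M.side r}) ∧
      M.Forest ({e | κ e = 2} ∪ {M.side r}) := by
  refine ⟨fun e => cross_le_two M e, fun h => card_edge_opt M h, ?_⟩
  have hOk := M.toMp_ok hl h5
  obtain ⟨R, I, C, hR, hT⟩ := Mp.exact_of M.toMp rfl hOk.face r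
    (Mp.main_TC M.toMp hOk r (Finset.mem_univ r))
  exact colour_of M hl h5 r R I C hR hT

end TwoPlane
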