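import Pool.Agent.Work.MP_3b7449_co.TP.Defs

/-!
# FoldV (size M): vertices after folding `a` and `b = φ a` together

`q = φ b`.  Facts: `V (α a) b` (`V_αφ`), `V (α b) q`.  `M' = M.fold a ..`, `σ' x = φ' (α' x)`.
For `x` in `M'.S`:
* `x = α a`: `α' x = α b`, `σ' x = φ (α b) = σ b`, or `q` if `φ (α b) = a`.  In `Lnk`:
  `α a ~ b ~ σ b`; in the second case `b ~ σ b = a ~ q` by the link.
* `x = α b`: `α' x = α a`, `σ' x = φ (α a) = σ a`, or `q` if `φ (α a) = a`.  `α b ~ q ~ a ~ σ a`.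
* else `α' x = α x`, `σ' x = σ x`, or `q` if `σ x = a` (then `x ~ a ~ q`).
So every `σ'`-step is in `Lnk`; induction on `EqvGen` gives `fold_V`.
`fold_V'`: apply `Lnk_le` to the equivalence relation
`E x y := V x y ∨ ((V x a ∨ V x q) ∧ (V y a ∨ V y q))`.
-/

namespace TwoPlane
namespace Mp

variable {D : Type} [DecidableEq D]

private theorem foldV_step (M : Mp D) (a : D) (ha : a ∈ M.S) (h1 : M.φ a ≠ a)
    (h2 : M.α a ≠ M.φ a) (x : D) (hx : x ∈ (M.fold a ha h1 h2).S) :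
    M.Lnk (fun x y => x = a ∧ y = M.φ (M.φ a)) x ((M.fold a ha h1 h2).σ x) := by
  have hb : M.φ a ∈ M.S := M.φS a ha
  have hx3 : x ∈ M.S := Finset.mem_of_mem_erase (Finset.mem_of_mem_erase hx)
  have hlink : M.Lnk (fun x y => x = a ∧ y = M.φ (M.φ a)) a (M.φ (M.φ a)) :=
    M.Lnk_of ⟨rfl, rfl⟩
  have hpost : ∀ z, M.Lnk (fun x y => x = a ∧ y = M.φ (M.φ a)) x (M.φ z) →
      M.Lnk (fun x y => x = a ∧ y = M.φ (M.φ a)) x
        (if M.φ z = a then M.φ (M.φ a) else M.φ z) := by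
    intro z hz
    split_ifs with h
    · rw [h] at hz
      exact M.Lnk_trans hz hlink
    · exact hz
  change M.Lnk (fun x y => x = a ∧ y = M.φ (M.φ a)) x
    (if M.φ (if x = M.α a then M.α (M.φ a) else if x = M.α (M.φ a) then M.α a else M.α x) = a
      then M.φ (M.φ a)
      else M.φ (if x = M.α a then M.α (M.φ a) else if x = M.α (M.φ a) then M.α a else M.α x))
  refine hpost _ ?_
  split_ifs with k1 k2
  · rw [k1]
    exact M.Lnk_trans (M.V_Lnk (M.V_αφ ha)) (M.V_Lnk (M.V_σ hb))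
  · rw [k2]
    exact M.Lnk_trans (M.V_Lnk (M.V_αφ hb)) (M.Lnk_trans (M.Lnk_symm hlink) (M.V_Lnk (M.V_σ ha)))
  · exact M.V_Lnk (M.V_σ hx3)

theorem fold_V (M : Mp D) (a : D) (ha : a ∈ M.S) (h1 : M.φ a ≠ a) (h2 : M.α a ≠ M.φ a)
    {x y : D} (h : (M.fold a ha h1 h2).V x y) :
    M.Lnk (fun x y => x = a ∧ y = M.φ (M.φ a)) x y := by
  induction h with
  | rel x y h => rw [h.2]; exact foldV_step M a ha h1 h2 x h.1
  | refl x => exact M.Lnk_refl _ x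
  | symm x y _ ih => exact M.Lnk_symm ih
  | trans x y z _ _ ih1 ih2 => exact M.Lnk_trans ih1 ih2

theorem fold_V' (M : Mp D) (a : D) (ha : a ∈ M.S) (h1 : M.φ a ≠ a) (h2 : M.α a ≠ M.φ a)
    {x y : D} (h : (M.fold a ha h1 h2).V x y) :
    M.V x y ∨ ((M.V x a ∨ M.V x (M.φ (M.φ a))) ∧ (M.V y a ∨ M.V y (M.φ (M.φ a)))) := by
  refine M.Lnk_le (E := fun x y => M.V x y ∨ ((M.V x a ∨ M.V x (M.φ (M.φ a))) ∧
    (M.V y a ∨ M.V y (M.φ (M.φ a))))) ⟨fun x => Or.inl (M.V_refl x), ?_, ?_⟩ ?_ ?_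
    (fold_V M a ha h1 h2 h)
  · rintro x y (h | h)
    · exact Or.inl (M.V_symm h)
    · exact Or.inr ⟨h.2, h.1⟩
  · rintro x y z (h | h) (k | k)
    · exact Or.inl (M.V_trans h k)
    · exact Or.inr ⟨k.1.imp (fun t => M.V_trans h t) (fun t => M.V_trans h t), k.2⟩
    · exact Or.inr ⟨h.1, h.2.imp (fun t => M.V_trans (M.V_symm k) t)
        (fun t => M.V_trans (M.V_symm k) t)⟩
    · exact Or.inr ⟨h.1, k.2⟩
  · intro x hx
    exact Or.inl (M.V_σ hx)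
  · rintro x y ⟨rfl, rfl⟩
    exact Or.inr ⟨Or.inl (M.V_refl _), Or.inr (M.V_refl _)⟩

end Mp
end TwoPlane
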