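import Pool.Agent.Work.MP_3b7449_co.TP.Plane

/-!
# TreeL (size M): a connected multigraph with `n - 1` edges is a tree

`H = SimpleGraph.fromEdgeSet (Set.range en)`.  Its edge set is `Set.range en` without the
diagonal, so `card (edges of H) ≤ card {i // ¬ IsDiag (en i)} ≤ card ι`, and
`card W ≤ card (edges of H) + 1` because `H` is connected
(`SimpleGraph.Connected.card_vert_le_card_edgeSet_add_one`).  With `card ι + 1 ≤ card W` all these
are equalities: `en` is injective, no `en i` is on the diagonal, and `H` is a tree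
(`SimpleGraph.isTree_iff_connected_and_card`).
-/

namespace TwoPlane

open Equiv.Perm

theorem tree_of {W ι : Type} [Finite W] [Finite ι] (en : ι → Sym2 W)
    (hc : (SimpleGraph.fromEdgeSet (Set.range en)).Connected)
    (hcard : Nat.card ι + 1 ≤ Nat.card W) :
    (∀ i, ¬ (en i).IsDiag) ∧ Function.Injective en ∧
      (SimpleGraph.fromEdgeSet (Set.range en)).IsAcyclic := by
  classical
  set H := SimpleGraph.fromEdgeSet (Set.range en) with hH
  have hE : H.edgeSet = Set.range en \ Sym2.diagSet := SimpleGraph.edgeSet_fromEdgeSet _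
  have h1 := hc.card_vert_le_card_edgeSet_add_one
  -- the surjection from the indices without diagonal
  let f : {i // ¬ (en i).IsDiag} → H.edgeSet := fun i =>
    ⟨en i.1, by rw [hE]; exact ⟨⟨i.1, rfl⟩, fun h => i.2 h⟩⟩
  have hf : Function.Surjective f := by
    rintro ⟨e, he⟩
    have he' := he
    rw [hE] at he'
    obtain ⟨⟨i, rfl⟩, h2⟩ := he'
    exact ⟨⟨i, fun h => h2 h⟩, rfl⟩
  have h2 : Nat.card H.edgeSet ≤ Nat.card {i // ¬ (en i).IsDiag} :=
    Nat.card_le_card_of_surjective f hf
  have h3 : Nat.card {i // ¬ (en i).IsDiag} ≤ Nat.card ι :=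
    Nat.card_le_card_of_injective _ Subtype.val_injective
  have h4 : Nat.card ι ≤ Nat.card {i // ¬ (en i).IsDiag} := by omega
  have hbij := (Subtype.val_injective (p := fun i : ι => ¬ (en i).IsDiag)).bijective_of_nat_card_le h4
  have hnd : ∀ i, ¬ (en i).IsDiag := by
    intro i
    obtain ⟨j, rfl⟩ := hbij.2 i
    exact j.2
  have hfb := hf.bijective_of_nat_card_le (by omega : Nat.card {i // ¬ (en i).IsDiag} ≤
    Nat.card H.edgeSet)
  refine ⟨hnd, ?_, ?_⟩
  · intro i j hij
    have h5 : f ⟨i, hnd i⟩ = f ⟨j, hnd j⟩ := Subtype.ext hij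
    exact congrArg Subtype.val (hfb.1 h5)
  · have ht : H.IsTree := SimpleGraph.isTree_iff_connected_and_card.2 ⟨hc, by omega⟩
    exact ht.IsAcyclic

end TwoPlane
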