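import Pool.Agent.Work.MP_3b7449_co.TP.Count
import Pool.Agent.Work.MP_3b7449_co.TP.TreeL

/-!
# Forests (size M-L): the two forests

Let `n` be the number of vertices, `F` the number of faces; `n + F = card D / 2 + 2`, and `card D` is
even, so `card D - 2 F = 2 n - 4` (`n ≥ 2`).  `count_le`: `N true + N false ≤ 2 n - 4` where `N c` is the
number of pairs `(x, y)` with `R c x y`.
For each colour let `ι c = Option {p : D × D // R c p.1 p.2}`, `en (some p) = s(src x, src y)`,
`en none = s(src r, src (α r))`.  The graph `fromEdgeSet (range en)` on `M.Vert` is connected: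
`Tot` gives for all darts `x, y` a chain in `Lnk`; `σ`-steps do not change `src` (`toMp_V`), the
links join `src` of their ends by an edge (or the ends are equal); induction on `EqvGen` gives
`Reachable (src x) (src y)`.  Hence `n ≤ card (ι c) + 1 = N c + 2`
(`SimpleGraph.Connected.card_vert_le_card_edgeSet_add_one`).  Together `N c = n - 2` for both
colours, so `card (ι c) + 1 = n` and `tree_of` applies to both.
-/

namespace TwoPlane

open Equiv.Perm

private theorem card_even {D : Type} [Fintype D] [DecidableEq D] (M : PlaneMap D) :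
    2 ∣ Fintype.card D := by
  have h1 : M.α ^ 2 = 1 := by
    ext d
    rw [pow_two]
    exact M.α_inv d
  have h2 := Equiv.Perm.two_dvd_card_support h1
  have h3 : M.α.support = Finset.univ := by
    ext d
    simp [Equiv.Perm.mem_support, M.α_ne d]
  rwa [h3, Finset.card_univ] at h2

private def enc {D : Type} [Fintype D] [DecidableEq D] (M : PlaneMap D) (r : D)
    (R : Bool → D → D → Prop) (c : Bool) : Option {p : D × D // R c p.1 p.2} → Sym2 M.Vert :=
  fun o => o.elim s(M.src r, M.src (M.α r)) (fun p => s(M.src p.1.1, M.src p.1.2))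

private theorem conn_of {D : Type} [Fintype D] [DecidableEq D] (M : PlaneMap D) (r : D)
    (R : Bool → D → D → Prop)
    (hT : M.toMp.Tot (fun c x y => R c x y ∨ (x = r ∧ y = M.α r))) (c : Bool) :
    (SimpleGraph.fromEdgeSet (Set.range (enc M r R c))).Connected := by
  set H := SimpleGraph.fromEdgeSet (Set.range (enc M r R c)) with hH
  have link : ∀ u v : M.Vert, s(u, v) ∈ Set.range (enc M r R c) → H.Reachable u v := by
    intro u v h
    by_cases huv : u = v
    · rw [huv]
    · exact SimpleGraph.Adj.reachable ((SimpleGraph.fromEdgeSet_adj _).mpr ⟨h, huv⟩)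
  have key : ∀ x y : D, H.Reachable (M.src x) (M.src y) := by
    intro x y
    refine M.toMp.Lnk_le (E := fun x y => H.Reachable (M.src x) (M.src y))
      ⟨fun _ => SimpleGraph.Reachable.refl _, fun h => h.symm, fun h h' => h.trans h'⟩ ?_ ?_
      (hT c x (Finset.mem_univ x) y (Finset.mem_univ y))
    · intro a ha
      have : M.src a = M.src (M.toMp.σ a) := (M.toMp_V _ _).mp (M.toMp.V_σ ha)
      show H.Reachable (M.src a) (M.src (M.toMp.σ a))
      rw [← this]
    · rintro a b (h | ⟨rfl, rfl⟩)
      · exact link _ _ ⟨some ⟨(a, b), h⟩, rfl⟩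
      · exact link _ _ ⟨none, rfl⟩
  have : Nonempty M.Vert := ⟨M.src r⟩
  refine SimpleGraph.Connected.mk ?_
  intro u v
  obtain ⟨x, rfl⟩ := Quotient.exists_rep u
  obtain ⟨y, rfl⟩ := Quotient.exists_rep v
  exact key x y

theorem forests_of {D : Type} [Fintype D] [DecidableEq D] (M : PlaneMap D) (hl : M.NoLoop)
    (h5 : ∀ d, M.len d ≤ 5) (r : D) (R : Bool → D → D → Prop) (I : D → D) (C : D → Bool)
    (hR : Mp.ExactR M.toMp R I C)
    (hT : M.toMp.Tot (fun c x y => R c x y ∨ (x = r ∧ y = M.α r))) (c : Bool) :
    let en : Option {p : D × D // R c p.1 p.2} → Sym2 M.Vert :=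
      fun o => o.elim s(M.src r, M.src (M.α r)) (fun p => s(M.src p.1.1, M.src p.1.2))
    (∀ i, ¬ (en i).IsDiag) ∧ Function.Injective en ∧
      (SimpleGraph.fromEdgeSet (Set.range en)).IsAcyclic := by
  intro en
  classical
  have hfinV : Finite M.Vert := inferInstanceAs (Finite (Quotient _))
  have hen : en = enc M r R c := rfl
  have hle : ∀ c, Nat.card M.Vert ≤ Nat.card {p : D × D // R c p.1 p.2} + 2 := by
    intro c
    have h1 := (conn_of M r R hT c).card_vert_le_card_edgeSet_add_one
    have h2 : Nat.card (SimpleGraph.fromEdgeSet (Set.range (enc M r R c))).edgeSet ≤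
        Nat.card (Option {p : D × D // R c p.1 p.2}) := by
      have h3 : (SimpleGraph.fromEdgeSet (Set.range (enc M r R c))).edgeSet ⊆
          Set.range (enc M r R c) := by
        rw [SimpleGraph.edgeSet_fromEdgeSet]
        exact Set.diff_subset
      refine (Nat.card_mono (Set.finite_range _) h3).trans ?_
      exact Finite.card_range_le _
    rw [Finite.card_option] at h2
    omega
  have hsum := count_le M hl h5 R I C hR
  have hsplit : Nat.card {t : Bool × D × D // R t.1 t.2.1 t.2.2} =
      Nat.card {p : D × D // R true p.1 p.2} + Nat.card {p : D × D // R false p.1 p.2} := by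
    have e : {t : Bool × D × D // R t.1 t.2.1 t.2.2} ≃
        (Σ b : Bool, {p : D × D // R b p.1 p.2}) :=
      { toFun := fun t => ⟨t.1.1, ⟨t.1.2, t.2⟩⟩
        invFun := fun t => ⟨(t.1, t.2.1), t.2.2⟩
        left_inv := fun t => rfl
        right_inv := fun t => rfl }
    rw [Nat.card_congr e, Nat.card_sigma, Fintype.sum_bool]
  have heven := card_even M
  have heuler := M.euler
  have hV : Nat.card (Quotient (SameCycle.setoid (M.α.trans M.φ))) = Nat.card M.Vert := rfl
  rw [hV] at heuler
  have h1 := hle true
  have h2 := hle false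
  rw [hsplit] at hsum
  have hc : Nat.card {p : D × D // R c p.1 p.2} + 2 ≤ Nat.card M.Vert := by
    cases c <;> omega
  refine tree_of en (conn_of M r R hT c) ?_
  rw [Finite.card_option]
  omega

end TwoPlane
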