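import Pool.Agent.Work.MP_3b7449_co.TP.Defs

/-!
# Geo (size M): corners of tight maps

`geo_dist`: `b = φ d`.  If `V d (φ b)` then `V d (α b)` (`V (α b) (φ b)`) and `V (α d) (α (α b))`
(`V (α d) b`, `α (α b) = b`), so `simple` gives `d = α b`, hence `α d = b`, contradiction.
`geo_adj`: apply `tri` to `a = d`, `b = φ d`, `c = α e`: `V (α d) (φ d)`; `V (α (φ d)) (α e)`
through `φ (φ d)`; `V (α (α e)) d` is `V e d`.  The first alternative gives
`φ (φ (φ d)) = d`, excluded; the second is the claim (`α (α e) = e`).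
`geo_deg2`: `σ (φ d) = φ (α (φ d)) = α d`, `σ (α d) = φ d`: the set `{φ d, α d}` is closed under `σ`,
also backwards (`σback`), so it is a class of `V` (induction on `EqvGen`).
`geo_free`: by `geo_deg2` a dart `x` with `V x (φ d)` is `φ d` (then `V (α x) (φ (φ d))`) or `α d`
(then `α x = d`).
-/

namespace TwoPlane
namespace Mp

variable {D : Type} [DecidableEq D]

theorem Free_symm (M : Mp D) {a b : D} (h : M.Free a b) : M.Free b a := by
  refine ⟨fun h1 => h.1 (M.V_symm h1), fun d hd h1 => ?_⟩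
  refine h.2 (M.α d) (M.αS d hd) ⟨h1.2, ?_⟩
  rw [M.αα d hd]
  exact h1.1

theorem geo_dist (M : Mp D) (hT : M.Tight) (d : D) (hd : d ∈ M.S) (hp : M.φ d ≠ M.α d) :
    ¬ M.V d (M.φ (M.φ d)) := by
  intro h
  have hb : M.φ d ∈ M.S := M.φS d hd
  have h1 : M.V d (M.α (M.φ d)) := M.V_trans h (M.V_symm (M.V_αφ hb))
  have h2 : M.V (M.α d) (M.α (M.α (M.φ d))) := by
    rw [M.αα _ hb]
    exact M.V_αφ hd
  have h3 := hT.simple d hd _ (M.αS _ hb) h1 h2
  apply hp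
  have h4 := congrArg M.α h3
  rw [M.αα _ hb] at h4
  exact h4.symm

theorem geo_adj (M : Mp D) (hT : M.Tight) (d e : D) (hd : d ∈ M.S) (he : e ∈ M.S)
    (h1 : M.V e d) (h2 : M.V (M.α e) (M.φ (M.φ d))) (h3 : M.φ (M.φ (M.φ d)) ≠ d) :
    M.φ (M.α (M.φ d)) = M.α d ∧ M.φ (M.α d) = e ∧ M.φ e = M.α (M.φ d) := by
  have hb : M.φ d ∈ M.S := M.φS d hd
  rcases hT.tri d hd (M.φ d) hb (M.α e) (M.αS e he) (M.V_αφ hd)
    (M.V_trans (M.V_αφ hb) (M.V_symm h2)) (by rw [M.αα e he]; exact h1) with h4 | h4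
  · exfalso
    apply h3
    rw [h4.2.1]
    exact h4.2.2
  · rw [M.αα e he] at h4
    exact ⟨h4.1, h4.2.2, h4.2.1⟩

theorem geo_deg2 (M : Mp D) (d : D) (hd : d ∈ M.S) (h : M.φ (M.α (M.φ d)) = M.α d) (x : D)
    (hx : M.V x (M.φ d)) : x = M.φ d ∨ x = M.α d := by
  have hcl : ∀ y ∈ M.S, (y = M.φ d ∨ y = M.α d) → (M.σ y = M.φ d ∨ M.σ y = M.α d) := by
    rintro y _ (rfl | rfl)
    · right
      exact h
    · left
      unfold σ
      rw [M.αα d hd]
  have key : ∀ a b : D, M.V a b → ((a = M.φ d ∨ a = M.α d) ↔ (b = M.φ d ∨ b = M.α d)) := by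
    intro a b hab
    induction hab with
    | rel a b h' =>
      rw [h'.2]
      exact ⟨hcl a h'.1, fun h2 =>
        M.σback (fun y => y = M.φ d ∨ y = M.α d) hcl h'.1 h2⟩
    | refl a => exact Iff.rfl
    | symm a b _ ih => exact ih.symm
    | trans a b c _ _ ih1 ih2 => exact ih1.trans ih2
  exact (key x _ hx).2 (Or.inl rfl)

theorem geo_free (M : Mp D) (d w : D) (hd : d ∈ M.S)
    (h : M.φ (M.α (M.φ d)) = M.α d) (h0 : ¬ M.V (M.φ d) w) (h1 : ¬ M.V d w)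
    (h2 : ¬ M.V (M.φ (M.φ d)) w) : M.Free (M.φ d) w := by
  have hb : M.φ d ∈ M.S := M.φS d hd
  refine ⟨h0, fun x hx hxx => ?_⟩
  rcases geo_deg2 M d hd h x hxx.1 with rfl | rfl
  · exact h2 (M.V_trans (M.V_symm (M.V_αφ hb)) hxx.2)
  · rw [M.αα d hd] at hxx
    exact h1 hxx.2

end Mp
end TwoPlane
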