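import Pool.Agent.Work.MP_3b7449_co.TP.Faces

/-!
# Glue (size M): transport of faces and of valid choices

`hA : M.Agree M' cfg`: `cfg` is a union of faces of `M`; outside `cfg` the next darts agree.
For `d ∈ M.S` with `¬ cfg d` all the iterates `φ^j d` are outside `cfg` and in `M'.S`, and
`M'.φ^j d = M.φ^j d`.  So `L2 … L5`, `Fc` are the same, and `VAt` is transported when `R c x y`
implies `R' c x y` for the darts `x` outside `cfg`.
`agree_valid`: for `¬ cfg d` use `agree_VAt` (second part `N` is impossible there), for `cfg d`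
all `x` with `Fc d x` are in `cfg`, so the first part is impossible and `VAt N d` applies.
`agree_face`: for `d ∈ M'.S` outside `cfg` (then `d ∈ M.S`) use `M.FaceOk`.
-/

namespace TwoPlane
namespace Mp

variable {D : Type} [DecidableEq D]

theorem agree_L (M M' : Mp D) (cfg : D → Prop) (hA : M.Agree M' cfg) (d : D) (hd : d ∈ M.S)
    (hc : ¬ cfg d) :
    (M'.L2 d ↔ M.L2 d) ∧ (M'.L3 d ↔ M.L3 d) ∧ (M'.L4 d ↔ M.L4 d) ∧ (M'.L5 d ↔ M.L5 d) ∧
      (∀ x, M'.Fc d x ↔ M.Fc d x) ∧ (∀ x, M.Fc d x → x ∈ M.S ∧ ¬ cfg x) := by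
  have step : ∀ x, x ∈ M.S → ¬ cfg x → M'.φ x = M.φ x ∧ M.φ x ∈ M.S ∧ ¬ cfg (M.φ x) :=
    fun x hx hcx => ⟨(hA.out x hx hcx).2, M.φS x hx, fun h => hcx ((hA.inv x hx).mpr h)⟩
  obtain ⟨e1, s1, c1⟩ := step d hd hc
  obtain ⟨e2, s2, c2⟩ := step _ s1 c1
  obtain ⟨e3, s3, c3⟩ := step _ s2 c2
  obtain ⟨e4, s4, c4⟩ := step _ s3 c3
  obtain ⟨e5, s5, c5⟩ := step _ s4 c4
  refine ⟨?_, ?_, ?_, ?_, ?_, ?_⟩
  · simp only [L2, e1, e2]
  · simp only [L3, e1, e2, e3]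
  · simp only [L4, e1, e2, e3, e4]
  · simp only [L5, e1, e2, e3, e4, e5]
  · intro x
    simp only [Fc, e1, e2, e3, e4]
  · intro x hx
    rcases hx with rfl | rfl | rfl | rfl | rfl
    · exact ⟨hd, hc⟩
    · exact ⟨s1, c1⟩
    · exact ⟨s2, c2⟩
    · exact ⟨s3, c3⟩
    · exact ⟨s4, c4⟩

theorem agree_VAt (M M' : Mp D) (cfg : D → Prop) (hA : M.Agree M' cfg) (d : D)
    (hd : d ∈ M.S) (hc : ¬ cfg d) (R R' : Bool → D → D → Prop)
    (hR : ∀ c x y, ¬ cfg x → R c x y → R' c x y) (h : M'.VAt R' d) : M.VAt R d := by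
  obtain ⟨l2, l3, l4, l5, hFc, hin⟩ := agree_L M M' cfg hA d hd hc
  have step : ∀ x, x ∈ M.S → ¬ cfg x → M'.φ x = M.φ x ∧ M.φ x ∈ M.S ∧ ¬ cfg (M.φ x) :=
    fun x hx hcx => ⟨(hA.out x hx hcx).2, M.φS x hx, fun h => hcx ((hA.inv x hx).mpr h)⟩
  obtain ⟨h2, h3, h4, h5⟩ := h
  refine ⟨?_, ?_, ?_, ?_⟩
  · intro hL c x y hx hxy
    exact h2 (l2.mpr hL) c x y ((hFc x).mpr hx) (hR c x y (hin x hx).2 hxy)
  · intro hL
    obtain ⟨i, c, hi, hh⟩ := h3 (l3.mpr hL)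
    have hi' := (hFc i).mp hi
    obtain ⟨si, ci⟩ := hin i hi'
    obtain ⟨e1, s1, c1⟩ := step i si ci
    refine ⟨i, c, hi', ?_⟩
    intro c' x y hx hxy
    have := hh c' x y ((hFc x).mpr hx) (hR c' x y (hin x hx).2 hxy)
    rwa [e1] at this
  · intro hL
    obtain ⟨i, c, e, e', c₂, hi, he, he', hh⟩ := h4 (l4.mpr hL)
    have hi' := (hFc i).mp hi
    obtain ⟨si, ci⟩ := hin i hi'
    obtain ⟨e1, s1, c1⟩ := step i si ci
    obtain ⟨e2, s2, c2⟩ := step _ s1 c1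
    refine ⟨i, c, e, e', c₂, hi', (hFc e).mp he, (hFc e').mp he', ?_⟩
    intro c' x y hx hxy
    have := hh c' x y ((hFc x).mpr hx) (hR c' x y (hin x hx).2 hxy)
    rwa [e1, e2] at this
  · intro hL
    obtain ⟨i, o, m, hi, hh⟩ := h5 (l5.mpr hL)
    have hi' := (hFc i).mp hi
    obtain ⟨si, ci⟩ := hin i hi'
    obtain ⟨e1, s1, c1⟩ := step i si ci
    obtain ⟨e2, s2, c2⟩ := step _ s1 c1
    obtain ⟨e3, s3, c3⟩ := step _ s2 c2
    obtain ⟨e4, s4, c4⟩ := step _ s3 c3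
    refine ⟨i, o, m, hi', ?_⟩
    intro c' x y hx hxy
    have := hh c' x y ((hFc x).mpr hx) (hR c' x y (hin x hx).2 hxy)
    rwa [e1, e2, e3, e4] at this

private theorem VAt_mono (M : Mp D) {R R2 : Bool → D → D → Prop} {d : D} (h : M.VAt R d)
    (hm : ∀ c x y, M.Fc d x → R2 c x y → R c x y) : M.VAt R2 d := by
  obtain ⟨h2, h3, h4, h5⟩ := h
  refine ⟨?_, ?_, ?_, ?_⟩
  · intro hL c x y hx hxy
    exact h2 hL c x y hx (hm c x y hx hxy)
  · intro hL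
    obtain ⟨i, c, hi, hh⟩ := h3 hL
    exact ⟨i, c, hi, fun c' x y hx hxy => hh c' x y hx (hm c' x y hx hxy)⟩
  · intro hL
    obtain ⟨i, c, e, e', c₂, hi, he, he', hh⟩ := h4 hL
    exact ⟨i, c, e, e', c₂, hi, he, he', fun c' x y hx hxy => hh c' x y hx (hm c' x y hx hxy)⟩
  · intro hL
    obtain ⟨i, o, m, hi, hh⟩ := h5 hL
    exact ⟨i, o, m, hi, fun c' x y hx hxy => hh c' x y hx (hm c' x y hx hxy)⟩

theorem agree_valid (M M' : Mp D) (cfg : D → Prop) (hA : M.Agree M' cfg)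
    (R' N : Bool → D → D → Prop) (hV : M'.Valid R')
    (hN : ∀ c x y, N c x y → x ∈ M.S ∧ cfg x) (hNv : ∀ d ∈ M.S, cfg d → M.VAt N d) :
    M.Valid (fun c x y => (R' c x y ∧ x ∈ M.S ∧ ¬ cfg x) ∨ N c x y) := by
  refine ⟨?_, ?_⟩
  · rintro c x y (h | h)
    · exact h.2.1
    · exact (hN c x y h).1
  · intro d hd
    by_cases hc : cfg d
    · refine VAt_mono M (hNv d hd hc) ?_
      rintro c x y hx (h | h)
      · exfalso
        have step : ∀ x, x ∈ M.S → cfg x → M.φ x ∈ M.S ∧ cfg (M.φ x) :=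
          fun x hx hcx => ⟨M.φS x hx, (hA.inv x hx).mp hcx⟩
        obtain ⟨s1, c1⟩ := step d hd hc
        obtain ⟨s2, c2⟩ := step _ s1 c1
        obtain ⟨s3, c3⟩ := step _ s2 c2
        obtain ⟨s4, c4⟩ := step _ s3 c3
        rcases hx with hx | hx | hx | hx | hx <;> rw [hx] at h
        · exact h.2.2 hc
        · exact h.2.2 c1
        · exact h.2.2 c2
        · exact h.2.2 c3
        · exact h.2.2 c4
      · exact h
    · refine agree_VAt M M' cfg hA d hd hc _ R' ?_ (hV.2 d (hA.out d hd hc).1)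
      rintro c x y hx (h | h)
      · exact h.1
      · exact absurd (hN c x y h).2 hx

theorem agree_face (M M' : Mp D) (cfg : D → Prop) (hA : M.Agree M' cfg) (hf : M.FaceOk)
    (hsub : M'.S ⊆ M.S)
    (h : ∀ d ∈ M'.S, cfg d → M'.L2 d ∨ M'.L3 d ∨ M'.L4 d ∨ M'.L5 d) : M'.FaceOk := by
  intro d hd
  by_cases hc : cfg d
  · exact h d hd hc
  · obtain ⟨l2, l3, l4, l5, _, _⟩ := agree_L M M' cfg hA d (hsub hd) hc
    rw [l2, l3, l4, l5]
    exact hf d (hsub hd)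

end Mp
end TwoPlane
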