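import Pool.Agent.Work.MP_3b7449_co.TP.Core
import Pool.Agent.Work.MP_3b7449_co.TP.Glue
import Pool.Agent.Work.MP_3b7449_co.TP.RedL

/-!
# Scheme (size M-L): the common part of all reductions with a pentagon

`outL M R' cfg r c` are the links outside the configuration `cfg`, with the root.  Write
`ρ c = M.Lnk (outL M R' cfg r c)`, `X c` for `EqvGen (ρ c ∪ L c-links)` where the `L`-links are
the pairs `(v i, v j)` with `L c i j`.
1. `M.Lnk Q x y → X c x y` (`hQ`, `V ⊆ ρ c`), and `M.Lnk (R' c ∪ Q) x y → X c x y` (`hRL` for the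
   pairs of `R'` inside the configuration, the others are in `ρ c`).
2. So `X c x y` for all `x, y ∈ S'` (`hT`).  `core_J` gives the first claim (`hJ`, 1).
3. Second claim.  Every `x ∈ M.S` is `ρ c`-related to some `v j`: if `x` is covered, `X c x y` with
   `y ∈ S'`, `X c y (v i0)` for some `i0 ∈ J` (by `hJ0`, `hJ`, 2), `core_cov`; otherwise `V x (v i)`.
   `core_tot` with `N c`, then every `N`-link is in `M.Lnk (outL ∪ N' c)` by `hN'`, and
   `ρ c ⊆ M.Lnk (outL ∪ N' c)`; finally `outL ∪ N' c` are the links in the claim.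
`scheme_TC` adds `agree_valid`.
-/

namespace TwoPlane
namespace Mp

variable {D : Type} [DecidableEq D]

/-- links outside the configuration `cfg`, with the root edge -/
def outL (M : Mp D) (R' : Bool → D → D → Prop) (cfg : D → Prop) (r : D) (c : Bool) (x y : D) :
    Prop := (R' c x y ∧ x ∈ M.S ∧ ¬ cfg x) ∨ (x = r ∧ y = M.α r)

theorem scheme (M : Mp D) (S' : Finset D) (cfg : D → Prop) (Q : D → D → Prop) (r : D)
    (R' : Bool → D → D → Prop)
    (hT : ∀ c, ∀ x ∈ S', ∀ y ∈ S', M.Lnk (fun x y => R' c x y ∨ Q x y) x y)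
    (v : Fin 5 → D) (L : Bool → Fin 5 → Fin 5 → Prop) (J : Fin 5 → Prop)
    (hQ : ∀ c x y, Q x y → Relation.EqvGen
      (fun a b => M.Lnk (outL M R' cfg r c) a b ∨ ∃ i j, L c i j ∧ a = v i ∧ b = v j) x y)
    (hRL : ∀ c x y, R' c x y → (x ∉ M.S ∨ cfg x) → Relation.EqvGen
      (fun a b => M.Lnk (outL M R' cfg r c) a b ∨ ∃ i j, L c i j ∧ a = v i ∧ b = v j) x y)
    (hcov : ∀ x ∈ M.S, (∃ y ∈ S', M.Lnk Q x y) ∨ ∃ i, M.V x (v i))
    (hJ : ∀ i, J i → ∃ y ∈ S', M.Lnk Q (v i) y) (hJ0 : ∃ i, J i) :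
    (∀ c, FinC J (fun i j => M.Lnk (outL M R' cfg r c) (v i) (v j)) (L c)) ∧
    ∀ (N : Bool → Fin 5 → Fin 5 → Prop) (N' : Bool → D → D → Prop),
      (∀ c, FinC (fun _ => True) (fun i j => M.Lnk (outL M R' cfg r c) (v i) (v j)) (N c)) →
      (∀ c i j, N c i j →
        M.Lnk (fun x y => outL M R' cfg r c x y ∨ N' c x y) (v i) (v j)) →
      M.Tot (fun c x y => ((R' c x y ∧ x ∈ M.S ∧ ¬ cfg x) ∨ N' c x y) ∨
        (x = r ∧ y = M.α r)) := by
  have hXeq : ∀ c, Equivalence (Relation.EqvGen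
      (fun a b => M.Lnk (outL M R' cfg r c) a b ∨ ∃ i j, L c i j ∧ a = v i ∧ b = v j)) :=
    fun c => Relation.EqvGen.is_equivalence _
  have hXV : ∀ c x y, M.V x y → Relation.EqvGen
      (fun a b => M.Lnk (outL M R' cfg r c) a b ∨ ∃ i j, L c i j ∧ a = v i ∧ b = v j) x y :=
    fun c x y h => Relation.EqvGen.rel _ _ (Or.inl (M.V_Lnk h))
  have hXQ : ∀ c x y, M.Lnk Q x y → Relation.EqvGen
      (fun a b => M.Lnk (outL M R' cfg r c) a b ∨ ∃ i j, L c i j ∧ a = v i ∧ b = v j) x y :=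
    fun c x y h => M.Lnk_le (hXeq c) (fun a ha => hXV c _ _ (M.V_σ ha))
      (fun a b h' => hQ c a b h') h
  have hXT : ∀ c, ∀ x ∈ S', ∀ y ∈ S', Relation.EqvGen
      (fun a b => M.Lnk (outL M R' cfg r c) a b ∨ ∃ i j, L c i j ∧ a = v i ∧ b = v j) x y := by
    intro c x hx y hy
    refine M.Lnk_le (hXeq c) (fun a ha => hXV c _ _ (M.V_σ ha)) ?_ (hT c x hx y hy)
    intro a b h
    rcases h with h | h
    · by_cases h1 : a ∈ M.S ∧ ¬ cfg a
      · exact Relation.EqvGen.rel _ _ (Or.inl (M.Lnk_of (Or.inl ⟨h, h1.1, h1.2⟩)))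
      · refine hRL c a b h ?_
        by_cases h2 : a ∈ M.S
        · exact Or.inr (by_contra fun h3 => h1 ⟨h2, h3⟩)
        · exact Or.inl h2
    · exact hQ c a b h
  have hJ' : ∀ c, ∀ i, J i → ∃ x ∈ S', Relation.EqvGen
      (fun a b => M.Lnk (outL M R' cfg r c) a b ∨ ∃ i j, L c i j ∧ a = v i ∧ b = v j)
      x (v i) := by
    intro c i hi
    obtain ⟨y, hy, h⟩ := hJ i hi
    exact ⟨y, hy, (hXeq c).symm (hXQ c _ _ h)⟩
  refine ⟨fun c => core_J _ (M.Lnk_equiv _) v (L c) J S' (hJ' c) (hXT c), ?_⟩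
  intro N N' hN hN' c x hx y hy
  have hS : ∀ x ∈ M.S, ∃ i, M.Lnk (outL M R' cfg r c) x (v i) := by
    intro x hx
    rcases hcov x hx with ⟨y, hy, h⟩ | ⟨i, h⟩
    · obtain ⟨i0, hi0⟩ := hJ0
      obtain ⟨z, hz, hz2⟩ := hJ' c i0 hi0
      exact core_cov _ (M.Lnk_equiv _) v (L c)
        ((hXeq c).trans ((hXeq c).trans (hXQ c _ _ h) (hXT c y hy z hz)) hz2)
    · exact ⟨i, M.V_Lnk h⟩
  have key := core_tot (M.Lnk (outL M R' cfg r c)) (M.Lnk_equiv _) v (N c) (hN c) M.S hS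
    x hx y hy
  have e2 := M.Lnk_equiv (fun x y => ((R' c x y ∧ x ∈ M.S ∧ ¬ cfg x) ∨ N' c x y) ∨
        (x = r ∧ y = M.α r))
  have hle : ∀ a b, outL M R' cfg r c a b →
      (((R' c a b ∧ a ∈ M.S ∧ ¬ cfg a) ∨ N' c a b) ∨ (a = r ∧ b = M.α r)) := by
    intro a b h
    rcases h with h | h
    · exact Or.inl (Or.inl h)
    · exact Or.inr h
  clear hx hy
  induction key with
  | rel a b h =>
    rcases h with h | ⟨i, j, h1, h2, h3⟩
    · exact M.Lnk_le e2 (fun a ha => M.V_Lnk (M.V_σ ha))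
        (fun a b h' => M.Lnk_of (hle a b h')) h
    · rw [h2, h3]
      refine M.Lnk_le e2 (fun a ha => M.V_Lnk (M.V_σ ha)) ?_ (hN' c i j h1)
      intro a b h'
      rcases h' with h' | h'
      · exact M.Lnk_of (hle a b h')
      · exact M.Lnk_of (Or.inl (Or.inr h'))
  | refl a => exact e2.refl a
  | symm a b _ ih => exact e2.symm ih
  | trans a b c _ _ ih1 ih2 => exact e2.trans ih1 ih2

theorem scheme_TC (M M' : Mp D) (cfg : D → Prop) (hA : M.Agree M' cfg) (r : D)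
    (R' N' : Bool → D → D → Prop) (hV : M'.Valid R')
    (hN : ∀ c x y, N' c x y → x ∈ M.S ∧ cfg x) (hNv : ∀ d ∈ M.S, cfg d → M.VAt N' d)
    (h : M.Tot (fun c x y => ((R' c x y ∧ x ∈ M.S ∧ ¬ cfg x) ∨ N' c x y) ∨
        (x = r ∧ y = M.α r))) : M.TC r := by
  exact ⟨_, agree_valid M M' cfg hA R' N' hV hN hNv, h⟩

/-- the root edge read backwards -/
theorem TC_symm (M : Mp D) (r : D) (hr : r ∈ M.S) (h : M.TC (M.α r)) : M.TC r := by
  obtain ⟨R, hV, hT⟩ := h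
  refine ⟨R, hV, fun c x hx y hy => ?_⟩
  refine M.Lnk_le (M.Lnk_equiv _) (fun a ha => M.V_Lnk (M.V_σ ha)) ?_ (hT c x hx y hy)
  intro a b h
  rcases h with h | ⟨h1, h2⟩
  · exact M.Lnk_of (Or.inl h)
  · rw [h1, h2, M.αα r hr]
    exact M.Lnk_symm (M.Lnk_of (Or.inr ⟨rfl, rfl⟩))

/-- exchanging the two colours -/
theorem VAt_swap (M : Mp D) (R : Bool → D → D → Prop) (d : D) (h : M.VAt R d) :
    M.VAt (fun c => R (!c)) d := by
  obtain ⟨h2, h3, h4, h5⟩ := h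
  refine ⟨fun h => fun c x y hx hR => h2 h (!c) x y hx hR, fun h => ?_, fun h => ?_,
    fun h => ?_⟩
  · obtain ⟨i, c, hi, hc⟩ := h3 h
    refine ⟨i, !c, hi, fun c' x y hx hR => ?_⟩
    obtain ⟨a1, a2, a3⟩ := hc (!c') x y hx hR
    exact ⟨by rw [← a1, Bool.not_not], a2, a3⟩
  · obtain ⟨i, c, e, e', c2, hi, he, he', hc⟩ := h4 h
    refine ⟨i, !c, e, e', !c2, hi, he, he', fun c' x y hx hR => ?_⟩
    rcases hc (!c') x y hx hR with ⟨a1, a2, a3⟩ | ⟨a1, a2, a3⟩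
    · exact Or.inl ⟨by rw [← a1, Bool.not_not], a2, a3⟩
    · exact Or.inr ⟨by rw [← a1, Bool.not_not], a2, a3⟩
  · obtain ⟨i, o, m, hi, hc⟩ := h5 h
    refine ⟨i, !o, !m, hi, fun c' x y hx hR => ?_⟩
    rcases hc (!c') x y hx hR with ⟨a1, a2, a3⟩ | ⟨a1, a2, a3⟩ | ⟨a1, a2, a3⟩
    · exact Or.inl ⟨by rw [← a1, Bool.not_not], a2, a3⟩
    · exact Or.inr (Or.inl ⟨by rw [← a1, Bool.not_not], a2, a3⟩)
    · exact Or.inr (Or.inr ⟨by rw [← a1, Bool.not_not], a2, a3⟩)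

end Mp
end TwoPlane
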