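import Pool.Agent.Work.MP_3b7449_co.TP.CutC
import Pool.Agent.Work.MP_3b7449_co.TP.Scheme

/-!
# Glue2 (size M-L): gluing two maps along a digon

`A`, `B` are complementary.  `MA := M.cut A {k0, k1} ψA hA`, `MB := M.cut B {α k0, α k1} ψB hB`
(classical decidability).  Both are `Ok` by `cut_ok`: the closing faces are digons
(`MA.φ k0 = k1 ≠ k0`, `MA.φ k1 = k0`; the same for `MB`, `α k0 ≠ α k1`).  Both have fewer darts
(`hcA`, `hcB`: a dart of `M.S` which is not in the set).  `MA.S` consists of the darts with `A`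
and `k0, k1`; `MB.S` of the darts with `B` and `α k0, α k1`; `k0, k1` satisfy `B`, `α k0`, `α k1`
satisfy `A`.
`ih` for `MB`, `r`: `RB`; `ih` for `MA`, `k0`: `RA`.  `R c x y := (RA c x y ∧ A x) ∨ (RB c x y ∧ B x)`.
Valid: in a face with `A` the iterates of `φ` agree with those of `MA` and `RB` does not
contribute; the same for `B` (use `agree_VAt` with `cfg = B`, resp. `cfg = A`, or directly).
Nothing is lost: `RA c x y` implies `x ∈ MA.S`, and `x = k0, k1` is impossible as the closing face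
has length 2 (`Valid`).
Total: by `cut_V` and `Lnk_le`, all darts of `MB.S` are linked by `R` and the root link.  The
darts of `MA.S` are linked by `R` and the link `(k0, α k0)`; both `k0` (it satisfies `B`) and
`α k0` are in `MB.S`, so this link is already there.  Every dart of `M.S` is in `MA.S` or `MB.S`,
and `k0` is in both.
-/

namespace TwoPlane
namespace Mp

variable {D : Type} [DecidableEq D]

private theorem g2_mem (M : Mp D) (I : D → Prop) [DecidablePred I] (K : Finset D) (ψ : D → D)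
    (h : M.Side I K ψ) {x : D} : x ∈ (M.cut I K ψ h).S ↔ (x ∈ M.S ∧ I x) ∨ x ∈ K := by
  show x ∈ M.S.filter I ∪ K ↔ _
  rw [Finset.mem_union, Finset.mem_filter]

private theorem g2_sub (M : Mp D) (I : D → Prop) [DecidablePred I] (K : Finset D) (ψ : D → D)
    (h : M.Side I K ψ) {x : D} (hx : x ∈ (M.cut I K ψ h).S) : x ∈ M.S := by
  rcases (g2_mem M I K ψ h).1 hx with h1 | h1
  · exact h1.1
  · exact h.KS x h1

private theorem g2_φK (M : Mp D) (I : D → Prop) [DecidablePred I] (K : Finset D) (ψ : D → D)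
    (h : M.Side I K ψ) {x : D} (hx : x ∈ K) : (M.cut I K ψ h).φ x = ψ x := by
  show (if x ∈ K then ψ x else M.φ x) = ψ x
  rw [if_pos hx]

private theorem g2_φI (M : Mp D) (I : D → Prop) [DecidablePred I] (K : Finset D) (ψ : D → D)
    (h : M.Side I K ψ) {x : D} (hx : I x) : (M.cut I K ψ h).φ x = M.φ x := by
  show (if x ∈ K then ψ x else M.φ x) = M.φ x
  rw [if_neg fun hk => h.KI x hk hx]

private theorem g2_agree (M : Mp D) (I J : D → Prop) (hIJ : ∀ x, J x ↔ ¬ I x) [DecidablePred I]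
    (K : Finset D) (ψ : D → D) (h : M.Side I K ψ) : M.Agree (M.cut I K ψ h) J := by
  refine ⟨fun d hd => ?_, fun d hd hJ => ?_⟩
  · rw [hIJ, hIJ, h.hI d hd]
  · have hi : I d := by
      by_contra h1
      exact hJ ((hIJ d).2 h1)
    exact ⟨(g2_mem M I K ψ h).2 (Or.inl ⟨hd, hi⟩), g2_φI M I K ψ h hi⟩

/-- the links of a cut map are links of the map -/
private theorem g2_lnk (M : Mp D) (I : D → Prop) [DecidablePred I] (K : Finset D) (ψ : D → D)
    (h : M.Side I K ψ) (k0 k1 : D) (hK : K = {k0, k1})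
    (h0 : ψ k0 = k1) (h1 : ψ k1 = k0) (hne : k0 ≠ k1)
    (RI : Bool → D → D → Prop) (hV : (M.cut I K ψ h).Valid RI) (c : Bool) (E : D → D → Prop)
    (hE : Equivalence E) (hEV : ∀ x y, M.V x y → E x y)
    (hER : ∀ x y, RI c x y → I x → E x y) (r : D) (hEr : E r (M.α r)) {x y : D}
    (hL : (M.cut I K ψ h).Lnk (fun x y => RI c x y ∨ (x = r ∧ y = (M.cut I K ψ h).α r)) x y) :
    E x y := by
  have hk0 : k0 ∈ K := by rw [hK]; simp
  have hk1 : k1 ∈ K := by rw [hK]; simp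
  refine Lnk_le _ hE (fun a ha => hEV _ _ (M.cut_V I K ψ h ((M.cut I K ψ h).V_σ ha)))
    (fun a b hab => ?_) hL
  rcases hab with hab | ⟨rfl, rfl⟩
  · rcases (g2_mem M I K ψ h).1 (hV.1 c a b hab) with h2 | h2
    · exact hER a b hab h2.2
    · exfalso
      have hkS : k0 ∈ (M.cut I K ψ h).S := (g2_mem M I K ψ h).2 (Or.inr hk0)
      have hL2 : (M.cut I K ψ h).L2 k0 := by
        unfold L2
        rw [g2_φK M I K ψ h hk0, h0, g2_φK M I K ψ h hk1, h1]
        exact ⟨hne.symm, rfl⟩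
      refine (hV.2 k0 hkS).1 hL2 c a b ?_ hab
      rw [hK, Finset.mem_insert, Finset.mem_singleton] at h2
      rcases h2 with h2 | h2
      · exact Or.inl h2
      · right; left
        rw [g2_φK M I K ψ h hk0, h0]
        exact h2
  · exact hEr

theorem glue2 (M : Mp D) (hOk : M.Ok) (ih : M.IH) (A B : D → Prop)
    (hAB : ∀ x, B x ↔ ¬ A x) (k0 k1 : D) (ψA ψB : D → D)
    (hA : M.Side A {k0, k1} ψA) (hB : M.Side B {M.α k0, M.α k1} ψB) (hne : k0 ≠ k1)
    (hA0 : ψA k0 = k1) (hA1 : ψA k1 = k0) (hB0 : ψB (M.α k0) = M.α k1)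
    (hB1 : ψB (M.α k1) = M.α k0)
    (hcA : ∃ x ∈ M.S, B x ∧ x ≠ k0 ∧ x ≠ k1)
    (hcB : ∃ x ∈ M.S, A x ∧ x ≠ M.α k0 ∧ x ≠ M.α k1)
    (r : D) (hr : r ∈ M.S) (hrB : B r) : M.TC r := by
  classical
  have hAB' : ∀ x, A x ↔ ¬ B x := fun x => by rw [hAB]; tauto
  have hk0 : k0 ∈ ({k0, k1} : Finset D) := by simp
  have hk1 : k1 ∈ ({k0, k1} : Finset D) := by simp
  have hj0 : M.α k0 ∈ ({M.α k0, M.α k1} : Finset D) := by simp
  have hj1 : M.α k1 ∈ ({M.α k0, M.α k1} : Finset D) := by simp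
  have hk0S := hA.KS k0 hk0
  have hk1S := hA.KS k1 hk1
  have hBk0 : B k0 := (hAB k0).2 (hA.KI k0 hk0)
  have hne' : M.α k0 ≠ M.α k1 := by
    intro h
    have h1 := congrArg M.α h
    rw [M.αα k0 hk0S, M.αα k1 hk1S] at h1
    exact hne h1
  have okA : (M.cut A {k0, k1} ψA hA).Ok := by
    refine M.cut_ok A {k0, k1} ψA hA hOk fun k hk => Or.inl ?_
    unfold L2
    rw [Finset.mem_insert, Finset.mem_singleton] at hk
    rcases hk with rfl | rfl
    · rw [g2_φK M A _ ψA hA hk0, hA0, g2_φK M A _ ψA hA hk1, hA1]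
      exact ⟨hne.symm, rfl⟩
    · rw [g2_φK M A _ ψA hA hk1, hA1, g2_φK M A _ ψA hA hk0, hA0]
      exact ⟨hne, rfl⟩
  have okB : (M.cut B {M.α k0, M.α k1} ψB hB).Ok := by
    refine M.cut_ok B {M.α k0, M.α k1} ψB hB hOk fun k hk => Or.inl ?_
    unfold L2
    rw [Finset.mem_insert, Finset.mem_singleton] at hk
    rcases hk with rfl | rfl
    · rw [g2_φK M B _ ψB hB hj0, hB0, g2_φK M B _ ψB hB hj1, hB1]
      exact ⟨hne'.symm, rfl⟩
    · rw [g2_φK M B _ ψB hB hj1, hB1, g2_φK M B _ ψB hB hj0, hB0]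
      exact ⟨hne', rfl⟩
  have cardA : (M.cut A {k0, k1} ψA hA).S.card < M.S.card := by
    apply Finset.card_lt_card
    rw [Finset.ssubset_iff_of_subset (fun x hx => g2_sub M A _ ψA hA hx)]
    obtain ⟨x, hx, hBx, h1, h2⟩ := hcA
    refine ⟨x, hx, fun h3 => ?_⟩
    rcases (g2_mem M A _ ψA hA).1 h3 with h4 | h4
    · exact (hAB x).1 hBx h4.2
    · rw [Finset.mem_insert, Finset.mem_singleton] at h4
      rcases h4 with h4 | h4
      · exact h1 h4
      · exact h2 h4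
  have cardB : (M.cut B {M.α k0, M.α k1} ψB hB).S.card < M.S.card := by
    apply Finset.card_lt_card
    rw [Finset.ssubset_iff_of_subset (fun x hx => g2_sub M B _ ψB hB hx)]
    obtain ⟨x, hx, hAx, h1, h2⟩ := hcB
    refine ⟨x, hx, fun h3 => ?_⟩
    rcases (g2_mem M B _ ψB hB).1 h3 with h4 | h4
    · exact (hAB' x).1 hAx h4.2
    · rw [Finset.mem_insert, Finset.mem_singleton] at h4
      rcases h4 with h4 | h4
      · exact h1 h4
      · exact h2 h4
  have k0A : k0 ∈ (M.cut A {k0, k1} ψA hA).S := (g2_mem M A _ ψA hA).2 (Or.inr hk0)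
  have rB : r ∈ (M.cut B {M.α k0, M.α k1} ψB hB).S := (g2_mem M B _ ψB hB).2 (Or.inl ⟨hr, hrB⟩)
  obtain ⟨RB, hVB, hTB⟩ := ih _ cardB okB r rB
  obtain ⟨RA, hVA, hTA⟩ := ih _ cardA okA k0 k0A
  refine ⟨fun c x y => (RA c x y ∧ A x) ∨ (RB c x y ∧ B x), ⟨?_, ?_⟩, ?_⟩
  · rintro c x y (h | h)
    · exact g2_sub M A _ ψA hA (hVA.1 c x y h.1)
    · exact g2_sub M B _ ψB hB (hVB.1 c x y h.1)
  · intro d hd
    by_cases hAd : A d
    · refine agree_VAt M _ B (g2_agree M A B hAB _ ψA hA) d hd (fun h => (hAB d).1 h hAd) _ RA ?_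
        (hVA.2 d ((g2_mem M A _ ψA hA).2 (Or.inl ⟨hd, hAd⟩)))
      rintro c x y hx (h | h)
      · exact h.1
      · exact absurd h.2 hx
    · have hBd : B d := (hAB d).2 hAd
      refine agree_VAt M _ A (g2_agree M B A hAB' _ ψB hB) d hd hAd _ RB ?_
        (hVB.2 d ((g2_mem M B _ ψB hB).2 (Or.inl ⟨hd, hBd⟩)))
      rintro c x y hx (h | h)
      · exact absurd h.2 hx
      · exact h.1
  · intro c
    obtain ⟨E, hEdef⟩ : ∃ E : D → D → Prop, E = M.Lnk (fun x y =>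
        ((RA c x y ∧ A x) ∨ (RB c x y ∧ B x)) ∨ (x = r ∧ y = M.α r)) := ⟨_, rfl⟩
    have hE : Equivalence E := by rw [hEdef]; exact M.Lnk_equiv _
    have hEV : ∀ x y, M.V x y → E x y := fun x y h => by rw [hEdef]; exact M.V_Lnk h
    have s1 : ∀ x ∈ (M.cut B {M.α k0, M.α k1} ψB hB).S,
        ∀ y ∈ (M.cut B {M.α k0, M.α k1} ψB hB).S, E x y := by
      intro x hx y hy
      refine g2_lnk M B _ ψB hB (M.α k0) (M.α k1) rfl hB0 hB1 hne' RB hVB c E hE hEV ?_ r ?_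
        (hTB c x hx y hy)
      · intro a b hab hBa
        rw [hEdef]
        exact M.Lnk_of (Or.inl (Or.inr ⟨hab, hBa⟩))
      · rw [hEdef]
        exact M.Lnk_of (Or.inr ⟨rfl, rfl⟩)
    have k0B : k0 ∈ (M.cut B {M.α k0, M.α k1} ψB hB).S :=
      (g2_mem M B _ ψB hB).2 (Or.inl ⟨hk0S, hBk0⟩)
    have j0B : M.α k0 ∈ (M.cut B {M.α k0, M.α k1} ψB hB).S :=
      (g2_mem M B _ ψB hB).2 (Or.inr hj0)
    have s2 : ∀ x ∈ (M.cut A {k0, k1} ψA hA).S, ∀ y ∈ (M.cut A {k0, k1} ψA hA).S, E x y := by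
      intro x hx y hy
      refine g2_lnk M A _ ψA hA k0 k1 rfl hA0 hA1 hne RA hVA c E hE hEV ?_ k0 (s1 _ k0B _ j0B)
        (hTA c x hx y hy)
      intro a b hab hAa
      rw [hEdef]
      exact M.Lnk_of (Or.inl (Or.inl ⟨hab, hAa⟩))
    have s3 : ∀ x ∈ M.S, E x k0 := by
      intro x hx
      by_cases hAx : A x
      · exact s2 x ((g2_mem M A _ ψA hA).2 (Or.inl ⟨hx, hAx⟩)) k0 k0A
      · exact s1 x ((g2_mem M B _ ψB hB).2 (Or.inl ⟨hx, (hAB x).2 hAx⟩)) k0 k0B
    intro x hx y hy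
    have h4 := hE.trans (s3 x hx) (hE.symm (s3 y hy))
    rw [hEdef] at h4
    exact h4

end Mp
end TwoPlane
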