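import Pool.Agent.Work.MP_3b7449_co.TP.CutC
import Pool.Agent.Work.MP_3b7449_co.TP.Scheme

/-!
# Glue3 (size L): gluing two maps along a triangle

`MA := M.cut A {k0, k1, k2} ψA hA` (closing triangle `k0 → k1 → k2`),
`MB := M.cut B {α k0, α k1, α k2} ψB hB` (closing triangle `α k0 → α k2 → α k1`).  Both `Ok`
(`cut_ok`, closing faces of length 3), both with fewer darts.  `k0, k1, k2` satisfy `B` and
`α k0, …` satisfy `A`, so these six darts are in both maps.  `V (ψB l) (α l)` for the three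
darts `l = α k_j` (`hB.ψV`), `V (ψA k) (α k)`.
1. `ih` for `MB`, `r` gives `RB`; on the closing triangle it has at most one pair
   `(i, ψB i)`, of the colour `c0` (`Valid`, `L3`).  Let
   `ρ c := M.Lnk ((RB c x y ∧ B x) ∪ (r, α r))`.  By `cut_V`: on `MB.S` everything is connected by
   `ρ c` if `c ≠ c0`, and by `ρ c0` together with the pair `(i, ψB i)`.
2. There is `k ∈ {k0, k1, k2}` with `ρ c k (α k)` for both colours: for `c ≠ c0` clear.  For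
   `c = c0`: `j := ψB (ψB i)`, `ψB j = i`.  By `core_down` (with `k = 2`) or directly, `j` is
   `ρ c0`-related to `i` or to `m := ψB i`.  In the first case take `k = α j`:
   `V (ψB j) (α j)`, i.e. `V i (α j)`, so `ρ (α j) j`.  In the second case take `k = α m`:
   `V (ψB m) (α m) = V j (α m)`, and `ρ j m`.
3. `ih` for `MA`, `k` gives `RA`; on the closing triangle at most one pair `(i', ψA i')` of
   colour `c1`.  Replacing `RA` by `fun c => RA (!c)` (`VAt_swap`; `Tot` is symmetric in the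
   colours) we may assume `c1 ≠ c0`.
4. `R c x y := (RA c x y ∧ A x) ∨ (RB c x y ∧ B x)` is valid (faces with `A` are faces of `MA`, faces
   with `B` are faces of `MB`).
5. Colour `c0`: on `MA.S` the links `(RA c0 on A)` and `(k, α k)` connect everything (no closing
   pair, as `c1 ≠ c0`), and `k ~ α k` through `ρ c0`.  In particular `i` and `ψB i` (which satisfy
   `A`, so are in `MA.S`) are linked; hence everything in `MB.S` is linked.
   Colour `c ≠ c0`: everything in `MB.S` is linked by `ρ c`, in particular `k, α k` and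
   `i', ψA i'` (they satisfy `B` or are in `MB.S`); hence everything in `MA.S` is linked.
   `M.S = MA.S ∪ MB.S`, and `k0` is in both.
-/

namespace TwoPlane
namespace Mp

variable {D : Type} [DecidableEq D]

private theorem g3_φK (M : Mp D) (I : D → Prop) [DecidablePred I] (K : Finset D) (ψ : D → D)
    (h : M.Side I K ψ) {x : D} (hx : x ∈ K) : (M.cut I K ψ h).φ x = ψ x := if_pos hx

private theorem g3_φI (M : Mp D) (I : D → Prop) [DecidablePred I] (K : Finset D) (ψ : D → D)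
    (h : M.Side I K ψ) {x : D} (hx : x ∉ K) : (M.cut I K ψ h).φ x = M.φ x := if_neg hx

private theorem g3_mem (M : Mp D) (I : D → Prop) [DecidablePred I] (K : Finset D) (ψ : D → D)
    (h : M.Side I K ψ) {x : D} : x ∈ (M.cut I K ψ h).S ↔ (x ∈ M.S ∧ I x) ∨ x ∈ K := by
  show x ∈ M.S.filter I ∪ K ↔ _
  rw [Finset.mem_union, Finset.mem_filter]

private theorem g3_sub (M : Mp D) (I : D → Prop) [DecidablePred I] (K : Finset D) (ψ : D → D)
    (h : M.Side I K ψ) {x : D} (hx : x ∈ (M.cut I K ψ h).S) : x ∈ M.S := by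
  rcases (g3_mem M I K ψ h).1 hx with h1 | h1
  · exact h1.1
  · exact h.KS x h1

private theorem g3_L3 (M : Mp D) (I : D → Prop) [DecidablePred I] (K : Finset D) (ψ : D → D)
    (h : M.Side I K ψ) {a0 a1 a2 : D} (h0 : a0 ∈ K) (h1 : a1 ∈ K) (h2 : a2 ∈ K)
    (e0 : ψ a0 = a1) (e1 : ψ a1 = a2) (e2 : ψ a2 = a0) (hne : a1 ≠ a0) :
    (M.cut I K ψ h).L3 a0 := by
  unfold L3
  rw [g3_φK M I K ψ h h0, e0, g3_φK M I K ψ h h1, e1, g3_φK M I K ψ h h2, e2]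
  exact ⟨hne, rfl⟩

private theorem g3_closing (M : Mp D) (I : D → Prop) [DecidablePred I] (K : Finset D) (ψ : D → D)
    (h : M.Side I K ψ) {a0 a1 a2 : D} (hK : ∀ x, x ∈ K ↔ x = a0 ∨ x = a1 ∨ x = a2)
    (e0 : ψ a0 = a1) (e1 : ψ a1 = a2) (e2 : ψ a2 = a0) (hne : a1 ≠ a0)
    (R : Bool → D → D → Prop) (hR : (M.cut I K ψ h).Valid R) :
    ∃ i ∈ K, ∃ c0 : Bool, ∀ c' x y, x ∈ K → R c' x y → c' = c0 ∧ x = i ∧ y = ψ i := by
  have h0 : a0 ∈ K := (hK a0).2 (Or.inl rfl)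
  have h1 : a1 ∈ K := (hK a1).2 (Or.inr (Or.inl rfl))
  have h2 : a2 ∈ K := (hK a2).2 (Or.inr (Or.inr rfl))
  obtain ⟨i, c0, hi, hall⟩ := (hR.2 a0 ((g3_mem M I K ψ h).2 (Or.inr h0))).2.1
    (g3_L3 M I K ψ h h0 h1 h2 e0 e1 e2 hne)
  have hφ : ∀ x ∈ K, (M.cut I K ψ h).φ x ∈ K := by
    intro x hx
    rw [g3_φK M I K ψ h hx]
    exact h.ψK x hx
  have hiK : i ∈ K := by
    rcases hi with k | k | k | k | k
    · rw [k]; exact h0
    · rw [k]; exact hφ _ h0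
    · rw [k]; exact hφ _ (hφ _ h0)
    · rw [k]; exact hφ _ (hφ _ (hφ _ h0))
    · rw [k]; exact hφ _ (hφ _ (hφ _ (hφ _ h0)))
  refine ⟨i, hiK, c0, fun c' x y hx hxy => ?_⟩
  have hF : (M.cut I K ψ h).Fc a0 x := by
    rcases (hK x).1 hx with k | k | k
    · exact Or.inl k
    · refine Or.inr (Or.inl ?_)
      rw [g3_φK M I K ψ h h0, e0, k]
    · refine Or.inr (Or.inr (Or.inl ?_))
      rw [g3_φK M I K ψ h h0, e0, g3_φK M I K ψ h h1, e1, k]
  obtain ⟨k1, k2, k3⟩ := hall c' x y hF hxy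
  rw [g3_φK M I K ψ h hiK] at k3
  exact ⟨k1, k2, k3⟩

private theorem g3_conn (M : Mp D) (I : D → Prop) [DecidablePred I] (K : Finset D) (ψ : D → D)
    (h : M.Side I K ψ) (R : Bool → D → D → Prop) (hR : (M.cut I K ψ h).Valid R) (r : D)
    (hT : (M.cut I K ψ h).Tot (fun c x y => R c x y ∨ (x = r ∧ y = (M.cut I K ψ h).α r)))
    {i : D} {c0 : Bool}
    (hcl : ∀ c' x y, x ∈ K → R c' x y → c' = c0 ∧ x = i ∧ y = ψ i) (c : Bool)
    (E : D → D → Prop) (hE : Equivalence E) (hV : ∀ a b, M.V a b → E a b)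
    (hRE : ∀ x y, R c x y → I x → E x y) (hr : E r (M.α r)) (hi : c = c0 → E i (ψ i)) :
    ∀ x ∈ (M.cut I K ψ h).S, ∀ y ∈ (M.cut I K ψ h).S, E x y := by
  intro x hx y hy
  refine (M.cut I K ψ h).Lnk_le hE ?_ ?_ (hT c x hx y hy)
  · intro a ha
    exact hV _ _ (cut_V M I K ψ h ((M.cut I K ψ h).V_σ ha))
  · rintro a b (hab | ⟨rfl, rfl⟩)
    · rcases (g3_mem M I K ψ h).1 (hR.1 c a b hab) with h1 | h1
      · exact hRE a b hab h1.2
      · obtain ⟨h2, h3, h4⟩ := hcl c a b h1 hab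
        rw [h3, h4]
        exact hi h2
    · exact hr

/-- exchange of the colours, so that the closing colour is different from `c0` -/
private theorem g3_swap (M : Mp D) (r : D) (h : M.TC r) (K : Finset D) (ψ : D → D) (c0 : Bool)
    (hcl : ∀ R : Bool → D → D → Prop, M.Valid R →
      ∃ i ∈ K, ∃ c1 : Bool, ∀ c' x y, x ∈ K → R c' x y → c' = c1 ∧ x = i ∧ y = ψ i) :
    ∃ R : Bool → D → D → Prop, M.Valid R ∧
      M.Tot (fun c x y => R c x y ∨ (x = r ∧ y = M.α r)) ∧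
      ∃ i ∈ K, ∃ c1 : Bool, c1 ≠ c0 ∧
        ∀ c' x y, x ∈ K → R c' x y → c' = c1 ∧ x = i ∧ y = ψ i := by
  obtain ⟨R, hR, hT⟩ := h
  obtain ⟨i, hi, c1, h1⟩ := hcl R hR
  by_cases hc : c1 = c0
  · refine ⟨fun c => R (!c), ⟨fun c x y hxy => hR.1 _ x y hxy, fun d hd =>
      VAt_swap M R d (hR.2 d hd)⟩, fun c x hx y hy => hT (!c) x hx y hy, i, hi, !c1, ?_, ?_⟩
    · rw [hc]
      cases c0 <;> simp
    · intro c' x y hx hxy
      obtain ⟨k1, k2, k3⟩ := h1 (!c') x y hx hxy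
      refine ⟨?_, k2, k3⟩
      rw [← k1, Bool.not_not]
  · exact ⟨R, hR, hT, i, hi, c1, hc, h1⟩

theorem glue3 (M : Mp D) (hOk : M.Ok) (ih : M.IH) (A B : D → Prop)
    (hAB : ∀ x, B x ↔ ¬ A x) (k0 k1 k2 : D) (ψA ψB : D → D)
    (hA : M.Side A {k0, k1, k2} ψA) (hB : M.Side B {M.α k0, M.α k1, M.α k2} ψB)
    (h01 : k0 ≠ k1) (h12 : k1 ≠ k2) (h20 : k2 ≠ k0)
    (hA0 : ψA k0 = k1) (hA1 : ψA k1 = k2) (hA2 : ψA k2 = k0)
    (hB0 : ψB (M.α k0) = M.α k2) (hB2 : ψB (M.α k2) = M.α k1) (hB1 : ψB (M.α k1) = M.α k0)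
    (hcA : ∃ x ∈ M.S, B x ∧ x ≠ k0 ∧ x ≠ k1 ∧ x ≠ k2)
    (hcB : ∃ x ∈ M.S, A x ∧ x ≠ M.α k0 ∧ x ≠ M.α k1 ∧ x ≠ M.α k2)
    (r : D) (hr : r ∈ M.S) (hrB : B r) : M.TC r := by
  classical
  have hKA : ∀ x, x ∈ ({k0, k1, k2} : Finset D) ↔ x = k0 ∨ x = k1 ∨ x = k2 := by
    intro x
    rw [Finset.mem_insert, Finset.mem_insert, Finset.mem_singleton]
  have hKB : ∀ x, x ∈ ({M.α k0, M.α k1, M.α k2} : Finset D) ↔
      x = M.α k0 ∨ x = M.α k2 ∨ x = M.α k1 := by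
    intro x
    rw [Finset.mem_insert, Finset.mem_insert, Finset.mem_singleton]
    tauto
  have mA0 : k0 ∈ ({k0, k1, k2} : Finset D) := (hKA _).2 (Or.inl rfl)
  have mA1 : k1 ∈ ({k0, k1, k2} : Finset D) := (hKA _).2 (Or.inr (Or.inl rfl))
  have mA2 : k2 ∈ ({k0, k1, k2} : Finset D) := (hKA _).2 (Or.inr (Or.inr rfl))
  have mB0 : M.α k0 ∈ ({M.α k0, M.α k1, M.α k2} : Finset D) := (hKB _).2 (Or.inl rfl)
  have mB2 : M.α k2 ∈ ({M.α k0, M.α k1, M.α k2} : Finset D) := (hKB _).2 (Or.inr (Or.inl rfl))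
  have mB1 : M.α k1 ∈ ({M.α k0, M.α k1, M.α k2} : Finset D) := (hKB _).2 (Or.inr (Or.inr rfl))
  have sA : ∀ x ∈ ({k0, k1, k2} : Finset D), x ∈ M.S := hA.KS
  have sB : ∀ x ∈ ({M.α k0, M.α k1, M.α k2} : Finset D), x ∈ M.S := hB.KS
  have bA : ∀ x ∈ ({k0, k1, k2} : Finset D), B x := fun x hx => (hAB x).2 (hA.KI x hx)
  have aB : ∀ x ∈ ({M.α k0, M.α k1, M.α k2} : Finset D), A x := by
    intro x hx
    by_contra hcon
    exact hB.KI x hx ((hAB x).2 hcon)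
  have hαne : ∀ x y, x ∈ M.S → y ∈ M.S → x ≠ y → M.α x ≠ M.α y := by
    intro x y hx hy hxy h
    have h1 : M.α (M.α x) = M.α (M.α y) := by rw [h]
    rw [M.αα x hx, M.αα y hy] at h1
    exact hxy h1
  have n02 : M.α k2 ≠ M.α k0 := hαne _ _ (sA _ mA2) (sA _ mA0) h20
  have n21 : M.α k1 ≠ M.α k2 := hαne _ _ (sA _ mA1) (sA _ mA2) h12
  have n10 : M.α k0 ≠ M.α k1 := hαne _ _ (sA _ mA0) (sA _ mA1) h01
  -- the two maps
  have okA : (M.cut A {k0, k1, k2} ψA hA).Ok := cut_ok M A _ ψA hA hOk (by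
    intro k hk
    refine Or.inr ?_
    rcases (hKA k).1 hk with rfl | rfl | rfl
    · exact g3_L3 M A _ ψA hA mA0 mA1 mA2 hA0 hA1 hA2 h01.symm
    · exact g3_L3 M A _ ψA hA mA1 mA2 mA0 hA1 hA2 hA0 h12.symm
    · exact g3_L3 M A _ ψA hA mA2 mA0 mA1 hA2 hA0 hA1 h20.symm)
  have okB : (M.cut B {M.α k0, M.α k1, M.α k2} ψB hB).Ok := cut_ok M B _ ψB hB hOk (by
    intro k hk
    refine Or.inr ?_
    rcases (hKB k).1 hk with rfl | rfl | rfl
    · exact g3_L3 M B _ ψB hB mB0 mB2 mB1 hB0 hB2 hB1 n02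
    · exact g3_L3 M B _ ψB hB mB2 mB1 mB0 hB2 hB1 hB0 n21
    · exact g3_L3 M B _ ψB hB mB1 mB0 mB2 hB1 hB0 hB2 n10)
  have cardA : (M.cut A {k0, k1, k2} ψA hA).S.card < M.S.card := by
    refine Finset.card_lt_card ⟨fun x hx => g3_sub M A _ ψA hA hx, fun hsub => ?_⟩
    obtain ⟨x, hx, hxB, x0, x1, x2⟩ := hcA
    rcases (g3_mem M A _ ψA hA).1 (hsub hx) with k | k
    · exact (hAB x).1 hxB k.2
    · rcases (hKA x).1 k with k | k | k
      · exact x0 k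
      · exact x1 k
      · exact x2 k
  have cardB : (M.cut B {M.α k0, M.α k1, M.α k2} ψB hB).S.card < M.S.card := by
    refine Finset.card_lt_card ⟨fun x hx => g3_sub M B _ ψB hB hx, fun hsub => ?_⟩
    obtain ⟨x, hx, hxA, x0, x1, x2⟩ := hcB
    rcases (g3_mem M B _ ψB hB).1 (hsub hx) with k | k
    · exact (hAB x).1 k.2 hxA
    · rcases (hKB x).1 k with k | k | k
      · exact x0 k
      · exact x2 k
      · exact x1 k
  have mSB : ∀ x ∈ M.S, B x → x ∈ (M.cut B {M.α k0, M.α k1, M.α k2} ψB hB).S := fun x hx hxB =>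
    (g3_mem M B _ ψB hB).2 (Or.inl ⟨hx, hxB⟩)
  have mSA : ∀ x ∈ M.S, A x → x ∈ (M.cut A {k0, k1, k2} ψA hA).S := fun x hx hxA =>
    (g3_mem M A _ ψA hA).2 (Or.inl ⟨hx, hxA⟩)
  have mKA : ∀ x ∈ ({k0, k1, k2} : Finset D), x ∈ (M.cut A {k0, k1, k2} ψA hA).S := fun x hx =>
    (g3_mem M A _ ψA hA).2 (Or.inr hx)
  have mKB : ∀ x ∈ ({M.α k0, M.α k1, M.α k2} : Finset D),
      x ∈ (M.cut B {M.α k0, M.α k1, M.α k2} ψB hB).S := fun x hx =>
    (g3_mem M B _ ψB hB).2 (Or.inr hx)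
  -- the choice on the side `B`
  obtain ⟨RB, vB, tB⟩ := ih _ cardB okB r (mSB r hr hrB)
  obtain ⟨i, hi, c0, clB⟩ := g3_closing M B _ ψB hB hKB hB0 hB2 hB1 n02 RB vB
  obtain ⟨ρ, hρdef⟩ : ∃ ρ : Bool → D → D → Prop,
      ρ = fun c => M.Lnk (fun x y => (RB c x y ∧ B x) ∨ (x = r ∧ y = M.α r)) := ⟨_, rfl⟩
  have hρ : ∀ c, ρ c = M.Lnk (fun x y => (RB c x y ∧ B x) ∨ (x = r ∧ y = M.α r)) := fun c => by
    rw [hρdef]
  have ρe : ∀ c, Equivalence (ρ c) := fun c => by rw [hρ]; exact M.Lnk_equiv _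
  have ρV : ∀ c a b, M.V a b → ρ c a b := fun c a b h => by rw [hρ]; exact M.V_Lnk h
  have ρR : ∀ c x y, RB c x y → B x → ρ c x y := fun c x y h h' => by
    rw [hρ]; exact M.Lnk_of (Or.inl ⟨h, h'⟩)
  have ρr : ∀ c, ρ c r (M.α r) := fun c => by rw [hρ]; exact M.Lnk_of (Or.inr ⟨rfl, rfl⟩)
  have hψ3 : ψB (ψB (ψB i)) = i := by
    rcases (hKB i).1 hi with rfl | rfl | rfl
    · rw [hB0, hB2, hB1]
    · rw [hB2, hB1, hB0]
    · rw [hB1, hB0, hB2]
  have hmK : ψB i ∈ ({M.α k0, M.α k1, M.α k2} : Finset D) := hB.ψK _ hi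
  have hjK : ψB (ψB i) ∈ ({M.α k0, M.α k1, M.α k2} : Finset D) := hB.ψK _ hmK
  have ρo : ∀ c, c ≠ c0 → ∀ x ∈ (M.cut B {M.α k0, M.α k1, M.α k2} ψB hB).S,
      ∀ y ∈ (M.cut B {M.α k0, M.α k1, M.α k2} ψB hB).S, ρ c x y := fun c hc =>
    g3_conn M B _ ψB hB RB vB r tB clB c (ρ c) (ρe c) (ρV c) (ρR c) (ρr c)
      (fun h => absurd h hc)
  have hji : ρ c0 (ψB (ψB i)) i ∨ ρ c0 (ψB (ψB i)) (ψB i) := by
    by_contra hcon
    rw [not_or] at hcon
    have hall := g3_conn M B _ ψB hB RB vB r tB clB c0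
      (fun x y => (ρ c0 (ψB (ψB i)) x ↔ ρ c0 (ψB (ψB i)) y))
      ⟨fun _ => Iff.rfl, fun h => h.symm, fun h h' => h.trans h'⟩
      (fun a b h => ⟨fun k => (ρe c0).trans k (ρV c0 a b h),
        fun k => (ρe c0).trans k ((ρe c0).symm (ρV c0 a b h))⟩)
      (fun a b h h' => ⟨fun k => (ρe c0).trans k (ρR c0 a b h h'),
        fun k => (ρe c0).trans k ((ρe c0).symm (ρR c0 a b h h'))⟩)
      ⟨fun k => (ρe c0).trans k (ρr c0), fun k => (ρe c0).trans k ((ρe c0).symm (ρr c0))⟩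
      (fun _ => ⟨fun k => absurd k hcon.1, fun k => absurd k hcon.2⟩)
    exact hcon.1 ((hall _ (mKB _ hjK) _ (mKB _ hi)).1 ((ρe c0).refl _))
  have hαK : ∀ x ∈ ({M.α k0, M.α k1, M.α k2} : Finset D),
      M.α x ∈ ({k0, k1, k2} : Finset D) ∧ M.α (M.α x) = x := by
    intro x hx
    refine ⟨?_, M.αα x (sB x hx)⟩
    rcases (hKB x).1 hx with rfl | rfl | rfl
    · rw [M.αα _ (sA _ mA0)]; exact mA0
    · rw [M.αα _ (sA _ mA2)]; exact mA2
    · rw [M.αα _ (sA _ mA1)]; exact mA1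
  have hkex : ∃ k ∈ ({k0, k1, k2} : Finset D), ρ c0 k (M.α k) := by
    rcases hji with h | h
    · obtain ⟨h1, h2⟩ := hαK _ hjK
      refine ⟨_, h1, ?_⟩
      rw [h2]
      have h3 := hB.ψV _ hjK
      rw [hψ3] at h3
      exact (ρe c0).symm ((ρe c0).trans h (ρV c0 _ _ h3))
    · obtain ⟨h1, h2⟩ := hαK _ hmK
      refine ⟨_, h1, ?_⟩
      rw [h2]
      have h3 := hB.ψV _ hmK
      exact (ρe c0).symm ((ρe c0).trans ((ρe c0).symm h) (ρV c0 _ _ h3))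
  obtain ⟨k, hk, hk0⟩ := hkex
  have hkB : M.α k ∈ ({M.α k0, M.α k1, M.α k2} : Finset D) := by
    rcases (hKA k).1 hk with rfl | rfl | rfl
    · exact mB0
    · exact mB1
    · exact mB2
  have hkρ : ∀ c, ρ c k (M.α k) := by
    intro c
    by_cases hc : c = c0
    · rw [hc]; exact hk0
    · exact ρo c hc _ (mSB k (sA k hk) (bA k hk)) _ (mKB _ hkB)
  -- the choice on the side `A`
  obtain ⟨RA, vA, tA, i', hi', c1, hc1, clA⟩ := g3_swap (M.cut A {k0, k1, k2} ψA hA) k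
    (ih _ cardA okA k (mKA k hk)) {k0, k1, k2} ψA c0
    (fun R hR => g3_closing M A _ ψA hA hKA hA0 hA1 hA2 h01.symm R hR)
  -- the choice
  obtain ⟨R, hRdef⟩ : ∃ R : Bool → D → D → Prop,
      R = fun c x y => (RA c x y ∧ A x) ∨ (RB c x y ∧ B x) := ⟨_, rfl⟩
  have hRR : ∀ c x y, R c x y ↔ (RA c x y ∧ A x) ∨ (RB c x y ∧ B x) := fun c x y => by
    rw [hRdef]
  have agA : M.Agree (M.cut A {k0, k1, k2} ψA hA) B := by
    refine ⟨fun d hd => ?_, fun d hd hdB => ?_⟩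
    · rw [hAB, hAB, hA.hI d hd]
    · have hdA : A d := by
        by_contra hcon
        exact hdB ((hAB d).2 hcon)
      exact ⟨mSA d hd hdA, g3_φI M A _ ψA hA (fun h => hA.KI d h hdA)⟩
  have agB : M.Agree (M.cut B {M.α k0, M.α k1, M.α k2} ψB hB) A := by
    refine ⟨fun d hd => hA.hI d hd, fun d hd hdA => ?_⟩
    have hdB : B d := (hAB d).2 hdA
    exact ⟨mSB d hd hdB, g3_φI M B _ ψB hB (fun h => hB.KI d h hdB)⟩
  have hval : M.Valid R := by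
    refine ⟨fun c x y h => ?_, fun d hd => ?_⟩
    · rcases (hRR c x y).1 h with h1 | h1
      · exact g3_sub M A _ ψA hA (vA.1 c x y h1.1)
      · exact g3_sub M B _ ψB hB (vB.1 c x y h1.1)
    · by_cases hdA : A d
      · have hdB : ¬ B d := fun h => (hAB d).1 h hdA
        refine agree_VAt M _ B agA d hd hdB R RA (fun c x y hx h => ?_)
          (vA.2 d (mSA d hd hdA))
        rcases (hRR c x y).1 h with h1 | h1
        · exact h1.1
        · exact absurd h1.2 hx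
      · have hdB : B d := (hAB d).2 hdA
        refine agree_VAt M _ A agB d hd hdA R RB (fun c x y hx h => ?_)
          (vB.2 d (mSB d hd hdB))
        rcases (hRR c x y).1 h with h1 | h1
        · exact absurd h1.2 hx
        · exact h1.1
  refine ⟨R, hval, ?_⟩
  intro c
  obtain ⟨τ, hτ⟩ : ∃ τ : D → D → Prop,
      τ = M.Lnk (fun x y => R c x y ∨ (x = r ∧ y = M.α r)) := ⟨_, rfl⟩
  have τe : Equivalence τ := by rw [hτ]; exact M.Lnk_equiv _
  have τV : ∀ a b, M.V a b → τ a b := fun a b h => by rw [hτ]; exact M.V_Lnk h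
  have τR : ∀ x y, R c x y → τ x y := fun x y h => by rw [hτ]; exact M.Lnk_of (Or.inl h)
  have τr : τ r (M.α r) := by rw [hτ]; exact M.Lnk_of (Or.inr ⟨rfl, rfl⟩)
  have τB : ∀ x y, RB c x y → B x → τ x y := fun x y h h' => τR x y ((hRR c x y).2 (Or.inr ⟨h, h'⟩))
  have τA : ∀ x y, RA c x y → A x → τ x y := fun x y h h' => τR x y ((hRR c x y).2 (Or.inl ⟨h, h'⟩))
  have ρτ : ∀ x y, ρ c x y → τ x y := by
    intro x y h
    rw [hρ] at h
    refine M.Lnk_le τe (fun a ha => τV _ _ (M.V_σ ha)) ?_ h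
    rintro a b (h1 | ⟨rfl, rfl⟩)
    · exact τB a b h1.1 h1.2
    · exact τr
  have both : (∀ x ∈ (M.cut A {k0, k1, k2} ψA hA).S,
        ∀ y ∈ (M.cut A {k0, k1, k2} ψA hA).S, τ x y) ∧
      (∀ x ∈ (M.cut B {M.α k0, M.α k1, M.α k2} ψB hB).S,
        ∀ y ∈ (M.cut B {M.α k0, M.α k1, M.α k2} ψB hB).S, τ x y) := by
    by_cases hc : c = c0
    · have h1 := g3_conn M A _ ψA hA RA vA k tA clA c τ τe τV τA (ρτ _ _ (hkρ c))
        (fun h => absurd (h.symm.trans hc) hc1)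
      refine ⟨h1, ?_⟩
      refine g3_conn M B _ ψB hB RB vB r tB clB c τ τe τV τB τr (fun _ => ?_)
      exact h1 _ (mSA _ (sB _ hi) (aB _ hi)) _ (mSA _ (sB _ hmK) (aB _ hmK))
    · have h1 : ∀ x ∈ (M.cut B {M.α k0, M.α k1, M.α k2} ψB hB).S,
          ∀ y ∈ (M.cut B {M.α k0, M.α k1, M.α k2} ψB hB).S, τ x y := fun x hx y hy =>
        ρτ _ _ (ρo c hc x hx y hy)
      refine ⟨?_, h1⟩
      have hm' : ψA i' ∈ ({k0, k1, k2} : Finset D) := hA.ψK _ hi'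
      refine g3_conn M A _ ψA hA RA vA k tA clA c τ τe τV τA (ρτ _ _ (hkρ c)) (fun _ => ?_)
      exact h1 _ (mSB _ (sA _ hi') (bA _ hi')) _ (mSB _ (sA _ hm') (bA _ hm'))
  have hk0x : ∀ x ∈ M.S, τ x k0 := by
    intro x hx
    by_cases hxA : A x
    · exact both.1 x (mSA x hx hxA) k0 (mKA k0 mA0)
    · exact both.2 x (mSB x hx ((hAB x).2 hxA)) k0 (mSB k0 (sA _ mA0) (bA _ mA0))
  intro x hx y hy
  show M.Lnk (fun x y => R c x y ∨ (x = r ∧ y = M.α r)) x y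
  rw [← hτ]
  exact τe.trans (hk0x x hx) (τe.symm (hk0x y hy))

end Mp
end TwoPlane
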