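import Pool.Agent.Work.MP_3b7449_co.TP.Plane

/-!
# InvDim (size M): dimension of the space of invariant functions

`invSub π` is linearly equivalent to the functions on the quotient by `SameCycle`:
`f ↦ Quotient.lift f` (an invariant function is constant on cycles: `SameCycle` is
`∃ n : ℤ, (π ^ n) x = y`), inverse `g ↦ g ∘ Quotient.mk`.  `Module.finrank_fintype_fun_eq_card`,
`Nat.card_eq_fintype_card`.
-/

namespace TwoPlane

open Equiv.Perm

/-- functions invariant under the permutation `π` -/
def invSub {D : Type} (π : Equiv.Perm D) : Submodule (ZMod 2) (D → ZMod 2) where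
  carrier := {f | ∀ d, f (π d) = f d}
  add_mem' := by
    intro f g hf hg d
    simp only [Pi.add_apply, hf d, hg d]
  zero_mem' := fun _ => rfl
  smul_mem' := by
    intro c f hf d
    simp only [Pi.smul_apply, hf d]

private theorem inv_zpow {D : Type} (π : Equiv.Perm D) {f : D → ZMod 2} (hf : ∀ d, f (π d) = f d)
    (n : ℤ) (x : D) : f ((π ^ n) x) = f x := by
  have hn : ∀ (k : ℕ) (y : D), f ((π ^ k) y) = f y := by
    intro k
    induction k with
    | zero => intro y; rw [pow_zero]; rfl
    | succ k ih =>
      intro y
      rw [pow_succ, Equiv.Perm.mul_apply, ih, hf]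
  rcases Int.eq_nat_or_neg n with ⟨k, rfl | rfl⟩
  · rw [zpow_natCast]
    exact hn k x
  · have h1 := hn k ((π ^ (-(k : ℤ))) x)
    rw [← zpow_natCast, ← Equiv.Perm.mul_apply, ← zpow_add, add_neg_cancel, zpow_zero] at h1
    exact h1.symm

theorem finrank_invSub {D : Type} [Fintype D] [DecidableEq D] (π : Equiv.Perm D) :
    Module.finrank (ZMod 2) (invSub π) = Nat.card (Quotient (SameCycle.setoid π)) := by
  classical
  let Q := Quotient (SameCycle.setoid π)
  let F : (Q → ZMod 2) →ₗ[ZMod 2] invSub π :=
    { toFun := fun g => ⟨fun d => g (Quotient.mk (SameCycle.setoid π) d), fun d => by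
        have h1 : Quotient.mk (SameCycle.setoid π) (π d) = Quotient.mk (SameCycle.setoid π) d := by
          apply Quotient.sound
          exact (Equiv.Perm.sameCycle_apply_left).2 (Equiv.Perm.SameCycle.refl π d)
        show g (Quotient.mk _ (π d)) = g (Quotient.mk _ d)
        rw [h1]⟩
      map_add' := fun _ _ => rfl
      map_smul' := fun _ _ => rfl }
  have hinj : Function.Injective F := by
    intro g g' h
    funext q
    induction q using Quotient.inductionOn with
    | h d =>
      have h1 := congrArg (fun z : invSub π => (z : D → ZMod 2) d) h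
      exact h1
  have hsurj : Function.Surjective F := by
    rintro ⟨f, hf⟩
    refine ⟨Quotient.lift f ?_, ?_⟩
    · intro a b hab
      obtain ⟨n, hn⟩ := hab
      rw [← hn]
      exact (inv_zpow π hf n a).symm
    · apply Subtype.ext
      funext d
      rfl
  have e := LinearEquiv.ofBijective F ⟨hinj, hsurj⟩
  have : Fintype Q := Fintype.ofFinite Q
  rw [← e.finrank_eq, Module.finrank_fintype_fun_eq_card, Nat.card_eq_fintype_card]

end TwoPlane
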