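import Pool.Agent.Work.MP_3b7449_co.TP.Defs

/-!
# Jor (size M): potentials and closed walks

`Pot_refl`: `g = 0`.  `Pot_V`: induction on `EqvGen` of the statement
`∀ v v', V v v' → (v ∈ S → (Pot z u v ↔ Pot z u v'))`; for a step `v' = σ v` replace `g` by
`g + dl (σ v)`: `dl (σ v) (σ d) = dl v d` for `d ∈ S` (`σinj`).  `Pot_α`: the same `g`
(`ed v + dl v = dl (α v)` modulo 2).  `Pot_close`: `g (σ d) + g d = z d`, so
`g d + g (α d) + g (φ d) + g (φ (α d)) = z d + z (α d) = 0` (`φ d = σ (α d)`); planarity gives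
`g = f + h`, and `f d + f (α d) = f d + f (φ (α d)) = f d + f (σ d) = g d + g (σ d) = z d`.

`arc`: let `f` be `φ`-invariant with `f d + f (α d) = z d`, `c`, `c'` darts with `V (α c) c'`,
`c' ≠ α c`, `z c = 1`, and `z = 0` at the other darts of the vertex of `c'`.  Then `f c' = f c`.
Proof: suppose `f c' ≠ f c`.  Let `B d := V d c' ∧ d ≠ α c ∧ f d = f c`.  `B` is closed under `σ`:
if `B d` then `d ≠ c'`, so `z d = 0` and `f (σ d) = f (φ (α d)) = f (α d) = f d = f c`; `σ d ≠ α c`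
because `f (α c) = f c + 1`.  `B (σ (α c))` holds: `σ (α c) = φ c`, `f (φ c) = f c`, `φ c ≠ α c`
(`f (α c) ≠ f c`).  By `σback` `B (α c)`, contradiction.
-/

namespace TwoPlane
namespace Mp

variable {D : Type} [DecidableEq D]

theorem Pot_refl (M : Mp D) (u : D) : M.Pot (fun _ => 0) u u := by
  refine ⟨fun _ => 0, fun d _ => ?_⟩
  have : ∀ a : ZMod 2, (0 : ZMod 2) + 0 = 0 + a + a := by decide
  exact this _

private theorem dl_σ (M : Mp D) {v d : D} (hv : v ∈ M.S) (hd : d ∈ M.S) :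
    dl (M.σ v) (M.σ d) = dl v d := by
  unfold dl
  by_cases h : d = v
  · simp [h]
  · have : ¬ M.σ d = M.σ v := fun h' => h (M.σinj d hd v hv h')
    simp [h, this]

private theorem Pot_step (M : Mp D) (z : D → ZMod 2) (u : D) {v : D} (hv : v ∈ M.S) :
    M.Pot z u v ↔ M.Pot z u (M.σ v) := by
  constructor
  · rintro ⟨g, hg⟩
    refine ⟨fun d => g d + dl (M.σ v) d, fun d hd => ?_⟩
    show (g (M.σ d) + dl (M.σ v) (M.σ d)) + (g d + dl (M.σ v) d) = _
    rw [dl_σ M hv hd]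
    have h1 := hg d hd
    have h2 : (g (M.σ d) + dl v d) + (g d + dl (M.σ v) d) =
        (g (M.σ d) + g d) + dl v d + dl (M.σ v) d := by ring
    rw [h2, h1]
    have : ∀ a b c e : ZMod 2, a + b + c + c + e = a + b + e := by decide
    exact this _ _ _ _
  · rintro ⟨g, hg⟩
    refine ⟨fun d => g d + dl (M.σ v) d, fun d hd => ?_⟩
    show (g (M.σ d) + dl (M.σ v) (M.σ d)) + (g d + dl (M.σ v) d) = _
    rw [dl_σ M hv hd]
    have h1 := hg d hd
    have h2 : (g (M.σ d) + dl v d) + (g d + dl (M.σ v) d) =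
        (g (M.σ d) + g d) + dl (M.σ v) d + dl v d := by ring
    rw [h2, h1]
    have : ∀ a b c e : ZMod 2, a + b + c + c + e = a + b + e := by decide
    exact this _ _ _ _

theorem Pot_V (M : Mp D) (z : D → ZMod 2) (u : D) {v v' : D} (hv : v ∈ M.S)
    (h : M.V v v') (hP : M.Pot z u v) : M.Pot z u v' := by
  have key : ∀ a b : D, M.V a b → (M.Pot z u a ↔ M.Pot z u b) := by
    intro a b hab
    induction hab with
    | rel a b h' => rw [h'.2]; exact Pot_step M z u h'.1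
    | refl a => exact Iff.rfl
    | symm a b _ ih => exact ih.symm
    | trans a b c _ _ ih1 ih2 => exact ih1.trans ih2
  exact (key _ _ h).mp hP

theorem Pot_α (M : Mp D) (z : D → ZMod 2) (u v : D) (hP : M.Pot z u v) :
    M.Pot (fun d => z d + M.ed v d) u (M.α v) := by
  obtain ⟨g, hg⟩ := hP
  refine ⟨g, fun d hd => ?_⟩
  rw [hg d hd]
  show z d + dl u d + dl v d = z d + (dl v d + dl (M.α v) d) + dl u d + dl (M.α v) d
  have : ∀ a b c e : ZMod 2, a + b + c = a + (c + e) + b + e := by decide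
  exact this _ _ _ _

theorem Pot_close (M : Mp D) (z : D → ZMod 2) (u : D) (hp : M.Planar)
    (hz : ∀ d ∈ M.S, z (M.α d) = z d) (hP : M.Pot z u u) :
    ∃ f : D → ZMod 2, (∀ d ∈ M.S, f (M.φ d) = f d) ∧ ∀ d ∈ M.S, f d + f (M.α d) = z d := by
  obtain ⟨g, hg⟩ := hP
  have hg' : ∀ d ∈ M.S, g (M.φ (M.α d)) + g d = z d := by
    intro d hd
    have h1 : g (M.φ (M.α d)) + g d = z d + dl u d + dl u d := hg d hd
    rw [h1]
    have : ∀ a b : ZMod 2, a + b + b = a := by decide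
    exact this _ _
  obtain ⟨f, h, hf, hh, hgfh⟩ := hp g (by
    intro d hd
    have h1 := hg' d hd
    have h2 := hg' _ (M.αS d hd)
    rw [M.αα d hd, hz d hd] at h2
    have e : g d + g (M.α d) + g (M.φ d) + g (M.φ (M.α d)) =
        (g (M.φ (M.α d)) + g d) + (g (M.φ d) + g (M.α d)) := by ring
    rw [e, h1, h2]
    have : ∀ a : ZMod 2, a + a = 0 := by decide
    exact this _)
  refine ⟨f, hf, fun d hd => ?_⟩
  have h1 := hg' d hd
  have h2 : h (M.φ (M.α d)) = h d := hh d hd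
  have h3 := hf _ (M.αS d hd)
  rw [hgfh d hd, hgfh _ (M.φS _ (M.αS d hd)), h2, h3] at h1
  rw [← h1]
  have : ∀ a b c : ZMod 2, a + b = b + c + (a + c) := by decide
  exact this _ _ _

theorem arc (M : Mp D) (f z : D → ZMod 2) (hf : ∀ d ∈ M.S, f (M.φ d) = f d)
    (hz : ∀ d ∈ M.S, f d + f (M.α d) = z d) (c c' : D) (hc : c ∈ M.S) (hc' : c' ∈ M.S)
    (hV : M.V (M.α c) c') (hne : c' ≠ M.α c) (hzc : z c = 1)
    (h0 : ∀ d ∈ M.S, M.V d c' → d ≠ M.α c → d ≠ c' → z d = 0) : f c' = f c := by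
  by_contra hcon
  have z0 : ∀ a b : ZMod 2, a + b = 0 → a = b := by decide
  have z1 : ∀ a b : ZMod 2, a + b = 1 → a ≠ b := by decide
  have hαc : M.α c ∈ M.S := M.αS c hc
  have h1 : f c ≠ f (M.α c) := z1 _ _ (by rw [hz c hc, hzc])
  have key := M.σback (fun d => M.V d c' ∧ d ≠ M.α c ∧ f d = f c) (by
    rintro d hd ⟨k1, k2, k3⟩
    have k4 : d ≠ c' := fun h => hcon (by rw [← h]; exact k3)
    have k5 := h0 d hd k1 k2 k4
    have k6 : f d = f (M.α d) := z0 _ _ (by rw [hz d hd, k5])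
    have k7 : f (M.σ d) = f c := by
      show f (M.φ (M.α d)) = f c
      rw [hf _ (M.αS d hd), ← k6, k3]
    refine ⟨M.V_trans (M.V_symm (M.V_σ hd)) k1, ?_, k7⟩
    intro h
    rw [h] at k7
    exact h1 k7.symm) hαc (by
    have e : M.σ (M.α c) = M.φ c := by
      show M.φ (M.α (M.α c)) = M.φ c
      rw [M.αα c hc]
    rw [e]
    refine ⟨M.V_trans (M.V_symm (M.V_αφ hc)) hV, ?_, hf c hc⟩
    intro h
    have := hf c hc
    rw [h] at this
    exact h1 this.symm)
  exact key.2.1 rfl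

end Mp
end TwoPlane
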