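import Pool.Agent.Work.MP_3b7449_co.TP.Ex
import Pool.Agent.Work.MP_3b7449_co.TP.Scheme
import Pool.Agent.Work.MP_3b7449_co.TP.FinA

/-!
# RedA (size M-L): a pendant vertex in a pentagon

`v i = M.it p i`: `v 0 = p`, `v 1 = φ p = α p` (the only dart of the pendant vertex), `φ (v 4) = p`,
all different.  `del_ex_pend` for `p` (`φ (α p) = v 2 ≠ p`): `M'`; `φ' (v 4) = v 2`, so
`v 2, v 3, v 4` is a triangle of `M'`; `Agree` with `cfg = Fc p`; `Ok`; fewer darts.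
`V (v 0) (v 2)` (`σ p = φ (α p) = v 2`).
`red_A`: `r ∈ M'.S`.  `ih` gives `R'` with at most one pair `(v p', v q')`, colour `c0`, in the
triangle, `(p', q') = (2, 3), (3, 4), (4, 2)`.  `scheme` with `Q x y := x = r ∧ y = α r`
(`red_use`), `L c i j := c = c0 ∧ i = p' ∧ j = q'`, `J i := i ≠ 1`; covering: every dart except
`v 1 = α p`.  `finA`; `N`, `N'` as in RedB; `scheme_TC`.
`red_Aroot`: root `p`.  `ih` for `M'` and the dart `v 2`: `R'`.  `scheme` with root `p`,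
`Q x y := (x = v 2 ∧ y = α (v 2)) ∨ (x = p ∧ y = α p)`,
`L c i j := (i = 2 ∧ j = 3) ∨ (c = c0 ∧ i = p' ∧ j = q')`, `J = True` (`v 1` is linked to `p` by `Q`,
and `p` is covered); `hQ`: `v 2 ~ v 3` by `L`, `V (v 3) (α (v 2))`.  `ρ (v 0) (v 1)` is the root
link.  `finAroot`.
-/

namespace TwoPlane
namespace Mp

variable {D : Type} [DecidableEq D]

private theorem rA_mono (M : Mp D) {L L' : D → D → Prop} (h : ∀ x y, L x y → L' x y)
    {x y : D} (hL : M.Lnk L x y) : M.Lnk L' x y :=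
  M.Lnk_le (M.Lnk_equiv L') (fun _ ha => M.V_Lnk (M.V_σ ha))
    (fun a b hab => M.Lnk_of (h a b hab)) hL

private theorem rA_Fcit (M : Mp D) (d : D) (i : Fin 5) : M.Fc d (M.it d i) := by
  fin_cases i
  · exact Or.inl rfl
  · exact Or.inr (Or.inl rfl)
  · exact Or.inr (Or.inr (Or.inl rfl))
  · exact Or.inr (Or.inr (Or.inr (Or.inl rfl)))
  · exact Or.inr (Or.inr (Or.inr (Or.inr rfl)))

private theorem rA_it (M : Mp D) {d x : D} (h : M.Fc d x) : ∃ i : Fin 5, x = M.it d i := by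
  rcases h with h | h | h | h | h
  · exact ⟨0, h⟩
  · exact ⟨1, h⟩
  · exact ⟨2, h⟩
  · exact ⟨3, h⟩
  · exact ⟨4, h⟩

/-- the state of a valid choice on a triangle -/
private theorem rA_tri (M : Mp D) (R : Bool → D → D → Prop) (hV : M.Valid R) (v : Fin 5 → D)
    (i j k : Fin 5) (hi : v i ∈ M.S) (h1 : M.φ (v i) = v j) (h2 : M.φ (v j) = v k)
    (h3 : M.φ (v k) = v i) (hij : v j ≠ v i) :
    ∃ (c0 : Bool) (p q : Fin 5), ((p = i ∧ q = j) ∨ (p = j ∧ q = k) ∨ (p = k ∧ q = i)) ∧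
      ∀ c' x y, (x = v i ∨ x = v j ∨ x = v k) → R c' x y → c' = c0 ∧ x = v p ∧ y = v q := by
  have hL3 : M.L3 (v i) := by
    refine ⟨?_, ?_⟩
    · rw [h1]
      exact hij
    · rw [h1, h2, h3]
  have hFc : ∀ x, (x = v i ∨ x = v j ∨ x = v k) → M.Fc (v i) x := by
    rintro x (h | h | h)
    · exact Or.inl h
    · exact Or.inr (Or.inl (by rw [h1]; exact h))
    · exact Or.inr (Or.inr (Or.inl (by rw [h1, h2]; exact h)))
  obtain ⟨a, c0, hFa, ha⟩ := (hV.2 (v i) hi).2.1 hL3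
  have hcase : a = v i ∨ a = v j ∨ a = v k := by
    rcases hFa with h | h | h | h | h
    · exact Or.inl h
    · exact Or.inr (Or.inl (by rw [h, h1]))
    · exact Or.inr (Or.inr (by rw [h, h1, h2]))
    · exact Or.inl (by rw [h, h1, h2, h3])
    · exact Or.inr (Or.inl (by rw [h, h1, h2, h3, h1]))
  rcases hcase with h | h | h
  · refine ⟨c0, i, j, Or.inl ⟨rfl, rfl⟩, fun c' x y hx hxy => ?_⟩
    obtain ⟨k1, k2, k3⟩ := ha c' x y (hFc x hx) hxy
    exact ⟨k1, k2.trans h, by rw [k3, h, h1]⟩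
  · refine ⟨c0, j, k, Or.inr (Or.inl ⟨rfl, rfl⟩), fun c' x y hx hxy => ?_⟩
    obtain ⟨k1, k2, k3⟩ := ha c' x y (hFc x hx) hxy
    exact ⟨k1, k2.trans h, by rw [k3, h, h2]⟩
  · refine ⟨c0, k, i, Or.inr (Or.inr ⟨rfl, rfl⟩), fun c' x y hx hxy => ?_⟩
    obtain ⟨k1, k2, k3⟩ := ha c' x y (hFc x hx) hxy
    exact ⟨k1, k2.trans h, by rw [k3, h, h3]⟩

/-- the end of the argument -/
private theorem rA_end (M M' : Mp D) (p r : D) (hp : p ∈ M.S) (h5 : M.L5 p)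
    (hA : M.Agree M' (M.Fc p)) (R' : Bool → D → D → Prop) (hV : M'.Valid R')
    (hs : ∀ (N : Bool → Fin 5 → Fin 5 → Prop) (N' : Bool → D → D → Prop),
      (∀ c, FinC (fun _ => True)
        (fun i j => M.Lnk (outL M R' (M.Fc p) r c) (M.it p (i : Fin 5)) (M.it p (j : Fin 5)))
        (N c)) →
      (∀ c i j, N c i j →
        M.Lnk (fun x y => outL M R' (M.Fc p) r c x y ∨ N' c x y) (M.it p (i : Fin 5))
          (M.it p (j : Fin 5))) →
      M.Tot (fun c x y => ((R' c x y ∧ x ∈ M.S ∧ ¬ M.Fc p x) ∨ N' c x y) ∨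
        (x = r ∧ y = M.α r)))
    (hfin : ∃ i o m, ∀ c, FinC (fun _ => True)
      (fun i j => M.Lnk (outL M R' (M.Fc p) r c) (M.it p (i : Fin 5)) (M.it p (j : Fin 5)))
      (pst i o m c)) : M.TC r := by
  obtain ⟨i, o, m, hN⟩ := hfin
  have hok : M.L2 p ∨ M.L3 p ∨ M.L4 p ∨ M.L5 p := Or.inr (Or.inr (Or.inr h5))
  obtain ⟨N', hN'd⟩ : ∃ N' : Bool → D → D → Prop, ∀ c x y, N' c x y ↔
      ∃ a b : Fin 5, pst i o m c a b ∧ x = M.it p a ∧ y = M.it p b := ⟨_, fun _ _ _ => Iff.rfl⟩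
  refine scheme_TC M M' (M.Fc p) hA r R' N' hV ?_ ?_ (hs (pst i o m) N' hN ?_)
  · intro c x y h
    obtain ⟨a, b, -, hx, -⟩ := (hN'd _ _ _).1 h
    rw [hx]
    exact ⟨M.Fc_mem hp (rA_Fcit M p a), rA_Fcit M p a⟩
  · intro d _ hc
    refine M.VAt_Fc N' hp hok hc ?_
    exact M.VAt_pst N' hp h5 i o m fun c x y _ hxy => (hN'd _ _ _).1 hxy
  · intro c a b hab
    exact M.Lnk_of (Or.inr ((hN'd _ _ _).2 ⟨a, b, hab, rfl, rfl⟩))

/-- the reduced map -/
private theorem rA_map (M : Mp D) (hOk : M.Ok) (p : D) (hp : p ∈ M.S) (h : M.L5 p)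
    (hpα : M.φ p = M.α p) :
    ∃ M' : Mp D, M'.Ok ∧ M'.S.card < M.S.card ∧ M.Agree M' (M.Fc p) ∧
      (∀ d, d ∈ M'.S ↔ d ∈ M.S ∧ d ≠ p ∧ d ≠ M.α p) ∧
      M'.φ (M.it p 2) = M.it p 3 ∧ M'.φ (M.it p 3) = M.it p 4 ∧ M'.φ (M.it p 4) = M.it p 2 ∧
      M.Red M' (fun _ _ => False) ∧
      (∀ x ∈ M.S, x ≠ M.α p → ∃ y ∈ M'.S, M.V x y) ∧ (∀ d, M'.α d = M.α d) ∧
      (∀ d ∈ M'.S, M.Fc p d → d = M.it p 2 ∨ d = M.it p 3 ∨ d = M.it p 4) := by
  have hinj := M.L5_inj hp h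
  have hok : M.L2 p ∨ M.L3 p ∨ M.L4 p ∨ M.L5 p := Or.inr (Or.inr (Or.inr h))
  have e1 : M.it p 1 = M.α p := hpα
  have e2 : M.φ (M.α p) = M.it p 2 := by rw [← hpα]; rfl
  have e5 : M.φ (M.it p 4) = p := h.2
  have n : ∀ i j : Fin 5, i ≠ j → M.it p i ≠ M.it p j := fun i j hij h1 => hij (hinj i j h1)
  have n20 : M.it p 2 ≠ p := n 2 0 (by decide)
  have n30 : M.it p 3 ≠ p := n 3 0 (by decide)
  have n40 : M.it p 4 ≠ p := n 4 0 (by decide)
  have n21 : M.it p 2 ≠ M.α p := by rw [← e1]; exact n 2 1 (by decide)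
  have n31 : M.it p 3 ≠ M.α p := by rw [← e1]; exact n 3 1 (by decide)
  have n41 : M.it p 4 ≠ M.α p := by rw [← e1]; exact n 4 1 (by decide)
  obtain ⟨M', hM', hS', hα', hφ', hR, _, hcov⟩ := del_ex_pend M
    ⟨hOk.planar, hOk.conn, hOk.loopless⟩ p hp hpα (by rw [e2]; exact n20)
  have hmem : ∀ d, d ∈ M'.S ↔ d ∈ M.S ∧ d ≠ p ∧ d ≠ M.α p := by
    intro d
    rw [hS', Finset.mem_erase, Finset.mem_erase]
    tauto
  have f2 : M'.φ (M.it p 2) = M.it p 3 := by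
    have : M.φ (M.it p 2) = M.it p 3 := rfl
    rw [hφ', this, if_neg n30, if_neg n31]
  have f3 : M'.φ (M.it p 3) = M.it p 4 := by
    have : M.φ (M.it p 3) = M.it p 4 := rfl
    rw [hφ', this, if_neg n40, if_neg n41]
  have f4 : M'.φ (M.it p 4) = M.it p 2 := by
    rw [hφ', e5, if_pos rfl, e2]
  have hin : ∀ d ∈ M'.S, M.Fc p d → d = M.it p 2 ∨ d = M.it p 3 ∨ d = M.it p 4 := by
    intro d hd hc
    obtain ⟨-, k1, k2⟩ := (hmem d).1 hd
    rcases hc with hc | hc | hc | hc | hc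
    · exact absurd hc k1
    · exact absurd (hc.trans hpα) k2
    · exact Or.inl hc
    · exact Or.inr (Or.inl hc)
    · exact Or.inr (Or.inr hc)
  have hA : M.Agree M' (M.Fc p) := by
    refine ⟨fun d hd => M.Fc_φ hp hok hd, fun d hd hc => ⟨(hmem d).2 ⟨hd, ?_, ?_⟩, ?_⟩⟩
    · exact fun h1 => hc (Or.inl h1)
    · exact fun h1 => hc (Or.inr (Or.inl (h1.trans hpα.symm)))
    · have k1 : M.φ d ≠ p := fun h1 => hc (by
        rw [M.Fc_φ hp hok hd, h1]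
        exact M.Fc_self p)
      have k2 : M.φ d ≠ M.α p := fun h1 => hc (by
        rw [M.Fc_φ hp hok hd, h1]
        exact Or.inr (Or.inl hpα.symm))
      rw [hφ', if_neg k1, if_neg k2]
  have hface : M'.FaceOk := agree_face M M' (M.Fc p) hA hOk.face hR.sub (fun d hd hc => by
    right; left
    rcases hin d hd hc with h1 | h1 | h1
    · rw [h1]
      refine ⟨?_, ?_⟩
      · rw [f2]; exact n 3 2 (by decide)
      · rw [f2, f3, f4]
    · rw [h1]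
      refine ⟨?_, ?_⟩
      · rw [f3]; exact n 4 3 (by decide)
      · rw [f3, f4, f2]
    · rw [h1]
      refine ⟨?_, ?_⟩
      · rw [f4]; exact n 2 4 (by decide)
      · rw [f4, f2, f3])
  refine ⟨M', ⟨hM'.planar, hM'.conn, hM'.loopless, hface⟩, ?_, hA, hmem, f2, f3, f4, hR, hcov,
    hα', hin⟩
  refine Finset.card_lt_card ⟨hR.sub, fun h1 => ?_⟩
  exact ((hmem p).1 (h1 hp)).2.1 rfl

theorem red_A (M : Mp D) (hOk : M.Ok) (ih : M.IH) (p : D) (hp : p ∈ M.S) (h : M.L5 p)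
    (hpα : M.φ p = M.α p) (r : D) (hr : r ∈ M.S) (hr1 : r ≠ p) (hr2 : r ≠ M.α p) :
    M.TC r := by
  have hinj := M.L5_inj hp h
  obtain ⟨M', hOk', hcard, hA, hmem, f2, f3, f4, hR, hcov, hα', hin⟩ := rA_map M hOk p hp h hpα
  have e1 : M.it p 1 = M.α p := hpα
  have n : ∀ i j : Fin 5, i ≠ j → M.it p i ≠ M.it p j := fun i j hij h1 => hij (hinj i j h1)
  have hvS : ∀ i : Fin 5, M.it p i ∈ M.S := fun i => M.Fc_mem hp (rA_Fcit M p i)
  have hr' : r ∈ M'.S := (hmem r).2 ⟨hr, hr1, hr2⟩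
  obtain ⟨R', hV', hTot⟩ := ih M' hcard hOk' r hr'
  have hv2 : M.it p ((2 : Fin 5) : ℕ) ∈ M'.S := (hmem _).2 ⟨hvS 2, n 2 0 (by decide), by
    rw [← e1]; exact n 2 1 (by decide)⟩
  obtain ⟨c0, p', q', hpq, hst⟩ := rA_tri M' R' hV' (fun i : Fin 5 => M.it p i) 2 3 4 hv2 f2 f3 f4
    (n 3 2 (by decide))
  obtain ⟨Q, hQd⟩ : ∃ Q : D → D → Prop, ∀ x y, Q x y ↔ (x = r ∧ y = M.α r) :=
    ⟨_, fun _ _ => Iff.rfl⟩
  obtain ⟨hFin, hfinal⟩ := scheme M M'.S (M.Fc p) Q r R'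
    (by
      intro c x hx y hy
      have h1 := red_use hR (R' c) r hr' (hTot c x hx y hy)
      refine rA_mono M ?_ h1
      intro a b hab
      rcases hab with (hab | hab) | hab
      · exact Or.inl hab
      · exact hab.elim
      · exact Or.inr ((hQd a b).2 hab))
    (fun i : Fin 5 => M.it p i)
    (fun c a b => c = c0 ∧ a = p' ∧ b = q') (fun i => i ≠ 1)
    (by
      intro c x y hxy
      exact Relation.EqvGen.rel _ _ (Or.inl (M.Lnk_of (Or.inr ((hQd x y).1 hxy)))))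
    (by
      intro c x y hxy h1
      have hx' := hV'.1 c x y hxy
      have hc : M.Fc p x := by
        rcases h1 with h1 | h1
        · exact absurd (hR.sub hx') h1
        · exact h1
      obtain ⟨k1, k2, k3⟩ := hst c x y (hin x hx' hc) hxy
      exact Relation.EqvGen.rel _ _ (Or.inr ⟨p', q', ⟨k1, rfl, rfl⟩, k2, k3⟩))
    (by
      intro x hx
      by_cases h1 : x = M.α p
      · right
        refine ⟨1, ?_⟩
        rw [h1, ← e1]
        exact M.V_refl _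
      · left
        obtain ⟨y, hy, hxy⟩ := hcov x hx h1
        exact ⟨y, hy, M.V_Lnk hxy⟩)
    (by
      intro i hi
      obtain ⟨y, hy, hxy⟩ := hcov (M.it p i) (hvS i) (by rw [← e1]; exact n i 1 hi)
      exact ⟨y, hy, M.V_Lnk hxy⟩)
    ⟨0, by decide⟩
  refine rA_end M M' p r hp h hA R' hV' hfinal ?_
  refine finA (fun c i j => M.Lnk (outL M R' (M.Fc p) r c) (M.it p (i : Fin 5))
    (M.it p (j : Fin 5)))
    (fun c => ⟨fun a => M.Lnk_refl _ _, fun h => M.Lnk_symm h, fun h h' => M.Lnk_trans h h'⟩)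
    (fun c => M.V_Lnk ?_) c0 p' q' hpq hFin
  have := M.V_σ hp
  unfold σ at this
  rw [← hpα] at this
  exact this

theorem red_Aroot (M : Mp D) (hOk : M.Ok) (ih : M.IH) (p : D) (hp : p ∈ M.S) (h : M.L5 p)
    (hpα : M.φ p = M.α p) : M.TC p := by
  have hinj := M.L5_inj hp h
  obtain ⟨M', hOk', hcard, hA, hmem, f2, f3, f4, hR, hcov, hα', hin⟩ := rA_map M hOk p hp h hpα
  have e1 : M.it p 1 = M.α p := hpα
  have n : ∀ i j : Fin 5, i ≠ j → M.it p i ≠ M.it p j := fun i j hij h1 => hij (hinj i j h1)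
  have hvS : ∀ i : Fin 5, M.it p i ∈ M.S := fun i => M.Fc_mem hp (rA_Fcit M p i)
  have hv2 : M.it p ((2 : Fin 5) : ℕ) ∈ M'.S := (hmem _).2 ⟨hvS 2, n 2 0 (by decide), by
    rw [← e1]; exact n 2 1 (by decide)⟩
  obtain ⟨R', hV', hTot⟩ := ih M' hcard hOk' _ hv2
  obtain ⟨c0, p', q', hpq, hst⟩ := rA_tri M' R' hV' (fun i : Fin 5 => M.it p i) 2 3 4 hv2 f2 f3 f4
    (n 3 2 (by decide))
  obtain ⟨Q, hQd⟩ : ∃ Q : D → D → Prop, ∀ x y, Q x y ↔
      ((x = M.it p ((2 : Fin 5) : ℕ) ∧ y = M.α (M.it p ((2 : Fin 5) : ℕ))) ∨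
        (x = p ∧ y = M.α p)) := ⟨_, fun _ _ => Iff.rfl⟩
  have hcov' : ∀ x ∈ M.S, x ≠ M.α p → ∃ y ∈ M'.S, M.Lnk Q x y := by
    intro x hx h1
    obtain ⟨y, hy, hxy⟩ := hcov x hx h1
    exact ⟨y, hy, M.V_Lnk hxy⟩
  obtain ⟨hFin, hfinal⟩ := scheme M M'.S (M.Fc p) Q p R'
    (by
      intro c x hx y hy
      have h1 := red_use hR (R' c) _ hv2 (hTot c x hx y hy)
      refine rA_mono M ?_ h1
      intro a b hab
      rcases hab with (hab | hab) | hab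
      · exact Or.inl hab
      · exact hab.elim
      · exact Or.inr ((hQd a b).2 (Or.inl hab)))
    (fun i : Fin 5 => M.it p i)
    (fun c a b => (a = 2 ∧ b = 3) ∨ (c = c0 ∧ a = p' ∧ b = q')) (fun _ => True)
    (by
      intro c x y hxy
      rcases (hQd x y).1 hxy with ⟨hx, hy⟩ | h1
      · have k1 : M.V (M.it p ((3 : Fin 5) : ℕ)) (M.α (M.it p ((2 : Fin 5) : ℕ))) :=
          M.V_symm (M.V_αφ (hvS 2))
        rw [hx, hy]
        exact Relation.EqvGen.trans _ _ _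
          (Relation.EqvGen.rel _ _ (Or.inr ⟨2, 3, Or.inl ⟨rfl, rfl⟩, rfl, rfl⟩))
          (Relation.EqvGen.rel _ _ (Or.inl (M.V_Lnk k1)))
      · exact Relation.EqvGen.rel _ _ (Or.inl (M.Lnk_of (Or.inr h1))))
    (by
      intro c x y hxy h1
      have hx' := hV'.1 c x y hxy
      have hc : M.Fc p x := by
        rcases h1 with h1 | h1
        · exact absurd (hR.sub hx') h1
        · exact h1
      obtain ⟨k1, k2, k3⟩ := hst c x y (hin x hx' hc) hxy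
      exact Relation.EqvGen.rel _ _ (Or.inr ⟨p', q', Or.inr ⟨k1, rfl, rfl⟩, k2, k3⟩))
    (by
      intro x hx
      by_cases h1 : x = M.α p
      · right
        refine ⟨1, ?_⟩
        rw [h1, ← e1]
        exact M.V_refl _
      · exact Or.inl (hcov' x hx h1))
    (by
      intro i _
      by_cases hi : i = 1
      · obtain ⟨y, hy, hxy⟩ := hcov' p hp (M.αne p hp).symm
        refine ⟨y, hy, M.Lnk_trans ?_ hxy⟩
        rw [hi]
        have k1 : M.it p ((1 : Fin 5) : ℕ) = M.α p := hpα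
        rw [k1]
        exact M.Lnk_symm (M.Lnk_of ((hQd _ _).2 (Or.inr ⟨rfl, rfl⟩)))
      · exact hcov' (M.it p i) (hvS i) (by rw [← e1]; exact n i 1 hi))
    ⟨0, trivial⟩
  refine rA_end M M' p p hp h hA R' hV' hfinal ?_
  refine finAroot (fun c i j => M.Lnk (outL M R' (M.Fc p) p c) (M.it p (i : Fin 5))
    (M.it p (j : Fin 5)))
    (fun c => ⟨fun a => M.Lnk_refl _ _, fun h => M.Lnk_symm h, fun h h' => M.Lnk_trans h h'⟩)
    (fun c => M.V_Lnk ?_) (fun c => M.Lnk_of (Or.inr ⟨rfl, hpα⟩)) c0 p' q' hpq hFin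
  have := M.V_σ hp
  unfold σ at this
  rw [← hpα] at this
  exact this

end Mp
end TwoPlane
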