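import Pool.Agent.Work.MP_3b7449_co.TP.Ex
import Pool.Agent.Work.MP_3b7449_co.TP.Scheme
import Pool.Agent.Work.MP_3b7449_co.TP.FinB

/-!
# RedB (size M-L): root edge on a pentagon

`v i = M.it r i` (positions `0 … 4`, `φ (v 4) = v 0 = r`), all different (`L5_inj`).
`red_B24`: `fold_ex` for `a = v 2` (`b = v 3`, `φ b = v 4`): `M'`.  `φ' (v 0) = v 1`,
`φ' (v 1) = v 4` (`φ (v 1) = a`), `φ' (v 4) = v 0`: `L3` in `M'` at these darts; `Agree` with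
`cfg = Fc r`; `Ok` by `agree_face`; fewer darts.  `r = v 0` is in `M'.S`.  `ih` gives `R'`; its state
on the triangle: `R' c x y` with `x ∈ {v 0, v 1, v 4}` implies `c = c0`, `x = v p`, `y = v q` with
`(p, q) = (0, 1), (1, 4)` or `(4, 0)`.
`scheme` with `S' = M'.S`, `Q x y := (x = v 2 ∧ y = v 4) ∨ (x = r ∧ y = α r)` (`red_use`),
`L c i j := (i = 2 ∧ j = 4) ∨ (c = c0 ∧ i = p ∧ j = q)`, `J = True`.  Covering: last property of
`fold_ex`.  `v 0 ~ v 1` through the root link (`V (α r) (φ r)`).  `finB24` gives `i o m`;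
`N c := pst i o m c`, `N' c x y := ∃ a b, pst i o m c a b ∧ x = v a ∧ y = v b`; `VAt_pst` and
`VAt_Fc`; `scheme_TC`.
`red_B13`: the same with `a = v 1` (`b = v 2`, `φ b = v 3`): triangle `v 0, v 3, v 4`
(`φ' (v 0) = v 3`), link `(1, 3)`, `finB13`.
-/

namespace TwoPlane
namespace Mp

variable {D : Type} [DecidableEq D]

private theorem rB_mono (M : Mp D) {L L' : D → D → Prop} (h : ∀ x y, L x y → L' x y)
    {x y : D} (hL : M.Lnk L x y) : M.Lnk L' x y :=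
  M.Lnk_le (M.Lnk_equiv L') (fun _ ha => M.V_Lnk (M.V_σ ha))
    (fun a b hab => M.Lnk_of (h a b hab)) hL

private theorem rB_Fcit (M : Mp D) (d : D) (i : Fin 5) : M.Fc d (M.it d i) := by
  fin_cases i
  · exact Or.inl rfl
  · exact Or.inr (Or.inl rfl)
  · exact Or.inr (Or.inr (Or.inl rfl))
  · exact Or.inr (Or.inr (Or.inr (Or.inl rfl)))
  · exact Or.inr (Or.inr (Or.inr (Or.inr rfl)))

private theorem rB_it (M : Mp D) {d x : D} (h : M.Fc d x) : ∃ i : Fin 5, x = M.it d i := by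
  rcases h with h | h | h | h | h
  · exact ⟨0, h⟩
  · exact ⟨1, h⟩
  · exact ⟨2, h⟩
  · exact ⟨3, h⟩
  · exact ⟨4, h⟩

/-- the state of a valid choice on a triangle -/
private theorem rB_tri (M : Mp D) (R : Bool → D → D → Prop) (hV : M.Valid R) (v : Fin 5 → D)
    (i j k : Fin 5) (hi : v i ∈ M.S) (h1 : M.φ (v i) = v j) (h2 : M.φ (v j) = v k)
    (h3 : M.φ (v k) = v i) (hij : v j ≠ v i) :
    ∃ (c0 : Bool) (p q : Fin 5), ((p = i ∧ q = j) ∨ (p = j ∧ q = k) ∨ (p = k ∧ q = i)) ∧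
      ∀ c' x y, (x = v i ∨ x = v j ∨ x = v k) → R c' x y → c' = c0 ∧ x = v p ∧ y = v q := by
  have hL3 : M.L3 (v i) := by
    refine ⟨?_, ?_⟩
    · rw [h1]
      exact hij
    · rw [h1, h2, h3]
  have hFc : ∀ x, (x = v i ∨ x = v j ∨ x = v k) → M.Fc (v i) x := by
    rintro x (h | h | h)
    · exact Or.inl h
    · exact Or.inr (Or.inl (by rw [h1]; exact h))
    · exact Or.inr (Or.inr (Or.inl (by rw [h1, h2]; exact h)))
  obtain ⟨a, c0, hFa, ha⟩ := (hV.2 (v i) hi).2.1 hL3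
  have hcase : a = v i ∨ a = v j ∨ a = v k := by
    rcases hFa with h | h | h | h | h
    · exact Or.inl h
    · exact Or.inr (Or.inl (by rw [h, h1]))
    · exact Or.inr (Or.inr (by rw [h, h1, h2]))
    · exact Or.inl (by rw [h, h1, h2, h3])
    · exact Or.inr (Or.inl (by rw [h, h1, h2, h3, h1]))
  rcases hcase with h | h | h
  · refine ⟨c0, i, j, Or.inl ⟨rfl, rfl⟩, fun c' x y hx hxy => ?_⟩
    obtain ⟨k1, k2, k3⟩ := ha c' x y (hFc x hx) hxy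
    exact ⟨k1, k2.trans h, by rw [k3, h, h1]⟩
  · refine ⟨c0, j, k, Or.inr (Or.inl ⟨rfl, rfl⟩), fun c' x y hx hxy => ?_⟩
    obtain ⟨k1, k2, k3⟩ := ha c' x y (hFc x hx) hxy
    exact ⟨k1, k2.trans h, by rw [k3, h, h2]⟩
  · refine ⟨c0, k, i, Or.inr (Or.inr ⟨rfl, rfl⟩), fun c' x y hx hxy => ?_⟩
    obtain ⟨k1, k2, k3⟩ := ha c' x y (hFc x hx) hxy
    exact ⟨k1, k2.trans h, by rw [k3, h, h3]⟩

/-- the end of the argument -/
private theorem rB_end (M M' : Mp D) (p r : D) (hp : p ∈ M.S) (h5 : M.L5 p)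
    (hA : M.Agree M' (M.Fc p)) (R' : Bool → D → D → Prop) (hV : M'.Valid R')
    (hs : ∀ (N : Bool → Fin 5 → Fin 5 → Prop) (N' : Bool → D → D → Prop),
      (∀ c, FinC (fun _ => True)
        (fun i j => M.Lnk (outL M R' (M.Fc p) r c) (M.it p (i : Fin 5)) (M.it p (j : Fin 5)))
        (N c)) →
      (∀ c i j, N c i j →
        M.Lnk (fun x y => outL M R' (M.Fc p) r c x y ∨ N' c x y) (M.it p (i : Fin 5))
          (M.it p (j : Fin 5))) →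
      M.Tot (fun c x y => ((R' c x y ∧ x ∈ M.S ∧ ¬ M.Fc p x) ∨ N' c x y) ∨
        (x = r ∧ y = M.α r)))
    (hfin : ∃ i o m, ∀ c, FinC (fun _ => True)
      (fun i j => M.Lnk (outL M R' (M.Fc p) r c) (M.it p (i : Fin 5)) (M.it p (j : Fin 5)))
      (pst i o m c)) : M.TC r := by
  obtain ⟨i, o, m, hN⟩ := hfin
  have hok : M.L2 p ∨ M.L3 p ∨ M.L4 p ∨ M.L5 p := Or.inr (Or.inr (Or.inr h5))
  obtain ⟨N', hN'd⟩ : ∃ N' : Bool → D → D → Prop, ∀ c x y, N' c x y ↔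
      ∃ a b : Fin 5, pst i o m c a b ∧ x = M.it p a ∧ y = M.it p b := ⟨_, fun _ _ _ => Iff.rfl⟩
  refine scheme_TC M M' (M.Fc p) hA r R' N' hV ?_ ?_ (hs (pst i o m) N' hN ?_)
  · intro c x y h
    obtain ⟨a, b, -, hx, -⟩ := (hN'd _ _ _).1 h
    rw [hx]
    exact ⟨M.Fc_mem hp (rB_Fcit M p a), rB_Fcit M p a⟩
  · intro d _ hc
    refine M.VAt_Fc N' hp hok hc ?_
    exact M.VAt_pst N' hp h5 i o m fun c x y _ hxy => (hN'd _ _ _).1 hxy
  · intro c a b hab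
    exact M.Lnk_of (Or.inr ((hN'd _ _ _).2 ⟨a, b, hab, rfl, rfl⟩))

theorem red_B24 (M : Mp D) (hOk : M.Ok) (ih : M.IH) (r : D) (hr : r ∈ M.S) (h : M.L5 r)
    (hf : M.Free (M.φ (M.φ r)) (M.φ (M.φ (M.φ (M.φ r))))) : M.TC r := by
  have hinj := M.L5_inj hr h
  have hok : M.L2 r ∨ M.L3 r ∨ M.L4 r ∨ M.L5 r := Or.inr (Or.inr (Or.inr h))
  have n : ∀ i j : Fin 5, i ≠ j → M.it r i ≠ M.it r j := fun i j hij h1 => hij (hinj i j h1)
  have hvS : ∀ i : Fin 5, M.it r i ∈ M.S := fun i => M.Fc_mem hr (rB_Fcit M r i)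
  have g0 : M.φ (M.it r ((0 : Fin 5) : ℕ)) = M.it r ((1 : Fin 5) : ℕ) := rfl
  have g1 : M.φ (M.it r ((1 : Fin 5) : ℕ)) = M.it r ((2 : Fin 5) : ℕ) := rfl
  have g2 : M.φ (M.it r ((2 : Fin 5) : ℕ)) = M.it r ((3 : Fin 5) : ℕ) := rfl
  have g3 : M.φ (M.it r ((3 : Fin 5) : ℕ)) = M.it r ((4 : Fin 5) : ℕ) := rfl
  have g4 : M.φ (M.it r ((4 : Fin 5) : ℕ)) = M.it r ((0 : Fin 5) : ℕ) := h.2
  have g00 : M.it r ((0 : Fin 5) : ℕ) = r := rfl
  obtain ⟨M', hM', hS', hφ', _, hR, _, hcov⟩ := fold_ex M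
    ⟨hOk.planar, hOk.conn, hOk.loopless⟩ (M.it r ((2 : Fin 5) : ℕ)) (hvS 2) hf
  rw [g2] at hS'
  simp only [g2, g3] at hφ' hR hcov
  have hmem : ∀ d, d ∈ M'.S ↔ d ∈ M.S ∧ d ≠ M.it r ((2 : Fin 5) : ℕ) ∧
      d ≠ M.it r ((3 : Fin 5) : ℕ) := by
    intro d
    rw [hS', Finset.mem_erase, Finset.mem_erase]
    tauto
  have f0 : M'.φ (M.it r ((0 : Fin 5) : ℕ)) = M.it r ((1 : Fin 5) : ℕ) := by
    rw [hφ', g0, if_neg (n 1 2 (by decide))]
  have f1 : M'.φ (M.it r ((1 : Fin 5) : ℕ)) = M.it r ((4 : Fin 5) : ℕ) := by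
    rw [hφ', g1, if_pos rfl]
  have f4 : M'.φ (M.it r ((4 : Fin 5) : ℕ)) = M.it r ((0 : Fin 5) : ℕ) := by
    rw [hφ', g4, if_neg (n 0 2 (by decide))]
  have hin : ∀ d ∈ M'.S, M.Fc r d → d = M.it r ((0 : Fin 5) : ℕ) ∨
      d = M.it r ((1 : Fin 5) : ℕ) ∨ d = M.it r ((4 : Fin 5) : ℕ) := by
    intro d hd hc
    obtain ⟨-, k1, k2⟩ := (hmem d).1 hd
    rcases hc with hc | hc | hc | hc | hc
    · exact Or.inl hc
    · exact Or.inr (Or.inl hc)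
    · exact absurd hc k1
    · exact absurd hc k2
    · exact Or.inr (Or.inr hc)
  have hA : M.Agree M' (M.Fc r) := by
    refine ⟨fun d hd => M.Fc_φ hr hok hd, fun d hd hc => ⟨(hmem d).2 ⟨hd, ?_, ?_⟩, ?_⟩⟩
    · exact fun h1 => hc (h1 ▸ rB_Fcit M r 2)
    · exact fun h1 => hc (h1 ▸ rB_Fcit M r 3)
    · have k1 : M.φ d ≠ M.it r ((2 : Fin 5) : ℕ) := fun h1 => hc (by
        rw [M.Fc_φ hr hok hd, h1]
        exact rB_Fcit M r 2)
      rw [hφ', if_neg k1]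
  have hface : M'.FaceOk := agree_face M M' (M.Fc r) hA hOk.face hR.sub (fun d hd hc => by
    right; left
    rcases hin d hd hc with h1 | h1 | h1
    · rw [h1]
      refine ⟨?_, ?_⟩
      · rw [f0]; exact n 1 0 (by decide)
      · rw [f0, f1, f4]
    · rw [h1]
      refine ⟨?_, ?_⟩
      · rw [f1]; exact n 4 1 (by decide)
      · rw [f1, f4, f0]
    · rw [h1]
      refine ⟨?_, ?_⟩
      · rw [f4]; exact n 0 4 (by decide)
      · rw [f4, f0, f1])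
  have hcard : M'.S.card < M.S.card := by
    refine Finset.card_lt_card ⟨hR.sub, fun h1 => ?_⟩
    exact ((hmem _).1 (h1 (hvS 2))).2.1 rfl
  have hr' : r ∈ M'.S := (hmem r).2 ⟨hr, n 0 2 (by decide), n 0 3 (by decide)⟩
  obtain ⟨R', hV', hTot⟩ := ih M' hcard ⟨hM'.planar, hM'.conn, hM'.loopless, hface⟩ r hr'
  obtain ⟨c0, p', q', hpq, hst⟩ := rB_tri M' R' hV' (fun i : Fin 5 => M.it r i) 0 1 4 hr' f0 f1 f4
    (n 1 0 (by decide))
  obtain ⟨Q, hQd⟩ : ∃ Q : D → D → Prop, ∀ x y, Q x y ↔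
      ((x = M.it r ((2 : Fin 5) : ℕ) ∧ y = M.it r ((4 : Fin 5) : ℕ)) ∨
        (x = r ∧ y = M.α r)) := ⟨_, fun _ _ => Iff.rfl⟩
  have hcov' : ∀ x ∈ M.S, ∃ y ∈ M'.S, M.Lnk Q x y := by
    intro x hx
    obtain ⟨y, hy, hxy⟩ := hcov x hx
    exact ⟨y, hy, rB_mono M (fun a b hab => (hQd a b).2 (Or.inl hab)) hxy⟩
  obtain ⟨hFin, hfinal⟩ := scheme M M'.S (M.Fc r) Q r R'
    (by
      intro c x hx y hy
      have h1 := red_use hR (R' c) r hr' (hTot c x hx y hy)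
      refine rB_mono M ?_ h1
      intro a b hab
      rcases hab with (hab | hab) | hab
      · exact Or.inl hab
      · exact Or.inr ((hQd a b).2 (Or.inl hab))
      · exact Or.inr ((hQd a b).2 (Or.inr hab)))
    (fun i : Fin 5 => M.it r i)
    (fun c a b => (a = 2 ∧ b = 4) ∨ (c = c0 ∧ a = p' ∧ b = q')) (fun _ => True)
    (by
      intro c x y hxy
      rcases (hQd x y).1 hxy with ⟨hx, hy⟩ | h1
      · rw [hx, hy]
        exact Relation.EqvGen.rel _ _ (Or.inr ⟨2, 4, Or.inl ⟨rfl, rfl⟩, rfl, rfl⟩)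
      · exact Relation.EqvGen.rel _ _ (Or.inl (M.Lnk_of (Or.inr h1))))
    (by
      intro c x y hxy h1
      have hx' := hV'.1 c x y hxy
      have hc : M.Fc r x := by
        rcases h1 with h1 | h1
        · exact absurd (hR.sub hx') h1
        · exact h1
      obtain ⟨k1, k2, k3⟩ := hst c x y (hin x hx' hc) hxy
      exact Relation.EqvGen.rel _ _ (Or.inr ⟨p', q', Or.inr ⟨k1, rfl, rfl⟩, k2, k3⟩))
    (fun x hx => Or.inl (hcov' x hx))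
    (fun i _ => hcov' _ (hvS i)) ⟨0, trivial⟩
  refine rB_end M M' r r hr h hA R' hV' hfinal ?_
  refine finB24 (fun c i j => M.Lnk (outL M R' (M.Fc r) r c) (M.it r (i : Fin 5))
    (M.it r (j : Fin 5)))
    (fun c => ⟨fun a => M.Lnk_refl _ _, fun h => M.Lnk_symm h, fun h h' => M.Lnk_trans h h'⟩)
    (fun c => ?_) c0 p' q' hpq hFin
  exact M.Lnk_trans (M.Lnk_of (Or.inr ⟨rfl, rfl⟩)) (M.V_Lnk (M.V_αφ hr))

theorem red_B13 (M : Mp D) (hOk : M.Ok) (ih : M.IH) (r : D) (hr : r ∈ M.S) (h : M.L5 r)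
    (hf : M.Free (M.φ r) (M.φ (M.φ (M.φ r)))) : M.TC r := by
  have hinj := M.L5_inj hr h
  have hok : M.L2 r ∨ M.L3 r ∨ M.L4 r ∨ M.L5 r := Or.inr (Or.inr (Or.inr h))
  have n : ∀ i j : Fin 5, i ≠ j → M.it r i ≠ M.it r j := fun i j hij h1 => hij (hinj i j h1)
  have hvS : ∀ i : Fin 5, M.it r i ∈ M.S := fun i => M.Fc_mem hr (rB_Fcit M r i)
  have g0 : M.φ (M.it r ((0 : Fin 5) : ℕ)) = M.it r ((1 : Fin 5) : ℕ) := rfl
  have g1 : M.φ (M.it r ((1 : Fin 5) : ℕ)) = M.it r ((2 : Fin 5) : ℕ) := rfl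
  have g2 : M.φ (M.it r ((2 : Fin 5) : ℕ)) = M.it r ((3 : Fin 5) : ℕ) := rfl
  have g3 : M.φ (M.it r ((3 : Fin 5) : ℕ)) = M.it r ((4 : Fin 5) : ℕ) := rfl
  have g4 : M.φ (M.it r ((4 : Fin 5) : ℕ)) = M.it r ((0 : Fin 5) : ℕ) := h.2
  obtain ⟨M', hM', hS', hφ', _, hR, _, hcov⟩ := fold_ex M
    ⟨hOk.planar, hOk.conn, hOk.loopless⟩ (M.it r ((1 : Fin 5) : ℕ)) (hvS 1) hf
  rw [g1] at hS'
  simp only [g1, g2] at hφ' hR hcov
  have hmem : ∀ d, d ∈ M'.S ↔ d ∈ M.S ∧ d ≠ M.it r ((1 : Fin 5) : ℕ) ∧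
      d ≠ M.it r ((2 : Fin 5) : ℕ) := by
    intro d
    rw [hS', Finset.mem_erase, Finset.mem_erase]
    tauto
  have f0 : M'.φ (M.it r ((0 : Fin 5) : ℕ)) = M.it r ((3 : Fin 5) : ℕ) := by
    rw [hφ', g0, if_pos rfl]
  have f3 : M'.φ (M.it r ((3 : Fin 5) : ℕ)) = M.it r ((4 : Fin 5) : ℕ) := by
    rw [hφ', g3, if_neg (n 4 1 (by decide))]
  have f4 : M'.φ (M.it r ((4 : Fin 5) : ℕ)) = M.it r ((0 : Fin 5) : ℕ) := by
    rw [hφ', g4, if_neg (n 0 1 (by decide))]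
  have hin : ∀ d ∈ M'.S, M.Fc r d → d = M.it r ((0 : Fin 5) : ℕ) ∨
      d = M.it r ((3 : Fin 5) : ℕ) ∨ d = M.it r ((4 : Fin 5) : ℕ) := by
    intro d hd hc
    obtain ⟨-, k1, k2⟩ := (hmem d).1 hd
    rcases hc with hc | hc | hc | hc | hc
    · exact Or.inl hc
    · exact absurd hc k1
    · exact absurd hc k2
    · exact Or.inr (Or.inl hc)
    · exact Or.inr (Or.inr hc)
  have hA : M.Agree M' (M.Fc r) := by
    refine ⟨fun d hd => M.Fc_φ hr hok hd, fun d hd hc => ⟨(hmem d).2 ⟨hd, ?_, ?_⟩, ?_⟩⟩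
    · exact fun h1 => hc (h1 ▸ rB_Fcit M r 1)
    · exact fun h1 => hc (h1 ▸ rB_Fcit M r 2)
    · have k1 : M.φ d ≠ M.it r ((1 : Fin 5) : ℕ) := fun h1 => hc (by
        rw [M.Fc_φ hr hok hd, h1]
        exact rB_Fcit M r 1)
      rw [hφ', if_neg k1]
  have hface : M'.FaceOk := agree_face M M' (M.Fc r) hA hOk.face hR.sub (fun d hd hc => by
    right; left
    rcases hin d hd hc with h1 | h1 | h1
    · rw [h1]
      refine ⟨?_, ?_⟩
      · rw [f0]; exact n 3 0 (by decide)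
      · rw [f0, f3, f4]
    · rw [h1]
      refine ⟨?_, ?_⟩
      · rw [f3]; exact n 4 3 (by decide)
      · rw [f3, f4, f0]
    · rw [h1]
      refine ⟨?_, ?_⟩
      · rw [f4]; exact n 0 4 (by decide)
      · rw [f4, f0, f3])
  have hcard : M'.S.card < M.S.card := by
    refine Finset.card_lt_card ⟨hR.sub, fun h1 => ?_⟩
    exact ((hmem _).1 (h1 (hvS 1))).2.1 rfl
  have hr' : r ∈ M'.S := (hmem r).2 ⟨hr, n 0 1 (by decide), n 0 2 (by decide)⟩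
  obtain ⟨R', hV', hTot⟩ := ih M' hcard ⟨hM'.planar, hM'.conn, hM'.loopless, hface⟩ r hr'
  obtain ⟨c0, p', q', hpq, hst⟩ := rB_tri M' R' hV' (fun i : Fin 5 => M.it r i) 0 3 4 hr' f0 f3 f4
    (n 3 0 (by decide))
  obtain ⟨Q, hQd⟩ : ∃ Q : D → D → Prop, ∀ x y, Q x y ↔
      ((x = M.it r ((1 : Fin 5) : ℕ) ∧ y = M.it r ((3 : Fin 5) : ℕ)) ∨
        (x = r ∧ y = M.α r)) := ⟨_, fun _ _ => Iff.rfl⟩
  have hcov' : ∀ x ∈ M.S, ∃ y ∈ M'.S, M.Lnk Q x y := by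
    intro x hx
    obtain ⟨y, hy, hxy⟩ := hcov x hx
    exact ⟨y, hy, rB_mono M (fun a b hab => (hQd a b).2 (Or.inl hab)) hxy⟩
  obtain ⟨hFin, hfinal⟩ := scheme M M'.S (M.Fc r) Q r R'
    (by
      intro c x hx y hy
      have h1 := red_use hR (R' c) r hr' (hTot c x hx y hy)
      refine rB_mono M ?_ h1
      intro a b hab
      rcases hab with (hab | hab) | hab
      · exact Or.inl hab
      · exact Or.inr ((hQd a b).2 (Or.inl hab))
      · exact Or.inr ((hQd a b).2 (Or.inr hab)))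
    (fun i : Fin 5 => M.it r i)
    (fun c a b => (a = 1 ∧ b = 3) ∨ (c = c0 ∧ a = p' ∧ b = q')) (fun _ => True)
    (by
      intro c x y hxy
      rcases (hQd x y).1 hxy with ⟨hx, hy⟩ | h1
      · rw [hx, hy]
        exact Relation.EqvGen.rel _ _ (Or.inr ⟨1, 3, Or.inl ⟨rfl, rfl⟩, rfl, rfl⟩)
      · exact Relation.EqvGen.rel _ _ (Or.inl (M.Lnk_of (Or.inr h1))))
    (by
      intro c x y hxy h1
      have hx' := hV'.1 c x y hxy
      have hc : M.Fc r x := by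
        rcases h1 with h1 | h1
        · exact absurd (hR.sub hx') h1
        · exact h1
      obtain ⟨k1, k2, k3⟩ := hst c x y (hin x hx' hc) hxy
      exact Relation.EqvGen.rel _ _ (Or.inr ⟨p', q', Or.inr ⟨k1, rfl, rfl⟩, k2, k3⟩))
    (fun x hx => Or.inl (hcov' x hx))
    (fun i _ => hcov' _ (hvS i)) ⟨0, trivial⟩
  refine rB_end M M' r r hr h hA R' hV' hfinal ?_
  refine finB13 (fun c i j => M.Lnk (outL M R' (M.Fc r) r c) (M.it r (i : Fin 5))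
    (M.it r (j : Fin 5)))
    (fun c => ⟨fun a => M.Lnk_refl _ _, fun h => M.Lnk_symm h, fun h h' => M.Lnk_trans h h'⟩)
    (fun c => ?_) c0 p' q' hpq hFin
  exact M.Lnk_trans (M.Lnk_of (Or.inr ⟨rfl, rfl⟩)) (M.V_Lnk (M.V_αφ hr))

end Mp
end TwoPlane
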