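import Pool.Agent.Work.MP_3b7449_co.TP.MapC
import Pool.Agent.Work.MP_3b7449_co.TP.Scheme

/-!
# RedC (size M): the root triangle next to another triangle

`T = (r, t2, t3)`, `p = α t3`, second triangle `(p, n2, n3)`; `mapC` gives `M'`.
`cfg d := Fc r d ∨ Fc p d`; `Agree`; in `M'` the darts `n2, n3` form a digon; `Ok` by `agree_face`;
fewer darts.  `r' = α r` is in `M'.S`: `α r ≠ t2` (`V (α t2) t3`, `V (α t3) r`: if `α t2 = r`
then `V r t3` and `t3` is a loop), `α r ≠ t3` (if `α t3 = r` then `p = r`, but `¬ Fc r p`),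
`α r ≠ p` (`p = α t3`, `r ≠ t3`), `α r ≠ r`.  `ih` gives `R'`.
`N' c x y := (c = true ∧ x = t3 ∧ y = r) ∨ (c = false ∧ x = p ∧ y = n2)`; `VAt_tri` on both faces
(they are disjoint).
Total: `red_use` with the link `(r, n2)`: colour `true`: `r ~ t3` (pair of `T`), `V t3 n2`
(`V (α p) (φ p)`); colour `false`: `V r p` (`V (α t3) (φ t3)`), `p ~ n2`.  The pairs of `R'` start
in `M'.S` and not in the digon `n2, n3`, so outside `cfg`.  Covering from `mapC`.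
`scheme_TC` with `N'`.
-/

namespace TwoPlane
namespace Mp

variable {D : Type} [DecidableEq D]

theorem red_C (M : Mp D) (hT : M.Tight) (ih : M.IH) (r p : D) (hr : r ∈ M.S) (h3 : M.L3 r)
    (hp : p = M.α (M.φ (M.φ r))) (h3' : M.L3 p) : M.TC r := by
  have F3 : ∀ d, M.L3 d → (M.L2 d ∨ M.L3 d ∨ M.L4 d ∨ M.L5 d) := fun d h => Or.inr (Or.inl h)
  obtain ⟨M', P', mem, hout, hn2, hn3, hR, hcov, hno⟩ := mapC M hT r p hr h3 hp h3'
  have ht2 : M.φ r ∈ M.S := M.φS r hr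
  have ht3 : M.φ (M.φ r) ∈ M.S := M.φS _ ht2
  have hpS : p ∈ M.S := by rw [hp]; exact M.αS _ ht3
  have hn2S : M.φ p ∈ M.S := M.φS p hpS
  have hαp : M.α p = M.φ (M.φ r) := by rw [hp, M.αα _ ht3]
  have ft3 : M.Fc r (M.φ (M.φ r)) := Or.inr (Or.inr (Or.inl rfl))
  have Vpr : M.V p r := by
    have h := M.V_αφ ht3
    rwa [← hp, h3.2] at h
  have Vt3 : M.V (M.φ (M.φ r)) (M.φ p) := by
    have h := M.V_αφ hpS
    rwa [hαp] at h
  have k1 : M.φ (M.φ r) ≠ r := by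
    intro h
    have h' := h3.2
    rw [h] at h'
    exact h3.1 h'
  have k3 : M.φ (M.φ p) ≠ p := by
    intro h
    have h' := h3'.2
    rw [h] at h'
    exact h3'.1 h'
  have k4 : M.φ (M.φ p) ≠ M.φ p := fun h => h3'.1 (M.φinj _ hn2S _ hpS h)
  -- the digon of the new map
  have dig : ∀ d ∈ M'.S, (M.Fc r d ∨ M.Fc p d) → M'.L2 d := by
    intro d hd hc
    obtain ⟨-, e1, e2, e3, e4⟩ := (mem d).1 hd
    have hd2 : d = M.φ p ∨ d = M.φ (M.φ p) := by
      rcases hc with hc | hc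
      · exfalso
        rcases hc with h | h | h | h | h
        · exact e1 h
        · exact e2 h
        · exact e3 h
        · rw [h3.2] at h
          exact e1 h
        · rw [h3.2] at h
          exact e2 h
      · rcases hc with h | h | h | h | h
        · exact absurd h e4
        · exact Or.inl h
        · exact Or.inr h
        · rw [h3'.2] at h
          exact absurd h e4
        · rw [h3'.2] at h
          exact Or.inl h
    rcases hd2 with h | h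
    · rw [h]
      exact ⟨by rw [hn2]; exact k4, by rw [hn2, hn3]⟩
    · rw [h]
      exact ⟨by rw [hn3]; exact Ne.symm k4, by rw [hn3, hn2]⟩
  have hsub : M'.S ⊆ M.S := hR.sub
  have hA : M.Agree M' (fun d => M.Fc r d ∨ M.Fc p d) := by
    refine ⟨fun d hd => or_congr (M.Fc_φ hr (F3 r h3) hd) (M.Fc_φ hpS (F3 p h3') hd),
      fun d hd hc => ?_⟩
    rw [not_or] at hc
    refine ⟨(mem d).2 ⟨hd, fun h => hc.1 (Or.inl h), fun h => hc.1 (Or.inr (Or.inl h)),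
      fun h => hc.1 (Or.inr (Or.inr (Or.inl h))), fun h => hc.2 (Or.inl h)⟩,
      hout d hd hc.1 hc.2⟩
  have hOk' : M'.Ok := ⟨P'.planar, P'.conn, P'.loopless,
    agree_face M M' _ hA hT.ok.face hsub (fun d hd hc => Or.inl (dig d hd hc))⟩
  have hcard : M'.S.card < M.S.card := by
    refine Finset.card_lt_card ⟨hsub, fun h => ?_⟩
    exact ((mem r).1 (h hr)).2.1 rfl
  have hαr : M.α r ∈ M'.S := by
    refine (mem _).2 ⟨M.αS r hr, M.αne r hr, fun h => ?_, fun h => ?_, fun h => ?_⟩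
    · have h1 : M.α (M.φ r) = r := by rw [← h, M.αα r hr]
      have h2 := M.V_αφ ht2
      rw [h1] at h2
      refine hT.ok.loopless _ ht3 ?_
      rw [← hp]
      exact M.V_trans (M.V_symm h2) (M.V_symm Vpr)
    · refine hno ?_
      have h1 : p = r := by rw [hp, ← h, M.αα r hr]
      rw [h1]
      exact M.Fc_self r
    · refine k1 ?_
      have h1 : M.α (M.α r) = M.α p := by rw [h]
      rw [M.αα r hr, hαp] at h1
      exact h1.symm
  obtain ⟨R', hV, hTot⟩ := ih M' hcard hOk' (M.α r) hαr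
  have hnt3 : ¬ M.Fc p (M.φ (M.φ r)) := by
    intro h
    refine hno ((M.Fc_iff hr (F3 r h3) ft3 p).2 ?_)
    exact (M.Fc_iff hpS (F3 p h3') h p).1 (M.Fc_self p)
  refine scheme_TC M M' (fun d => M.Fc r d ∨ M.Fc p d) hA r R'
    (fun c x y => (c = true ∧ x = M.φ (M.φ r) ∧ y = r) ∨ (c = false ∧ x = p ∧ y = M.φ p))
    hV ?_ ?_ ?_
  · rintro c x y (⟨_, h, _⟩ | ⟨_, h, _⟩)
    · rw [h]
      exact ⟨ht3, Or.inl ft3⟩
    · rw [h]
      exact ⟨hpS, Or.inr (M.Fc_self p)⟩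
  · intro d hd hc
    rcases hc with hc | hc
    · refine M.VAt_Fc _ hr (F3 r h3) hc (M.VAt_tri _ h3 (M.φ (M.φ r)) ft3 true ?_)
      rintro c x y hx (⟨h1, h2, h4⟩ | ⟨h1, h2, h4⟩)
      · exact ⟨h1, h2, by rw [h4, h3.2]⟩
      · rw [h2] at hx
        exact absurd hx hno
    · refine M.VAt_Fc _ hpS (F3 p h3') hc (M.VAt_tri _ h3' p (M.Fc_self p) false ?_)
      rintro c x y hx (⟨h1, h2, h4⟩ | ⟨h1, h2, h4⟩)
      · rw [h2] at hx
        exact absurd hx hnt3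
      · exact ⟨h1, h2, h4⟩
  · intro c x hx y hy
    obtain ⟨x', hx', lx⟩ := hcov x hx
    obtain ⟨y', hy', ly⟩ := hcov y hy
    have e := M.Lnk_equiv (fun x y => ((R' c x y ∧ x ∈ M.S ∧ ¬ (M.Fc r x ∨ M.Fc p x)) ∨
      ((c = true ∧ x = M.φ (M.φ r) ∧ y = r) ∨ (c = false ∧ x = p ∧ y = M.φ p))) ∨
        (x = r ∧ y = M.α r))
    have hl : M.Lnk (fun x y => ((R' c x y ∧ x ∈ M.S ∧ ¬ (M.Fc r x ∨ M.Fc p x)) ∨
      ((c = true ∧ x = M.φ (M.φ r) ∧ y = r) ∨ (c = false ∧ x = p ∧ y = M.φ p))) ∨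
        (x = r ∧ y = M.α r)) r (M.φ p) := by
      cases c
      · exact M.Lnk_trans (M.V_Lnk (M.V_symm Vpr))
          (M.Lnk_of (Or.inl (Or.inr (Or.inr ⟨rfl, rfl, rfl⟩))))
      · exact M.Lnk_trans (M.Lnk_symm (M.Lnk_of (Or.inl (Or.inr (Or.inl ⟨rfl, rfl, rfl⟩)))))
          (M.V_Lnk Vt3)
    have hV' : ∀ a ∈ M.S, M.Lnk (fun x y => ((R' c x y ∧ x ∈ M.S ∧ ¬ (M.Fc r x ∨ M.Fc p x)) ∨
      ((c = true ∧ x = M.φ (M.φ r) ∧ y = r) ∨ (c = false ∧ x = p ∧ y = M.φ p))) ∨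
        (x = r ∧ y = M.α r)) a (M.σ a) := fun a ha => M.V_Lnk (M.V_σ ha)
    have hcov' : ∀ a b, M.Lnk (fun x y => x = r ∧ y = M.φ p) a b → M.Lnk (fun x y => ((R' c x y ∧ x ∈ M.S ∧ ¬ (M.Fc r x ∨ M.Fc p x)) ∨
      ((c = true ∧ x = M.φ (M.φ r) ∧ y = r) ∨ (c = false ∧ x = p ∧ y = M.φ p))) ∨
        (x = r ∧ y = M.α r)) a b := by
      intro a b h
      refine M.Lnk_le e hV' ?_ h
      rintro a b ⟨h1, h2⟩
      rw [h1, h2]
      exact hl
    refine e.trans (hcov' _ _ lx) (e.trans ?_ (e.symm (hcov' _ _ ly)))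
    refine M.Lnk_le e hV' ?_ (red_use hR (R' c) (M.α r) hαr (hTot c x' hx' y' hy'))
    rintro a b ((h | ⟨h1, h2⟩) | ⟨h1, h2⟩)
    · have ha : a ∈ M'.S := hV.1 c a b h
      refine M.Lnk_of (Or.inl (Or.inl ⟨h, hsub ha, fun hc => ?_⟩))
      exact (hV.2 a ha).1 (dig a ha hc) c a b (M'.Fc_self a) h
    · rw [h1, h2]
      exact hl
    · rw [h1, h2, M.αα r hr]
      exact M.Lnk_symm (M.Lnk_of (Or.inr ⟨rfl, rfl⟩))

end Mp
end TwoPlane
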