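import Pool.Agent.Work.MP_3b7449_co.TP.Ex
import Pool.Agent.Work.MP_3b7449_co.TP.Scheme

/-!
# RedQ (size M): a quadrilateral whose diagonal `q0 q2` can be contracted

`q0 = q, q1, q2, q3`.  `fold_ex` for `a = q`: `M'`, `b = q1`.  `φ' q2 = q3`, `φ' q3 = q2`
(`φ q3 = q0`), other darts outside the face unchanged: `Agree` with `cfg = Fc q`, `FaceOk` by
`agree_face` (`L2` at `q2`, `q3`).  `α q0 ≠ q1` (otherwise `V (α q1) q2` with `α q1 = q0` contradicts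
`Free.1`), so `α q0`, `α q1` are in `M'.S`: `r' = r` if `r ≠ q0, q1`, otherwise `r' = α r`.
`ih` gives `R'`.  `N' c x y := x = q0 ∧ y = q2` (both colours).  `VAt N'` on the face: state with
`i = q0`, `c = true`, second pair `e = q0`, `e' = q2`, `c₂ = false`.
Total: `red_use`: on `M'.S` everything is linked by `R'`, the link `(q0, q2)` and `(r', α r')`; the
pairs of `R'` start in `M'.S`, not at `q2, q3` (digon), so outside `cfg`; the last link is the root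
link, perhaps backwards.  Every dart of `M.S` is linked to `M'.S` by the last property of
`fold_ex`.  `scheme_TC`.
-/

namespace TwoPlane
namespace Mp

variable {D : Type} [DecidableEq D]

theorem red_Q (M : Mp D) (hOk : M.Ok) (ih : M.IH) (q : D) (hq : q ∈ M.S) (h : M.L4 q)
    (hf : M.Free q (M.φ (M.φ q))) (r : D) (hr : r ∈ M.S) : M.TC r := by
  have F4 : ∀ d, M.L4 d → (M.L2 d ∨ M.L3 d ∨ M.L4 d ∨ M.L5 d) :=
    fun d h => Or.inr (Or.inr (Or.inl h))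
  obtain ⟨M', P', S', φ', α', hR, V', hcov⟩ := fold_ex M ⟨hOk.planar, hOk.conn, hOk.loopless⟩
    q hq hf
  have hq1 : M.φ q ∈ M.S := M.φS q hq
  have hq2 : M.φ (M.φ q) ∈ M.S := M.φS _ hq1
  have hq3 : M.φ (M.φ (M.φ q)) ∈ M.S := M.φS _ hq2
  have mem : ∀ d, d ∈ M'.S ↔ d ∈ M.S ∧ d ≠ q ∧ d ≠ M.φ q := by
    intro d
    rw [S', Finset.mem_erase, Finset.mem_erase]
    tauto
  have k0 : M.φ (M.φ (M.φ q)) ≠ q := by
    intro h1
    have h2 := h.2
    rw [h1] at h2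
    exact h.1 (by rw [h2, h2])
  have k1 : M.φ (M.φ (M.φ q)) ≠ M.φ (M.φ q) := by
    intro h1
    have h2 := M.φinj _ hq2 _ hq1 h1
    have h3 := M.φinj _ hq1 _ hq h2
    exact h.1 (by rw [h3, h3])
  have f2 : M'.φ (M.φ (M.φ q)) = M.φ (M.φ (M.φ q)) := by rw [φ', if_neg k0]
  have f3 : M'.φ (M.φ (M.φ (M.φ q))) = M.φ (M.φ q) := by rw [φ', if_pos h.2]
  have hsub : M'.S ⊆ M.S := hR.sub
  have dig : ∀ d ∈ M'.S, M.Fc q d → M'.L2 d := by
    intro d hd hc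
    obtain ⟨-, e1, e2⟩ := (mem d).1 hd
    have hd2 : d = M.φ (M.φ q) ∨ d = M.φ (M.φ (M.φ q)) := by
      rcases hc with h' | h' | h' | h' | h'
      · exact absurd h' e1
      · exact absurd h' e2
      · exact Or.inl h'
      · exact Or.inr h'
      · rw [h.2] at h'
        exact absurd h' e1
    rcases hd2 with h' | h'
    · rw [h']
      exact ⟨by rw [f2]; exact k1, by rw [f2, f3]⟩
    · rw [h']
      exact ⟨by rw [f3]; exact Ne.symm k1, by rw [f3, f2]⟩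
  have hA : M.Agree M' (M.Fc q) := by
    refine ⟨fun d hd => M.Fc_φ hq (F4 q h) hd, fun d hd hc => ?_⟩
    refine ⟨(mem d).2 ⟨hd, fun h' => hc (Or.inl h'), fun h' => hc (Or.inr (Or.inl h'))⟩, ?_⟩
    rw [φ', if_neg]
    intro h'
    refine hc ((M.Fc_φ hq (F4 q h) hd).2 ?_)
    rw [h']
    exact M.Fc_self q
  have hOk' : M'.Ok := ⟨P'.planar, P'.conn, P'.loopless,
    agree_face M M' _ hA hOk.face hsub (fun d hd hc => Or.inl (dig d hd hc))⟩
  have hcard : M'.S.card < M.S.card := by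
    refine Finset.card_lt_card ⟨hsub, fun h => ?_⟩
    exact ((mem q).1 (h hq)).2.1 rfl
  have hαq : M.α q ≠ M.φ q := by
    intro h'
    have h1 : M.α (M.φ q) = q := by rw [← h', M.αα q hq]
    have h2 := M.V_αφ hq1
    rw [h1] at h2
    exact hf.1 h2
  obtain ⟨r', hr', hrr⟩ : ∃ r' ∈ M'.S, r' = r ∨ r' = M.α r := by
    by_cases h1 : r = q
    · refine ⟨M.α r, (mem _).2 ⟨M.αS r hr, ?_, ?_⟩, Or.inr rfl⟩
      · rw [h1]
        exact M.αne q hq
      · rw [h1]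
        exact hαq
    · by_cases h2 : r = M.φ q
      · refine ⟨M.α r, (mem _).2 ⟨M.αS r hr, ?_, ?_⟩, Or.inr rfl⟩
        · intro h3
          refine hαq ?_
          rw [← h3, M.αα r hr, h3, h2]
        · rw [h2]
          exact M.αne _ hq1
      · exact ⟨r, (mem r).2 ⟨hr, h1, h2⟩, Or.inl rfl⟩
  obtain ⟨R', hV, hTot⟩ := ih M' hcard hOk' r' hr'
  refine scheme_TC M M' (M.Fc q) hA r R' (fun _ x y => x = q ∧ y = M.φ (M.φ q)) hV ?_ ?_ ?_
  · rintro c x y ⟨h1, h2⟩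
    rw [h1]
    exact ⟨hq, M.Fc_self q⟩
  · intro d hd hc
    refine M.VAt_Fc _ hq (F4 q h) hc ?_
    obtain ⟨e2, e3, e4⟩ := M.excl q
    refine ⟨fun h2 => absurd h (e2 h2).2.1, fun h3 => absurd h (e3 h3).1, fun _ => ?_,
      fun h5 => absurd h5 (e4 h)⟩
    refine ⟨q, true, q, M.φ (M.φ q), false, M.Fc_self q, M.Fc_self q,
      Or.inr (Or.inr (Or.inl rfl)), ?_⟩
    rintro c x y hx ⟨h1, h2⟩
    cases c
    · exact Or.inr ⟨rfl, h1, h2⟩
    · exact Or.inl ⟨rfl, h1, h2⟩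
  · intro c x hx y hy
    obtain ⟨x', hx', lx⟩ := hcov x hx
    obtain ⟨y', hy', ly⟩ := hcov y hy
    have e := M.Lnk_equiv (fun x y => ((R' c x y ∧ x ∈ M.S ∧ ¬ M.Fc q x) ∨
      (x = q ∧ y = M.φ (M.φ q))) ∨ (x = r ∧ y = M.α r))
    have hl : M.Lnk (fun x y => ((R' c x y ∧ x ∈ M.S ∧ ¬ M.Fc q x) ∨
      (x = q ∧ y = M.φ (M.φ q))) ∨ (x = r ∧ y = M.α r)) q (M.φ (M.φ q)) :=
      M.Lnk_of (Or.inl (Or.inr ⟨rfl, rfl⟩))
    have hV' : ∀ a ∈ M.S, M.Lnk (fun x y => ((R' c x y ∧ x ∈ M.S ∧ ¬ M.Fc q x) ∨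
      (x = q ∧ y = M.φ (M.φ q))) ∨ (x = r ∧ y = M.α r)) a (M.σ a) :=
      fun a ha => M.V_Lnk (M.V_σ ha)
    have hcov' : ∀ a b, M.Lnk (fun x y => x = q ∧ y = M.φ (M.φ q)) a b →
        M.Lnk (fun x y => ((R' c x y ∧ x ∈ M.S ∧ ¬ M.Fc q x) ∨
      (x = q ∧ y = M.φ (M.φ q))) ∨ (x = r ∧ y = M.α r)) a b := by
      intro a b h
      refine M.Lnk_le e hV' ?_ h
      rintro a b ⟨h1, h2⟩
      rw [h1, h2]
      exact hl
    refine e.trans (hcov' _ _ lx) (e.trans ?_ (e.symm (hcov' _ _ ly)))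
    refine M.Lnk_le e hV' ?_ (red_use hR (R' c) r' hr' (hTot c x' hx' y' hy'))
    rintro a b ((h | ⟨h1, h2⟩) | ⟨h1, h2⟩)
    · have ha : a ∈ M'.S := hV.1 c a b h
      refine M.Lnk_of (Or.inl (Or.inl ⟨h, hsub ha, fun hc => ?_⟩))
      exact (hV.2 a ha).1 (dig a ha hc) c a b (M'.Fc_self a) h
    · rw [h1, h2]
      exact hl
    · rcases hrr with hrr | hrr
      · rw [h1, h2, hrr]
        exact M.Lnk_of (Or.inr ⟨rfl, rfl⟩)
      · rw [h1, h2, hrr, M.αα r hr]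
        exact M.Lnk_symm (M.Lnk_of (Or.inr ⟨rfl, rfl⟩))

end Mp
end TwoPlane
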