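import Pool.Agent.Work.MP_3b7449_co.TP.Faces

/-!
# Ncj (size L): the crossing pattern is impossible (homology argument)

`T = (r, t2, t3)`, `p = α t3`, pentagon `p0 = p, …, p4`.  `Lk := Lnk (R ∪ (r, α r))`.
`W d := Lk p1 d`.  `W` is closed under the steps of `Lk`.  `W p1`, `W p4` (`h14`), `¬ W p0`
(`h01`), `¬ W p2` (`h02`, `h01`), `¬ W r` (`V r p`: `V (α t3) (φ t3)`), `¬ W t2` (`r ~ α r ~ t2`).
The faces of `r` (length 3) and `p` (length 5) are different; `R` has no pair in them.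

Define `Q u v := ∃ z g, (∀ d ∈ S, z (α d) = z d) ∧ (∀ d ∈ S, g (σ d) + g d = z d + dl u d + dl v d)
∧ (∀ d ∈ S, ¬ W d → g d ≠ 0 → ∃ e e', R e e' ∧ W e ∧ Fc e d)`.
(0) `Q p1 p1` with `z = g = 0`.
(1) `φ`-step: replacing `g` by `g + dl (φ v)` and `z` by `z + ed v` turns the defect `v` into `φ v`
    and also the defect `φ v` into `v` (for `d ∈ S`: `σ d = φ v` iff `d = α v`, `σinj`;
    `ed v` is symmetric).  `σ`-step: replacing `g` by `g + dl (σ v)` turns the defect `v` into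
    `σ v` and back.
(2) Claim: for `Lk a b`: `(W a ↔ W b) ∧ (W a → (Q p1 a ↔ Q p1 b))`.  Induction on `EqvGen`.
    Step `b = σ a`: a `σ`-step; the new value is at `σ a`, which is in `W`.  Step `R a b` in a
    triangle, `b = φ a`: a `φ`-step, new value at `φ a = b ∈ W`.  Step `R a b` in a pentagon,
    `b = φ (φ a)`: two `φ`-steps, new values at `φ a` (witness `e = a`, `e' = b`, `Fc a (φ a)`) and
    at `b ∈ W`.  Step `(r, α r)`: `¬ W r`.
(3) So `Q p1 p4`.  Two more `φ`-steps `p4 → p0 → p1` (no support condition any more): with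
    `g' = g + dl p0 + dl p1`, `z' = z + ed p4 + ed p0`: `g' (σ d) + g' d = z' d`, `z'` symmetric.
    Hence `g'` is balanced (`φ d = σ (α d)`), so `g' = f + h` by planarity.
(4) `g = 0` at `p0, p2, r, t2`: they are not in `W`; a witness `R e e'` with `Fc e d` would be in the
    face of `p` or of `r` (`Fc_iff`), excluded by `hR1`.
(5) Claim: for `Lk a b`: `(W a ↔ W b) ∧ (¬ W a → h a = h b)`.  `σ`-steps: clear.  `R a b`:
    `a` and `b` are in the same face, which is not that of `p`, so `g' = g` there; `g a = 0`: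
    otherwise there are `R e e'`, `W e`, `Fc e a`, and `hR3` gives `e = a`, `e = b`, `e' = a` or
    `e' = b`, so `W a`; the same for `b` (`Fc e b` implies `Fc e a`).  So `h a = f a = f b = h b`.
    `(r, α r)`: `h (α r) = h (σ (α r)) = h (φ r)`, `h r = f r`, `h (φ r) = f (φ r) = f r` by (4).
(6) `h p0 = h p2` by (5) and `h02`.  But `h p0 = f p0 + g' p0 = f p0 + 1` and
    `h p2 = f p2 + g' p2 = f p2 = f p0`.  Contradiction.
-/

namespace TwoPlane
namespace Mp

variable {D : Type} [DecidableEq D]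

private theorem ncj_dl_σ (M : Mp D) {v d : D} (hv : v ∈ M.S) (hd : d ∈ M.S) :
    dl (M.σ v) (M.σ d) = dl v d := by
  unfold dl
  by_cases h : d = v
  · rw [if_pos h, if_pos (by rw [h])]
  · rw [if_neg h, if_neg (fun h' => h (M.σinj d hd v hv h'))]

private theorem ncj_dl_φ (M : Mp D) {v d : D} (hv : v ∈ M.S) (hd : d ∈ M.S) :
    dl (M.φ v) (M.σ d) = dl (M.α v) d := by
  unfold dl
  by_cases h : d = M.α v
  · rw [if_pos h, if_pos]
    unfold σ
    rw [h, M.αα v hv]
  · rw [if_neg h, if_neg]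
    intro h'
    have h1 : M.α d = v := M.φinj _ (M.αS d hd) v hv h'
    exact h (by rw [← h1, M.αα d hd])

private theorem ncj_ed (M : Mp D) {v d : D} (hv : v ∈ M.S) (hd : d ∈ M.S) :
    M.ed v (M.α d) = M.ed v d := by
  unfold ed
  have h1 : dl v (M.α d) = dl (M.α v) d := by
    unfold dl
    by_cases h : d = M.α v
    · rw [if_pos h, if_pos (by rw [h, M.αα v hv])]
    · rw [if_neg h, if_neg (fun h' => h (by rw [← h', M.αα d hd]))]
  have h2 : dl (M.α v) (M.α d) = dl v d := by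
    unfold dl
    by_cases h : d = v
    · rw [if_pos h, if_pos (by rw [h])]
    · rw [if_neg h, if_neg]
      intro h'
      have h3 : M.α (M.α d) = M.α (M.α v) := by rw [h']
      rw [M.αα d hd, M.αα v hv] at h3
      exact h h3
  rw [h1, h2, add_comm]

private def NcjQ (M : Mp D) (R : D → D → Prop) (W : D → Prop) (u v : D) : Prop :=
  ∃ z g : D → ZMod 2, (∀ d ∈ M.S, z (M.α d) = z d) ∧
    (∀ d ∈ M.S, g (M.σ d) + g d = z d + dl u d + dl v d) ∧
    (∀ d ∈ M.S, ¬ W d → g d ≠ 0 → ∃ e e', R e e' ∧ W e ∧ M.Fc e d)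

private theorem ncj_two : (2 : ZMod 2) = 0 := by decide

private theorem ncj_supp (M : Mp D) {R : D → D → Prop} {W : D → Prop} {g : D → ZMod 2}
    (hg : ∀ d ∈ M.S, ¬ W d → g d ≠ 0 → ∃ e e', R e e' ∧ W e ∧ M.Fc e d) {x : D}
    (hx : W x ∨ ∃ e e', R e e' ∧ W e ∧ M.Fc e x) :
    ∀ d ∈ M.S, ¬ W d → g d + dl x d ≠ 0 → ∃ e e', R e e' ∧ W e ∧ M.Fc e d := by
  intro d hd hW h
  by_cases hdx : d = x
  · subst hdx
    rcases hx with h1 | h1
    · exact absurd h1 hW
    · exact h1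
  · refine hg d hd hW ?_
    unfold dl at h
    rwa [if_neg hdx, add_zero] at h

private theorem ncj_step_σ (M : Mp D) {R : D → D → Prop} {W : D → Prop} {u v : D}
    (hv : v ∈ M.S) (hW : W (M.σ v)) : NcjQ M R W u v ↔ NcjQ M R W u (M.σ v) := by
  constructor
  · rintro ⟨z, g, h1, h2, h3⟩
    refine ⟨z, fun d => g d + dl (M.σ v) d, h1, fun d hd => ?_, ncj_supp M h3 (Or.inl hW)⟩
    have h4 := h2 d hd
    have h5 := ncj_dl_σ M hv hd
    dsimp only
    rw [h5]
    linear_combination h4 + dl v d * ncj_two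
  · rintro ⟨z, g, h1, h2, h3⟩
    refine ⟨z, fun d => g d + dl (M.σ v) d, h1, fun d hd => ?_, ncj_supp M h3 (Or.inl hW)⟩
    have h4 := h2 d hd
    have h5 := ncj_dl_σ M hv hd
    dsimp only
    rw [h5]
    linear_combination h4 + dl (M.σ v) d * ncj_two

private theorem ncj_step_φ (M : Mp D) {R : D → D → Prop} {W : D → Prop} {u v : D}
    (hv : v ∈ M.S) (hW : W (M.φ v) ∨ ∃ e e', R e e' ∧ W e ∧ M.Fc e (M.φ v)) :
    NcjQ M R W u v ↔ NcjQ M R W u (M.φ v) := by
  constructor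
  · rintro ⟨z, g, h1, h2, h3⟩
    refine ⟨fun d => z d + M.ed v d, fun d => g d + dl (M.φ v) d, fun d hd => ?_, fun d hd => ?_,
      ncj_supp M h3 hW⟩
    · dsimp only
      rw [h1 d hd, ncj_ed M hv hd]
    have h4 := h2 d hd
    have h5 := ncj_dl_φ M hv hd
    dsimp only
    rw [h5]
    unfold ed
    linear_combination h4
  · rintro ⟨z, g, h1, h2, h3⟩
    refine ⟨fun d => z d + M.ed v d, fun d => g d + dl (M.φ v) d, fun d hd => ?_, fun d hd => ?_,
      ncj_supp M h3 hW⟩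
    · dsimp only
      rw [h1 d hd, ncj_ed M hv hd]
    have h4 := h2 d hd
    have h5 := ncj_dl_φ M hv hd
    dsimp only
    rw [h5]
    unfold ed
    linear_combination h4 + (dl (M.φ v) d - dl v d) * ncj_two

theorem ncj (M : Mp D) (hpl : M.Planar) (r p : D) (hr : r ∈ M.S) (h3 : M.L3 r)
    (hp : p = M.α (M.φ (M.φ r))) (h5 : M.L5 p) (R : D → D → Prop)
    (hR1 : ∀ x y, R x y → x ∈ M.S ∧ ¬ M.Fc r x ∧ ¬ M.Fc p x)
    (hR2 : ∀ x y, R x y → (M.L3 x ∧ y = M.φ x) ∨ (M.L5 x ∧ y = M.φ (M.φ x)))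
    (hR3 : ∀ x y x' y', R x y → R x' y' → M.Fc x x' → x = x' ∨ x = y' ∨ y = x' ∨ y = y')
    (h02 : M.Lnk (fun x y => R x y ∨ (x = r ∧ y = M.α r)) p (M.it p 2))
    (h14 : M.Lnk (fun x y => R x y ∨ (x = r ∧ y = M.α r)) (M.it p 1) (M.it p 4))
    (h01 : ¬ M.Lnk (fun x y => R x y ∨ (x = r ∧ y = M.α r)) p (M.it p 1)) : False := by
  have hit1 : M.it p 1 = M.φ p := rfl
  have hit2 : M.it p 2 = M.φ (M.φ p) := rfl
  have hit4 : M.it p 4 = M.φ (M.φ (M.φ (M.φ p))) := rfl
  rw [hit1] at h14 h01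
  rw [hit4] at h14
  rw [hit2] at h02
  -- membership
  have ht2 : M.φ r ∈ M.S := M.φS r hr
  have ht3 : M.φ (M.φ r) ∈ M.S := M.φS _ ht2
  have hpS : p ∈ M.S := by rw [hp]; exact M.αS _ ht3
  have hp1 : M.φ p ∈ M.S := M.φS p hpS
  have hp2 : M.φ (M.φ p) ∈ M.S := M.φS _ hp1
  have hp3 : M.φ (M.φ (M.φ p)) ∈ M.S := M.φS _ hp2
  have hp4 : M.φ (M.φ (M.φ (M.φ p))) ∈ M.S := M.φS _ hp3
  obtain ⟨hpne, hp5⟩ := h5
  have h5' : M.L5 p := ⟨hpne, hp5⟩
  obtain ⟨hrne, hr3⟩ := h3
  have h3' : M.L3 r := ⟨hrne, hr3⟩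
  have hokp : M.L2 p ∨ M.L3 p ∨ M.L4 p ∨ M.L5 p := Or.inr (Or.inr (Or.inr h5'))
  have hokr : M.L2 r ∨ M.L3 r ∨ M.L4 r ∨ M.L5 r := Or.inr (Or.inl h3')
  have hR0 : ∀ x y, R x y → M.L2 x ∨ M.L3 x ∨ M.L4 x ∨ M.L5 x := by
    intro x y h
    rcases hR2 x y h with h1 | h1
    · exact Or.inr (Or.inl h1.1)
    · exact Or.inr (Or.inr (Or.inr h1.1))
  have hRb : ∀ x y, R x y → M.Fc x y := by
    intro x y h
    rcases hR2 x y h with h1 | h1
    · exact Or.inr (Or.inl h1.2)
    · exact Or.inr (Or.inr (Or.inl h1.2))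
  have hRbS : ∀ x y, R x y → y ∈ M.S := fun x y h => Fc_mem M (hR1 x y h).1 (hRb x y h)
  -- the faces of `r` and `p` are different
  have hrp : ¬ M.Fc p r := by
    intro h
    have h1 := (L_Fc M hpS hokp h).2.2.2.1 h5'
    exact ((excl M r).2.1 h3').2 h1
  have hrp2 : ¬ M.Fc p (M.φ r) := fun h => hrp ((Fc_φ M hpS hokp hr).2 h)
  have hp21 : M.φ (M.φ p) ≠ M.φ p := fun h => hpne (M.φinj _ hp1 _ hpS h)
  have hp20 : M.φ (M.φ p) ≠ p := by
    intro h
    have h6 := hp5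
    rw [h, h] at h6
    exact hpne h6
  have hpF : M.Fc p p := Or.inl rfl
  have hpF1 : M.Fc p (M.φ p) := Or.inr (Or.inl rfl)
  have hpF2 : M.Fc p (M.φ (M.φ p)) := Or.inr (Or.inr (Or.inl rfl))
  -- the set W
  set Lk : D → D → Prop := M.Lnk (fun x y => R x y ∨ (x = r ∧ y = M.α r)) with hLk
  obtain ⟨W, hW⟩ : ∃ W : D → Prop, ∀ d, W d ↔ Lk (M.φ p) d := ⟨_, fun _ => Iff.rfl⟩
  have hWL : ∀ a b, Lk a b → (W a ↔ W b) := by
    intro a b h
    rw [hW, hW]
    exact ⟨fun h1 => M.Lnk_trans h1 h, fun h1 => M.Lnk_trans h1 (M.Lnk_symm h)⟩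
  have hWp1 : W (M.φ p) := (hW _).2 (M.Lnk_refl _ _)
  have hWp0 : ¬ W p := fun h => h01 (M.Lnk_symm ((hW _).1 h))
  have hWp2 : ¬ W (M.φ (M.φ p)) := fun h => hWp0 ((hWL _ _ h02).2 h)
  have hVr : M.V p r := by
    have h1 := M.V_αφ ht3
    rw [← hp, hr3] at h1
    exact h1
  have hWr : ¬ W r := fun h => hWp0 ((hWL _ _ (M.V_Lnk hVr)).2 h)
  have hrr : Lk r (M.α r) := M.Lnk_of (Or.inr ⟨rfl, rfl⟩)
  have hWt2 : ¬ W (M.φ r) := by
    intro h
    have h1 : Lk r (M.φ r) := M.Lnk_trans hrr (M.V_Lnk (M.V_αφ hr))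
    exact hWr ((hWL _ _ h1).2 h)
  -- the walk in `W`
  have claim : ∀ a b, Lk a b → (W a → (NcjQ M R W (M.φ p) a ↔ NcjQ M R W (M.φ p) b)) := by
    intro a b h
    induction h with
    | rel a b h =>
      intro hWa
      have hWb : W b := (hWL a b (Relation.EqvGen.rel _ _ h)).1 hWa
      rcases h with ⟨ha, rfl⟩ | h | ⟨rfl, rfl⟩
      · exact ncj_step_σ M ha hWb
      · have haS := (hR1 a b h).1
        rcases hR2 a b h with ⟨-, h1⟩ | ⟨-, h1⟩
        · subst h1
          exact ncj_step_φ M haS (Or.inl hWb)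
        · have h2 : NcjQ M R W (M.φ p) a ↔ NcjQ M R W (M.φ p) (M.φ a) :=
            ncj_step_φ M haS (Or.inr ⟨a, b, h, hWa, Or.inr (Or.inl rfl)⟩)
          subst h1
          exact h2.trans (ncj_step_φ M (M.φS a haS) (Or.inl hWb))
      · exact absurd hWa hWr
    | refl a => exact fun _ => Iff.rfl
    | symm a b hab ih =>
      intro hWb
      exact (ih ((hWL a b hab).2 hWb)).symm
    | trans a b c hab hbc ih1 ih2 =>
      intro hWa
      exact (ih1 hWa).trans (ih2 ((hWL a b hab).1 hWa))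
  have hQ0 : NcjQ M R W (M.φ p) (M.φ p) := by
    refine ⟨fun _ => 0, fun _ => 0, fun _ _ => rfl, fun d _ => ?_, fun d _ _ h => absurd rfl h⟩
    linear_combination (-dl (M.φ p) d) * ncj_two
  obtain ⟨z, g, hz, hg, hsupp⟩ := (claim _ _ h14 hWp1).1 hQ0
  -- the closed walk
  obtain ⟨g', hg'⟩ : ∃ g' : D → ZMod 2, ∀ d, g' d = g d + dl p d + dl (M.φ p) d :=
    ⟨_, fun _ => rfl⟩
  have hbal : ∀ d ∈ M.S, g' (M.σ d) + g' d =
      z d + M.ed (M.φ (M.φ (M.φ (M.φ p)))) d + M.ed p d := by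
    intro d hd
    have e1 := hg d hd
    have e2 : dl p (M.σ d) = dl (M.α (M.φ (M.φ (M.φ (M.φ p))))) d := by
      have := ncj_dl_φ M hp4 hd
      rw [hp5] at this
      exact this
    have e3 := ncj_dl_φ M hpS hd
    rw [hg', hg', e2, e3]
    unfold ed
    linear_combination e1 + dl (M.φ p) d * ncj_two
  have hz' : ∀ d ∈ M.S, z (M.α d) + M.ed (M.φ (M.φ (M.φ (M.φ p)))) (M.α d) + M.ed p (M.α d) =
      z d + M.ed (M.φ (M.φ (M.φ (M.φ p)))) d + M.ed p d := by
    intro d hd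
    rw [hz d hd, ncj_ed M hp4 hd, ncj_ed M hpS hd]
  obtain ⟨f, hh, hf, hhσ, hfh⟩ := hpl g' (by
    intro d hd
    have e1 := hbal d hd
    have e2 := hbal (M.α d) (M.αS d hd)
    have e3 : M.σ (M.α d) = M.φ d := by
      unfold σ
      rw [M.αα d hd]
    have e4 : M.σ d = M.φ (M.α d) := rfl
    rw [e3, hz' d hd] at e2
    rw [e4] at e1
    linear_combination e1 + e2 +
      (z d + M.ed (M.φ (M.φ (M.φ (M.φ p)))) d + M.ed p d) * ncj_two)
  -- `g` vanishes at some darts of the two faces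
  have hgz : ∀ x q, q ∈ M.S → (M.L2 q ∨ M.L3 q ∨ M.L4 q ∨ M.L5 q) → M.Fc q x → ¬ W x →
      (∀ e e', R e e' → ¬ M.Fc q e) → g x = 0 := by
    intro x q hq hokq hqx hWx hno
    by_contra hne
    obtain ⟨e, e', he, -, hex⟩ := hsupp x (Fc_mem M hq hqx) hWx hne
    have k1 := (Fc_iff M (hR1 e e' he).1 (hR0 e e' he) hex e).1 (Fc_self M e)
    exact hno e e' he ((Fc_iff M hq hokq hqx e).2 k1)
  have hnop : ∀ e e', R e e' → ¬ M.Fc p e := fun e e' h => (hR1 e e' h).2.2
  have hnor : ∀ e e', R e e' → ¬ M.Fc r e := fun e e' h => (hR1 e e' h).2.1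
  have hgp0 : g p = 0 := hgz p p hpS hokp hpF hWp0 hnop
  have hgp2 : g (M.φ (M.φ p)) = 0 := hgz _ p hpS hokp hpF2 hWp2 hnop
  have hgr : g r = 0 := hgz r r hr hokr (Fc_self M r) hWr hnor
  have hgt2 : g (M.φ r) = 0 := hgz _ r hr hokr (Or.inr (Or.inl rfl)) hWt2 hnor
  -- outside the face of `p` there is no change
  have hgo : ∀ x, ¬ M.Fc p x → g' x = g x := by
    intro x hx
    have k1 : x ≠ p := fun h => hx (h ▸ hpF)
    have k2 : x ≠ M.φ p := fun h => hx (h ▸ hpF1)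
    rw [hg']
    unfold dl
    rw [if_neg k1, if_neg k2, add_zero, add_zero]
  -- the vertex function is constant on the links outside `W`
  have claim2 : ∀ a b, Lk a b → (¬ W a → hh a = hh b) := by
    intro a b h
    induction h with
    | rel a b h =>
      intro hWa
      have hWb : ¬ W b := fun h1 => hWa ((hWL a b (Relation.EqvGen.rel _ _ h)).2 h1)
      rcases h with ⟨ha, rfl⟩ | h | ⟨rfl, rfl⟩
      · exact (hhσ a ha).symm
      · obtain ⟨haS, -, hap⟩ := hR1 a b h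
        have hbS := hRbS a b h
        have hFab := hRb a b h
        have key : ∀ e e', R e e' → W e → M.Fc e a → False := by
          intro e e' he hWe hea
          have hWe' : W e' := (hWL e e' (M.Lnk_of (Or.inl he))).1 hWe
          rcases hR3 e e' a b he h hea with k | k | k | k
          · exact hWa (k ▸ hWe)
          · exact hWb (k ▸ hWe)
          · exact hWa (k ▸ hWe')
          · exact hWb (k ▸ hWe')
        have hga : g a = 0 := by
          by_contra hne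
          obtain ⟨e, e', he, hWe, hea⟩ := hsupp a haS hWa hne
          exact key e e' he hWe hea
        have hgb : g b = 0 := by
          by_contra hne
          obtain ⟨e, e', he, hWe, heb⟩ := hsupp b hbS hWb hne
          have k1 := (Fc_iff M haS (hR0 a b h) hFab a).1 (Fc_self M a)
          exact key e e' he hWe
            ((Fc_iff M (hR1 e e' he).1 (hR0 e e' he) heb a).2 k1)
        have hbp : ¬ M.Fc p b := by
          intro k
          have k1 := (Fc_iff M haS (hR0 a b h) hFab a).1 (Fc_self M a)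
          exact hap ((Fc_iff M hpS hokp k a).2 k1)
        have h1 := hfh a haS
        have h2 := hfh b hbS
        rw [hgo a hap, hga] at h1
        rw [hgo b hbp, hgb] at h2
        have hfab : f b = f a := by
          rcases hR2 a b h with ⟨-, k⟩ | ⟨-, k⟩
          · rw [k, hf a haS]
          · rw [k, hf _ (M.φS a haS), hf a haS]
        linear_combination h2 - h1 + hfab
      · have k1 := hhσ (M.α a) (M.αS a hr)
        have k2 : M.σ (M.α a) = M.φ a := by
          unfold σ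
          rw [M.αα a hr]
        rw [k2] at k1
        have k3 := hfh a hr
        have k4 := hfh (M.φ a) ht2
        rw [hgo a hrp, hgr] at k3
        rw [hgo _ hrp2, hgt2, hf a hr] at k4
        linear_combination k4 - k3 + k1
    | refl a => exact fun _ => rfl
    | symm a b hab ih =>
      intro hWb
      exact (ih (fun h => hWb ((hWL a b hab).1 h))).symm
    | trans a b c hab hbc ih1 ih2 =>
      intro hWa
      exact (ih1 hWa).trans (ih2 (fun h => hWa ((hWL a b hab).2 h)))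
  have hfin := claim2 _ _ h02 hWp0
  have k1 := hfh p hpS
  have k2 := hfh _ hp2
  rw [hg', hgp0] at k1
  rw [hg', hgp2, hf _ hp1, hf p hpS] at k2
  unfold dl at k1 k2
  rw [if_pos rfl, if_neg hpne.symm] at k1
  rw [if_neg hp20, if_neg hp21] at k2
  have k3 : (1 : ZMod 2) = 0 := by
    linear_combination k1 - k2 + hfin
  exact absurd k3 (by decide)

end Mp
end TwoPlane
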