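import Pool.Agent.Work.MP_3b7449_co.TP.MapR3
import Pool.Agent.Work.MP_3b7449_co.TP.Scheme
import Pool.Agent.Work.MP_3b7449_co.TP.FinR3
import Pool.Agent.Work.MP_3b7449_co.TP.Ncj

/-!
# RedR3 (size L): the root triangle next to a pentagon, main case

`T = (r, t2, t3)`, `p = α t3`, `v i = it p i`; `mapR3` gives `M'`.  `cfg d := Fc r d ∨ Fc p d`;
`Agree`; in `M'` the darts `v 3, v 4` form a digon; `Ok`; fewer darts.  `r' = α r` is in `M'.S`:
it is not in `Fc r` (as in RedC: `α r = t2` makes `t3` a loop; `α r = t3` would give `p = r`, but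
`L3 r`, `L5 p`) and not in `Fc p` (`L3 (α r)`, `L5 p`).  `ih` gives `R'`.
`scheme` with `S' = M'.S`, `Q x y := (x = r ∧ y = v 1) ∨ (x = v 1 ∧ y = v 3) ∨ (x = α r ∧ y = r)`
(`red_use`, `α (α r) = r`), `L c i j := (i = 0 ∧ j = 1) ∨ (i = 1 ∧ j = 3)`, `J = True`;
`hQ`: `V r p` (`V (α t3) (φ t3)`), `p = v 0`; the last link is the root link backwards; `hRL`: a
pair of `R'` in `cfg` starts in `M'.S`, so at `v 3` or `v 4`, impossible (digon).  Covering
from `mapR3`.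
`finR3`, first case: `N c a b := pst i o m c a b ∨ (c = cT ∧ a = 0 ∧ b = 1)`,
`N' c x y := (∃ a b, pst i o m c a b ∧ x = v a ∧ y = v b) ∨ (c = cT ∧ x = t3 ∧ y = r)`
(`V t3 (v 1)`, `V r (v 0)`: the pair `(t3, r)` realizes the link `(0, 1)`); `VAt_pst` on `Fc p`,
`VAt_tri` with `i = t3` on `Fc r` (`φ t3 = r`); `scheme_TC`.
Second case: contradiction to `ncj` with `R x y := R' true x y ∧ x ∈ M.S ∧ ¬ cfg x`
(`outL M R' cfg r true` is exactly `R ∪ (r, α r)`): `hR2`, `hR3` from `VAt` of `R'` at `x`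
(`agree_VAt`; all faces of `M` have length 3 or 5 by `Tight.noL2`, `h4`): in a triangle the only
possible pair is `(i, φ i)`; in a pentagon the pairs of one colour are among
`(φ^4 i, φ i)`, `(i, φ^2 i)`, `(φ^2 i, φ^4 i)`, the first two never in the same colour, and
`φ i = φ^2 (φ^4 i)`.
-/

namespace TwoPlane
namespace Mp

variable {D : Type} [DecidableEq D]

private theorem rR3_mono (M : Mp D) {L L' : D → D → Prop} (h : ∀ x y, L x y → L' x y)
    {x y : D} (hL : M.Lnk L x y) : M.Lnk L' x y :=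
  M.Lnk_le (M.Lnk_equiv L') (fun _ ha => M.V_Lnk (M.V_σ ha))
    (fun a b hab => M.Lnk_of (h a b hab)) hL

private theorem rR3_it (M : Mp D) {d x : D} (h : M.Fc d x) : ∃ i : Fin 5, x = M.it d i := by
  rcases h with h | h | h | h | h
  · exact ⟨0, h⟩
  · exact ⟨1, h⟩
  · exact ⟨2, h⟩
  · exact ⟨3, h⟩
  · exact ⟨4, h⟩

private theorem rR3_Fcit (M : Mp D) (d : D) (i : Fin 5) : M.Fc d (M.it d i) := by
  fin_cases i
  · exact Or.inl rfl
  · exact Or.inr (Or.inl rfl)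
  · exact Or.inr (Or.inr (Or.inl rfl))
  · exact Or.inr (Or.inr (Or.inr (Or.inl rfl)))
  · exact Or.inr (Or.inr (Or.inr (Or.inr rfl)))

/-- the pairs of one colour in a face of length 3 or 5 -/
private theorem rR3_pair (M : Mp D) {R : Bool → D → D → Prop} {x y : D} (hx : x ∈ M.S)
    (hf : M.L3 x ∨ M.L5 x) (hV : M.VAt R x) (c : Bool) (h : R c x y) :
    (M.L3 x ∧ y = M.φ x) ∨ (M.L5 x ∧ y = M.φ (M.φ x)) := by
  rcases hf with h3 | h5
  · obtain ⟨i, c0, -, hi⟩ := hV.2.1 h3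
    obtain ⟨-, h1, h2⟩ := hi c x y (M.Fc_self x) h
    left
    refine ⟨h3, ?_⟩
    rw [h2, ← h1]
  · right
    refine ⟨h5, ?_⟩
    obtain ⟨i, o, m, hFi, hi⟩ := hV.2.2.2 h5
    have h5i : M.L5 i := ((M.L_Fc hx (Or.inr (Or.inr (Or.inr h5))) hFi).2.2.2).1 h5
    rcases hi c x y (M.Fc_self x) h with ⟨-, h1, h2⟩ | ⟨-, h1, h2⟩ | ⟨-, h1, h2⟩
    · rw [h1, h2, h5i.2]
    · rw [h1, h2]
    · rw [h1, h2]

private theorem rR3_cross (M : Mp D) {R : Bool → D → D → Prop} {x y x' y' : D}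
    (hf : M.L3 x ∨ M.L5 x) (hV : M.VAt R x) (c : Bool) (h : R c x y) (hF : M.Fc x x')
    (h' : R c x' y') : x = x' ∨ x = y' ∨ y = x' ∨ y = y' := by
  rcases hf with h3 | h5
  · obtain ⟨i, c0, -, hi⟩ := hV.2.1 h3
    obtain ⟨-, h1, h2⟩ := hi c x y (M.Fc_self x) h
    obtain ⟨-, h3, h4⟩ := hi c x' y' hF h'
    exact Or.inl (h1.trans h3.symm)
  · obtain ⟨i, o, m, hFi, hi⟩ := hV.2.2.2 h5
    rcases hi c x y (M.Fc_self x) h with ⟨c1, h1, h2⟩ | ⟨c1, h1, h2⟩ | ⟨c1, h1, h2⟩ <;>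
    rcases hi c x' y' hF h' with ⟨c2, h3, h4⟩ | ⟨c2, h3, h4⟩ | ⟨c2, h3, h4⟩
    · exact Or.inl (h1.trans h3.symm)
    · rw [c1] at c2
      exact absurd c2 (by cases o <;> decide)
    · exact Or.inr (Or.inl (h1.trans h4.symm))
    · rw [c2] at c1
      exact absurd c1 (by cases o <;> decide)
    · exact Or.inl (h1.trans h3.symm)
    · exact Or.inr (Or.inr (Or.inl (h2.trans h3.symm)))
    · exact Or.inr (Or.inr (Or.inl (h2.trans h3.symm)))
    · exact Or.inr (Or.inl (h1.trans h4.symm))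
    · exact Or.inl (h1.trans h3.symm)

theorem red_R3 (M : Mp D) (hT : M.Tight) (ih : M.IH) (h4 : ∀ d ∈ M.S, ¬ M.L4 d) (r p : D)
    (hr : r ∈ M.S) (h3 : M.L3 r) (h3' : M.L3 (M.α r)) (hp : p = M.α (M.φ (M.φ r)))
    (h5 : M.L5 p) (hf1 : M.Free p (M.it p 3)) (hf2 : M.Free (M.it p 1) (M.it p 3)) :
    M.TC r := by
  classical
  -- membership
  have ht2 : M.φ r ∈ M.S := M.φS r hr
  have ht3 : M.φ (M.φ r) ∈ M.S := M.φS _ ht2
  have hpS : p ∈ M.S := by rw [hp]; exact M.αS _ ht3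
  have hokp : M.L2 p ∨ M.L3 p ∨ M.L4 p ∨ M.L5 p := Or.inr (Or.inr (Or.inr h5))
  have hokr : M.L2 r ∨ M.L3 r ∨ M.L4 r ∨ M.L5 r := Or.inr (Or.inl h3)
  have hr3 : M.φ (M.φ (M.φ r)) = r := h3.2
  have hp5 : M.φ (M.φ (M.φ (M.φ (M.φ p)))) = p := h5.2
  have hvS : ∀ i : Fin 5, M.it p i ∈ M.S := fun i => M.Fc_mem hpS (rR3_Fcit M p i)
  have hv5 : ∀ i : Fin 5, M.L5 (M.it p i) := fun i =>
    ((M.L_Fc hpS hokp (rR3_Fcit M p i)).2.2.2).1 h5
  -- the faces are disjoint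
  have hdis : ∀ x, M.Fc r x → M.Fc p x → False := by
    intro x h1 h2
    have k1 : M.L3 x := ((M.L_Fc hr hokr h1).2.1).1 h3
    have k2 : M.L5 x := ((M.L_Fc hpS hokp h2).2.2.2).1 h5
    exact ((M.excl x).2.1 k1).2 k2
  -- vertices
  have hVpr : M.V p r := by
    have h1 := M.V_αφ ht3
    rw [← hp, hr3] at h1
    exact h1
  have hαp : M.α p = M.φ (M.φ r) := by
    rw [hp, M.αα _ ht3]
  have hVt3 : M.V (M.φ (M.φ r)) (M.it p 1) := by
    have h1 := M.V_αφ hpS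
    rw [hαp] at h1
    exact h1
  obtain ⟨M', hPcl, hS, hφ, hφ3, hφ4, hRed, hcov⟩ := mapR3 M hT r p hr h3 hp h5 hf1 hf2
  obtain ⟨cfg, hcfg⟩ : ∃ cfg : D → Prop, ∀ d, cfg d ↔ (M.Fc r d ∨ M.Fc p d) :=
    ⟨_, fun _ => Iff.rfl⟩
  -- the darts of `M'` in the configuration
  have hin : ∀ d ∈ M'.S, cfg d → d = M.it p 3 ∨ d = M.it p 4 := by
    intro d hd hc
    obtain ⟨hdS, k1, k2, k3, k4, k5, k6⟩ := (hS d).1 hd
    rcases (hcfg d).1 hc with h | h
    · exfalso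
      rcases h with h | h | h | h | h
      · exact k1 h
      · exact k2 h
      · exact k3 h
      · exact k1 (h.trans hr3)
      · rw [hr3] at h
        exact k2 h
    · rcases h with h | h | h | h | h
      · exact absurd h k4
      · exact absurd h k5
      · exact absurd h k6
      · exact Or.inl h
      · exact Or.inr h
  have h34 : M.it p 3 ≠ M.it p 4 := by
    intro h
    have h1 := M.L5_inj hpS h5 3 4 h
    exact absurd h1 (by decide)
  have hL2 : ∀ d ∈ M'.S, cfg d → M'.L2 d := by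
    intro d hd hc
    rcases hin d hd hc with h | h
    · rw [h]
      refine ⟨?_, ?_⟩
      · rw [hφ3]
        exact h34.symm
      · rw [hφ3, hφ4]
    · rw [h]
      refine ⟨?_, ?_⟩
      · rw [hφ4]
        exact h34
      · rw [hφ4, hφ3]
  have hA : M.Agree M' cfg := by
    refine ⟨?_, ?_⟩
    · intro d hd
      rw [hcfg, hcfg, ← M.Fc_φ hr hokr hd, ← M.Fc_φ hpS hokp hd]
    · intro d hd hc
      rw [hcfg, not_or] at hc
      obtain ⟨c1, c2⟩ := hc
      refine ⟨(hS d).2 ⟨hd, ?_, ?_, ?_, ?_, ?_, ?_⟩, hφ d hd c1 c2⟩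
      · exact fun h => c1 (Or.inl h)
      · exact fun h => c1 (Or.inr (Or.inl h))
      · exact fun h => c1 (Or.inr (Or.inr (Or.inl h)))
      · exact fun h => c2 (Or.inl h)
      · exact fun h => c2 (Or.inr (Or.inl h))
      · exact fun h => c2 (Or.inr (Or.inr (Or.inl h)))
  have hOk : M'.Ok := ⟨hPcl.planar, hPcl.conn, hPcl.loopless,
    agree_face M M' cfg hA hT.ok.face hRed.sub (fun d hd hc => Or.inl (hL2 d hd hc))⟩
  have hcard : M'.S.card < M.S.card := by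
    refine Finset.card_lt_card ⟨hRed.sub, fun h => ?_⟩
    exact ((hS r).1 (h hr)).2.1 rfl
  -- the other dart of the root edge
  have hαr : M.α r ∈ M'.S := by
    have n5 : ∀ i : Fin 5, M.α r ≠ M.it p i := by
      intro i h
      have k1 := hv5 i
      rw [← h] at k1
      exact ((M.excl _).2.1 h3').2 k1
    refine (hS _).2 ⟨M.αS r hr, M.αne r hr, ?_, ?_, n5 0, n5 1, n5 2⟩
    · intro h
      have k1 : M.V (M.α (M.φ r)) (M.φ (M.φ r)) := M.V_αφ ht2
      rw [← h, M.αα r hr] at k1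
      have k2 : M.V r (M.φ (M.φ r)) := by
        rw [← h]
        exact k1
      refine hT.ok.loopless _ ht3 ?_
      rw [← hp]
      exact M.V_trans (M.V_symm k2) (M.V_symm hVpr)
    · intro h
      have k1 : p = r := by rw [hp, ← h, M.αα r hr]
      rw [k1] at h5
      exact ((M.excl _).2.1 h3).2 h5
  obtain ⟨R', hV', hTot⟩ := ih M' hcard hOk (M.α r) hαr
  -- no pair of `R'` in the configuration
  have hno : ∀ c x y, R' c x y → x ∈ M.S ∧ ¬ cfg x := by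
    intro c x y h
    have hx := hV'.1 c x y h
    refine ⟨hRed.sub hx, fun hc => ?_⟩
    exact (hV'.2 x hx).1 (hL2 x hx hc) c x y (M'.Fc_self x) h
  obtain ⟨Q, hQd⟩ : ∃ Q : D → D → Prop, ∀ x y, Q x y ↔
      ((x = r ∧ y = M.it p 1) ∨ (x = M.it p 1 ∧ y = M.it p 3)) ∨ (x = M.α r ∧ y = r) :=
    ⟨_, fun _ _ => Iff.rfl⟩
  have hcov' : ∀ x ∈ M.S, ∃ y ∈ M'.S, M.Lnk Q x y := by
    intro x hx
    obtain ⟨y, hy, hxy⟩ := hcov x hx
    exact ⟨y, hy, rR3_mono M (fun a b hab => (hQd a b).2 (Or.inl hab)) hxy⟩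
  have hsch := scheme M M'.S cfg Q r R'
    (by
      intro c x hx y hy
      have h1 := red_use hRed (R' c) (M.α r) hαr (hTot c x hx y hy)
      refine rR3_mono M ?_ h1
      intro a b hab
      rcases hab with (hab | hab) | ⟨h2, h3⟩
      · exact Or.inl hab
      · exact Or.inr ((hQd a b).2 (Or.inl hab))
      · rw [M.αα r hr] at h3
        exact Or.inr ((hQd a b).2 (Or.inr ⟨h2, h3⟩)))
    (fun i : Fin 5 => M.it p i)
    (fun _ a b => (a = 0 ∧ b = 1) ∨ (a = 1 ∧ b = 3)) (fun _ => True)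
    (by
      intro c x y hxy
      rcases (hQd x y).1 hxy with (⟨hx, hy⟩ | ⟨hx, hy⟩) | ⟨hx, hy⟩
      · have k1 : M.Lnk (outL M R' cfg r c) r (M.it p ((0 : Fin 5) : ℕ)) :=
          M.V_Lnk (M.V_symm hVpr)
        rw [hx, hy]
        exact Relation.EqvGen.trans _ _ _ (Relation.EqvGen.rel _ _ (Or.inl k1))
          (Relation.EqvGen.rel _ _ (Or.inr ⟨0, 1, Or.inl ⟨rfl, rfl⟩, rfl, rfl⟩))
      · rw [hx, hy]
        exact Relation.EqvGen.rel _ _ (Or.inr ⟨1, 3, Or.inr ⟨rfl, rfl⟩, rfl, rfl⟩)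
      · have k1 : M.Lnk (outL M R' cfg r c) (M.α r) r :=
          M.Lnk_symm (M.Lnk_of (Or.inr ⟨rfl, rfl⟩))
        rw [hx, hy]
        exact Relation.EqvGen.rel _ _ (Or.inl k1))
    (by
      intro c x y hxy h
      obtain ⟨k1, k2⟩ := hno c x y hxy
      rcases h with h | h
      · exact absurd k1 h
      · exact absurd h k2)
    (fun x hx => Or.inl (hcov' x hx))
    (fun i _ => hcov' _ (hvS i)) ⟨0, trivial⟩
  obtain ⟨hFin, hfinal⟩ := hsch
  rcases finR3 (fun c i j => M.Lnk (outL M R' cfg r c) (M.it p (i : Fin 5)) (M.it p (j : Fin 5)))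
    (fun c => ⟨fun a => M.Lnk_refl _ _, fun h => M.Lnk_symm h, fun h h' => M.Lnk_trans h h'⟩)
    hFin with ⟨i, o, m, cT, hN⟩ | ⟨e02, e14, e01⟩
  · -- first case
    obtain ⟨N', hN'd⟩ : ∃ N' : Bool → D → D → Prop, ∀ c x y, N' c x y ↔
        (∃ a b : Fin 5, pst i o m c a b ∧ x = M.it p a ∧ y = M.it p b) ∨
          (c = cT ∧ x = M.φ (M.φ r) ∧ y = r) := ⟨_, fun _ _ _ => Iff.rfl⟩
    have hTC := hfinal (fun c a b => pst i o m c a b ∨ (c = cT ∧ a = 0 ∧ b = 1)) N' hN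
      (by
        intro c a b hab
        rcases hab with hab | ⟨hc, ha, hb⟩
        · exact M.Lnk_of (Or.inr ((hN'd _ _ _).2 (Or.inl ⟨a, b, hab, rfl, rfl⟩)))
        · rw [ha, hb]
          have k1 : M.Lnk (fun x y => outL M R' cfg r c x y ∨ N' c x y)
              (M.it p ((0 : Fin 5) : ℕ)) r := M.V_Lnk hVpr
          have k2 : M.Lnk (fun x y => outL M R' cfg r c x y ∨ N' c x y) r (M.φ (M.φ r)) :=
            M.Lnk_symm (M.Lnk_of (Or.inr ((hN'd _ _ _).2 (Or.inr ⟨hc, rfl, rfl⟩))))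
          have k3 : M.Lnk (fun x y => outL M R' cfg r c x y ∨ N' c x y) (M.φ (M.φ r))
              (M.it p ((1 : Fin 5) : ℕ)) := M.V_Lnk hVt3
          exact M.Lnk_trans k1 (M.Lnk_trans k2 k3))
    refine scheme_TC M M' cfg hA r R' N' hV' ?_ ?_ hTC
    · intro c x y h
      rcases (hN'd _ _ _).1 h with ⟨a, b, -, hx, -⟩ | ⟨-, hx, -⟩
      · rw [hx]
        exact ⟨hvS a, (hcfg _).2 (Or.inr (rR3_Fcit M p a))⟩
      · rw [hx]
        exact ⟨ht3, (hcfg _).2 (Or.inl (Or.inr (Or.inr (Or.inl rfl))))⟩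
    · intro d hd hc
      rcases (hcfg d).1 hc with h | h
      · refine M.VAt_Fc N' hr hokr h ?_
        refine M.VAt_tri N' h3 (M.φ (M.φ r)) (Or.inr (Or.inr (Or.inl rfl))) cT ?_
        intro c' x y hx hxy
        rcases (hN'd _ _ _).1 hxy with ⟨a, b, -, hxa, -⟩ | ⟨k1, k2, k3⟩
        · exfalso
          refine hdis x hx ?_
          rw [hxa]
          exact rR3_Fcit M p a
        · refine ⟨k1, k2, ?_⟩
          rw [k3, hr3]
      · refine M.VAt_Fc N' hpS hokp h ?_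
        refine M.VAt_pst N' hpS h5 i o m ?_
        intro c x y hx hxy
        rcases (hN'd _ _ _).1 hxy with h1 | ⟨-, k2, -⟩
        · exact h1
        · exfalso
          refine hdis x ?_ hx
          rw [k2]
          exact Or.inr (Or.inr (Or.inl rfl))
  · -- second case
    exfalso
    have hVM : ∀ x ∈ M.S, ¬ cfg x → M.VAt R' x := by
      intro x hx hc
      exact agree_VAt M M' cfg hA x hx hc R' R' (fun _ _ _ _ h => h) (hV'.2 x (hA.out x hx hc).1)
    have hf35 : ∀ x ∈ M.S, M.L3 x ∨ M.L5 x := by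
      intro x hx
      rcases hT.ok.face x hx with h | h | h | h
      · exact absurd h (hT.noL2 x hx)
      · exact Or.inl h
      · exact absurd h (h4 x hx)
      · exact Or.inr h
    refine ncj M hT.ok.planar r p hr h3 hp h5
      (fun x y => R' true x y ∧ x ∈ M.S ∧ ¬ cfg x) ?_ ?_ ?_ e02 e14 e01
    · rintro x y ⟨-, hx, hc⟩
      rw [hcfg, not_or] at hc
      exact ⟨hx, hc.1, hc.2⟩
    · rintro x y ⟨h, hx, hc⟩
      exact rR3_pair M hx (hf35 x hx) (hVM x hx hc) true h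
    · rintro x y x' y' ⟨h, hx, hc⟩ ⟨h', -, -⟩ hF
      exact rR3_cross M (hf35 x hx) (hVM x hx hc) true h hF h'

end Mp
end TwoPlane
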