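import Pool.Agent.Work.MP_3b7449_co.TP.MapR5b
import Pool.Agent.Work.MP_3b7449_co.TP.Scheme
import Pool.Agent.Work.MP_3b7449_co.TP.FinR5b

/-!
# RedR5b (size L): the root triangle next to a pentagon, vertex of `p2` of degree 2

`T = (r, t2, t3)`, `p = α t3`, `v i = it p i`, `F = (α (v 2), α (v 1), e)`, `e = φ (α (v 1))`,
`φ e = α (v 2)`; `mapR5b` gives `M'`.  `cfg d := Fc r d ∨ Fc p d ∨ Fc (α (v 1)) d`; `Agree`; in `M'`
the triangle `e, v 3, v 4`; `Ok`; fewer darts.  `α r ∈ M'.S`: not in `Fc r`, `Fc p`,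
`α r ≠ α (v 1), α (v 2)`.  Vertices: `V r (v 0)`, `V t3 (v 1)`, `V e (v 1)` (`e = σ (v 1)`),
`V (α (v 1)) (v 2)`, `V (α (v 2)) (v 3)`.
`ih` for `α r` gives `R'`; in the triangle at most one pair, colour `c0`: `(e, v 3)`,
`(v 3, v 4)`, `(v 4, e)`, that is the link `(p', q') = (1, 3), (3, 4), (4, 1)`.
`scheme`: `Q x y := (x = r ∧ y = v 1) ∨ (x = α r ∧ y = r)`,
`L c i j := (i = 0 ∧ j = 1) ∨ (c = c0 ∧ i = p' ∧ j = q')`, `J i := i ≠ 2`; covering from `mapR5b`,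
the darts `v 2`, `α (v 1)` are at the vertex of `v 2`.
`finR5b` gives `i o m cT cF s t`;
`N' c x y := (∃ a b, pst i o m c a b ∧ x = v a ∧ y = v b) ∨ (c = cT ∧ x = t3 ∧ y = r) ∨
(c = cF ∧ x = x0 ∧ y = y0)` with `(x0, y0) = (α (v 2), α (v 1))` for `(s, t) = (3, 2)`,
`(α (v 1), e)` for `(2, 1)`, `(e, α (v 2))` for `(1, 3)`.  `VAt_pst`, `VAt_tri`, `VAt_tri`;
`scheme_TC`.
-/

namespace TwoPlane
namespace Mp

variable {D : Type} [DecidableEq D]

private theorem rR5b_mono (M : Mp D) {L L' : D → D → Prop} (h : ∀ x y, L x y → L' x y)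
    {x y : D} (hL : M.Lnk L x y) : M.Lnk L' x y :=
  M.Lnk_le (M.Lnk_equiv L') (fun _ ha => M.V_Lnk (M.V_σ ha))
    (fun a b hab => M.Lnk_of (h a b hab)) hL

private theorem rR5b_Fcit (M : Mp D) (d : D) (i : Fin 5) : M.Fc d (M.it d i) := by
  fin_cases i
  · exact Or.inl rfl
  · exact Or.inr (Or.inl rfl)
  · exact Or.inr (Or.inr (Or.inl rfl))
  · exact Or.inr (Or.inr (Or.inr (Or.inl rfl)))
  · exact Or.inr (Or.inr (Or.inr (Or.inr rfl)))

/-- different faces are disjoint -/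
private theorem rR5b_dis (M : Mp D) {a b x : D} (ha : a ∈ M.S) (hb : b ∈ M.S)
    (hfa : M.L2 a ∨ M.L3 a ∨ M.L4 a ∨ M.L5 a) (hfb : M.L2 b ∨ M.L3 b ∨ M.L4 b ∨ M.L5 b)
    (hab : ¬ M.Fc a b) (h1 : M.Fc a x) (h2 : M.Fc b x) : False :=
  hab ((M.Fc_iff ha hfa h1 b).2 ((M.Fc_iff hb hfb h2 b).1 (M.Fc_self b)))

theorem red_R5b (M : Mp D) (hT : M.Tight) (ih : M.IH) (r p : D) (hr : r ∈ M.S)
    (h3 : M.L3 r) (h3' : M.L3 (M.α r)) (hp : p = M.α (M.φ (M.φ r))) (h5 : M.L5 p)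
    (hF1 : M.φ (M.α (M.it p 2)) = M.α (M.it p 1))
    (hF2 : M.φ (M.φ (M.α (M.it p 1))) = M.α (M.it p 2))
    (hTF : ¬ M.Fc r (M.α (M.it p 1))) : M.TC r := by
  classical
  -- membership
  have ht2 : M.φ r ∈ M.S := M.φS r hr
  have ht3 : M.φ (M.φ r) ∈ M.S := M.φS _ ht2
  have hpS : p ∈ M.S := by rw [hp]; exact M.αS _ ht3
  have hokp : M.L2 p ∨ M.L3 p ∨ M.L4 p ∨ M.L5 p := Or.inr (Or.inr (Or.inr h5))
  have hokr : M.L2 r ∨ M.L3 r ∨ M.L4 r ∨ M.L5 r := Or.inr (Or.inl h3)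
  have hr3 : M.φ (M.φ (M.φ r)) = r := h3.2
  have hvS : ∀ i : Fin 5, M.it p i ∈ M.S := fun i => M.Fc_mem hpS (rR5b_Fcit M p i)
  have hv5 : ∀ i : Fin 5, M.L5 (M.it p i) := fun i =>
    ((M.L_Fc hpS hokp (rR5b_Fcit M p i)).2.2.2).1 h5
  have hne : ∀ i j : Fin 5, i ≠ j → M.it p i ≠ M.it p j := fun i j hij h =>
    hij (M.L5_inj hpS h5 i j h)
  -- the third face
  obtain ⟨a, ha⟩ : ∃ a, a = M.α (M.it p 1) := ⟨_, rfl⟩
  obtain ⟨e, he⟩ : ∃ e, e = M.φ a := ⟨_, rfl⟩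
  rw [← ha] at hF1 hF2 hTF
  have haS : a ∈ M.S := by rw [ha]; exact M.αS _ (hvS 1)
  have heS : e ∈ M.S := by rw [he]; exact M.φS _ haS
  have hfe : M.φ e = M.α (M.it p 2) := by rw [he, hF2]
  have ha3 : M.L3 a := by
    refine ⟨fun h => ?_, by rw [hF2, hF1]⟩
    rw [h, h] at hF2
    refine hne 1 2 (by decide) ?_
    have k : M.α (M.α (M.it p 1)) = M.α (M.α (M.it p 2)) := by rw [← ha, hF2]
    exact ((M.αα _ (hvS 1)).symm.trans k).trans (M.αα _ (hvS 2))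
  have hoka : M.L2 a ∨ M.L3 a ∨ M.L4 a ∨ M.L5 a := Or.inr (Or.inl ha3)
  have hFae : M.Fc a e := Or.inr (Or.inl he)
  have hFaα : M.Fc a (M.α (M.it p 2)) := Or.inr (Or.inr (Or.inl hF2.symm))
  -- the faces are disjoint
  have hdis : ∀ x, M.Fc r x → M.Fc p x → False := by
    intro x h1 h2
    have k1 : M.L3 x := ((M.L_Fc hr hokr h1).2.1).1 h3
    have k2 : M.L5 x := ((M.L_Fc hpS hokp h2).2.2.2).1 h5
    exact ((M.excl x).2.1 k1).2 k2
  have hdis2 : ∀ x, M.Fc a x → M.Fc p x → False := by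
    intro x h1 h2
    have k1 : M.L3 x := ((M.L_Fc haS hoka h1).2.1).1 ha3
    have k2 : M.L5 x := ((M.L_Fc hpS hokp h2).2.2.2).1 h5
    exact ((M.excl x).2.1 k1).2 k2
  have hdis3 : ∀ x, M.Fc r x → M.Fc a x → False := fun x h1 h2 =>
    rR5b_dis M hr haS hokr hoka hTF h1 h2
  -- vertices
  have hVpr : M.V p r := by
    have h1 := M.V_αφ ht3
    rw [← hp, hr3] at h1
    exact h1
  have hαp : M.α p = M.φ (M.φ r) := by
    rw [hp, M.αα _ ht3]
  have hVt3 : M.V (M.φ (M.φ r)) (M.it p 1) := by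
    have h1 := M.V_αφ hpS
    rw [hαp] at h1
    exact h1
  have hVe : M.V e (M.it p 1) := by
    have h1 := M.V_σ (hvS 1)
    have h2 : M.σ (M.it p ((1 : Fin 5) : ℕ)) = e := by
      rw [he, ha]
      rfl
    rw [h2] at h1
    exact M.V_symm h1
  have hVa : M.V a (M.it p 2) := by
    rw [ha]
    exact M.V_αφ (hvS 1)
  have hVα : M.V (M.α (M.it p 2)) (M.it p 3) := M.V_αφ (hvS 2)
  obtain ⟨M', hPcl, hS, hφ, hφe, hφ3, hφ4, hRed, hcov⟩ := mapR5b M hT r p hr h3 hp h5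
    (by rw [← ha]; exact hF1) (by rw [← ha]; exact hF2) (by rw [← ha]; exact hTF)
  rw [← ha] at hφ hφe hφ4 hcov
  rw [← he] at hφe hφ4
  simp only [← ha] at hS
  obtain ⟨cfg, hcfg⟩ : ∃ cfg : D → Prop, ∀ d, cfg d ↔ (M.Fc r d ∨ M.Fc p d ∨ M.Fc a d) :=
    ⟨_, fun _ => Iff.rfl⟩
  -- the darts of `M'` in the configuration
  have hin : ∀ d ∈ M'.S, cfg d → d = e ∨ d = M.it p 3 ∨ d = M.it p 4 := by
    intro d hd hc
    obtain ⟨hdS, k1, k2, k3, k4, k5, k6, k7, k8⟩ := (hS d).1 hd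
    rcases (hcfg d).1 hc with h | h | h
    · exfalso
      rcases h with h | h | h | h | h
      · exact k1 h
      · exact k2 h
      · exact k3 h
      · exact k1 (h.trans hr3)
      · rw [hr3] at h
        exact k2 h
    · rcases h with h | h | h | h | h
      · exact absurd h k4
      · exact absurd h k5
      · exact absurd h k6
      · exact Or.inr (Or.inl h)
      · exact Or.inr (Or.inr h)
    · have h33 := ha3.2
      rcases h with h | h | h | h | h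
      · exact absurd h k7
      · exact Or.inl (h.trans he.symm)
      · exact absurd (h.trans hF2) k8
      · exact absurd (h.trans h33) k7
      · rw [h33] at h
        exact Or.inl (h.trans he.symm)
  have h34 : M.it p 3 ≠ M.it p 4 := hne 3 4 (by decide)
  have he3 : e ≠ M.it p 3 := by
    intro h
    refine hdis2 e hFae ?_
    rw [h]
    exact rR5b_Fcit M p 3
  have he4 : e ≠ M.it p 4 := by
    intro h
    refine hdis2 e hFae ?_
    rw [h]
    exact rR5b_Fcit M p 4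
  have hL3 : ∀ d ∈ M'.S, cfg d → M'.L3 d := by
    intro d hd hc
    rcases hin d hd hc with h | h | h
    · rw [h]
      refine ⟨?_, ?_⟩
      · rw [hφe]
        exact he3.symm
      · rw [hφe, hφ3, hφ4]
    · rw [h]
      refine ⟨?_, ?_⟩
      · rw [hφ3]
        exact h34.symm
      · rw [hφ3, hφ4, hφe]
    · rw [h]
      refine ⟨?_, ?_⟩
      · rw [hφ4]
        exact he4
      · rw [hφ4, hφe, hφ3]
  have hA : M.Agree M' cfg := by
    refine ⟨?_, ?_⟩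
    · intro d hd
      rw [hcfg, hcfg, ← M.Fc_φ hr hokr hd, ← M.Fc_φ hpS hokp hd, ← M.Fc_φ haS hoka hd]
    · intro d hd hc
      rw [hcfg, not_or, not_or] at hc
      obtain ⟨c1, c2, c3⟩ := hc
      refine ⟨(hS d).2 ⟨hd, ?_, ?_, ?_, ?_, ?_, ?_, ?_, ?_⟩, hφ d hd c1 c2 c3⟩
      · exact fun h => c1 (Or.inl h)
      · exact fun h => c1 (Or.inr (Or.inl h))
      · exact fun h => c1 (Or.inr (Or.inr (Or.inl h)))
      · exact fun h => c2 (Or.inl h)
      · exact fun h => c2 (Or.inr (Or.inl h))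
      · exact fun h => c2 (Or.inr (Or.inr (Or.inl h)))
      · exact fun h => c3 (Or.inl h)
      · exact fun h => c3 (h ▸ hFaα)
  have hOk : M'.Ok := ⟨hPcl.planar, hPcl.conn, hPcl.loopless,
    agree_face M M' cfg hA hT.ok.face hRed.sub
      (fun d hd hc => Or.inr (Or.inl (hL3 d hd hc)))⟩
  have hcard : M'.S.card < M.S.card := by
    refine Finset.card_lt_card ⟨hRed.sub, fun h => ?_⟩
    exact ((hS r).1 (h hr)).2.1 rfl
  -- the other dart of the root edge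
  have hαr : M.α r ∈ M'.S := by
    have n5 : ∀ i : Fin 5, M.α r ≠ M.it p i := by
      intro i h
      have k1 := hv5 i
      rw [← h] at k1
      exact ((M.excl _).2.1 h3').2 k1
    have n6 : ∀ i : Fin 5, M.α r ≠ M.α (M.it p i) := by
      intro i h
      have k : M.α (M.α r) = M.α (M.α (M.it p i)) := by rw [h]
      rw [M.αα r hr, M.αα _ (hvS i)] at k
      have k1 := hv5 i
      rw [← k] at k1
      exact ((M.excl _).2.1 h3).2 k1
    refine (hS _).2 ⟨M.αS r hr, M.αne r hr, ?_, ?_, n5 0, n5 1, n5 2, ?_, n6 2⟩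
    · intro h
      have k1 : M.V (M.α (M.φ r)) (M.φ (M.φ r)) := M.V_αφ ht2
      rw [← h, M.αα r hr] at k1
      have k2 : M.V r (M.φ (M.φ r)) := by
        rw [← h]
        exact k1
      refine hT.ok.loopless _ ht3 ?_
      rw [← hp]
      exact M.V_trans (M.V_symm k2) (M.V_symm hVpr)
    · intro h
      have k1 : p = r := by rw [hp, ← h, M.αα r hr]
      rw [k1] at h5
      exact ((M.excl _).2.1 h3).2 h5
    · rw [ha]
      exact n6 1
  obtain ⟨R', hV', hTot⟩ := ih M' hcard hOk (M.α r) hαr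
  -- the darts `e`, `v 3`, `v 4` are in `M'`
  have heS' : e ∈ M'.S := by
    refine (hS e).2 ⟨heS, ?_, ?_, ?_, ?_, ?_, ?_, ?_, ?_⟩
    · exact fun h => hdis3 e (Or.inl h) hFae
    · exact fun h => hdis3 e (Or.inr (Or.inl h)) hFae
    · exact fun h => hdis3 e (Or.inr (Or.inr (Or.inl h))) hFae
    · exact fun h => hdis2 e hFae (Or.inl h)
    · exact fun h => hdis2 e hFae (Or.inr (Or.inl h))
    · exact fun h => hdis2 e hFae (Or.inr (Or.inr (Or.inl h)))
    · intro h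
      rw [he] at h
      exact ha3.1 h
    · intro h
      have k : M.φ e = M.φ (M.φ (M.φ a)) := by rw [h, ← hF2]
      rw [ha3.2, hfe, ← h] at k
      rw [he] at k
      exact ha3.1 k
  have hce : cfg e := (hcfg e).2 (Or.inr (Or.inr hFae))
  -- the pair of `R'` in the configuration
  obtain ⟨c0, p', q', hpq, hpair⟩ : ∃ (c0 : Bool) (p' q' : Fin 5),
      ((p' = 1 ∧ q' = 3) ∨ (p' = 3 ∧ q' = 4) ∨ (p' = 4 ∧ q' = 1)) ∧
      ∀ c x y, R' c x y → cfg x → c = c0 ∧ M.V x (M.it p p') ∧ M.V y (M.it p q') := by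
    obtain ⟨i, c0, hFi, hi⟩ := (hV'.2 e heS').2.1 (hL3 e heS' hce)
    have hFc : ∀ x ∈ M'.S, cfg x → M'.Fc e x := by
      intro x hx hc
      rcases hin x hx hc with h | h | h
      · exact Or.inl h
      · exact Or.inr (Or.inl (h.trans hφe.symm))
      · refine Or.inr (Or.inr (Or.inl ?_))
        rw [hφe, hφ3]
        exact h
    have hcase : i = e ∨ i = M.it p 3 ∨ i = M.it p 4 := by
      rcases hFi with h | h | h | h | h
      · exact Or.inl h
      · exact Or.inr (Or.inl (h.trans hφe))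
      · rw [hφe, hφ3] at h
        exact Or.inr (Or.inr h)
      · rw [hφe, hφ3, hφ4] at h
        exact Or.inl h
      · rw [hφe, hφ3, hφ4, hφe] at h
        exact Or.inr (Or.inl h)
    rcases hcase with h | h | h
    · refine ⟨c0, 1, 3, Or.inl ⟨rfl, rfl⟩, ?_⟩
      intro c x y hxy hc
      obtain ⟨k1, k2, k3⟩ := hi c x y (hFc x (hV'.1 c x y hxy) hc) hxy
      rw [h] at k2 k3
      rw [hφe] at k3
      rw [k2, k3]
      exact ⟨k1, hVe, M.V_refl _⟩
    · refine ⟨c0, 3, 4, Or.inr (Or.inl ⟨rfl, rfl⟩), ?_⟩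
      intro c x y hxy hc
      obtain ⟨k1, k2, k3⟩ := hi c x y (hFc x (hV'.1 c x y hxy) hc) hxy
      rw [h] at k2 k3
      rw [hφ3] at k3
      rw [k2, k3]
      exact ⟨k1, M.V_refl _, M.V_refl _⟩
    · refine ⟨c0, 4, 1, Or.inr (Or.inr ⟨rfl, rfl⟩), ?_⟩
      intro c x y hxy hc
      obtain ⟨k1, k2, k3⟩ := hi c x y (hFc x (hV'.1 c x y hxy) hc) hxy
      rw [h] at k2 k3
      rw [hφ4] at k3
      rw [k2, k3]
      exact ⟨k1, M.V_refl _, hVe⟩
  obtain ⟨Q, hQd⟩ : ∃ Q : D → D → Prop, ∀ x y, Q x y ↔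
      (x = r ∧ y = M.it p 1) ∨ (x = M.α r ∧ y = r) := ⟨_, fun _ _ => Iff.rfl⟩
  have hcov' : ∀ x ∈ M.S, x ≠ M.it p 2 → x ≠ a → ∃ y ∈ M'.S, M.Lnk Q x y := by
    intro x hx h1 h2
    obtain ⟨y, hy, hxy⟩ := hcov x hx h1 h2
    exact ⟨y, hy, rR5b_mono M (fun a b hab => (hQd a b).2 (Or.inl hab)) hxy⟩
  have hsch := scheme M M'.S cfg Q r R'
    (by
      intro c x hx y hy
      have h1 := red_use hRed (R' c) (M.α r) hαr (hTot c x hx y hy)
      refine rR5b_mono M ?_ h1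
      intro a b hab
      rcases hab with (hab | hab) | ⟨h2, h3⟩
      · exact Or.inl hab
      · exact Or.inr ((hQd a b).2 (Or.inl hab))
      · rw [M.αα r hr] at h3
        exact Or.inr ((hQd a b).2 (Or.inr ⟨h2, h3⟩)))
    (fun i : Fin 5 => M.it p i)
    (fun c a b => (a = 0 ∧ b = 1) ∨ (c = c0 ∧ a = p' ∧ b = q')) (fun i => i ≠ 2)
    (by
      intro c x y hxy
      rcases (hQd x y).1 hxy with ⟨hx, hy⟩ | ⟨hx, hy⟩
      · have k1 : M.Lnk (outL M R' cfg r c) r (M.it p ((0 : Fin 5) : ℕ)) :=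
          M.V_Lnk (M.V_symm hVpr)
        rw [hx, hy]
        exact Relation.EqvGen.trans _ _ _ (Relation.EqvGen.rel _ _ (Or.inl k1))
          (Relation.EqvGen.rel _ _ (Or.inr ⟨0, 1, Or.inl ⟨rfl, rfl⟩, rfl, rfl⟩))
      · have k1 : M.Lnk (outL M R' cfg r c) (M.α r) r :=
          M.Lnk_symm (M.Lnk_of (Or.inr ⟨rfl, rfl⟩))
        rw [hx, hy]
        exact Relation.EqvGen.rel _ _ (Or.inl k1))
    (by
      intro c x y hxy h
      have hc : cfg x := by
        rcases h with h | h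
        · exact absurd (hRed.sub (hV'.1 c x y hxy)) h
        · exact h
      obtain ⟨k1, k2, k3⟩ := hpair c x y hxy hc
      have k4 : M.Lnk (outL M R' cfg r c) x (M.it p (p' : Fin 5)) := M.V_Lnk k2
      have k5 : M.Lnk (outL M R' cfg r c) (M.it p (q' : Fin 5)) y := M.V_Lnk (M.V_symm k3)
      exact Relation.EqvGen.trans _ _ _ (Relation.EqvGen.rel _ _ (Or.inl k4))
        (Relation.EqvGen.trans _ _ _
          (Relation.EqvGen.rel _ _ (Or.inr ⟨p', q', Or.inr ⟨k1, rfl, rfl⟩, rfl, rfl⟩))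
          (Relation.EqvGen.rel _ _ (Or.inl k5))))
    (by
      intro x hx
      by_cases h1 : x = M.it p 2
      · right
        refine ⟨2, ?_⟩
        rw [h1]
        exact M.V_refl _
      · by_cases h2 : x = a
        · right
          refine ⟨2, ?_⟩
          rw [h2]
          exact hVa
        · exact Or.inl (hcov' x hx h1 h2))
    (by
      intro i hi
      refine hcov' _ (hvS i) (hne i 2 hi) ?_
      intro h
      refine hdis2 a (M.Fc_self a) ?_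
      rw [← h]
      exact rR5b_Fcit M p i)
    ⟨0, by decide⟩
  obtain ⟨hFin, hfinal⟩ := hsch
  obtain ⟨i, o, m, cT, cF, s, t, hst, hN⟩ := finR5b
    (fun c i j => M.Lnk (outL M R' cfg r c) (M.it p (i : Fin 5)) (M.it p (j : Fin 5)))
    (fun c => ⟨fun a => M.Lnk_refl _ _, fun h => M.Lnk_symm h, fun h h' => M.Lnk_trans h h'⟩)
    c0 p' q' hpq hFin
  obtain ⟨x0, hx0, hVs, hVt⟩ : ∃ x0, M.Fc a x0 ∧ M.V (M.it p (s : Fin 5)) x0 ∧
      M.V (M.φ x0) (M.it p (t : Fin 5)) := by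
    rcases hst with ⟨h1, h2⟩ | ⟨h1, h2⟩ | ⟨h1, h2⟩
    · refine ⟨M.α (M.it p 2), hFaα, ?_, ?_⟩
      · rw [h1]
        exact M.V_symm hVα
      · rw [h2, hF1]
        exact hVa
    · refine ⟨a, M.Fc_self a, ?_, ?_⟩
      · rw [h1]
        exact M.V_symm hVa
      · rw [h2, ← he]
        exact hVe
    · refine ⟨e, hFae, ?_, ?_⟩
      · rw [h1]
        exact M.V_symm hVe
      · rw [h2, hfe]
        exact hVα
  obtain ⟨N', hN'd⟩ : ∃ N' : Bool → D → D → Prop, ∀ c x y, N' c x y ↔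
      (∃ a b : Fin 5, pst i o m c a b ∧ x = M.it p a ∧ y = M.it p b) ∨
        (c = cT ∧ x = M.φ (M.φ r) ∧ y = r) ∨ (c = cF ∧ x = x0 ∧ y = M.φ x0) :=
    ⟨_, fun _ _ _ => Iff.rfl⟩
  have hTC := hfinal (fun c a b => pst i o m c a b ∨ (c = cT ∧ a = 0 ∧ b = 1) ∨
      (c = cF ∧ a = s ∧ b = t)) N' hN
    (by
      intro c a b hab
      rcases hab with hab | ⟨hc, ha, hb⟩ | ⟨hc, ha, hb⟩
      · exact M.Lnk_of (Or.inr ((hN'd _ _ _).2 (Or.inl ⟨a, b, hab, rfl, rfl⟩)))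
      · rw [ha, hb]
        have k1 : M.Lnk (fun x y => outL M R' cfg r c x y ∨ N' c x y)
            (M.it p ((0 : Fin 5) : ℕ)) r := M.V_Lnk hVpr
        have k2 : M.Lnk (fun x y => outL M R' cfg r c x y ∨ N' c x y) r (M.φ (M.φ r)) :=
          M.Lnk_symm (M.Lnk_of (Or.inr ((hN'd _ _ _).2 (Or.inr (Or.inl ⟨hc, rfl, rfl⟩)))))
        have k3 : M.Lnk (fun x y => outL M R' cfg r c x y ∨ N' c x y) (M.φ (M.φ r))
            (M.it p ((1 : Fin 5) : ℕ)) := M.V_Lnk hVt3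
        exact M.Lnk_trans k1 (M.Lnk_trans k2 k3)
      · rw [ha, hb]
        have k2 : M.Lnk (fun x y => outL M R' cfg r c x y ∨ N' c x y) x0 (M.φ x0) :=
          M.Lnk_of (Or.inr ((hN'd _ _ _).2 (Or.inr (Or.inr ⟨hc, rfl, rfl⟩))))
        exact M.Lnk_trans (M.V_Lnk hVs) (M.Lnk_trans k2 (M.V_Lnk hVt)))
  refine scheme_TC M M' cfg hA r R' N' hV' ?_ ?_ hTC
  · intro c x y h
    rcases (hN'd _ _ _).1 h with ⟨a, b, -, hx, -⟩ | ⟨-, hx, -⟩ | ⟨-, hx, -⟩
    · rw [hx]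
      exact ⟨hvS a, (hcfg _).2 (Or.inr (Or.inl (rR5b_Fcit M p a)))⟩
    · rw [hx]
      exact ⟨ht3, (hcfg _).2 (Or.inl (Or.inr (Or.inr (Or.inl rfl))))⟩
    · rw [hx]
      exact ⟨M.Fc_mem haS hx0, (hcfg _).2 (Or.inr (Or.inr hx0))⟩
  · intro d hd hc
    rcases (hcfg d).1 hc with h | h | h
    · refine M.VAt_Fc N' hr hokr h ?_
      refine M.VAt_tri N' h3 (M.φ (M.φ r)) (Or.inr (Or.inr (Or.inl rfl))) cT ?_
      intro c' x y hx hxy
      rcases (hN'd _ _ _).1 hxy with ⟨a, b, -, hxa, -⟩ | ⟨k1, k2, k3⟩ | ⟨-, k2, -⟩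
      · exfalso
        refine hdis x hx ?_
        rw [hxa]
        exact rR5b_Fcit M p a
      · refine ⟨k1, k2, ?_⟩
        rw [k3, hr3]
      · exfalso
        refine hdis3 x hx ?_
        rw [k2]
        exact hx0
    · refine M.VAt_Fc N' hpS hokp h ?_
      refine M.VAt_pst N' hpS h5 i o m ?_
      intro c x y hx hxy
      rcases (hN'd _ _ _).1 hxy with h1 | ⟨-, k2, -⟩ | ⟨-, k2, -⟩
      · exact h1
      · exfalso
        refine hdis x ?_ hx
        rw [k2]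
        exact Or.inr (Or.inr (Or.inl rfl))
      · exfalso
        refine hdis2 x ?_ hx
        rw [k2]
        exact hx0
    · refine M.VAt_Fc N' haS hoka h ?_
      refine M.VAt_tri N' ha3 x0 hx0 cF ?_
      intro c' x y hx hxy
      rcases (hN'd _ _ _).1 hxy with ⟨a, b, -, hxa, -⟩ | ⟨-, k2, -⟩ | ⟨k1, k2, k3⟩
      · exfalso
        refine hdis2 x hx ?_
        rw [hxa]
        exact rR5b_Fcit M p a
      · exfalso
        refine hdis3 x ?_ hx
        rw [k2]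
        exact Or.inr (Or.inr (Or.inl rfl))
      · exact ⟨k1, k2, k3⟩

end Mp
end TwoPlane
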