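import Pool.Agent.Work.MP_3b7449_co.TP.Jor

/-!
# Sides3 (size M): a 3-cycle separates

`a : v0 → v1`, `b : v1 → v2`, `c : v2 → v0` (`V (α a) b`, `V (α b) c`, `V (α c) a`).  The three
vertices are different (loopless: e.g. `V a b` would give `V a (α a)`), so the six darts
`a, α a, b, α b, c, α c` are different (sources `v0, v1, v1, v2, v2, v0`; `a = α c` would give
`α a = c`, so `v1 = v2`).  `z := ed a + ed b + ed c`, symmetric, equal to 1 exactly at the six
darts.
Walk from `a`: `Pot_refl`, `Pot_α`, `Pot_V`, three times: `Pot z a a`; `Pot_close` gives `f`.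
`arc` (`c = a`, `c' = b`): `f b = f a`; `arc` (`c = b`, `c' = c`): `f c = f b`.
`I x := f x = f a`: true at `a, b, c`, false at `α a, α b, α c`; if `z x = 0`: `I x ↔ I (α x)`.
First side `K = {α a, α b, α c}`, `ψ : α b ↦ α a ↦ α c ↦ α b`; `ψV`: `V (α a) b`, `V (α b) c`,
`V (α c) a`.  Second side `K = {a, b, c}`, `ψ : a ↦ b ↦ c ↦ a`; `ψV`: `V b (α a)` etc.
-/

namespace TwoPlane
namespace Mp

variable {D : Type} [DecidableEq D]

private theorem z0 : ∀ a b : ZMod 2, a + b = 0 → a = b := by decide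
private theorem z1 : ∀ a b : ZMod 2, a + b = 1 → a ≠ b := by decide

private theorem ed_sym (M : Mp D) {u x : D} (hu : u ∈ M.S) (hx : x ∈ M.S) :
    M.ed u (M.α x) = M.ed u x := by
  have h1 : (M.α x = u) ↔ (x = M.α u) := by
    constructor
    · intro h; rw [← h, M.αα x hx]
    · intro h; rw [h, M.αα u hu]
  have h2 : (M.α x = M.α u) ↔ (x = u) := by
    constructor
    · intro h
      have := congrArg M.α h
      rwa [M.αα x hx, M.αα u hu] at this
    · intro h; rw [h]
  simp only [ed, dl, h1, h2]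
  rw [add_comm]

private theorem side_of (M : Mp D) (I : D → Prop) (K : Finset D) (ψ : D → D) (k0 k1 k2 : D)
    (hK : ∀ x, x ∈ K ↔ x = k0 ∨ x = k1 ∨ x = k2) (p0 : ψ k0 = k1) (p1 : ψ k1 = k2)
    (p2 : ψ k2 = k0) (hI : ∀ d ∈ M.S, (I d ↔ I (M.φ d))) (s0 : k0 ∈ M.S) (s1 : k1 ∈ M.S)
    (s2 : k2 ∈ M.S) (n0 : ¬ I k0) (n1 : ¬ I k1) (n2 : ¬ I k2) (i0 : I (M.α k0))
    (i1 : I (M.α k1)) (i2 : I (M.α k2))
    (hIK : ∀ d ∈ M.S, I d → I (M.α d) ∨ M.α d = k0 ∨ M.α d = k1 ∨ M.α d = k2)
    (v0 : M.V k1 (M.α k0)) (v1 : M.V k2 (M.α k1)) (v2 : M.V k0 (M.α k2))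
    (d01 : ¬ M.V k0 k1) (d12 : ¬ M.V k1 k2) (d20 : ¬ M.V k2 k0) : M.Side I K ψ where
  hI := hI
  KS := by
    intro k hk
    rcases (hK k).mp hk with rfl | rfl | rfl
    · exact s0
    · exact s1
    · exact s2
  KI := by
    intro k hk
    rcases (hK k).mp hk with rfl | rfl | rfl
    · exact n0
    · exact n1
    · exact n2
  KαI := by
    intro k hk
    rcases (hK k).mp hk with rfl | rfl | rfl
    · exact i0
    · exact i1
    · exact i2
  hIK := by
    intro d hd h
    rcases hIK d hd h with h | h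
    · exact Or.inl h
    · exact Or.inr ((hK _).mpr h)
  ψK := by
    intro k hk
    rcases (hK k).mp hk with rfl | rfl | rfl
    · rw [p0]; exact (hK _).mpr (Or.inr (Or.inl rfl))
    · rw [p1]; exact (hK _).mpr (Or.inr (Or.inr rfl))
    · rw [p2]; exact (hK _).mpr (Or.inl rfl)
  ψinj := by
    intro k hk k' hk' h
    have e01 : k0 ≠ k1 := fun h => d01 (h ▸ M.V_refl k0)
    have e12 : k1 ≠ k2 := fun h => d12 (h ▸ M.V_refl k1)
    have e20 : k2 ≠ k0 := fun h => d20 (h ▸ M.V_refl k2)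
    rcases (hK k).mp hk with h1 | h1 | h1 <;> rcases (hK k').mp hk' with h2 | h2 | h2 <;>
      rw [h1, h2] at h ⊢ <;> simp only [p0, p1, p2] at h
    · exact absurd h e12
    · exact absurd h.symm e01
    · exact absurd h.symm e12
    · exact absurd h e20
    · exact absurd h e01
    · exact absurd h.symm e20
  ψV := by
    intro k hk
    rcases (hK k).mp hk with rfl | rfl | rfl
    · rw [p0]; exact v0
    · rw [p1]; exact v1
    · rw [p2]; exact v2
  Kdist := by
    intro k hk k' hk' h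
    rcases (hK k).mp hk with h1 | h1 | h1 <;> rcases (hK k').mp hk' with h2 | h2 | h2 <;>
      rw [h1, h2] at h ⊢
    · exact absurd h d01
    · exact absurd (M.V_symm h) d20
    · exact absurd (M.V_symm h) d01
    · exact absurd h d12
    · exact absurd h d20
    · exact absurd (M.V_symm h) d12
  Kconn := by
    intro X hX
    have a0 := hX k0 ((hK _).mpr (Or.inl rfl))
    have a1 := hX k1 ((hK _).mpr (Or.inr (Or.inl rfl)))
    rw [p0] at a0
    rw [p1] at a1
    intro k hk k' hk'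
    rcases (hK k).mp hk with h1 | h1 | h1 <;> rcases (hK k').mp hk' with h2 | h2 | h2 <;>
      rw [h1, h2] <;> tauto
  Kne := ⟨k0, (hK _).mpr (Or.inl rfl)⟩

theorem sides3 (M : Mp D) (hp : M.Planar) (hl : M.Loopless) (a b c : D) (ha : a ∈ M.S)
    (hb : b ∈ M.S) (hc : c ∈ M.S) (h1 : M.V (M.α a) b) (h2 : M.V (M.α b) c)
    (h3 : M.V (M.α c) a) :
    ∃ I : D → Prop,
      M.Side I {M.α a, M.α b, M.α c}
        (fun x => if x = M.α b then M.α a else if x = M.α c then M.α b else M.α c) ∧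
      M.Side (fun x => ¬ I x) {a, b, c} (fun x => if x = a then b else if x = b then c else a) := by
  have sαa : M.α a ∈ M.S := M.αS a ha
  have sαb : M.α b ∈ M.S := M.αS b hb
  have sαc : M.α c ∈ M.S := M.αS c hc
  have ααa : M.α (M.α a) = a := M.αα a ha
  have ααb : M.α (M.α b) = b := M.αα b hb
  have ααc : M.α (M.α c) = c := M.αα c hc
  have vab : ¬ M.V a b := fun h => hl a ha (M.V_trans h (M.V_symm h1))
  have vbc : ¬ M.V b c := fun h => hl b hb (M.V_trans h (M.V_symm h2))
  have vca : ¬ M.V c a := fun h => hl c hc (M.V_trans h (M.V_symm h3))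
  have nv : ∀ {x y : D}, ¬ M.V x y → x ≠ y := fun h e => h (e ▸ M.V_refl _)
  -- the six darts are different
  have e1 : a ≠ M.α a := nv (hl a ha)
  have e2 : a ≠ b := nv vab
  have e3 : a ≠ M.α b := nv (fun h => vca (M.V_symm (M.V_trans h h2)))
  have e4 : a ≠ c := nv (fun h => vca (M.V_symm h))
  have e5 : a ≠ M.α c := fun h => by
    have : M.α a = c := by rw [h, ααc]
    rw [this] at h1
    exact vbc (M.V_symm h1)
  have e6 : b ≠ M.α a := fun h => by
    have : M.α b = a := by rw [h, ααa]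
    rw [this] at h2
    exact vca (M.V_symm h2)
  have e7 : b ≠ M.α b := nv (hl b hb)
  have e8 : b ≠ c := nv vbc
  have e9 : b ≠ M.α c := nv (fun h => vab (M.V_symm (M.V_trans h h3)))
  have e10 : c ≠ M.α c := nv (hl c hc)
  have e11 : c ≠ M.α b := fun h => by
    have : M.α c = b := by rw [h, ααb]
    rw [this] at h3
    exact vab (M.V_symm h3)
  have e12 : c ≠ M.α a := nv (fun h => vbc (M.V_symm (M.V_trans h h1)))
  have P0 := M.Pot_refl a
  have P1 := M.Pot_α _ a a P0
  have P2 := M.Pot_V _ a sαa h1 P1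
  have P3 := M.Pot_α _ a b P2
  have P4 := M.Pot_V _ a sαb h2 P3
  have P5 := M.Pot_α _ a c P4
  have P6 := M.Pot_V _ a sαc h3 P5
  obtain ⟨f, hf, hz⟩ := M.Pot_close _ a hp (by
    intro x hx
    show ((0 + M.ed a (M.α x)) + M.ed b (M.α x)) + M.ed c (M.α x) =
      ((0 + M.ed a x) + M.ed b x) + M.ed c x
    rw [ed_sym M ha hx, ed_sym M hb hx, ed_sym M hc hx]) P6
  have hz' : ∀ x ∈ M.S, f x + f (M.α x) = ((0 + M.ed a x) + M.ed b x) + M.ed c x := hz
  have za : f a + f (M.α a) = 1 := by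
    rw [hz' a ha]
    simp [ed, dl, e1, e2, e3, e4, e5]
  have zb : f b + f (M.α b) = 1 := by
    rw [hz' b hb]
    simp [ed, dl, e2.symm, e6, e7, e8, e9]
  have zc : f c + f (M.α c) = 1 := by
    rw [hz' c hc]
    simp [ed, dl, e4.symm, e12, e8.symm, e11, e10]
  have zo : ∀ x ∈ M.S, x ≠ a → x ≠ M.α a → x ≠ b → x ≠ M.α b → x ≠ c → x ≠ M.α c →
      ((0 + M.ed a x) + M.ed b x) + M.ed c x = 0 := by
    intro x hx k1 k2 k3 k4 k5 k6
    simp [ed, dl, k1, k2, k3, k4, k5, k6]
  have nvv : ∀ {x y z : D}, ¬ M.V y z → M.V x z → x ≠ y := fun h k e => h (e ▸ k)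
  have harc1 : f b = f a := by
    refine M.arc f _ hf hz' a b ha hb h1 e6 ?_ ?_
    · rw [← hz' a ha]; exact za
    · intro x hx hV k1 k2
      exact zo x hx (nvv vab hV) k1 k2 (nvv (fun h => hl b hb (M.V_symm h)) hV)
        (nvv (fun h => vbc (M.V_symm h)) hV)
        (nvv (fun h => vab (M.V_trans (M.V_symm h3) h)) hV)
  have harc2 : f c = f b := by
    refine M.arc f _ hf hz' b c hb hc h2 e11 ?_ ?_
    · rw [← hz' b hb]; exact zb
    · intro x hx hV k1 k2
      exact zo x hx (nvv (fun h => vca (M.V_symm h)) hV)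
        (nvv (fun h => vbc (M.V_trans (M.V_symm h1) h)) hV) (nvv vbc hV) k1 k2
        (nvv (fun h => hl c hc (M.V_symm h)) hV)
  have harc3 : f c = f a := harc2.trans harc1
  have na : ¬ f (M.α a) = f a := fun h => z1 _ _ za h.symm
  have nb : ¬ f (M.α b) = f a := fun h => z1 _ _ zb (by rw [h, harc1])
  have nc : ¬ f (M.α c) = f a := fun h => z1 _ _ zc (by rw [h, harc3])
  have cases6 : ∀ x ∈ M.S, f x = f (M.α x) ∨ x = a ∨ x = M.α a ∨ x = b ∨ x = M.α b ∨ x = c ∨
      x = M.α c := by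
    intro x hx
    by_contra hcon
    simp only [not_or] at hcon
    obtain ⟨k0, k1, k2, k3, k4, k5, k6⟩ := hcon
    exact k0 (z0 _ _ (by rw [hz' x hx]; exact zo x hx k1 k2 k3 k4 k5 k6))
  have d1 : ¬ M.V (M.α a) (M.α b) := fun h => hl b hb (M.V_trans (M.V_symm h1) h)
  have d2 : ¬ M.V (M.α b) (M.α c) := fun h => hl c hc (M.V_trans (M.V_symm h2) h)
  have d3 : ¬ M.V (M.α c) (M.α a) := fun h => hl a ha (M.V_trans (M.V_symm h3) h)
  refine ⟨fun x => f x = f a, ?_, ?_⟩
  · refine side_of M _ _ _ (M.α a) (M.α c) (M.α b) ?_ ?_ ?_ ?_ ?_ sαa sαc sαb na nc nb ?_ ?_ ?_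
      ?_ ?_ ?_ ?_ (fun h => d3 (M.V_symm h)) (fun h => d2 (M.V_symm h)) (fun h => d1 (M.V_symm h))
    · intro x
      simp only [Finset.mem_insert, Finset.mem_singleton]
      tauto
    · rw [if_neg (nv d1), if_neg (nv (fun h => d3 (M.V_symm h)))]
    · rw [if_neg (nv (fun h => d2 (M.V_symm h))), if_pos rfl]
    · rw [if_pos rfl]
    · intro x hx; show f x = f a ↔ f (M.φ x) = f a; rw [hf x hx]
    · show f (M.α (M.α a)) = f a
      rw [ααa]
    · show f (M.α (M.α c)) = f a
      rw [ααc]; exact harc3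
    · show f (M.α (M.α b)) = f a
      rw [ααb]; exact harc1
    · intro x hx hI
      rcases cases6 x hx with h | h | h | h | h | h | h
      · left; show f (M.α x) = f a; rw [← h]; exact hI
      · right; left; rw [h]
      · exact absurd (h ▸ hI) na
      · right; right; right; rw [h]
      · exact absurd (h ▸ hI) nb
      · right; right; left; rw [h]
      · exact absurd (h ▸ hI) nc
    · rw [ααa]; exact h3
    · rw [ααc]; exact h2
    · rw [ααb]; exact h1
  · refine side_of M _ _ _ a b c ?_ ?_ ?_ ?_ ?_ ha hb hc ?_ ?_ ?_ na nb nc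
      ?_ (M.V_symm h1) (M.V_symm h2) (M.V_symm h3) vab vbc vca
    · intro x
      simp only [Finset.mem_insert, Finset.mem_singleton]
    · rw [if_pos rfl]
    · rw [if_neg e2.symm, if_pos rfl]
    · rw [if_neg e4.symm, if_neg e8.symm]
    · intro x hx; show ¬ f x = f a ↔ ¬ f (M.φ x) = f a; rw [hf x hx]
    · exact fun h => h rfl
    · exact fun h => h harc1
    · exact fun h => h harc3
    · intro x hx hI
      rcases cases6 x hx with h | h | h | h | h | h | h
      · left; show ¬ f (M.α x) = f a; rw [← h]; exact hI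
      · exact absurd (by rw [h]) hI
      · right; left; rw [h, ααa]
      · exact absurd (by rw [h]; exact harc1) hI
      · right; right; left; rw [h, ααb]
      · exact absurd (by rw [h]; exact harc3) hI
      · right; right; right; rw [h, ααc]

end Mp
end TwoPlane
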