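import Pool.Agent.Work.MP_3b7449_co.TP.Sides2
import Pool.Agent.Work.MP_3b7449_co.TP.Sides3
import Pool.Agent.Work.MP_3b7449_co.TP.Glue2
import Pool.Agent.Work.MP_3b7449_co.TP.Glue3

/-!
# RedS (size M): parallel edges and non-facial triangles

`red_S0`: `sides2` gives `I`.  If `¬ I r`: `glue2` with `A = I`, `B = ¬ I`, `k0 = α d`, `k1 = e`
(`{α k0, α k1} = {d, α e}`).  If `I r`: `A = ¬ I`, `B = I`, `k0 = d`, `k1 = α e`.
`hcA`, `hcB`: suppose every dart of `M.S` with `¬ I` is `α d` or `e`.  `φ (α d)` has `¬ I` (`hI`) and is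
not `α d` (loopless: `V (α (α d)) (φ (α d))`), so it is `e`; in the same way `φ e = α d`; so
`L2 (α d)`, excluded.  Suppose every dart with `I` is `d` or `α e`: `φ d = α e`, `φ (α e) = d`, so
`L2 d`, excluded.
`red_S1`: `sides3`.  If `¬ I r`: `A = I`, `k0 = α b`, `k1 = α a`, `k2 = α c`.  If `I r`: `A = ¬ I`,
`k0 = a`, `k1 = b`, `k2 = c`.  (Rewrite the finite sets by `Finset.insert_comm`, and
`α (α x) = x`.)
`hcA`, `hcB`: suppose every dart with `¬ I` is one of `α a, α b, α c`.  `φ (α b)` is one of them and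
`V (φ (α b)) b` (`V (α (α b)) (φ (α b))`), `V b (α a)`; `α b` and `α c` are at other vertices
(`Kdist`), so `φ (α b) = α a`; in the same way `φ (α c) = α b`, `φ (α a) = α c`, excluded by `hn2`.
Suppose every dart with `I` is one of `a, b, c`: `V (φ a) b` (`V (α a) (φ a)`), so `φ a = b`, etc.,
excluded by `hn1`.
-/

namespace TwoPlane
namespace Mp

variable {D : Type} [DecidableEq D]

theorem red_S0 (M : Mp D) (hOk : M.Ok) (ih : M.IH) (h2 : ∀ d ∈ M.S, ¬ M.L2 d) (d e : D)
    (hd : d ∈ M.S) (he : e ∈ M.S) (hne : d ≠ e) (h1 : M.V d e) (h1' : M.V (M.α d) (M.α e))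
    (r : D) (hr : r ∈ M.S) : M.TC r := by
  classical
  have hl := hOk.loopless
  have sαd := M.αS d hd
  have sαe := M.αS e he
  have ααd := M.αα d hd
  have ααe := M.αα e he
  obtain ⟨I, hA, hB⟩ := M.sides2 hOk.planar hl d e hd he hne h1 h1'
  have ndα : d ≠ M.α e := fun h => hl e he (M.V_symm (by rw [h] at h1; exact h1))
  have neα : M.α d ≠ e := fun h => hl d hd (by rw [← h] at h1; exact h1)
  have nId : ¬ I (M.α d) := hA.KI _ (by simp)
  have nIe : ¬ I e := hA.KI _ (by simp)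
  have Id : I d := not_not.mp (hB.KI _ (by simp))
  have Iαe : I (M.α e) := not_not.mp (hB.KI _ (by simp))
  have P1 : ∃ x ∈ M.S, ¬ I x ∧ x ≠ M.α d ∧ x ≠ e := by
    by_contra hcon
    have hall : ∀ x ∈ M.S, ¬ I x → x = M.α d ∨ x = e := by
      intro x hx hI
      by_contra h3
      rw [not_or] at h3
      exact hcon ⟨x, hx, hI, h3⟩
    have a1 : M.φ (M.α d) = e := by
      rcases hall _ (M.φS _ sαd) (fun h => nId ((hA.hI _ sαd).mpr h)) with h | h
      · exfalso
        have v := M.V_αφ sαd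
        rw [h, ααd] at v
        exact hl d hd v
      · exact h
    have a2 : M.φ e = M.α d := by
      rcases hall _ (M.φS _ he) (fun h => nIe ((hA.hI _ he).mpr h)) with h | h
      · exact h
      · exfalso
        have v := M.V_αφ he
        rw [h] at v
        exact hl e he (M.V_symm v)
    exact h2 (M.α d) sαd ⟨fun h => neα (h.symm.trans a1), by rw [a1, a2]⟩
  have P2 : ∃ x ∈ M.S, I x ∧ x ≠ d ∧ x ≠ M.α e := by
    by_contra hcon
    have hall : ∀ x ∈ M.S, I x → x = d ∨ x = M.α e := by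
      intro x hx hI
      by_contra h3
      rw [not_or] at h3
      exact hcon ⟨x, hx, hI, h3⟩
    have a1 : M.φ d = M.α e := by
      rcases hall _ (M.φS _ hd) ((hA.hI _ hd).mp Id) with h | h
      · exfalso
        have v := M.V_αφ hd
        rw [h] at v
        exact hl d hd (M.V_symm v)
      · exact h
    have a2 : M.φ (M.α e) = d := by
      rcases hall _ (M.φS _ sαe) ((hA.hI _ sαe).mp Iαe) with h | h
      · exact h
      · exfalso
        have v := M.V_αφ sαe
        rw [h, ααe] at v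
        exact hl e he v
    exact h2 d hd ⟨fun h => ndα (h.symm.trans a1), by rw [a1, a2]⟩
  by_cases hI : I r
  · have hA' : M.Side I {M.α d, M.α (M.α e)} (fun x => if x = e then M.α d else e) := by
      rw [ααe]; exact hA
    refine M.glue2 hOk ih (fun x => ¬ I x) I (fun x => not_not.symm) d (M.α e) _ _ hB hA' ndα
      ?_ ?_ ?_ ?_ P2 ?_ r hr hI
    · simp
    · simp [ndα.symm]
    · simp [neα, ααe]
    · simp [ααe]
    · rw [ααe]; exact P1
  · have hB' : M.Side (fun x => ¬ I x) {M.α (M.α d), M.α e}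
        (fun x => if x = d then M.α e else d) := by
      rw [ααd]; exact hB
    refine M.glue2 hOk ih I (fun x => ¬ I x) (fun x => Iff.rfl) (M.α d) e _ _ hA hB' neα
      ?_ ?_ ?_ ?_ P1 ?_ r hr hI
    · simp [neα]
    · simp
    · simp [ααd]
    · simp [ααd, ndα.symm]
    · rw [ααd]; exact P2

theorem red_S1 (M : Mp D) (hOk : M.Ok) (ih : M.IH) (h2 : ∀ d ∈ M.S, ¬ M.L2 d) (a b c : D)
    (ha : a ∈ M.S) (hb : b ∈ M.S) (hc : c ∈ M.S) (h1 : M.V (M.α a) b)
    (h1' : M.V (M.α b) c) (h1'' : M.V (M.α c) a)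
    (hn1 : ¬ (M.φ a = b ∧ M.φ b = c ∧ M.φ c = a))
    (hn2 : ¬ (M.φ (M.α b) = M.α a ∧ M.φ (M.α c) = M.α b ∧ M.φ (M.α a) = M.α c))
    (r : D) (hr : r ∈ M.S) : M.TC r := by
  classical
  have hl := hOk.loopless
  have sαa := M.αS a ha
  have sαb := M.αS b hb
  have sαc := M.αS c hc
  have ααa := M.αα a ha
  have ααb := M.αα b hb
  have ααc := M.αα c hc
  obtain ⟨I, hA, hB⟩ := M.sides3 hOk.planar hl a b c ha hb hc h1 h1' h1''
  have nv : ∀ {x y : D}, ¬ M.V x y → x ≠ y := fun h e => h (e ▸ M.V_refl _)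
  have eab : a ≠ b := nv (fun h => hl a ha (M.V_trans h (M.V_symm h1)))
  have ebc : b ≠ c := nv (fun h => hl b hb (M.V_trans h (M.V_symm h1')))
  have eca : c ≠ a := nv (fun h => hl c hc (M.V_trans h (M.V_symm h1'')))
  have αinj : ∀ x ∈ M.S, ∀ y ∈ M.S, x ≠ y → M.α x ≠ M.α y := by
    intro x hx y hy hxy h
    have := congrArg M.α h
    rw [M.αα x hx, M.αα y hy] at this
    exact hxy this
  have fab := αinj a ha b hb eab
  have fbc := αinj b hb c hc ebc
  have fca := αinj c hc a ha eca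
  have mαa : M.α a ∈ ({M.α a, M.α b, M.α c} : Finset D) := by simp
  have mαb : M.α b ∈ ({M.α a, M.α b, M.α c} : Finset D) := by simp
  have mαc : M.α c ∈ ({M.α a, M.α b, M.α c} : Finset D) := by simp
  have ma : a ∈ ({a, b, c} : Finset D) := by simp
  have mb : b ∈ ({a, b, c} : Finset D) := by simp
  have mc : c ∈ ({a, b, c} : Finset D) := by simp
  have P1 : ∃ x ∈ M.S, ¬ I x ∧ x ≠ M.α a ∧ x ≠ M.α b ∧ x ≠ M.α c := by
    by_contra hcon
    have hall : ∀ x ∈ M.S, ¬ I x → x ∈ ({M.α a, M.α b, M.α c} : Finset D) := by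
      intro x hx hI
      by_contra h3
      simp only [Finset.mem_insert, Finset.mem_singleton, not_or] at h3
      exact hcon ⟨x, hx, hI, h3⟩
    have step : ∀ k ∈ ({M.α a, M.α b, M.α c} : Finset D), ∀ k' ∈ ({M.α a, M.α b, M.α c} :
        Finset D), M.V (M.α k) k' → M.φ k = k' := by
      intro k hk k' hk' hv
      have hkS := hA.KS k hk
      refine hA.Kdist _ (hall _ (M.φS _ hkS) (fun h => hA.KI k hk ((hA.hI _ hkS).mpr h))) _ hk' ?_
      exact M.V_trans (M.V_symm (M.V_αφ hkS)) hv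
    apply hn2
    refine ⟨step _ mαb _ mαa ?_, step _ mαc _ mαb ?_, step _ mαa _ mαc ?_⟩
    · rw [ααb]; exact M.V_symm h1
    · rw [ααc]; exact M.V_symm h1'
    · rw [ααa]; exact M.V_symm h1''
  have P2 : ∃ x ∈ M.S, I x ∧ x ≠ a ∧ x ≠ b ∧ x ≠ c := by
    by_contra hcon
    have hall : ∀ x ∈ M.S, I x → x ∈ ({a, b, c} : Finset D) := by
      intro x hx hI
      by_contra h3
      simp only [Finset.mem_insert, Finset.mem_singleton, not_or] at h3
      exact hcon ⟨x, hx, hI, h3⟩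
    have step : ∀ k ∈ ({a, b, c} : Finset D), ∀ k' ∈ ({a, b, c} : Finset D),
        M.V (M.α k) k' → M.φ k = k' := by
      intro k hk k' hk' hv
      have hkS := hB.KS k hk
      refine hB.Kdist _ (hall _ (M.φS _ hkS) ((hA.hI _ hkS).mp (not_not.mp (hB.KI k hk)))) _ hk' ?_
      exact M.V_trans (M.V_symm (M.V_αφ hkS)) hv
    exact hn1 ⟨step _ ma _ mb h1, step _ mb _ mc h1', step _ mc _ ma h1''⟩
  by_cases hI : I r
  · refine M.glue3 hOk ih (fun x => ¬ I x) I (fun x => not_not.symm) a b c _ _ hB hA eab ebc eca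
      ?_ ?_ ?_ ?_ ?_ ?_ P2 P1 r hr hI
    · simp
    · simp [eab.symm]
    · simp [eca, ebc.symm]
    · simp [fab, fca.symm]
    · simp [fbc.symm]
    · simp
  · have hA' : M.Side I {M.α b, M.α a, M.α c}
        (fun x => if x = M.α b then M.α a else if x = M.α c then M.α b else M.α c) := by
      have : ({M.α b, M.α a, M.α c} : Finset D) = {M.α a, M.α b, M.α c} :=
        Finset.insert_comm _ _ _
      rw [this]; exact hA
    have hB' : M.Side (fun x => ¬ I x) {M.α (M.α b), M.α (M.α a), M.α (M.α c)}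
        (fun x => if x = a then b else if x = b then c else a) := by
      rw [ααa, ααb, ααc]
      have : ({b, a, c} : Finset D) = {a, b, c} := Finset.insert_comm _ _ _
      rw [this]; exact hB
    obtain ⟨x1, k1, k2, k3, k4, k5⟩ := P1
    obtain ⟨x2, l1, l2, l3, l4, l5⟩ := P2
    refine M.glue3 hOk ih I (fun x => ¬ I x) (fun x => Iff.rfl) (M.α b) (M.α a) (M.α c) _ _ hA' hB'
      fab.symm fca.symm fbc.symm ?_ ?_ ?_ ?_ ?_ ?_ ⟨x1, k1, k2, k4, k3, k5⟩ ?_ r hr hI
    · simp
    · simp [fab, fca.symm]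
    · simp [fbc.symm]
    · simp [ααb, ααc, eab.symm]
    · simp [ααc, ααa, eca, ebc.symm]
    · simp [ααa, ααb]
    · rw [ααa, ααb, ααc]
      exact ⟨x2, l1, l2, l4, l3, l5⟩

end Mp
end TwoPlane
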