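import Pool.Agent.Work.MP_3b7449_co.TP.Zip
import Pool.Agent.Work.MP_3b7449_co.TP.RedS
import Pool.Agent.Work.MP_3b7449_co.TP.ChQ
import Pool.Agent.Work.MP_3b7449_co.TP.RedQ
import Pool.Agent.Work.MP_3b7449_co.TP.RedA
import Pool.Agent.Work.MP_3b7449_co.TP.ChB
import Pool.Agent.Work.MP_3b7449_co.TP.RedB
import Pool.Agent.Work.MP_3b7449_co.TP.RedC
import Pool.Agent.Work.MP_3b7449_co.TP.ChR
import Pool.Agent.Work.MP_3b7449_co.TP.RedR3
import Pool.Agent.Work.MP_3b7449_co.TP.RedR5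
import Pool.Agent.Work.MP_3b7449_co.TP.RedR5b

/-!
# Main (size M): the tight condition for every map and every root edge

Strong induction on the number of darts (prove `∀ n, ∀ M, M.S.card = n → …`; the induction
hypothesis is `M.IH`).
1. A face of length 2: `red_zip`.
2. Parallel edges (`d ≠ e`, `V d e`, `V (α d) (α e)`): `red_S0`.
3. A 3-cycle `a b c` (`V (α a) b`, `V (α b) c`, `V (α c) a`) which is not facial: `red_S1`.
4. Otherwise `M.Tight`.  A face of length 4 at `q`: `chQ` and `red_Q` for `q` or `φ q`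
   (`L4 (φ q)`; `L_Fc`).
5. Otherwise all faces have length 3 or 5.  A dart `p` with `φ p = α p`: the face of `p` has length
   5 (if `L3 p`: `t = φ (φ p)`, `V (α (φ p)) t` and `α (φ p) = p`, so `V p t`, and `V (α t) (φ t)`,
   `φ t = p`, so `t` is a loop).  If `r = p` or `r = α p`: `red_Aroot` (with `TC_symm`, if `r = α p`
   then `α r = p`), otherwise `red_A`.
6. Otherwise no dart has `φ d = α d`.  If `L5 r`: `chB`, `red_B24` or `red_B13`.  If `L5 (α r)`:
   the same for `α r` and `TC_symm`.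
7. Otherwise `L3 r`, `L3 (α r)`.  `p = α (φ (φ r))`.  `L3 p`: `red_C`.  `L5 p`: `chR` and `red_R3`,
   `red_R5` or `red_R5b`.
-/

namespace TwoPlane
namespace Mp

variable {D : Type} [DecidableEq D]

private theorem mainAux : ∀ (n : ℕ) (M : Mp D), M.S.card = n → M.Ok → ∀ r ∈ M.S, M.TC r := by
  intro n
  induction n using Nat.strong_induction_on with
  | _ n IHn =>
    intro M hn hOk r hr
    have ih : M.IH := by
      intro M' hlt hOk' r' hr'
      exact IHn M'.S.card (by rw [← hn]; exact hlt) M' rfl hOk' r' hr'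
    by_cases c1 : ∃ d ∈ M.S, M.L2 d
    · obtain ⟨a, ha, h⟩ := c1
      exact red_zip M hOk ih a ha h r hr
    have h2 : ∀ d ∈ M.S, ¬ M.L2 d := fun d hd h => c1 ⟨d, hd, h⟩
    by_cases c2 : ∃ d ∈ M.S, ∃ e ∈ M.S, M.V d e ∧ M.V (M.α d) (M.α e) ∧ d ≠ e
    · obtain ⟨d, hd, e, he, h3, h4, h5⟩ := c2
      exact red_S0 M hOk ih h2 d e hd he h5 h3 h4 r hr
    by_cases c3 : ∃ a ∈ M.S, ∃ b ∈ M.S, ∃ c ∈ M.S, M.V (M.α a) b ∧ M.V (M.α b) c ∧
        M.V (M.α c) a ∧ ¬ (M.φ a = b ∧ M.φ b = c ∧ M.φ c = a) ∧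
        ¬ (M.φ (M.α b) = M.α a ∧ M.φ (M.α c) = M.α b ∧ M.φ (M.α a) = M.α c)
    · obtain ⟨a, ha, b, hb, c, hc, h3, h4, h5, h6, h7⟩ := c3
      exact red_S1 M hOk ih h2 a b c ha hb hc h3 h4 h5 h6 h7 r hr
    have hT : M.Tight :=
      { ok := hOk
        noL2 := h2
        simple := fun d hd e he h3 h4 => by
          by_contra h5
          exact c2 ⟨d, hd, e, he, h3, h4, h5⟩
        tri := fun a ha b hb c hc h3 h4 h5 => by
          by_contra h6
          rw [not_or] at h6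
          exact c3 ⟨a, ha, b, hb, c, hc, h3, h4, h5, h6.1, h6.2⟩ }
    by_cases c4 : ∃ q ∈ M.S, M.L4 q
    · obtain ⟨q, hq, h⟩ := c4
      rcases chQ M hT q hq h with h3 | h3
      · exact red_Q M hOk ih q hq h h3 r hr
      · have h4 : M.L4 (M.φ q) :=
          (L_Fc M hq (Or.inr (Or.inr (Or.inl h))) (Or.inr (Or.inl rfl))).2.2.1.1 h
        exact red_Q M hOk ih (M.φ q) (M.φS q hq) h4 h3 r hr
    have h4 : ∀ d ∈ M.S, ¬ M.L4 d := fun d hd h => c4 ⟨d, hd, h⟩
    have h35 : ∀ d ∈ M.S, M.L3 d ∨ M.L5 d := by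
      intro d hd
      rcases hOk.face d hd with h | h | h | h
      · exact absurd h (h2 d hd)
      · exact Or.inl h
      · exact absurd h (h4 d hd)
      · exact Or.inr h
    by_cases c5 : ∃ p ∈ M.S, M.φ p = M.α p
    · obtain ⟨p, hp, hpα⟩ := c5
      have h5 : M.L5 p := by
        rcases h35 p hp with h | h
        · exfalso
          have ht : M.φ (M.φ p) ∈ M.S := M.φS _ (M.φS _ hp)
          have v1 := M.V_αφ (M.φS _ hp)
          rw [hpα, M.αα p hp] at v1
          have v2 := M.V_αφ ht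
          rw [h.2, hpα] at v2
          rw [hpα] at ht
          exact hOk.loopless _ ht (M.V_trans (M.V_symm v1) (M.V_symm v2))
        · exact h
      by_cases e1 : r = p
      · rw [e1]
        exact red_Aroot M hOk ih p hp h5 hpα
      by_cases e2 : r = M.α p
      · apply TC_symm M r hr
        rw [e2, M.αα p hp]
        exact red_Aroot M hOk ih p hp h5 hpα
      exact red_A M hOk ih p hp h5 hpα r hr e1 e2
    have hnp : ∀ d ∈ M.S, M.φ d ≠ M.α d := fun d hd h => c5 ⟨d, hd, h⟩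
    have hB : ∀ r ∈ M.S, M.L5 r → M.TC r := by
      intro r hr h5
      rcases chB M hT hnp r hr h5 with h | h
      · exact red_B24 M hOk ih r hr h5 h
      · exact red_B13 M hOk ih r hr h5 h
    rcases h35 r hr with h3 | h3
    swap
    · exact hB r hr h3
    rcases h35 (M.α r) (M.αS r hr) with h3' | h3'
    swap
    · exact TC_symm M r hr (hB _ (M.αS r hr) h3')
    have hp : M.α (M.φ (M.φ r)) ∈ M.S := M.αS _ (M.φS _ (M.φS _ hr))
    rcases h35 _ hp with h5 | h5
    · exact red_C M hT ih r _ hr h3 rfl h5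
    · rcases chR M hT hnp r _ hr h3 h3' rfl h5 with ⟨h6, h7⟩ | ⟨h6, h7, h8⟩ | ⟨h6, h7, h8⟩
      · exact red_R3 M hT ih h4 r _ hr h3 h3' rfl h5 h6 h7
      · exact red_R5 M hT ih r _ hr h3 h3' rfl h5 h6 h7 h8
      · exact red_R5b M hT ih r _ hr h3 h3' rfl h5 h6 h7 h8

theorem main_TC (M : Mp D) (hOk : M.Ok) (r : D) (hr : r ∈ M.S) : M.TC r :=
  mainAux M.S.card M rfl hOk r hr

end Mp
end TwoPlane
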