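import Pool.Agent.Work.MP_3b7449_co.TP.Ex
import Pool.Agent.Work.MP_3b7449_co.TP.Faces

/-!
# MapC (size M): the reduced map for two adjacent triangles

`T = (r, t2, t3)`, `t3 = φ (φ r)`, `p = α t3`, second triangle `(p, n2, n3)`.
`¬ Fc r p`: `p = r` gives `α r = t3`, and `V (α r) t2`, `V (α t2) t3` make `t2` a loop; `p = t2`:
`V (α r) t2`, `V (α t3) r`, i.e. `V t2 r`: `r` is a loop; `p = t3`: `αne`.  So the faces `Fc r`
and `Fc p` are disjoint.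
`V r p` (`V (α t3) (φ t3)`), `V t3 n2` (`V (α p) (φ p)`).
1. `M1` from `del_ex` for the dart `t3` with `Y = Fc r`.  `φ1 r = t2`, `φ1 t2 = n2`, `φ1 n2 = n3`,
   `φ1 n3 = r`, other darts unchanged.
2. `Free` in `M1` for `r`, `n2 = φ1 (φ1 r)`: `V1 ⊆ V`; `V r n2` would make `p` a loop
   (`V r p`, `V (α p) n2`); an edge `d` of `M1` with `V d r`, `V (α d) n2` has `V d p`,
   `V (α d) (α p)`, so `d = p` by `simple`, but `p` is not in `M1.S`.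
3. `M'` from `fold_ex` for `M1` and `r`; `b = t2`.  `φ' n2 = n3`, `φ' n3 = n2`.
`Red` by `red_trans`; the covering property by composing (`red_lnk`).
-/

namespace TwoPlane
namespace Mp

variable {D : Type} [DecidableEq D]

private theorem mc_fc3 (M : Mp D) {r d : D} (h3 : M.L3 r) :
    M.Fc r d ↔ (d = r ∨ d = M.φ r ∨ d = M.φ (M.φ r)) := by
  unfold Fc
  rw [h3.2]
  constructor
  · rintro (h | h | h | h | h)
    · exact Or.inl h
    · exact Or.inr (Or.inl h)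
    · exact Or.inr (Or.inr h)
    · exact Or.inl h
    · exact Or.inr (Or.inl h)
  · rintro (h | h | h)
    · exact Or.inl h
    · exact Or.inr (Or.inl h)
    · exact Or.inr (Or.inr (Or.inl h))

private theorem mc_mono (M : Mp D) {L L' : D → D → Prop} (h : ∀ x y, L x y → L' x y) {x y : D}
    (hL : M.Lnk L x y) : M.Lnk L' x y :=
  M.Lnk_le (M.Lnk_equiv L') (fun _ ha => M.V_Lnk (M.V_σ ha)) (fun _ _ h1 => M.Lnk_of (h _ _ h1)) hL

theorem mapC (M : Mp D) (hT : M.Tight) (r p : D) (hr : r ∈ M.S) (h3 : M.L3 r)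
    (hp : p = M.α (M.φ (M.φ r))) (h3' : M.L3 p) :
    ∃ M' : Mp D, M'.Pcl ∧
      (∀ d, d ∈ M'.S ↔ d ∈ M.S ∧ d ≠ r ∧ d ≠ M.φ r ∧ d ≠ M.φ (M.φ r) ∧ d ≠ p) ∧
      (∀ d ∈ M.S, ¬ M.Fc r d → ¬ M.Fc p d → M'.φ d = M.φ d) ∧
      M'.φ (M.φ p) = M.φ (M.φ p) ∧ M'.φ (M.φ (M.φ p)) = M.φ p ∧
      M.Red M' (fun x y => x = r ∧ y = M.φ p) ∧
      (∀ x ∈ M.S, ∃ y ∈ M'.S, M.Lnk (fun x y => x = r ∧ y = M.φ p) x y) ∧
      ¬ M.Fc r p := by
  obtain ⟨t2, ht2⟩ : ∃ t, t = M.φ r := ⟨_, rfl⟩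
  obtain ⟨t3, ht3⟩ : ∃ t, t = M.φ t2 := ⟨_, rfl⟩
  obtain ⟨n2, hn2⟩ : ∃ t, t = M.φ p := ⟨_, rfl⟩
  obtain ⟨n3, hn3⟩ : ∃ t, t = M.φ n2 := ⟨_, rfl⟩
  have e3 : M.φ t3 = r := by rw [ht3, ht2]; exact h3.2
  have f3 : M.φ n3 = p := by rw [hn3, hn2]; exact h3'.2
  have ht2S : t2 ∈ M.S := ht2 ▸ M.φS r hr
  have ht3S : t3 ∈ M.S := ht3 ▸ M.φS t2 ht2S
  have hpt : p = M.α t3 := by rw [hp, ht3, ht2]
  have hpS : p ∈ M.S := hpt ▸ M.αS t3 ht3S
  have hαp : M.α p = t3 := by rw [hpt, M.αα t3 ht3S]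
  have hn2S : n2 ∈ M.S := hn2 ▸ M.φS p hpS
  have hn3S : n3 ∈ M.S := hn3 ▸ M.φS n2 hn2S
  have hl := hT.ok.loopless
  have v1 : M.V (M.α r) t2 := by rw [ht2]; exact M.V_αφ hr
  have v2 : M.V (M.α t2) t3 := by rw [ht3]; exact M.V_αφ ht2S
  have v3 : M.V p r := by
    have := M.V_αφ ht3S
    rwa [e3, ← hpt] at this
  have v4 : M.V t3 n2 := by
    have := M.V_αφ hpS
    rwa [hαp, ← hn2] at this
  have hpr : p ≠ r := by
    intro h
    have h1 : M.α r = t3 := by rw [← h, hαp]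
    rw [h1] at v1
    exact hl t2 ht2S (M.V_trans (M.V_symm v1) (M.V_symm v2))
  have hpt2 : p ≠ t2 := by
    intro h
    rw [h] at v3
    exact hl r hr (M.V_trans (M.V_symm v3) (M.V_symm v1))
  have hpt3 : p ≠ t3 := by
    intro h
    exact M.αne t3 ht3S (by rw [← hpt, h])
  have hFr : ∀ d, M.Fc r d ↔ (d = r ∨ d = t2 ∨ d = t3) := by
    intro d
    rw [mc_fc3 M h3, ← ht2, ← ht3]
  have hFp : ∀ d, M.Fc p d ↔ (d = p ∨ d = n2 ∨ d = n3) := by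
    intro d
    rw [mc_fc3 M h3', ← hn2, ← hn3]
  have hnF : ¬ M.Fc r p := by
    rw [hFr]
    rintro (h | h | h)
    · exact hpr h
    · exact hpt2 h
    · exact hpt3 h
  have hfr : M.L2 r ∨ M.L3 r ∨ M.L4 r ∨ M.L5 r := Or.inr (Or.inl h3)
  have hfp : M.L2 p ∨ M.L3 p ∨ M.L4 p ∨ M.L5 p := Or.inr (Or.inl h3')
  -- the faces are disjoint
  have hdis : ∀ d, M.Fc p d → ¬ M.Fc r d := by
    intro d h1 h2
    apply hnF
    have h4 := M.Fc_iff hpS hfp h1 p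
    have h5 := M.Fc_iff hr hfr h2 p
    exact h5.2 (h4.1 (M.Fc_self p))
  have hn2F : ¬ M.Fc r n2 := hdis n2 ((hFp n2).2 (Or.inr (Or.inl rfl)))
  have hn3F : ¬ M.Fc r n3 := hdis n3 ((hFp n3).2 (Or.inr (Or.inr rfl)))
  have hrt2 : r ≠ t2 := fun h => h3.1 (by rw [← ht2]; exact h.symm)
  have ht23 : t2 ≠ t3 := fun h => hrt2 (M.φinj r hr t2 ht2S (by rw [← ht2, ← ht3]; exact h))
  have hrt3 : r ≠ t3 := fun h => hrt2 (by
    have h1 := e3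
    rw [← h, ← ht2] at h1
    exact h1.symm)
  have hpn2 : p ≠ n2 := fun h => h3'.1 (by rw [← hn2]; exact h.symm)
  have hpn3 : p ≠ n3 := fun h => hpn2 (by
    have h1 := f3
    rw [← h, ← hn2] at h1
    exact h1.symm)
  have hn23 : n2 ≠ n3 := fun h => hpn2 (M.φinj p hpS n2 hn2S (by rw [← hn2, ← hn3]; exact h))
  have hn2r : n2 ≠ r := fun h => hn2F ((hFr _).2 (Or.inl h))
  have hn2t2 : n2 ≠ t2 := fun h => hn2F ((hFr _).2 (Or.inr (Or.inl h)))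
  have hn2t3 : n2 ≠ t3 := fun h => hn2F ((hFr _).2 (Or.inr (Or.inr h)))
  have hn3r : n3 ≠ r := fun h => hn3F ((hFr _).2 (Or.inl h))
  have hn3t2 : n3 ≠ t2 := fun h => hn3F ((hFr _).2 (Or.inr (Or.inl h)))
  have hn3t3 : n3 ≠ t3 := fun h => hn3F ((hFr _).2 (Or.inr (Or.inr h)))
  -- first step
  obtain ⟨M1, hM1, hS1, hα1, hφ1, hR1, hV1, hC1⟩ := del_ex M ⟨hT.ok.planar, hT.ok.conn, hl⟩ t3 ht3S
    (fun d => M.Fc r d) (fun d hd => M.Fc_φ hr hfr hd) ((hFr t3).2 (Or.inr (Or.inr rfl)))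
    (by rw [← hpt]; exact hnF)
  rw [← hpt] at hS1
  rw [← hpt] at hφ1
  have g1 : M1.φ r = t2 := by
    rw [hφ1, ← ht2, if_neg ht23, if_neg hpt2.symm]
  have g2 : M1.φ t2 = n2 := by
    rw [hφ1, ← ht3, if_pos rfl, hn2]
  have g3 : M1.φ n2 = n3 := by
    rw [hφ1, ← hn3, if_neg hn3t3, if_neg hpn3.symm]
  have g4 : M1.φ n3 = r := by
    rw [hφ1, f3, if_neg hpt3, if_pos rfl, e3]
  have hr1 : r ∈ M1.S := by
    rw [hS1, Finset.mem_erase, Finset.mem_erase]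
    exact ⟨hpr.symm, hrt3, hr⟩
  have hfree : M1.Free r (M1.φ (M1.φ r)) := by
    rw [g1, g2]
    refine ⟨fun h => ?_, fun d hd h => ?_⟩
    · have h1 := hV1 _ _ h
      apply hl p hpS
      rw [hαp]
      exact M.V_trans v3 (M.V_trans h1 (M.V_symm v4))
    · rw [hα1] at h
      have h1 := hV1 _ _ h.1
      have h2 := hV1 _ _ h.2
      rw [hS1, Finset.mem_erase, Finset.mem_erase] at hd
      apply hd.1
      refine hT.simple d hd.2.2 p hpS (M.V_trans h1 (M.V_symm v3)) ?_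
      rw [hαp]
      exact M.V_trans h2 (M.V_symm v4)
  obtain ⟨M', hM', hS', hφ', hα', hR', hV', hC'⟩ := fold_ex M1 hM1 r hr1 hfree
  rw [g1] at hS'
  simp only [g1, g2] at hφ' hR' hC'
  refine ⟨M', hM', ?_, ?_, ?_, ?_, ?_, ?_, hnF⟩
  · intro d
    rw [← ht2, ← ht3, hS', hS1]
    simp only [Finset.mem_erase]
    tauto
  · intro d hd hd1 hd2
    have k1 : M.φ d ≠ t3 := fun h => hd1 ((hFr d).2 (Or.inr (Or.inl
      (M.φinj d hd t2 ht2S (by rw [h, ht3])))))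
    have k2 : M.φ d ≠ p := fun h => hd2 ((hFp d).2 (Or.inr (Or.inr
      (M.φinj d hd n3 hn3S (by rw [h, f3])))))
    have k3 : M.φ d ≠ r := fun h => hd1 ((hFr d).2 (Or.inr (Or.inr
      (M.φinj d hd t3 ht3S (by rw [h, e3])))))
    have k4 : M1.φ d = M.φ d := by rw [hφ1, if_neg k1, if_neg k2]
    rw [hφ', k4, if_neg k3]
  · rw [← hn2, ← hn3, hφ', g3, if_neg hn3r]
  · rw [← hn2, ← hn3, hφ', g4, if_pos rfl]
  · rw [← hn2]
    refine red_mono (red_trans hR1 hR') ?_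
    rintro x y (h | h)
    · exact h.elim
    · exact h
  · intro x hx
    obtain ⟨y1, hy1, hxy1⟩ := hC1 x hx
    obtain ⟨y, hy, hyy⟩ := hC' y1 hy1
    refine ⟨y, hy, M.Lnk_trans (M.V_Lnk hxy1) ?_⟩
    rw [← hn2]
    refine mc_mono M ?_ (red_lnk hR1 hyy)
    rintro a b (h | h)
    · exact h.elim
    · exact h

end Mp
end TwoPlane
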