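import Pool.Agent.Work.MP_3b7449_co.TP.Ex
import Pool.Agent.Work.MP_3b7449_co.TP.Faces

/-!
# MapR3 (size M-L): the reduced map for a root triangle and a pentagon

`T = (r, t2, t3)`, `t3 = φ (φ r)`, `p = α t3`, pentagon `p0 = p, p1, p2, p3, p4` (`p_i = it p i`).
The faces `Fc r` and `Fc p` are disjoint (`L3` and `L5`, `excl`, `L_Fc`).
`V r p` (`V (α t3) (φ t3)`), `V t3 p1` (`V (α p) (φ p)`), `V (α t2) t3`.
1. `M1` from `del_ex` for `t3` with `Y = Fc r`: `φ1 : r, t2, p1, p2, p3, p4` and back to `r`.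
2. `Free` in `M1` for `r`, `p1 = φ1 (φ1 r)`: as in MapC (`V r p1` would make `p` a loop; an edge
   joining them is parallel to `p`, so equal to `p`, which is not in `M1.S`).
3. `M2` from `fold_ex` for `M1`, `r` (`b = t2`): `φ2 : p1, p2, p3, p4` and back to `p1`;
   `α2 (α r) = α t2`, `α2 (α t2) = α r`, `α2 = α` otherwise; `V2 x y` implies
   `V x y` or (`x`, `y` both at the vertices of `r` or `p1`).
4. `Free` in `M2` for `p1`, `p3 = φ2 (φ2 p1)`: `V2 p1 p3` would give `V p1 p3` or `V p3 r`, i.e.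
   `V p p3`, or `V p3 p1`, all excluded by the two `Free` hypotheses.  So for every `x`:
   `V2 x p3` iff `V x p3` (implication from left to right is what is needed).  An edge `d` of `M2`
   with `V2 d p1`, `V2 (α2 d) p3`: `d` is at the vertex of `p` or `p1`, `V (α2 d) p3`.
   If `α2 d = α d`: contradiction to `Free p p3` or `Free p1 p3`.  If `d = α r`: `α2 d = α t2`,
   which is at the vertex of `p1` (`V (α t2) t3`, `V t3 p1`), so `V p1 p3`, excluded.  If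
   `d = α t2`: `α2 d = α r`, `V (α r) p3` and `V r p` contradict `Free p p3` at `r`.
5. `M'` from `fold_ex` for `M2`, `p1` (`b = p2`).  `φ' p3 = p4`, `φ' p4 = p3` (`φ2 p4 = p1`).
`Red` and covering by composition.
-/

namespace TwoPlane
namespace Mp

variable {D : Type} [DecidableEq D]

private theorem r3_mono (M : Mp D) {L L' : D → D → Prop} (h : ∀ a b, L a b → L' a b) {x y : D}
    (hL : M.Lnk L x y) : M.Lnk L' x y :=
  M.Lnk_le (M.Lnk_equiv _) (fun _ ha => M.V_Lnk (M.V_σ ha)) (fun a b h' => M.Lnk_of (h a b h'))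
    hL

/-- the same statement with names for all the darts -/
private theorem r3_main (M : Mp D) (hT : M.Tight) (r t2 t3 p p1 p2 p3 p4 : D) (hr : r ∈ M.S)
    (a1 : M.φ r = t2) (a2 : M.φ t2 = t3) (a3 : M.φ t3 = r) (hp : M.α t3 = p)
    (b0 : M.φ p = p1) (b1 : M.φ p1 = p2) (b2 : M.φ p2 = p3) (b3 : M.φ p3 = p4)
    (b4 : M.φ p4 = p)
    (nt : t2 ≠ r ∧ t3 ≠ r ∧ t3 ≠ t2)
    (np : p1 ≠ p ∧ p2 ≠ p ∧ p3 ≠ p ∧ p4 ≠ p ∧ p2 ≠ p1 ∧ p3 ≠ p1 ∧ p4 ≠ p1 ∧ p3 ≠ p2 ∧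
      p4 ≠ p2 ∧ p4 ≠ p3)
    (ntp : ∀ x, (x = r ∨ x = t2 ∨ x = t3) → (x = p ∨ x = p1 ∨ x = p2 ∨ x = p3 ∨ x = p4) →
      False)
    (Y : D → Prop) (hY : ∀ d ∈ M.S, (Y d ↔ Y (M.φ d))) (hY1 : Y t3) (hY2 : ¬ Y p)
    (hf1 : M.Free p p3) (hf2 : M.Free p1 p3) :
    ∃ M' : Mp D, M'.Pcl ∧
      (∀ d, d ∈ M'.S ↔ d ∈ M.S ∧ d ≠ r ∧ d ≠ t2 ∧ d ≠ t3 ∧ d ≠ p ∧ d ≠ p1 ∧ d ≠ p2) ∧
      (∀ d ∈ M.S, d ≠ t2 → d ≠ p4 → d ≠ t3 → d ≠ p → M'.φ d = M.φ d) ∧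
      M'.φ p3 = p4 ∧ M'.φ p4 = p3 ∧
      M.Red M' (fun x y => (x = r ∧ y = p1) ∨ (x = p1 ∧ y = p3)) ∧
      (∀ x ∈ M.S, ∃ y ∈ M'.S,
        M.Lnk (fun x y => (x = r ∧ y = p1) ∨ (x = p1 ∧ y = p3)) x y) := by
  obtain ⟨nt1, nt2, nt3⟩ := nt
  obtain ⟨n10, n20, n30, n40, n21, n31, n41, n32, n42, n43⟩ := np
  have nrp : r ≠ p := fun h => ntp r (Or.inl rfl) (Or.inl h)
  have nrp1 : r ≠ p1 := fun h => ntp r (Or.inl rfl) (Or.inr (Or.inl h))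
  have nrp2 : r ≠ p2 := fun h => ntp r (Or.inl rfl) (Or.inr (Or.inr (Or.inl h)))
  have nrp3 : r ≠ p3 := fun h => ntp r (Or.inl rfl) (Or.inr (Or.inr (Or.inr (Or.inl h))))
  have nrp4 : r ≠ p4 := fun h => ntp r (Or.inl rfl) (Or.inr (Or.inr (Or.inr (Or.inr h))))
  have n2p : t2 ≠ p := fun h => ntp t2 (Or.inr (Or.inl rfl)) (Or.inl h)
  have n2p1 : t2 ≠ p1 := fun h => ntp t2 (Or.inr (Or.inl rfl)) (Or.inr (Or.inl h))
  have n2p2 : t2 ≠ p2 := fun h => ntp t2 (Or.inr (Or.inl rfl)) (Or.inr (Or.inr (Or.inl h)))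
  have n3p : t3 ≠ p := fun h => ntp t3 (Or.inr (Or.inr rfl)) (Or.inl h)
  have n3p1 : t3 ≠ p1 := fun h => ntp t3 (Or.inr (Or.inr rfl)) (Or.inr (Or.inl h))
  have n3p2 : t3 ≠ p2 := fun h => ntp t3 (Or.inr (Or.inr rfl)) (Or.inr (Or.inr (Or.inl h)))
  have n3p3 : t3 ≠ p3 := fun h => ntp t3 (Or.inr (Or.inr rfl))
    (Or.inr (Or.inr (Or.inr (Or.inl h))))
  have n3p4 : t3 ≠ p4 := fun h => ntp t3 (Or.inr (Or.inr rfl))
    (Or.inr (Or.inr (Or.inr (Or.inr h))))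
  have ht2 : t2 ∈ M.S := a1 ▸ M.φS r hr
  have ht3 : t3 ∈ M.S := a2 ▸ M.φS t2 ht2
  have hpS : p ∈ M.S := hp ▸ M.αS t3 ht3
  have hp1 : p1 ∈ M.S := b0 ▸ M.φS p hpS
  have hp2 : p2 ∈ M.S := b1 ▸ M.φS p1 hp1
  have hp3 : p3 ∈ M.S := b2 ▸ M.φS p2 hp2
  have hp4 : p4 ∈ M.S := b3 ▸ M.φS p3 hp3
  have hαp : M.α p = t3 := by rw [← hp, M.αα t3 ht3]
  have Vrp : M.V p r := by
    have h := M.V_αφ ht3
    rwa [hp, a3] at h
  have Vt3 : M.V t3 p1 := by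
    have h := M.V_αφ hpS
    rwa [hαp, b0] at h
  have Vt2 : M.V (M.α t2) t3 := by
    have h := M.V_αφ ht2
    rwa [a2] at h
  have hrp1 : ¬ M.V r p1 := by
    intro h
    refine hT.ok.loopless p hpS ?_
    rw [hαp]
    exact M.V_trans Vrp (M.V_trans h (M.V_symm Vt3))
  have hPcl : M.Pcl := ⟨hT.ok.planar, hT.ok.conn, hT.ok.loopless⟩
  obtain ⟨M1, P1, S1, α1, φ1, R1, V1, C1⟩ := del_ex M hPcl t3 ht3 Y hY hY1 (by rwa [hp])
  rw [hp] at S1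
  simp only [hp, b0, a3] at φ1
  have m1 : ∀ d, d ∈ M1.S ↔ d ∈ M.S ∧ d ≠ t3 ∧ d ≠ p := by
    intro d
    rw [S1, Finset.mem_erase, Finset.mem_erase]
    tauto
  have f1r : M1.φ r = t2 := by
    rw [φ1, a1, if_neg (Ne.symm nt3), if_neg n2p]
  have f1t2 : M1.φ t2 = p1 := by
    rw [φ1, a2, if_pos rfl]
  have f1p1 : M1.φ p1 = p2 := by
    rw [φ1, b1, if_neg (Ne.symm n3p2), if_neg n20]
  have f1p2 : M1.φ p2 = p3 := by
    rw [φ1, b2, if_neg (Ne.symm n3p3), if_neg n30]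
  have f1p3 : M1.φ p3 = p4 := by
    rw [φ1, b3, if_neg (Ne.symm n3p4), if_neg n40]
  have f1p4 : M1.φ p4 = r := by
    rw [φ1, b4, if_neg (Ne.symm n3p), if_pos rfl]
  have r1 : r ∈ M1.S := (m1 r).2 ⟨hr, Ne.symm nt2, nrp⟩
  have F1 : M1.Free r (M1.φ (M1.φ r)) := by
    rw [f1r, f1t2]
    refine ⟨fun h => hrp1 (V1 _ _ h), fun d hd h => ?_⟩
    obtain ⟨h1, h2⟩ := h
    rw [α1] at h2
    have k1 := V1 _ _ h1
    have k2 := V1 _ _ h2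
    obtain ⟨d1, d2, d3⟩ := (m1 d).1 hd
    refine d3 (hT.simple d d1 p hpS (M.V_trans k1 (M.V_symm Vrp)) ?_)
    rw [hαp]
    exact M.V_trans k2 (M.V_symm Vt3)
  obtain ⟨M2, P2, S2, φ2, α2, R2, V2, C2⟩ := fold_ex M1 P1 r r1 F1
  simp only [f1r, f1t2] at S2 φ2 α2 R2 V2 C2
  have m2 : ∀ d, d ∈ M2.S ↔ d ∈ M.S ∧ d ≠ t3 ∧ d ≠ p ∧ d ≠ r ∧ d ≠ t2 := by
    intro d
    rw [S2, Finset.mem_erase, Finset.mem_erase, m1]
    tauto
  have f2p1 : M2.φ p1 = p2 := by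
    rw [φ2, f1p1, if_neg (Ne.symm nrp2)]
  have f2p2 : M2.φ p2 = p3 := by
    rw [φ2, f1p2, if_neg (Ne.symm nrp3)]
  have f2p3 : M2.φ p3 = p4 := by
    rw [φ2, f1p3, if_neg (Ne.symm nrp4)]
  have f2p4 : M2.φ p4 = p1 := by
    rw [φ2, f1p4, if_pos rfl]
  have hp12 : p1 ∈ M2.S := (m2 p1).2 ⟨hp1, Ne.symm n3p1, n10, Ne.symm nrp1, Ne.symm n2p1⟩
  have e3 : ∀ x, M2.V x p3 → M.V x p3 := by
    intro x h
    rcases V2 _ _ h with h1 | ⟨_, h1 | h1⟩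
    · exact V1 _ _ h1
    · exact absurd (M.V_trans Vrp (M.V_symm (V1 _ _ h1))) hf1.1
    · exact absurd (M.V_symm (V1 _ _ h1)) hf2.1
  have e1 : ∀ x, M2.V x p1 → M.V x p ∨ M.V x p1 := by
    intro x h
    rcases V2 _ _ h with h1 | ⟨h1 | h1, _⟩
    · exact Or.inr (V1 _ _ h1)
    · exact Or.inl (M.V_trans (V1 _ _ h1) (M.V_symm Vrp))
    · exact Or.inr (V1 _ _ h1)
  have F2 : M2.Free p1 (M2.φ (M2.φ p1)) := by
    rw [f2p1, f2p2]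
    refine ⟨fun h => hf2.1 (e3 _ h), fun d hd h => ?_⟩
    obtain ⟨h1, h2⟩ := h
    have k1 := e1 _ h1
    have k2 := e3 _ h2
    rw [α2] at k2
    simp only [α1] at k2
    by_cases q1 : d = M.α r
    · rw [if_pos q1] at k2
      exact hf2.1 (M.V_symm (M.V_trans (M.V_symm k2) (M.V_trans Vt2 Vt3)))
    · rw [if_neg q1] at k2
      by_cases q2 : d = M.α t2
      · rw [if_pos q2] at k2
        exact hf1.2 r hr ⟨M.V_symm Vrp, k2⟩
      · rw [if_neg q2] at k2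
        rcases k1 with k1 | k1
        · exact hf1.2 d ((m2 d).1 hd).1 ⟨k1, k2⟩
        · exact hf2.2 d ((m2 d).1 hd).1 ⟨k1, k2⟩
  obtain ⟨M3, P3, S3, φ3, α3, R3, V3, C3⟩ := fold_ex M2 P2 p1 hp12 F2
  simp only [f2p1, f2p2] at S3 φ3 α3 R3 V3 C3
  refine ⟨M3, P3, ?_, ?_, ?_, ?_, ?_, ?_⟩
  · intro d
    rw [S3, Finset.mem_erase, Finset.mem_erase, m2]
    tauto
  · intro d hd h1 h2 h3 h4
    have g1 : M.φ d ≠ t3 := fun h => h1 (M.φinj d hd t2 ht2 (h.trans a2.symm))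
    have g2 : M.φ d ≠ p := fun h => h2 (M.φinj d hd p4 hp4 (h.trans b4.symm))
    have g3 : M.φ d ≠ r := fun h => h3 (M.φinj d hd t3 ht3 (h.trans a3.symm))
    have g4 : M.φ d ≠ p1 := fun h => h4 (M.φinj d hd p hpS (h.trans b0.symm))
    have g5 : M1.φ d = M.φ d := by rw [φ1, if_neg g1, if_neg g2]
    have g6 : M2.φ d = M.φ d := by rw [φ2, g5, if_neg g3]
    rw [φ3, g6, if_neg g4]
  · rw [φ3, f2p3, if_neg n41]
  · rw [φ3, f2p4, if_pos rfl]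
  · refine red_mono (red_trans (red_trans R1 R2) R3) ?_
    intro x y h
    rcases h with (h | h) | h
    · exact absurd h id
    · exact Or.inl h
    · exact Or.inr h
  · intro x hx
    obtain ⟨y1, hy1, g1⟩ := C1 x hx
    obtain ⟨y2, hy2, g2⟩ := C2 y1 hy1
    obtain ⟨y3, hy3, g3⟩ := C3 y2 hy2
    refine ⟨y3, hy3, M.Lnk_trans (M.V_Lnk g1) (M.Lnk_trans (r3_mono M ?_ (red_lnk R1 g2))
      (r3_mono M ?_ (red_lnk (red_trans R1 R2) g3)))⟩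
    · intro a b h
      rcases h with h | h
      · exact absurd h id
      · exact Or.inl h
    · intro a b h
      rcases h with (h | h) | h
      · exact absurd h id
      · exact Or.inl h
      · exact Or.inr h

theorem mapR3 (M : Mp D) (hT : M.Tight) (r p : D) (hr : r ∈ M.S) (h3 : M.L3 r)
    (hp : p = M.α (M.φ (M.φ r))) (h5 : M.L5 p) (hf1 : M.Free p (M.it p 3))
    (hf2 : M.Free (M.it p 1) (M.it p 3)) :
    ∃ M' : Mp D, M'.Pcl ∧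
      (∀ d, d ∈ M'.S ↔ d ∈ M.S ∧ d ≠ r ∧ d ≠ M.φ r ∧ d ≠ M.φ (M.φ r) ∧ d ≠ p ∧
        d ≠ M.it p 1 ∧ d ≠ M.it p 2) ∧
      (∀ d ∈ M.S, ¬ M.Fc r d → ¬ M.Fc p d → M'.φ d = M.φ d) ∧
      M'.φ (M.it p 3) = M.it p 4 ∧ M'.φ (M.it p 4) = M.it p 3 ∧
      M.Red M' (fun x y => (x = r ∧ y = M.it p 1) ∨ (x = M.it p 1 ∧ y = M.it p 3)) ∧
      (∀ x ∈ M.S, ∃ y ∈ M'.S,
        M.Lnk (fun x y => (x = r ∧ y = M.it p 1) ∨ (x = M.it p 1 ∧ y = M.it p 3)) x y) := by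
  have F3 : ∀ d, M.L3 d → (M.L2 d ∨ M.L3 d ∨ M.L4 d ∨ M.L5 d) := fun d h => Or.inr (Or.inl h)
  have F5 : ∀ d, M.L5 d → (M.L2 d ∨ M.L3 d ∨ M.L4 d ∨ M.L5 d) :=
    fun d h => Or.inr (Or.inr (Or.inr h))
  have ht2 : M.φ r ∈ M.S := M.φS r hr
  have ht3 : M.φ (M.φ r) ∈ M.S := M.φS _ ht2
  have hpS : p ∈ M.S := by rw [hp]; exact M.αS _ ht3
  have hL3 : ∀ x, M.Fc r x → M.L3 x := fun x hx => (M.L_Fc hr (F3 r h3) hx).2.1.1 h3
  have hL5 : ∀ x, M.Fc p x → M.L5 x := fun x hx => (M.L_Fc hpS (F5 p h5) hx).2.2.2.1 h5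
  have hno : ∀ x, M.Fc r x → M.Fc p x → False :=
    fun x h h' => ((M.excl x).2.1 (hL3 x h)).2 (hL5 x h')
  have fr : M.Fc r r := M.Fc_self r
  have ft2 : M.Fc r (M.φ r) := Or.inr (Or.inl rfl)
  have ft3 : M.Fc r (M.φ (M.φ r)) := Or.inr (Or.inr (Or.inl rfl))
  have inj : ∀ i j : Fin 5, i ≠ j → M.it p i ≠ M.it p j :=
    fun i j hij h => hij (M.L5_inj hpS h5 i j h)
  have fp0 : M.Fc p p := M.Fc_self p
  have fp1 : M.Fc p (M.it p 1) := Or.inr (Or.inl rfl)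
  have fp2 : M.Fc p (M.it p 2) := Or.inr (Or.inr (Or.inl rfl))
  have fp3 : M.Fc p (M.it p 3) := Or.inr (Or.inr (Or.inr (Or.inl rfl)))
  have fp4 : M.Fc p (M.it p 4) := Or.inr (Or.inr (Or.inr (Or.inr rfl)))
  have k1 : M.φ (M.φ r) ≠ r := by
    intro h
    have h' := h3.2
    rw [h] at h'
    exact h3.1 h'
  have k2 : M.φ (M.φ r) ≠ M.φ r := fun h => h3.1 (M.φinj _ ht2 _ hr h)
  obtain ⟨M', c1, c2, c3, c4, c5, c6, c7⟩ := r3_main M hT r (M.φ r) (M.φ (M.φ r)) p (M.it p 1)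
    (M.it p 2) (M.it p 3) (M.it p 4) hr rfl rfl h3.2 hp.symm rfl rfl rfl rfl h5.2
    ⟨h3.1, k1, k2⟩
    ⟨inj 1 0 (by decide), inj 2 0 (by decide), inj 3 0 (by decide), inj 4 0 (by decide),
      inj 2 1 (by decide), inj 3 1 (by decide), inj 4 1 (by decide), inj 3 2 (by decide),
      inj 4 2 (by decide), inj 4 3 (by decide)⟩
    (by
      intro x h h'
      have g1 : M.Fc r x := by
        rcases h with h | h | h <;> rw [h]
        · exact fr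
        · exact ft2
        · exact ft3
      have g2 : M.Fc p x := by
        rcases h' with h | h | h | h | h <;> rw [h]
        · exact fp0
        · exact fp1
        · exact fp2
        · exact fp3
        · exact fp4
      exact hno x g1 g2)
    (M.Fc r) (fun d hd => M.Fc_φ hr (F3 r h3) hd) ft3 (fun h => hno p h fp0) hf1 hf2
  refine ⟨M', c1, c2, ?_, c4, c5, c6, c7⟩
  intro d hd g1 g2
  exact c3 d hd (fun h => g1 (h ▸ ft2)) (fun h => g2 (h ▸ fp4)) (fun h => g1 (h ▸ ft3))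
    (fun h => g2 (h ▸ fp0))

end Mp
end TwoPlane
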