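import Pool.Agent.Work.MP_3b7449_co.TP.Ex
import Pool.Agent.Work.MP_3b7449_co.TP.Faces

/-!
# MapR5 (size M-L): the reduced map when the vertex of `p4` has degree 2

`T = (r, t2, t3)`, `t3 = φ (φ r)`, `p = α t3`, pentagon `p0 = p, …, p4`; third face
`F = (α p4, α p3, e)` with `e = φ (α p3)`, `φ e = α p4`.  The three faces are pairwise disjoint
(`L3`/`L5`; `hTF` for `T` and `F`).  `V r p`, `V (α p) p1`.
1. `M1` from `del_ex` for `p3`, `Y = Fc p` (`α p3` is in `F`, a triangle): `φ1 p2 = e`,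
   `φ1 (α p4) = p4`, otherwise `φ`.
2. `M2` from `del_ex_pend` for `M1` and the dart `α p4` (`φ1 (α p4) = p4 = α1 (α p4)`,
   `φ1 p4 = p ≠ α p4`): `φ2 e = p`.  Face `p, p1, p2, e`.
3. `M3` from `del_ex` for `M2` and `t3`, `Y d := d = r ∨ d = t2 ∨ d = t3`: `φ3 t2 = p1`,
   `φ3 e = r`.  Face `r, t2, p1, p2, e`.
4. `Free` in `M3` for `r`, `p1 = φ3 (φ3 r)`: as in MapC, `V3 ⊆ V`, `α3 = α`, the only edge
   joining them is that of `p`, which is not in `M3.S`.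
5. `M'` from `fold_ex` for `M3`, `r`: `φ' p1 = p2`, `φ' p2 = e`, `φ' e = p1`.
Covering: every dart except `p4` and `α p3` (the darts of the vertex removed in step 2; at step 2
the exceptional dart is `α (α p4) = p4`; `α p3` is removed in step 1 and `σ (α p3) = p4`).
-/

namespace TwoPlane
namespace Mp

variable {D : Type} [DecidableEq D]

private theorem r5_mono (M : Mp D) {L L' : D → D → Prop} (h : ∀ a b, L a b → L' a b) {x y : D}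
    (hL : M.Lnk L x y) : M.Lnk L' x y :=
  M.Lnk_le (M.Lnk_equiv _) (fun _ ha => M.V_Lnk (M.V_σ ha)) (fun a b h' => M.Lnk_of (h a b h'))
    hL

/-- the same statement with names for all the darts; the values of `tag` show that the
eleven darts are different -/
private theorem r5_main (M : Mp D) (hT : M.Tight) (r t2 t3 p p1 p2 p3 p4 q4 q3 e : D)
    (hr : r ∈ M.S)
    (a1 : M.φ r = t2) (a2 : M.φ t2 = t3) (a3 : M.φ t3 = r) (hp : M.α t3 = p)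
    (b0 : M.φ p = p1) (b1 : M.φ p1 = p2) (b2 : M.φ p2 = p3) (b3 : M.φ p3 = p4)
    (b4 : M.φ p4 = p) (g4 : M.α p4 = q4) (g3 : M.α p3 = q3) (c4 : M.φ q4 = q3)
    (c3 : M.φ q3 = e) (ce : M.φ e = q4)
    (tag : D → ℕ) (tr : tag r = 0) (tt2 : tag t2 = 1) (tt3 : tag t3 = 2) (tp : tag p = 3)
    (tp1 : tag p1 = 4) (tp2 : tag p2 = 5) (tp3 : tag p3 = 6) (tp4 : tag p4 = 7)
    (tq4 : tag q4 = 8) (tq3 : tag q3 = 9) (te : tag e = 10)
    (Y : D → Prop) (hY : ∀ d ∈ M.S, (Y d ↔ Y (M.φ d))) (hY1 : Y p3) (hY2 : ¬ Y q3) :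
    ∃ M' : Mp D, M'.Pcl ∧
      (∀ d, d ∈ M'.S ↔ d ∈ M.S ∧ d ≠ r ∧ d ≠ t2 ∧ d ≠ t3 ∧ d ≠ p ∧ d ≠ p3 ∧ d ≠ p4 ∧
        d ≠ q3 ∧ d ≠ q4) ∧
      (∀ d, M.φ d ≠ p3 → M.φ d ≠ q3 → M.φ d ≠ q4 → M.φ d ≠ p4 → M.φ d ≠ t3 → M.φ d ≠ p →
        M.φ d ≠ r → M'.φ d = M.φ d) ∧
      M'.φ p1 = p2 ∧ M'.φ p2 = e ∧ M'.φ e = p1 ∧
      M.Red M' (fun x y => x = r ∧ y = p1) ∧
      (∀ x ∈ M.S, x ≠ p4 → x ≠ q3 → ∃ y ∈ M'.S,
        M.Lnk (fun x y => x = r ∧ y = p1) x y) := by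
  have ne : ∀ {x y : D} {i j : ℕ}, tag x = i → tag y = j → i ≠ j → x ≠ y :=
    fun h h' hn h2 => hn (by rw [← h, ← h', h2])
  have ht2 : t2 ∈ M.S := a1 ▸ M.φS r hr
  have ht3 : t3 ∈ M.S := a2 ▸ M.φS t2 ht2
  have hpS : p ∈ M.S := hp ▸ M.αS t3 ht3
  have hp1 : p1 ∈ M.S := b0 ▸ M.φS p hpS
  have hp2 : p2 ∈ M.S := b1 ▸ M.φS p1 hp1
  have hp3 : p3 ∈ M.S := b2 ▸ M.φS p2 hp2
  have hp4 : p4 ∈ M.S := b3 ▸ M.φS p3 hp3
  have hq3 : q3 ∈ M.S := g3 ▸ M.αS p3 hp3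
  have hq4 : q4 ∈ M.S := g4 ▸ M.αS p4 hp4
  have he : e ∈ M.S := c3 ▸ M.φS q3 hq3
  have hαp : M.α p = t3 := by rw [← hp, M.αα t3 ht3]
  have hαq4 : M.α q4 = p4 := by rw [← g4, M.αα p4 hp4]
  have Vrp : M.V p r := by
    have h := M.V_αφ ht3
    rwa [hp, a3] at h
  have Vt3 : M.V t3 p1 := by
    have h := M.V_αφ hpS
    rwa [hαp, b0] at h
  have Vp3 : M.V p3 e := by
    have h := M.V_σ hp3
    unfold σ at h
    rwa [g3, c3] at h
  have hrp1 : ¬ M.V r p1 := by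
    intro h
    refine hT.ok.loopless p hpS ?_
    rw [hαp]
    exact M.V_trans Vrp (M.V_trans h (M.V_symm Vt3))
  have hPcl : M.Pcl := ⟨hT.ok.planar, hT.ok.conn, hT.ok.loopless⟩
  -- step 1
  obtain ⟨M1, P1, S1, α1, φ1, R1, V1, C1⟩ := del_ex M hPcl p3 hp3 Y hY hY1 (by rwa [g3])
  rw [g3] at S1
  simp only [g3, c3, b3] at φ1
  have m1 : ∀ d, d ∈ M1.S ↔ d ∈ M.S ∧ d ≠ p3 ∧ d ≠ q3 := by
    intro d
    rw [S1, Finset.mem_erase, Finset.mem_erase]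
    tauto
  have f1r : M1.φ r = t2 := by
    rw [φ1, a1, if_neg (ne tt2 tp3 (by decide)), if_neg (ne tt2 tq3 (by decide))]
  have f1t2 : M1.φ t2 = t3 := by
    rw [φ1, a2, if_neg (ne tt3 tp3 (by decide)), if_neg (ne tt3 tq3 (by decide))]
  have f1t3 : M1.φ t3 = r := by
    rw [φ1, a3, if_neg (ne tr tp3 (by decide)), if_neg (ne tr tq3 (by decide))]
  have f1p : M1.φ p = p1 := by
    rw [φ1, b0, if_neg (ne tp1 tp3 (by decide)), if_neg (ne tp1 tq3 (by decide))]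
  have f1p2 : M1.φ p2 = e := by
    rw [φ1, b2, if_pos rfl]
  have f1p4 : M1.φ p4 = p := by
    rw [φ1, b4, if_neg (ne tp tp3 (by decide)), if_neg (ne tp tq3 (by decide))]
  have f1q4 : M1.φ q4 = p4 := by
    rw [φ1, c4, if_neg (ne tq3 tp3 (by decide)), if_pos rfl]
  have f1e : M1.φ e = q4 := by
    rw [φ1, ce, if_neg (ne tq4 tp3 (by decide)), if_neg (ne tq4 tq3 (by decide))]
  have q41 : q4 ∈ M1.S := (m1 q4).2 ⟨hq4, ne tq4 tp3 (by decide), ne tq4 tq3 (by decide)⟩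
  have αq4 : M1.α q4 = p4 := by rw [α1, hαq4]
  -- step 2
  obtain ⟨M2, P2, S2, α2, φ2, R2, V2, C2⟩ := del_ex_pend M1 P1 q4 q41 (by rw [f1q4, αq4])
    (by
      rw [αq4, f1p4]
      exact ne tp tq4 (by decide))
  rw [αq4] at S2 C2
  simp only [αq4, f1p4, f1q4] at φ2
  have m2 : ∀ d, d ∈ M2.S ↔ d ∈ M.S ∧ d ≠ p3 ∧ d ≠ q3 ∧ d ≠ p4 ∧ d ≠ q4 := by
    intro d
    rw [S2, Finset.mem_erase, Finset.mem_erase, m1]
    tauto
  have f2r : M2.φ r = t2 := by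
    rw [φ2, f1r, if_neg (ne tt2 tq4 (by decide)), if_neg (ne tt2 tp4 (by decide))]
  have f2t2 : M2.φ t2 = t3 := by
    rw [φ2, f1t2, if_neg (ne tt3 tq4 (by decide)), if_neg (ne tt3 tp4 (by decide))]
  have f2t3 : M2.φ t3 = r := by
    rw [φ2, f1t3, if_neg (ne tr tq4 (by decide)), if_neg (ne tr tp4 (by decide))]
  have f2p : M2.φ p = p1 := by
    rw [φ2, f1p, if_neg (ne tp1 tq4 (by decide)), if_neg (ne tp1 tp4 (by decide))]
  have f2p2 : M2.φ p2 = e := by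
    rw [φ2, f1p2, if_neg (ne te tq4 (by decide)), if_neg (ne te tp4 (by decide))]
  have f2e : M2.φ e = p := by
    rw [φ2, f1e, if_pos rfl]
  have r2 : r ∈ M2.S := (m2 r).2 ⟨hr, ne tr tp3 (by decide), ne tr tq3 (by decide),
    ne tr tp4 (by decide), ne tr tq4 (by decide)⟩
  have t22 : t2 ∈ M2.S := (m2 t2).2 ⟨ht2, ne tt2 tp3 (by decide), ne tt2 tq3 (by decide),
    ne tt2 tp4 (by decide), ne tt2 tq4 (by decide)⟩
  have t32 : t3 ∈ M2.S := (m2 t3).2 ⟨ht3, ne tt3 tp3 (by decide), ne tt3 tq3 (by decide),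
    ne tt3 tp4 (by decide), ne tt3 tq4 (by decide)⟩
  have αt3 : M2.α t3 = p := by rw [α2, α1, hp]
  -- step 3
  obtain ⟨M3, P3, S3, α3, φ3, R3, V3, C3⟩ := del_ex M2 P2 t3 t32
    (fun d => d = r ∨ d = t2 ∨ d = t3)
    (by
      intro d hd
      constructor
      · rintro (h | h | h)
        · rw [h, f2r]; exact Or.inr (Or.inl rfl)
        · rw [h, f2t2]; exact Or.inr (Or.inr rfl)
        · rw [h, f2t3]; exact Or.inl rfl
      · rintro (h | h | h)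
        · exact Or.inr (Or.inr (M2.φinj d hd t3 t32 (h.trans f2t3.symm)))
        · exact Or.inl (M2.φinj d hd r r2 (h.trans f2r.symm))
        · exact Or.inr (Or.inl (M2.φinj d hd t2 t22 (h.trans f2t2.symm))))
    (Or.inr (Or.inr rfl))
    (by
      rw [αt3]
      rintro (h | h | h)
      · exact ne tp tr (by decide) h
      · exact ne tp tt2 (by decide) h
      · exact ne tp tt3 (by decide) h)
  rw [αt3] at S3
  simp only [αt3, f2p, f2t3] at φ3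
  have m3 : ∀ d, d ∈ M3.S ↔ d ∈ M.S ∧ d ≠ p3 ∧ d ≠ q3 ∧ d ≠ p4 ∧ d ≠ q4 ∧ d ≠ t3 ∧ d ≠ p := by
    intro d
    rw [S3, Finset.mem_erase, Finset.mem_erase, m2]
    tauto
  have f3r : M3.φ r = t2 := by
    rw [φ3, f2r, if_neg (ne tt2 tt3 (by decide)), if_neg (ne tt2 tp (by decide))]
  have f3t2 : M3.φ t2 = p1 := by
    rw [φ3, f2t2, if_pos rfl]
  have f3p2 : M3.φ p2 = e := by
    rw [φ3, f2p2, if_neg (ne te tt3 (by decide)), if_neg (ne te tp (by decide))]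
  have f3e : M3.φ e = r := by
    rw [φ3, f2e, if_neg (ne tp tt3 (by decide)), if_pos rfl]
  have r3 : r ∈ M3.S := (m3 r).2 ⟨hr, ne tr tp3 (by decide), ne tr tq3 (by decide),
    ne tr tp4 (by decide), ne tr tq4 (by decide), ne tr tt3 (by decide), ne tr tp (by decide)⟩
  have V13 : ∀ x y, M3.V x y → M.V x y := fun x y h => V1 _ _ (V2 _ _ (V3 _ _ h))
  have F3 : M3.Free r (M3.φ (M3.φ r)) := by
    rw [f3r, f3t2]
    refine ⟨fun h => hrp1 (V13 _ _ h), fun d hd h => ?_⟩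
    obtain ⟨h1, h2⟩ := h
    rw [α3, α2, α1] at h2
    have k1 := V13 _ _ h1
    have k2 := V13 _ _ h2
    obtain ⟨d1, d2, d3, d4, d5, d6, d7⟩ := (m3 d).1 hd
    refine d7 (hT.simple d d1 p hpS (M.V_trans k1 (M.V_symm Vrp)) ?_)
    rw [hαp]
    exact M.V_trans k2 (M.V_symm Vt3)
  -- step 4
  obtain ⟨M4, P4, S4, φ4, α4, R4, V4, C4⟩ := fold_ex M3 P3 r r3 F3
  simp only [f3r, f3t2] at S4 φ4 α4 R4 V4 C4
  have R13 : M.Red M3 (fun _ _ => False) :=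
    red_mono (red_trans (red_trans R1 R2) R3) (fun x y h => by
      rcases h with (h | h) | h <;> exact h)
  have ev : ∀ d, M.φ d ≠ p3 → M.φ d ≠ q3 → M.φ d ≠ q4 → M.φ d ≠ p4 → M.φ d ≠ t3 →
      M.φ d ≠ p → M.φ d ≠ r → M4.φ d = M.φ d := by
    intro d h1 h2 h3 h4 h5 h6 h7
    have e1 : M1.φ d = M.φ d := by rw [φ1, if_neg h1, if_neg h2]
    have e2 : M2.φ d = M.φ d := by rw [φ2, e1, if_neg h3, if_neg h4]
    have e3 : M3.φ d = M.φ d := by rw [φ3, e2, if_neg h5, if_neg h6]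
    rw [φ4, e3, if_neg h7]
  refine ⟨M4, P4, ?_, ev, ?_, ?_, ?_, ?_, ?_⟩
  · intro d
    rw [S4, Finset.mem_erase, Finset.mem_erase, m3]
    tauto
  · rw [ev p1 (by rw [b1]; exact ne tp2 tp3 (by decide)) (by rw [b1]; exact ne tp2 tq3 (by decide))
      (by rw [b1]; exact ne tp2 tq4 (by decide)) (by rw [b1]; exact ne tp2 tp4 (by decide))
      (by rw [b1]; exact ne tp2 tt3 (by decide)) (by rw [b1]; exact ne tp2 tp (by decide))
      (by rw [b1]; exact ne tp2 tr (by decide)), b1]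
  · rw [φ4, f3p2, if_neg (ne te tr (by decide))]
  · rw [φ4, f3e, if_pos rfl]
  · refine red_mono (red_trans R13 R4) ?_
    intro x y h
    rcases h with h | h
    · exact absurd h id
    · exact h
  · intro x hx hx4 hx3
    have hy : ∃ y ∈ M1.S, y ≠ p4 ∧ M.V x y := by
      by_cases h : x = p3
      · refine ⟨e, (m1 e).2 ⟨he, ne te tp3 (by decide), ne te tq3 (by decide)⟩,
          ne te tp4 (by decide), ?_⟩
        rw [h]
        exact Vp3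
      · exact ⟨x, (m1 x).2 ⟨hx, h, hx3⟩, hx4, M.V_refl x⟩
    obtain ⟨y1, hy1, hy1', k1⟩ := hy
    obtain ⟨y2, hy2, k2⟩ := C2 y1 hy1 hy1'
    obtain ⟨y3, hy3, k3⟩ := C3 y2 hy2
    obtain ⟨y4, hy4, k4⟩ := C4 y3 hy3
    have k : M.V x y3 := M.V_trans k1 (M.V_trans (V1 _ _ k2) (V1 _ _ (V2 _ _ k3)))
    refine ⟨y4, hy4, M.Lnk_trans (M.V_Lnk k) (r5_mono M ?_ (red_lnk R13 k4))⟩
    intro a b h
    rcases h with h | h
    · exact absurd h id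
    · exact h

theorem mapR5 (M : Mp D) (hT : M.Tight) (r p : D) (hr : r ∈ M.S) (h3 : M.L3 r)
    (hp : p = M.α (M.φ (M.φ r))) (h5 : M.L5 p)
    (hF1 : M.φ (M.α (M.it p 4)) = M.α (M.it p 3))
    (hF2 : M.φ (M.φ (M.α (M.it p 3))) = M.α (M.it p 4))
    (hTF : ¬ M.Fc r (M.α (M.it p 3))) :
    ∃ M' : Mp D, M'.Pcl ∧
      (∀ d, d ∈ M'.S ↔ d ∈ M.S ∧ d ≠ r ∧ d ≠ M.φ r ∧ d ≠ M.φ (M.φ r) ∧ d ≠ p ∧
        d ≠ M.it p 3 ∧ d ≠ M.it p 4 ∧ d ≠ M.α (M.it p 3) ∧ d ≠ M.α (M.it p 4)) ∧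
      (∀ d ∈ M.S, ¬ M.Fc r d → ¬ M.Fc p d → ¬ M.Fc (M.α (M.it p 3)) d → M'.φ d = M.φ d) ∧
      M'.φ (M.it p 1) = M.it p 2 ∧ M'.φ (M.it p 2) = M.φ (M.α (M.it p 3)) ∧
      M'.φ (M.φ (M.α (M.it p 3))) = M.it p 1 ∧
      M.Red M' (fun x y => x = r ∧ y = M.it p 1) ∧
      (∀ x ∈ M.S, x ≠ M.it p 4 → x ≠ M.α (M.it p 3) → ∃ y ∈ M'.S,
        M.Lnk (fun x y => x = r ∧ y = M.it p 1) x y) := by
  have F3 : ∀ d, M.L3 d → (M.L2 d ∨ M.L3 d ∨ M.L4 d ∨ M.L5 d) := fun d h => Or.inr (Or.inl h)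
  have F5 : ∀ d, M.L5 d → (M.L2 d ∨ M.L3 d ∨ M.L4 d ∨ M.L5 d) :=
    fun d h => Or.inr (Or.inr (Or.inr h))
  have ht2 : M.φ r ∈ M.S := M.φS r hr
  have ht3 : M.φ (M.φ r) ∈ M.S := M.φS _ ht2
  have hpS : p ∈ M.S := by rw [hp]; exact M.αS _ ht3
  have inj : ∀ i j : Fin 5, i ≠ j → M.it p i ≠ M.it p j :=
    fun i j hij h => hij (M.L5_inj hpS h5 i j h)
  have fp0 : M.Fc p p := M.Fc_self p
  have fp1 : M.Fc p (M.it p 1) := Or.inr (Or.inl rfl)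
  have fp2 : M.Fc p (M.it p 2) := Or.inr (Or.inr (Or.inl rfl))
  have fp3 : M.Fc p (M.it p 3) := Or.inr (Or.inr (Or.inr (Or.inl rfl)))
  have fp4 : M.Fc p (M.it p 4) := Or.inr (Or.inr (Or.inr (Or.inr rfl)))
  have hp3S : M.it p 3 ∈ M.S := M.Fc_mem hpS fp3
  have hp4S : M.it p 4 ∈ M.S := M.Fc_mem hpS fp4
  obtain ⟨q, hq⟩ : ∃ q, q = M.α (M.it p 3) := ⟨_, rfl⟩
  obtain ⟨u, hu⟩ : ∃ u, u = M.α (M.it p 4) := ⟨_, rfl⟩
  rw [← hq, ← hu] at hF1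
  rw [← hu, ← hq] at hF2
  rw [← hq] at hTF
  have hqS : q ∈ M.S := by rw [hq]; exact M.αS _ hp3S
  have huS : u ∈ M.S := by rw [hu]; exact M.αS _ hp4S
  have heS : M.φ q ∈ M.S := M.φS q hqS
  have hq3 : M.φ (M.φ (M.φ q)) = q := by rw [hF2, hF1]
  have hqe : M.φ q ≠ q := by
    intro h
    rw [h, h] at hF2
    have h1 : M.α (M.it p 3) = M.α (M.it p 4) := by rw [← hq, ← hu, hF2]
    have h2 : M.it p 3 = M.it p 4 := by
      rw [← M.αα _ hp3S, ← M.αα _ hp4S, h1]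
    exact inj 3 4 (by decide) h2
  have hLq : M.L3 q := ⟨hqe, hq3⟩
  have hL3 : ∀ x, M.Fc r x → M.L3 x := fun x hx => (M.L_Fc hr (F3 r h3) hx).2.1.1 h3
  have hL5 : ∀ x, M.Fc p x → M.L5 x := fun x hx => (M.L_Fc hpS (F5 p h5) hx).2.2.2.1 h5
  have hLF : ∀ x, M.Fc q x → M.L3 x := fun x hx => (M.L_Fc hqS (F3 q hLq) hx).2.1.1 hLq
  have no1 : ∀ x, M.Fc r x → M.Fc p x → False :=
    fun x h h' => ((M.excl x).2.1 (hL3 x h)).2 (hL5 x h')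
  have no2 : ∀ x, M.Fc q x → M.Fc p x → False :=
    fun x h h' => ((M.excl x).2.1 (hLF x h)).2 (hL5 x h')
  have no3 : ∀ x, M.Fc r x → M.Fc q x → False := fun x h h' =>
    hTF ((M.Fc_iff hr (F3 r h3) h q).2 ((M.Fc_iff hqS (F3 q hLq) h' q).1 (M.Fc_self q)))
  have fr : M.Fc r r := M.Fc_self r
  have ft2 : M.Fc r (M.φ r) := Or.inr (Or.inl rfl)
  have ft3 : M.Fc r (M.φ (M.φ r)) := Or.inr (Or.inr (Or.inl rfl))
  have fq : M.Fc q q := M.Fc_self q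
  have fe : M.Fc q (M.φ q) := Or.inr (Or.inl rfl)
  have fu : M.Fc q u := Or.inr (Or.inr (Or.inl hF2.symm))
  have k1 : M.φ (M.φ r) ≠ r := by
    intro h
    have h' := h3.2
    rw [h] at h'
    exact h3.1 h'
  have k2 : M.φ (M.φ r) ≠ M.φ r := fun h => h3.1 (M.φinj _ ht2 _ hr h)
  have k3 : u ≠ q := by
    intro h
    rw [h] at hF1
    exact hqe hF1
  have k4 : u ≠ M.φ q := by
    intro h
    rw [← h] at hF2
    rw [hF1] at hF2
    exact k3 hF2.symm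
  have n10 : M.it p 1 ≠ p := inj 1 0 (by decide)
  have n20 : M.it p 2 ≠ p := inj 2 0 (by decide)
  have n30 : M.it p 3 ≠ p := inj 3 0 (by decide)
  have n40 : M.it p 4 ≠ p := inj 4 0 (by decide)
  have n21 : M.it p 2 ≠ M.it p 1 := inj 2 1 (by decide)
  have n31 : M.it p 3 ≠ M.it p 1 := inj 3 1 (by decide)
  have n41 : M.it p 4 ≠ M.it p 1 := inj 4 1 (by decide)
  have n32 : M.it p 3 ≠ M.it p 2 := inj 3 2 (by decide)
  have n42 : M.it p 4 ≠ M.it p 2 := inj 4 2 (by decide)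
  have n43 : M.it p 4 ≠ M.it p 3 := inj 4 3 (by decide)
  classical
  obtain ⟨tag, htag⟩ : ∃ tag : D → ℕ, ∀ d, tag d =
      if M.Fc r d then (if d = r then 0 else if d = M.φ r then 1 else 2) else
      if M.Fc p d then (if d = p then 3 else if d = M.it p 1 then 4 else
        if d = M.it p 2 then 5 else if d = M.it p 3 then 6 else 7) else
      (if d = q then 9 else if d = M.φ q then 10 else 8) := ⟨_, fun _ => rfl⟩
  have o1 : ∀ x, M.Fc p x → ¬ M.Fc r x := fun x h h' => no1 x h' h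
  have o2 : ∀ x, M.Fc q x → ¬ M.Fc r x := fun x h h' => no3 x h' h
  have o3 : ∀ x, M.Fc q x → ¬ M.Fc p x := fun x h h' => no2 x h h'
  obtain ⟨M', c1, c2, c3, c4, c5, c6, c7⟩ := r5_main M hT r (M.φ r) (M.φ (M.φ r)) p (M.it p 1)
    (M.it p 2) (M.it p 3) (M.it p 4) u q (M.φ q) hr rfl rfl h3.2 hp.symm rfl rfl rfl rfl h5.2
    hu.symm hq.symm hF1 rfl hF2 tag
    (by rw [htag, if_pos fr, if_pos rfl])
    (by rw [htag, if_pos ft2, if_neg h3.1, if_pos rfl])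
    (by rw [htag, if_pos ft3, if_neg k1, if_neg k2])
    (by rw [htag, if_neg (o1 _ fp0), if_pos fp0, if_pos rfl])
    (by rw [htag, if_neg (o1 _ fp1), if_pos fp1, if_neg n10, if_pos rfl])
    (by rw [htag, if_neg (o1 _ fp2), if_pos fp2, if_neg n20, if_neg n21, if_pos rfl])
    (by rw [htag, if_neg (o1 _ fp3), if_pos fp3, if_neg n30, if_neg n31, if_neg n32,
      if_pos rfl])
    (by rw [htag, if_neg (o1 _ fp4), if_pos fp4, if_neg n40, if_neg n41, if_neg n42,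
      if_neg n43])
    (by rw [htag, if_neg (o2 _ fu), if_neg (o3 _ fu), if_neg k3, if_neg k4])
    (by rw [htag, if_neg (o2 _ fq), if_neg (o3 _ fq), if_pos rfl])
    (by rw [htag, if_neg (o2 _ fe), if_neg (o3 _ fe), if_neg hqe, if_pos rfl])
    (M.Fc p) (fun d hd => M.Fc_φ hpS (F5 p h5) hd) fp3 (o3 _ fq)
  rw [← hq, ← hu]
  refine ⟨M', c1, c2, ?_, c4, c5, c6, c7⟩
  intro d hd g1 g2 g3
  have w1 : ¬ M.Fc r (M.φ d) := fun h => g1 ((M.Fc_φ hr (F3 r h3) hd).2 h)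
  have w2 : ¬ M.Fc p (M.φ d) := fun h => g2 ((M.Fc_φ hpS (F5 p h5) hd).2 h)
  have w3 : ¬ M.Fc q (M.φ d) := fun h => g3 ((M.Fc_φ hqS (F3 q hLq) hd).2 h)
  exact c3 d (fun h => w2 (h ▸ fp3)) (fun h => w3 (h ▸ fq)) (fun h => w3 (h ▸ fu))
    (fun h => w2 (h ▸ fp4)) (fun h => w1 (h ▸ ft3)) (fun h => w2 (h ▸ fp0))
    (fun h => w1 (h ▸ fr))

end Mp
end TwoPlane
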