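import Pool.Agent.Work.MP_3b7449_co.TP.MapR5
import Pool.Agent.Work.MP_3b7449_co.TP.Scheme
import Pool.Agent.Work.MP_3b7449_co.TP.FinR5

/-!
# RedR5 (size L): the root triangle next to a pentagon, vertex of `p4` of degree 2

`T = (r, t2, t3)`, `p = α t3`, `v i = it p i`, `F = (α (v 4), α (v 3), e)`, `e = φ (α (v 3))`,
`φ e = α (v 4)`; `mapR5` gives `M'`.  `cfg d := Fc r d ∨ Fc p d ∨ Fc (α (v 3)) d`; `Agree`; in `M'`
the triangle `v 1, v 2, e`; `Ok`; fewer darts.  `α r ∈ M'.S`: not in `Fc r`, `Fc p` (as in RedR3),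
`α r ≠ α (v 3), α (v 4)` (`r` is not in the pentagon).  Vertices: `V r (v 0)`, `V t3 (v 1)`,
`V (α (v 4)) (v 0)` (`V (α (v 4)) (φ (v 4))`), `V (α (v 3)) (v 4)`, `V e (v 3)` (`e = σ (v 3)`).
`ih` for `α r` gives `R'`; in the triangle at most one pair, colour `c0`: `(v 1, v 2)`,
`(v 2, e)`, `(e, v 1)`, that is the link `(p', q') = (1, 2), (2, 3), (3, 1)`.
`scheme`: `Q x y := (x = r ∧ y = v 1) ∨ (x = α r ∧ y = r)`,
`L c i j := (i = 0 ∧ j = 1) ∨ (c = c0 ∧ i = p' ∧ j = q')`, `J i := i ≠ 4`; covering from `mapR5`,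
the darts `v 4`, `α (v 3)` are at the vertex of `v 4`.
`finR5` gives `i o m cT cF s t`.  `N c a b` as in `finR5`;
`N' c x y := (∃ a b, pst i o m c a b ∧ x = v a ∧ y = v b) ∨ (c = cT ∧ x = t3 ∧ y = r) ∨
(c = cF ∧ x = x0 ∧ y = y0)` with `(x0, y0) = (α (v 4), α (v 3))` for `(s, t) = (0, 4)`,
`(α (v 3), e)` for `(4, 3)`, `(e, α (v 4))` for `(3, 0)`.  `VAt` on the three (disjoint) faces by
`VAt_pst`, `VAt_tri`, `VAt_tri`; `scheme_TC`.
-/

namespace TwoPlane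
namespace Mp

variable {D : Type} [DecidableEq D]

private theorem r5_Fcit (M : Mp D) (p : D) : ∀ n : ℕ, n < 5 → M.Fc p (M.it p n) := by
  intro n hn
  interval_cases n
  · exact Or.inl rfl
  · exact Or.inr (Or.inl rfl)
  · exact Or.inr (Or.inr (Or.inl rfl))
  · exact Or.inr (Or.inr (Or.inr (Or.inl rfl)))
  · exact Or.inr (Or.inr (Or.inr (Or.inr rfl)))

/-- a triangle and a pentagon have no common dart -/
private theorem r5_35 (M : Mp D) {a p x : D} (ha : a ∈ M.S) (hp : p ∈ M.S) (h3 : M.L3 a)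
    (h5 : M.L5 p) (h1 : M.Fc a x) (h2 : M.Fc p x) : False := by
  have k1 := (L_Fc M ha (Or.inr (Or.inl h3)) h1).2.1.1 h3
  have k2 := (L_Fc M hp (Or.inr (Or.inr (Or.inr h5))) h2).2.2.2.1 h5
  exact ((excl M x).2.1 k1).2 k2

/-- two triangles with a common dart are equal -/
private theorem r5_33 (M : Mp D) {a b x : D} (ha : a ∈ M.S) (hb : b ∈ M.S) (h3 : M.L3 a)
    (h3' : M.L3 b) (h1 : M.Fc a x) (h2 : M.Fc b x) : M.Fc a b := by
  have k1 := (Fc_iff M hb (Or.inr (Or.inl h3')) h2 b).1 (Fc_self M b)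
  exact (Fc_iff M ha (Or.inr (Or.inl h3)) h1 b).2 k1

private theorem r5_tri (M : Mp D) {a x : D} (h3 : M.L3 a) (h : M.Fc a x) :
    x = a ∨ x = M.φ a ∨ x = M.φ (M.φ a) := by
  obtain ⟨-, h3⟩ := h3
  rcases h with k | k | k | k | k
  · exact Or.inl k
  · exact Or.inr (Or.inl k)
  · exact Or.inr (Or.inr k)
  · rw [h3] at k
    exact Or.inl k
  · rw [h3] at k
    exact Or.inr (Or.inl k)

private theorem r5_mono (M : Mp D) {L L' : D → D → Prop} (h : ∀ x y, L x y → M.Lnk L' x y)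
    {x y : D} (hxy : M.Lnk L x y) : M.Lnk L' x y :=
  M.Lnk_le (M.Lnk_equiv L') (fun _ ha => M.V_Lnk (M.V_σ ha)) h hxy

theorem red_R5 (M : Mp D) (hT : M.Tight) (ih : M.IH) (r p : D) (hr : r ∈ M.S)
    (h3 : M.L3 r) (h3' : M.L3 (M.α r)) (hp : p = M.α (M.φ (M.φ r))) (h5 : M.L5 p)
    (hF1 : M.φ (M.α (M.it p 4)) = M.α (M.it p 3))
    (hF2 : M.φ (M.φ (M.α (M.it p 3))) = M.α (M.it p 4))
    (hTF : ¬ M.Fc r (M.α (M.it p 3))) : M.TC r := by
  have hOk := hT.ok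
  obtain ⟨M', hP, hS, hφ, hv1, hv2, hve, hRed, hcov⟩ := mapR5 M hT r p hr h3 hp h5 hF1 hF2 hTF
  -- membership
  have ht2 : M.φ r ∈ M.S := M.φS r hr
  have ht3 : M.φ (M.φ r) ∈ M.S := M.φS _ ht2
  have hr3 : M.φ (M.φ (M.φ r)) = r := h3.2
  have hpS : p ∈ M.S := by rw [hp]; exact M.αS _ ht3
  have hFp := r5_Fcit M p
  have hvS : ∀ n : ℕ, n < 5 → M.it p n ∈ M.S := fun n hn => Fc_mem M hpS (hFp n hn)
  have hw : M.α (M.it p 3) ∈ M.S := M.αS _ (hvS 3 (by norm_num))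
  have he : M.φ (M.α (M.it p 3)) ∈ M.S := M.φS _ hw
  have hw4 : M.α (M.it p 4) ∈ M.S := M.αS _ (hvS 4 (by norm_num))
  have e34 : M.φ (M.it p 3) = M.it p 4 := rfl
  have e40 : M.φ (M.it p 4) = p := h5.2
  have okp : M.L2 p ∨ M.L3 p ∨ M.L4 p ∨ M.L5 p := Or.inr (Or.inr (Or.inr h5))
  have okr : M.L2 r ∨ M.L3 r ∨ M.L4 r ∨ M.L5 r := Or.inr (Or.inl h3)
  -- the third face
  have h3F : M.L3 (M.α (M.it p 3)) := by
    refine ⟨fun h => ?_, by rw [hF2, hF1]⟩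
    rw [h, h] at hF2
    have h1 : M.α (M.α (M.it p 3)) = M.α (M.α (M.it p 4)) := by rw [hF2]
    rw [M.αα _ (hvS 3 (by norm_num)), M.αα _ (hvS 4 (by norm_num))] at h1
    have h2 : (3 : Fin 5) = 4 := L5_inj M hpS h5 3 4 h1
    exact absurd h2 (by decide)
  have okF : M.L2 (M.α (M.it p 3)) ∨ M.L3 (M.α (M.it p 3)) ∨ M.L4 (M.α (M.it p 3)) ∨
      M.L5 (M.α (M.it p 3)) := Or.inr (Or.inl h3F)
  have hFe : M.Fc (M.α (M.it p 3)) (M.φ (M.α (M.it p 3))) := Or.inr (Or.inl rfl)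
  have hF4 : M.Fc (M.α (M.it p 3)) (M.α (M.it p 4)) := Or.inr (Or.inr (Or.inl hF2.symm))
  have hFw : M.Fc (M.α (M.it p 3)) (M.α (M.it p 3)) := Fc_self M _
  have hrt3 : M.Fc r (M.φ (M.φ r)) := Or.inr (Or.inr (Or.inl rfl))
  have hrp : ∀ x, M.Fc r x → M.Fc p x → False := fun x h h' => r5_35 M hr hpS h3 h5 h h'
  have hFp' : ∀ x, M.Fc (M.α (M.it p 3)) x → M.Fc p x → False := fun x h h' =>
    r5_35 M hw hpS h3F h5 h h'
  have hrF : ∀ x, M.Fc r x → M.Fc (M.α (M.it p 3)) x → False := fun x h h' =>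
    hTF (r5_33 M hr hw h3 h3F h h')
  have hpα : M.α p = M.φ (M.φ r) := by rw [hp, M.αα _ ht3]
  -- vertices
  have hVr : M.V r p := by
    have h1 := M.V_αφ ht3
    rw [← hp, hr3] at h1
    exact M.V_symm h1
  have hVt3 : M.V (M.φ (M.φ r)) (M.it p 1) := by
    have h1 := M.V_αφ hpS
    rw [hpα] at h1
    exact h1
  have hV4 : M.V (M.α (M.it p 4)) p := by
    have h1 := M.V_αφ (hvS 4 (by norm_num))
    rw [e40] at h1
    exact h1
  have hV3 : M.V (M.α (M.it p 3)) (M.it p 4) := M.V_αφ (hvS 3 (by norm_num))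
  have hVe : M.V (M.φ (M.α (M.it p 3))) (M.it p 3) := M.V_symm (M.V_σ (hvS 3 (by norm_num)))
  -- the configuration
  obtain ⟨cfg, hcfg⟩ : ∃ cfg : D → Prop, ∀ d, cfg d ↔
      (M.Fc r d ∨ M.Fc p d ∨ M.Fc (M.α (M.it p 3)) d) := ⟨_, fun _ => Iff.rfl⟩
  have hA : M.Agree M' cfg := by
    refine ⟨fun d hd => ?_, fun d hd hc => ?_⟩
    · rw [hcfg, hcfg, ← Fc_φ M hr okr hd, ← Fc_φ M hpS okp hd, ← Fc_φ M hw okF hd]
    · rw [hcfg, not_or, not_or] at hc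
      obtain ⟨c1, c2, c3⟩ := hc
      refine ⟨(hS d).2 ⟨hd, ?_, ?_, ?_, ?_, ?_, ?_, ?_, ?_⟩, hφ d hd c1 c2 c3⟩
      · rintro rfl; exact c1 (Fc_self M _)
      · rintro rfl; exact c1 (Or.inr (Or.inl rfl))
      · rintro rfl; exact c1 hrt3
      · rintro rfl; exact c2 (Fc_self M _)
      · rintro rfl; exact c2 (hFp 3 (by norm_num))
      · rintro rfl; exact c2 (hFp 4 (by norm_num))
      · rintro rfl; exact c3 hFw
      · rintro rfl; exact c3 hF4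
  have hsub : M'.S ⊆ M.S := fun x hx => ((hS x).1 hx).1
  have hin : ∀ d ∈ M'.S, cfg d → d = M.it p 1 ∨ d = M.it p 2 ∨ d = M.φ (M.α (M.it p 3)) := by
    intro d hd hc
    obtain ⟨-, n1, n2, n3, n4, n5, n6, n7, n8⟩ := (hS d).1 hd
    rcases (hcfg d).1 hc with h | h | h
    · rcases r5_tri M h3 h with k | k | k
      · exact absurd k n1
      · exact absurd k n2
      · exact absurd k n3
    · rcases h with k | k | k | k | k
      · exact absurd k n4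
      · exact Or.inl k
      · exact Or.inr (Or.inl k)
      · exact absurd k n5
      · exact absurd k n6
    · rcases r5_tri M h3F h with k | k | k
      · exact absurd k n7
      · exact Or.inr (Or.inr k)
      · rw [hF2] at k
        exact absurd k n8
  have n12 : M.it p 2 ≠ M.it p 1 := by
    intro h
    have h2 : (2 : Fin 5) = 1 := L5_inj M hpS h5 2 1 h
    exact absurd h2 (by decide)
  have ne2 : M.φ (M.α (M.it p 3)) ≠ M.it p 2 := fun h => hFp' _ hFe (h ▸ hFp 2 (by norm_num))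
  have ne1 : M.it p 1 ≠ M.φ (M.α (M.it p 3)) := fun h => hFp' _ hFe (h ▸ hFp 1 (by norm_num))
  have hL1 : M'.L3 (M.it p 1) := ⟨by rw [hv1]; exact n12, by rw [hv1, hv2, hve]⟩
  have hL2 : M'.L3 (M.it p 2) := ⟨by rw [hv2]; exact ne2, by rw [hv2, hve, hv1]⟩
  have hLe : M'.L3 (M.φ (M.α (M.it p 3))) := ⟨by rw [hve]; exact ne1, by rw [hve, hv1, hv2]⟩
  have okM' : M'.Ok := by
    refine ⟨hP.planar, hP.conn, hP.loopless, agree_face M M' cfg hA hOk.face hsub ?_⟩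
    intro d hd hc
    refine Or.inr (Or.inl ?_)
    rcases hin d hd hc with rfl | rfl | rfl
    · exact hL1
    · exact hL2
    · exact hLe
  have hcard : M'.S.card < M.S.card := by
    refine Finset.card_lt_card ⟨hsub, fun h => ?_⟩
    exact ((hS r).1 (h hr)).2.1 rfl
  -- the new root
  have hαr : M.α r ∈ M.S := M.αS r hr
  have hαrp : ¬ M.Fc p (M.α r) := fun h => r5_35 M hαr hpS h3' h5 (Fc_self M _) h
  have hrnp : ¬ M.Fc p r := fun h => hrp r (Fc_self M r) h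
  have hαr' : M.α r ∈ M'.S := by
    refine (hS _).2 ⟨hαr, M.αne r hr, ?_, ?_, ?_, ?_, ?_, ?_, ?_⟩
    · intro h
      have h1 : M.V r (M.φ (M.φ r)) := by
        have h2 := M.V_σ hr
        unfold σ at h2
        rw [h] at h2
        exact h2
      have h2 : M.V (M.φ (M.φ r)) (M.α (M.φ (M.φ r))) := by
        rw [← hp]
        exact M.V_trans (M.V_symm h1) hVr
      exact hOk.loopless _ ht3 h2
    · intro h
      have h1 : r = p := by rw [hp, ← h, M.αα r hr]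
      exact hrnp (h1 ▸ Fc_self M r)
    · intro h; exact hαrp (h ▸ Fc_self M p)
    · intro h; exact hαrp (h ▸ hFp 3 (by norm_num))
    · intro h; exact hαrp (h ▸ hFp 4 (by norm_num))
    · intro h
      have h1 : M.α (M.α r) = M.α (M.α (M.it p 3)) := by rw [h]
      rw [M.αα r hr, M.αα _ (hvS 3 (by norm_num))] at h1
      exact hrnp (h1 ▸ hFp 3 (by norm_num))
    · intro h
      have h1 : M.α (M.α r) = M.α (M.α (M.it p 4)) := by rw [h]
      rw [M.αα r hr, M.αα _ (hvS 4 (by norm_num))] at h1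
      exact hrnp (h1 ▸ hFp 4 (by norm_num))
  obtain ⟨R', hV', hTot'⟩ := ih M' hcard okM' (M.α r) hαr'
  have hv1S : M.it p 1 ∈ M'.S := by
    have h1 : M.it p 1 ∈ M.S := hvS 1 (by norm_num)
    refine (hS _).2 ⟨h1, ?_, ?_, ?_, ?_, ?_, ?_, ?_, ?_⟩
    · intro h; exact hrp _ (Fc_self M r) (h ▸ hFp 1 (by norm_num))
    · intro h; exact hrp _ (Or.inr (Or.inl rfl)) (h ▸ hFp 1 (by norm_num))
    · intro h; exact hrp _ hrt3 (h ▸ hFp 1 (by norm_num))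
    · intro h; exact h5.1 h
    · intro h; exact absurd (L5_inj M hpS h5 1 3 h) (by decide)
    · intro h; exact absurd (L5_inj M hpS h5 1 4 h) (by decide)
    · intro h; exact hFp' _ hFw (h ▸ hFp 1 (by norm_num))
    · intro h; exact hFp' _ hF4 (h ▸ hFp 1 (by norm_num))
  obtain ⟨i0, c0, hi0, hcl⟩ := (hV'.2 _ hv1S).2.1 hL1
  have hi0' : i0 = M.it p 1 ∨ i0 = M.it p 2 ∨ i0 = M.φ (M.α (M.it p 3)) := by
    rcases r5_tri M' hL1 hi0 with k | k | k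
    · exact Or.inl k
    · rw [hv1] at k; exact Or.inr (Or.inl k)
    · rw [hv1, hv2] at k; exact Or.inr (Or.inr k)
  have hFc1 : ∀ x, (x = M.it p 1 ∨ x = M.it p 2 ∨ x = M.φ (M.α (M.it p 3))) →
      M'.Fc (M.it p 1) x := by
    intro x hx
    rcases hx with k | k | k
    · exact Or.inl k
    · exact Or.inr (Or.inl (by rw [hv1]; exact k))
    · exact Or.inr (Or.inr (Or.inl (by rw [hv1, hv2]; exact k)))
  -- the link of the closing triangle
  obtain ⟨p', q', hpq, hpV, hqV⟩ : ∃ p' q' : Fin 5,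
      ((p' = 1 ∧ q' = 2) ∨ (p' = 2 ∧ q' = 3) ∨ (p' = 3 ∧ q' = 1)) ∧
      M.V i0 (M.it p p') ∧ M.V (M'.φ i0) (M.it p q') := by
    rcases hi0' with k | k | k
    · refine ⟨1, 2, Or.inl ⟨rfl, rfl⟩, ?_, ?_⟩
      · rw [k]; exact M.V_refl _
      · rw [k, hv1]; exact M.V_refl _
    · refine ⟨2, 3, Or.inr (Or.inl ⟨rfl, rfl⟩), ?_, ?_⟩
      · rw [k]; exact M.V_refl _
      · rw [k, hv2]; exact hVe
    · refine ⟨3, 1, Or.inr (Or.inr ⟨rfl, rfl⟩), ?_, ?_⟩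
      · rw [k]; exact hVe
      · rw [k, hve]; exact M.V_refl _
  obtain ⟨hJres, hTres⟩ := scheme M M'.S cfg
    (fun x y => (x = r ∧ y = M.it p 1) ∨ (x = M.α r ∧ y = r)) r R'
    (by
      intro c x hx y hy
      have h1 := red_use hRed (R' c) (M.α r) hαr' (hTot' c x hx y hy)
      refine r5_mono M ?_ h1
      rintro a b ((h2 | h2) | ⟨h2, h2'⟩)
      · exact M.Lnk_of (Or.inl h2)
      · exact M.Lnk_of (Or.inr (Or.inl h2))
      · rw [M.αα r hr] at h2'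
        exact M.Lnk_of (Or.inr (Or.inr ⟨h2, h2'⟩)))
    (fun i => M.it p i)
    (fun c i j => (i = 0 ∧ j = 1) ∨ (c = c0 ∧ i = p' ∧ j = q')) (fun i => i ≠ 4)
    (by
      rintro c x y (⟨rfl, rfl⟩ | ⟨rfl, rfl⟩)
      · refine Relation.EqvGen.trans _ p _ (Relation.EqvGen.rel _ _ (Or.inl (M.V_Lnk hVr))) ?_
        exact Relation.EqvGen.rel _ _ (Or.inr ⟨0, 1, Or.inl ⟨rfl, rfl⟩, rfl, rfl⟩)
      · exact Relation.EqvGen.symm _ _ (Relation.EqvGen.rel _ _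
          (Or.inl (M.Lnk_of (Or.inr ⟨rfl, rfl⟩)))))
    (by
      intro c x y hxy hx
      have hxS : x ∈ M'.S := hV'.1 c x y hxy
      have hxc : cfg x := by
        rcases hx with h | h
        · exact absurd (hsub hxS) h
        · exact h
      obtain ⟨k1, k2, k3⟩ := hcl c x y (hFc1 x (hin x hxS hxc)) hxy
      subst k1 k2 k3
      refine Relation.EqvGen.trans _ (M.it p p') _
        (Relation.EqvGen.rel _ _ (Or.inl (M.V_Lnk hpV))) ?_
      refine Relation.EqvGen.trans _ (M.it p q') _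
        (Relation.EqvGen.rel _ _ (Or.inr ⟨p', q', Or.inr ⟨rfl, rfl, rfl⟩, rfl, rfl⟩)) ?_
      exact Relation.EqvGen.rel _ _ (Or.inl (M.V_Lnk (M.V_symm hqV))))
    (by
      intro x hx
      by_cases h1 : x = M.it p 4
      · exact Or.inr ⟨4, by rw [h1]; exact M.V_refl _⟩
      by_cases h2 : x = M.α (M.it p 3)
      · exact Or.inr ⟨4, by rw [h2]; exact hV3⟩
      obtain ⟨y, hy, hxy⟩ := hcov x hx h1 h2
      exact Or.inl ⟨y, hy, r5_mono M (fun a b h => M.Lnk_of (Or.inl h)) hxy⟩)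
    (by
      intro i hi
      have h1 : M.it p i ≠ M.it p 4 := fun h => hi (L5_inj M hpS h5 i 4 h)
      have h2 : M.it p i ≠ M.α (M.it p 3) := fun h => hFp' _ hFw (h ▸ hFp i i.2)
      obtain ⟨y, hy, hxy⟩ := hcov _ (hvS i i.2) h1 h2
      exact ⟨y, hy, r5_mono M (fun a b h => M.Lnk_of (Or.inl h)) hxy⟩)
    ⟨0, by decide⟩
  obtain ⟨i, o, m, cT, cF, s, t, hst, hfin⟩ := finR5
    (fun c i j => M.Lnk (outL M R' cfg r c) (M.it p i) (M.it p j))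
    (fun c => ⟨fun a => M.Lnk_refl _ _, fun h => M.Lnk_symm h, fun h h' => M.Lnk_trans h h'⟩)
    c0 p' q' hpq hJres
  -- the pair in the third face
  obtain ⟨x0, hx0F, hx0V, hy0V⟩ : ∃ x0, M.Fc (M.α (M.it p 3)) x0 ∧ M.V (M.it p s) x0 ∧
      M.V (M.φ x0) (M.it p t) := by
    rcases hst with ⟨rfl, rfl⟩ | ⟨rfl, rfl⟩ | ⟨rfl, rfl⟩
    · refine ⟨M.α (M.it p 4), hF4, M.V_symm hV4, ?_⟩
      rw [hF1]; exact hV3
    · exact ⟨M.α (M.it p 3), hFw, M.V_symm hV3, hVe⟩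
    · refine ⟨M.φ (M.α (M.it p 3)), hFe, M.V_symm hVe, ?_⟩
      rw [hF2]; exact hV4
  obtain ⟨N', hN'⟩ : ∃ N' : Bool → D → D → Prop, ∀ c x y, N' c x y ↔
      ((∃ a b : Fin 5, pst i o m c a b ∧ x = M.it p a ∧ y = M.it p b) ∨
        (c = cT ∧ x = M.φ (M.φ r) ∧ y = r) ∨ (c = cF ∧ x = x0 ∧ y = M.φ x0)) :=
    ⟨_, fun _ _ _ => Iff.rfl⟩
  have htot := hTres _ N' hfin (by
    intro c a b hab
    rcases hab with h | ⟨h, rfl, rfl⟩ | ⟨h, rfl, rfl⟩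
    · exact M.Lnk_of (Or.inr ((hN' _ _ _).2 (Or.inl ⟨a, b, h, rfl, rfl⟩)))
    · refine M.Lnk_trans (M.V_Lnk (M.V_symm hVr)) (M.Lnk_trans (M.Lnk_symm ?_) (M.V_Lnk hVt3))
      exact M.Lnk_of (Or.inr ((hN' _ _ _).2 (Or.inr (Or.inl ⟨h, rfl, rfl⟩))))
    · refine M.Lnk_trans (M.V_Lnk hx0V) (M.Lnk_trans ?_ (M.V_Lnk hy0V))
      exact M.Lnk_of (Or.inr ((hN' _ _ _).2 (Or.inr (Or.inr ⟨h, rfl, rfl⟩)))))
  refine scheme_TC M M' cfg hA r R' N' hV' ?_ ?_ htot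
  · intro c x y h
    rcases (hN' _ _ _).1 h with ⟨a, b, -, rfl, -⟩ | ⟨-, rfl, -⟩ | ⟨-, rfl, -⟩
    · exact ⟨hvS a a.2, (hcfg _).2 (Or.inr (Or.inl (hFp a a.2)))⟩
    · exact ⟨ht3, (hcfg _).2 (Or.inl hrt3)⟩
    · exact ⟨Fc_mem M hw hx0F, (hcfg _).2 (Or.inr (Or.inr hx0F))⟩
  · intro d hd hc
    rcases (hcfg d).1 hc with h | h | h
    · refine VAt_Fc M N' hr okr h (VAt_tri M N' h3 (M.φ (M.φ r)) hrt3 cT ?_)
      intro c' x y hx hxy
      rcases (hN' _ _ _).1 hxy with ⟨a, b, -, rfl, -⟩ | ⟨k1, k2, k3⟩ | ⟨-, rfl, -⟩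
      · exact (hrp _ hx (hFp a a.2)).elim
      · exact ⟨k1, k2, by rw [hr3]; exact k3⟩
      · exact (hrF _ hx hx0F).elim
    · refine VAt_Fc M N' hpS okp h (VAt_pst M N' hpS h5 i o m ?_)
      intro c x y hx hxy
      rcases (hN' _ _ _).1 hxy with ⟨a, b, k1, k2, k3⟩ | ⟨-, rfl, -⟩ | ⟨-, rfl, -⟩
      · exact ⟨a, b, k1, k2, k3⟩
      · exact (hrp _ hrt3 hx).elim
      · exact (hFp' _ hx0F hx).elim
    · refine VAt_Fc M N' hw okF h (VAt_tri M N' h3F x0 hx0F cF ?_)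
      intro c' x y hx hxy
      rcases (hN' _ _ _).1 hxy with ⟨a, b, -, rfl, -⟩ | ⟨-, rfl, -⟩ | ⟨k1, k2, k3⟩
      · exact (hFp' _ hx (hFp a a.2)).elim
      · exact (hrF _ hrt3 hx).elim
      · exact ⟨k1, k2, k3⟩

end Mp
end TwoPlane
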