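import Pool.Agent.Work.MP_3b7449_co.TP.Jor

/-!
# Sides2 (size M): a pair of parallel edges separates

`d`, `e` are different darts with the same source and the same target.  Cycle `c0 = d`,
`c1 = α e` (`V (α c0) c1`, `V (α c1) c0`).  Facts (loopless): `¬ V d (α d)`, `¬ V e (α e)`,
`e ≠ α d`, `d ≠ α e`, `c1 ≠ α c0`.  `z := ed d + ed (α e)`; it is symmetric under `α` and is 1
exactly at `d, α d, e, α e` on `M.S`.
Walk: `Pot_refl d`, `Pot_α`, `Pot_V` (`V (α d) (α e)`), `Pot_α` (`α (α e) = e`), `Pot_V`
(`V e d`): `Pot z d d` (the function is `fun x => (0 + ed d x) + ed (α e) x`).  `Pot_close`: `f` with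
`f x + f (α x) = z x`.  `arc` with `c = d`, `c' = α e`: `f (α e) = f d`.
`I x := f x = f d`.  Then `I d`, `I (α e)`, `¬ I (α d)`, `¬ I e`; if `z x = 0` then `I x ↔ I (α x)`.
First side: `K = {α d, e}`, `ψ` exchanges them; `ψV`: `V e (α (α d))`, `V (α d) (α e)`; `Kdist`:
`V (α d) e` would give `V (α d) d`.  Second side: `K = {d, α e}`; `ψV`: `V (α e) (α d)`,
`V d (α (α e))`; for `hIK` use that values in `ZMod 2` different from `f d` are equal.
-/

namespace TwoPlane
namespace Mp

variable {D : Type} [DecidableEq D]

private theorem z0 : ∀ a b : ZMod 2, a + b = 0 → a = b := by decide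
private theorem z1 : ∀ a b : ZMod 2, a + b = 1 → a ≠ b := by decide

private theorem ed_sym (M : Mp D) {u x : D} (hu : u ∈ M.S) (hx : x ∈ M.S) :
    M.ed u (M.α x) = M.ed u x := by
  have h1 : (M.α x = u) ↔ (x = M.α u) := by
    constructor
    · intro h; rw [← h, M.αα x hx]
    · intro h; rw [h, M.αα u hu]
  have h2 : (M.α x = M.α u) ↔ (x = u) := by
    constructor
    · intro h
      have := congrArg M.α h
      rwa [M.αα x hx, M.αα u hu] at this
    · intro h; rw [h]
  simp only [ed, dl, h1, h2]
  rw [add_comm]

theorem sides2 (M : Mp D) (hp : M.Planar) (hl : M.Loopless) (d e : D) (hd : d ∈ M.S)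
    (he : e ∈ M.S) (hne : d ≠ e) (h1 : M.V d e) (h2 : M.V (M.α d) (M.α e)) :
    ∃ I : D → Prop, M.Side I {M.α d, e} (fun x => if x = e then M.α d else e) ∧
      M.Side (fun x => ¬ I x) {d, M.α e} (fun x => if x = d then M.α e else d) := by
  have hαd : M.α d ∈ M.S := M.αS d hd
  have hαe : M.α e ∈ M.S := M.αS e he
  have ααd : M.α (M.α d) = d := M.αα d hd
  have ααe : M.α (M.α e) = e := M.αα e he
  have n1 : M.α d ≠ d := M.αne d hd
  have n2 : M.α e ≠ e := M.αne e he
  have n3 : d ≠ M.α e := fun h => hl e he (M.V_symm (by rw [h] at h1; exact h1))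
  have n4 : e ≠ M.α d := fun h => hl d hd (by rw [h] at h1; exact h1)
  have n5 : M.α e ≠ M.α d := fun h => hne (by
    have := congrArg M.α h
    rw [ααd, ααe] at this
    exact this.symm)
  have P0 := M.Pot_refl d
  have P1 := M.Pot_α _ d d P0
  have P2 := M.Pot_V _ d hαd h2 P1
  have P3 := M.Pot_α _ d (M.α e) P2
  rw [ααe] at P3
  have P4 := M.Pot_V _ d he (M.V_symm h1) P3
  obtain ⟨f, hf, hz⟩ := M.Pot_close _ d hp (by
    intro x hx
    show (0 + M.ed d (M.α x)) + M.ed (M.α e) (M.α x) = (0 + M.ed d x) + M.ed (M.α e) x
    rw [ed_sym M hd hx, ed_sym M hαe hx]) P4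
  have hz' : ∀ x ∈ M.S, f x + f (M.α x) = (0 + M.ed d x) + M.ed (M.α e) x := hz
  have zd : f d + f (M.α d) = 1 := by
    rw [hz' d hd]
    simp [ed, dl, n1.symm, ααe, n3, hne]
  have ze : f e + f (M.α e) = 1 := by
    rw [hz' e he]
    simp [ed, dl, ααe, n2.symm, hne.symm, n4]
  have zo : ∀ x ∈ M.S, x ≠ d → x ≠ M.α d → x ≠ e → x ≠ M.α e →
      (0 + M.ed d x) + M.ed (M.α e) x = 0 := by
    intro x hx a b c k
    simp [ed, dl, ααe, a, b, c, k]
  have harc : f (M.α e) = f d := by
    refine M.arc f _ hf hz' d (M.α e) hd hαe h2 n5 ?_ ?_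
    · rw [← hz' d hd]; exact zd
    · intro x hx hV k1 k2
      refine zo x hx ?_ k1 ?_ k2
      · intro h
        rw [h] at hV
        exact hl d hd (M.V_trans hV (M.V_symm h2))
      · intro h
        rw [h] at hV
        exact hl e he hV
  have Id : f d = f d := rfl
  have nId : ¬ f (M.α d) = f d := fun h => z1 _ _ zd h.symm
  have nIe : ¬ f e = f d := fun h => z1 _ _ ze (by rw [h, harc])
  have cases4 : ∀ x ∈ M.S, f x = f (M.α x) ∨ x = d ∨ x = M.α d ∨ x = e ∨ x = M.α e := by
    intro x hx
    by_cases a : x = d
    · exact Or.inr (Or.inl a)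
    · by_cases b : x = M.α d
      · exact Or.inr (Or.inr (Or.inl b))
      · by_cases c : x = e
        · exact Or.inr (Or.inr (Or.inr (Or.inl c)))
        · by_cases k : x = M.α e
          · exact Or.inr (Or.inr (Or.inr (Or.inr k)))
          · exact Or.inl (z0 _ _ (by rw [hz' x hx]; exact zo x hx a b c k))
  refine ⟨fun x => f x = f d, ?_, ?_⟩
  · refine ⟨?_, ?_, ?_, ?_, ?_, ?_, ?_, ?_, ?_, ?_, ?_⟩
    · intro x hx; show f x = f d ↔ f (M.φ x) = f d; rw [hf x hx]
    · intro k hk
      rcases Finset.mem_insert.mp hk with rfl | hk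
      · exact hαd
      · rw [Finset.mem_singleton.mp hk]; exact he
    · intro k hk
      rcases Finset.mem_insert.mp hk with rfl | hk
      · exact nId
      · rw [Finset.mem_singleton.mp hk]; exact nIe
    · intro k hk
      rcases Finset.mem_insert.mp hk with rfl | hk
      · show f (M.α (M.α d)) = f d
        rw [ααd]
      · rw [Finset.mem_singleton.mp hk]; exact harc
    · intro x hx hI
      rcases cases4 x hx with h | h | h | h | h
      · left; show f (M.α x) = f d; rw [← h]; exact hI
      · right; rw [h]; exact Finset.mem_insert_self _ _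
      · exact absurd (h ▸ hI) nId
      · exact absurd (h ▸ hI) nIe
      · right; rw [h, ααe]; exact Finset.mem_insert_of_mem (Finset.mem_singleton_self _)
    · intro k hk
      split_ifs
      · exact Finset.mem_insert_self _ _
      · exact Finset.mem_insert_of_mem (Finset.mem_singleton_self _)
    · intro k hk k' hk' hkk
      rcases Finset.mem_insert.mp hk with rfl | hk <;>
        rcases Finset.mem_insert.mp hk' with rfl | hk'
      · rfl
      · rw [Finset.mem_singleton.mp hk'] at hkk ⊢
        simp only [n4.symm, if_true, if_false] at hkk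
        exact hkk.symm
      · rw [Finset.mem_singleton.mp hk] at hkk ⊢
        simp only [n4.symm, if_true, if_false] at hkk
      · rw [Finset.mem_singleton.mp hk, Finset.mem_singleton.mp hk']
    · intro k hk
      rcases Finset.mem_insert.mp hk with rfl | hk
      · simp only [n4.symm, if_false]
        rw [ααd]; exact M.V_symm h1
      · rw [Finset.mem_singleton.mp hk]
        simp only [if_true]
        exact h2
    · intro k hk k' hk' hkk
      rcases Finset.mem_insert.mp hk with rfl | hk <;>
        rcases Finset.mem_insert.mp hk' with rfl | hk'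
      · rfl
      · rw [Finset.mem_singleton.mp hk'] at hkk
        exact absurd (M.V_symm (M.V_trans hkk (M.V_symm h1))) (hl d hd)
      · rw [Finset.mem_singleton.mp hk] at hkk
        exact absurd (M.V_trans h1 hkk) (hl d hd)
      · rw [Finset.mem_singleton.mp hk, Finset.mem_singleton.mp hk']
    · intro X hX k hk k' hk'
      have key : X (M.α d) ↔ X e := by
        have := hX (M.α d) (Finset.mem_insert_self _ _)
        simp only [n4.symm, if_false] at this
        exact this
      rcases Finset.mem_insert.mp hk with rfl | hk <;>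
        rcases Finset.mem_insert.mp hk' with rfl | hk'
      · exact Iff.rfl
      · rw [Finset.mem_singleton.mp hk']; exact key
      · rw [Finset.mem_singleton.mp hk]; exact key.symm
      · rw [Finset.mem_singleton.mp hk, Finset.mem_singleton.mp hk']
    · exact ⟨_, Finset.mem_insert_self _ _⟩
  · refine ⟨?_, ?_, ?_, ?_, ?_, ?_, ?_, ?_, ?_, ?_, ?_⟩
    · intro x hx; show ¬ f x = f d ↔ ¬ f (M.φ x) = f d; rw [hf x hx]
    · intro k hk
      rcases Finset.mem_insert.mp hk with rfl | hk
      · exact hd
      · rw [Finset.mem_singleton.mp hk]; exact hαe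
    · intro k hk
      rcases Finset.mem_insert.mp hk with rfl | hk
      · exact fun h => h rfl
      · rw [Finset.mem_singleton.mp hk]; exact fun h => h harc
    · intro k hk
      rcases Finset.mem_insert.mp hk with rfl | hk
      · exact nId
      · rw [Finset.mem_singleton.mp hk]
        show ¬ f (M.α (M.α e)) = f d
        rw [ααe]; exact nIe
    · intro x hx hI
      rcases cases4 x hx with h | h | h | h | h
      · left; show ¬ f (M.α x) = f d; rw [← h]; exact hI
      · exact absurd (by rw [h]) hI
      · right; rw [h, ααd]; exact Finset.mem_insert_self _ _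
      · right; rw [h]; exact Finset.mem_insert_of_mem (Finset.mem_singleton_self _)
      · exact absurd (by rw [h]; exact harc) hI
    · intro k hk
      split_ifs
      · exact Finset.mem_insert_of_mem (Finset.mem_singleton_self _)
      · exact Finset.mem_insert_self _ _
    · intro k hk k' hk' hkk
      rcases Finset.mem_insert.mp hk with hk | hk <;>
        rcases Finset.mem_insert.mp hk' with hk' | hk'
      · rw [hk, hk']
      · rw [hk, Finset.mem_singleton.mp hk'] at hkk
        simp only [n3.symm, if_true, if_false] at hkk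
      · rw [hk', Finset.mem_singleton.mp hk] at hkk
        simp only [n3.symm, if_true, if_false] at hkk
        exact absurd hkk n3
      · rw [Finset.mem_singleton.mp hk, Finset.mem_singleton.mp hk']
    · intro k hk
      rcases Finset.mem_insert.mp hk with hk | hk
      · rw [hk]
        simp only [if_true]
        exact M.V_symm h2
      · rw [Finset.mem_singleton.mp hk]
        simp only [n3.symm, if_false]
        rw [ααe]; exact h1
    · intro k hk k' hk' hkk
      rcases Finset.mem_insert.mp hk with hk | hk <;>
        rcases Finset.mem_insert.mp hk' with hk' | hk'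
      · rw [hk, hk']
      · rw [hk, Finset.mem_singleton.mp hk'] at hkk
        exact absurd (M.V_trans hkk (M.V_symm h2)) (hl d hd)
      · rw [hk', Finset.mem_singleton.mp hk] at hkk
        exact absurd (M.V_trans (M.V_symm hkk) (M.V_symm h2)) (hl d hd)
      · rw [Finset.mem_singleton.mp hk, Finset.mem_singleton.mp hk']
    · intro X hX k hk k' hk'
      have key : X d ↔ X (M.α e) := by
        have := hX d (Finset.mem_insert_self _ _)
        simp only [if_true] at this
        exact this
      rcases Finset.mem_insert.mp hk with hk | hk <;>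
        rcases Finset.mem_insert.mp hk' with hk' | hk'
      · rw [hk, hk']
      · rw [hk, Finset.mem_singleton.mp hk']; exact key
      · rw [hk', Finset.mem_singleton.mp hk]; exact key.symm
      · rw [Finset.mem_singleton.mp hk, Finset.mem_singleton.mp hk']
    · exact ⟨_, Finset.mem_insert_self _ _⟩

end Mp
end TwoPlane
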