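import Pool.Agent.Work.MP_3b7449_co.TP.EulerP
import Pool.Agent.Work.MP_3b7449_co.TP.Faces

/-!
# ToMp (size M): from plane multigraphs to `Mp`

`toMp_V`: `V` is generated by the steps of `σ = α.trans φ`; `EqvGen` implies `SameCycle` (`refl`,
`symm`, `trans`, `⟨1, _⟩`), and `SameCycle` gives a natural number `n` with
`(σ ^ n) a = b` (`SameCycle.exists_pow_eq`, finite type), induction on `n`.
`toMp_L`: `Function.minimalPeriod` (`len`): `φ^[k] d = d` iff `len d ∣ k`
(`Function.isPeriodicPt_iff_minimalPeriod_dvd`); `len d > 0` (finite type, injective).  `L2`: `len ∣ 2`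
and `len ≠ 1`; `L3`; `L4`: `len ∣ 4`, not `len ∣ 2`; `L5`.
`toMp_ok`: `len d ≤ 5` and `len d ≠ 1` (if `φ d = d` then `src (α d) = src (φ d) = src d`).
Connectivity: the two-sided closed sets of `Conn` are closed sets of `conn`.
-/

namespace TwoPlane

open Equiv.Perm

theorem PlaneMap.toMp_V {D : Type} [Fintype D] [DecidableEq D] (M : PlaneMap D) (a b : D) :
    M.toMp.V a b ↔ M.src a = M.src b := by
  have hσ : ∀ d, M.toMp.σ d = (M.α.trans M.φ) d := fun d => rfl
  constructor
  · intro h
    have h1 : SameCycle (M.α.trans M.φ) a b := by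
      induction h with
      | rel x y h => exact ⟨1, by rw [zpow_one, h.2]; rfl⟩
      | refl x => exact SameCycle.refl _ _
      | symm x y _ ih => exact ih.symm
      | trans x y z _ _ ih1 ih2 => exact ih1.trans ih2
    exact Quotient.sound h1
  · intro h
    have h1 : SameCycle (M.α.trans M.φ) a b := Quotient.exact h
    obtain ⟨n, -, hn⟩ := h1.exists_pow_eq
    obtain ⟨n, -, -, hn⟩ := h1.exists_pow_eq
    rw [← hn]
    clear hn
    induction n with
    | zero => exact M.toMp.V_refl a
    | succ n ih =>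
      refine M.toMp.V_trans ih ?_
      rw [pow_succ', Equiv.Perm.mul_apply]
      exact M.toMp.V_σ (Finset.mem_univ _)

private theorem len_pos {D : Type} [Fintype D] [DecidableEq D] (M : PlaneMap D) (d : D) :
    0 < M.len d := by
  unfold PlaneMap.len
  exact Function.minimalPeriod_pos_of_mem_periodicPts
    ((M.φ.injective.mem_periodicPts) d)

private theorem it_iff {D : Type} [Fintype D] [DecidableEq D] (M : PlaneMap D) (d : D) (k : ℕ) :
    M.φ^[k] d = d ↔ M.len d ∣ k := by
  unfold PlaneMap.len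
  exact Function.isPeriodicPt_iff_minimalPeriod_dvd

theorem PlaneMap.toMp_L {D : Type} [Fintype D] [DecidableEq D] (M : PlaneMap D) (d : D) :
    (M.toMp.L2 d ↔ M.len d = 2) ∧ (M.toMp.L3 d ↔ M.len d = 3) ∧
      (M.toMp.L4 d ↔ M.len d = 4) ∧ (M.toMp.L5 d ↔ M.len d = 5) := by
  have h0 := len_pos M d
  have i1 := it_iff M d 1
  have i2 := it_iff M d 2
  have i3 := it_iff M d 3
  have i4 := it_iff M d 4
  have i5 := it_iff M d 5
  have e1 : M.toMp.φ d = M.φ^[1] d := rfl
  have e2 : M.toMp.φ (M.toMp.φ d) = M.φ^[2] d := rfl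
  have e3 : M.toMp.φ (M.toMp.φ (M.toMp.φ d)) = M.φ^[3] d := rfl
  have e4 : M.toMp.φ (M.toMp.φ (M.toMp.φ (M.toMp.φ d))) = M.φ^[4] d := rfl
  have e5 : M.toMp.φ (M.toMp.φ (M.toMp.φ (M.toMp.φ (M.toMp.φ d)))) = M.φ^[5] d := rfl
  unfold Mp.L2 Mp.L3 Mp.L4 Mp.L5
  rw [e5, e4, e3, e2, e1]
  simp only [ne_eq, i1, i2, i3, i4, i5, Nat.dvd_one]
  generalize M.len d = n at *
  refine ⟨?_, ?_, ?_, ?_⟩
  · constructor
    · rintro ⟨h1, h2⟩
      have := Nat.le_of_dvd (by norm_num) h2
      omega
    · rintro rfl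
      exact ⟨by norm_num, dvd_rfl⟩
  · constructor
    · rintro ⟨h1, h2⟩
      have := Nat.le_of_dvd (by norm_num) h2
      interval_cases n
      · exact absurd rfl h1
      · norm_num at h2
      · rfl
    · rintro rfl
      exact ⟨by norm_num, dvd_rfl⟩
  · constructor
    · rintro ⟨h1, h2⟩
      have := Nat.le_of_dvd (by norm_num) h2
      interval_cases n
      · exact absurd (by norm_num) h1
      · exact absurd (by norm_num) h1
      · norm_num at h2
      · rfl
    · rintro rfl
      exact ⟨by norm_num, dvd_rfl⟩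
  · constructor
    · rintro ⟨h1, h2⟩
      have := Nat.le_of_dvd (by norm_num) h2
      interval_cases n
      · exact absurd rfl h1
      · norm_num at h2
      · norm_num at h2
      · norm_num at h2
      · rfl
    · rintro rfl
      exact ⟨by norm_num, dvd_rfl⟩

theorem PlaneMap.toMp_ok {D : Type} [Fintype D] [DecidableEq D] (M : PlaneMap D)
    (hl : M.NoLoop) (h5 : ∀ d, M.len d ≤ 5) : M.toMp.Ok := by
  refine ⟨M.toMp_planar, ?_, ?_, ?_⟩
  · intro X hα hφ hne d _
    obtain ⟨d0, -, hd0⟩ := hne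
    have h := M.conn {x | X x} (fun x hx => (hα x (Finset.mem_univ _)).1 hx)
      (fun x hx => (hφ x (Finset.mem_univ _)).1 hx) ⟨d0, hd0⟩
    have h1 : d ∈ {x | X x} := by
      rw [h]
      exact Set.mem_univ d
    exact h1
  · intro d _ hV
    exact hl d ((M.toMp_V d (M.α d)).1 hV)
  · intro d _
    obtain ⟨l2, l3, l4, l5⟩ := M.toMp_L d
    rw [l2, l3, l4, l5]
    have h0 := len_pos M d
    have h5 := h5 d
    have h1 : M.len d ≠ 1 := by
      intro h
      have e : M.φ^[1] d = d := (it_iff M d 1).2 (by rw [h])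
      have e' : M.φ d = d := e
      refine hl d ?_
      have h2 : M.toMp.V (M.α d) (M.φ d) := M.toMp.V_αφ (Finset.mem_univ d)
      rw [e'] at h2
      exact ((M.toMp_V _ _).1 h2).symm
    omega

end TwoPlane
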