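import Pool.Agent.Work.MP_3b7449_co.TP.Ex
import Pool.Agent.Work.MP_3b7449_co.TP.Scheme

/-!
# Zip (size M): removing a digon

`b = φ a`.  Case `α a = b` (so `α b = a`): the set `{a, b}` is closed under `α`, `φ` (in both
directions), so `M.S = {a, b}` by connectivity.  `R = False` is valid (all faces have length 2,
`excl`), and the root link joins `a` and `b` (`r = a`, `α r = b` or the other way round).
Case `α a ≠ b`: `fold_ex_digon` gives `M'`, `Ok` by `agree_face` with `cfg = Fc a` (`= {a, b}`,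
`M'.φ = M.φ` on `M'.S`, darts outside `{a, b}` are in `M'.S`); fewer darts.  `r' = r` if
`r ≠ a, b`, otherwise `r' = α r` (`α a ≠ a, b` and `α b ≠ a, b`).  `ih` gives `R'`.  Apply
`scheme_TC` with `N' = False` (`VAt` for the empty relation on the face of `a`, which has length 2).
`M.Tot`: `red_use` for `x, y ∈ M'.S`; the pairs of `R'` start in `M'.S`, so outside `cfg`; the
link `(r', α r')` is the root link, perhaps backwards; every dart of `M.S` is `V`-related to a
dart of `M'.S`.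
-/

namespace TwoPlane
namespace Mp

variable {D : Type} [DecidableEq D]

private theorem VAt_none (M : Mp D) (d : D) : M.VAt (fun _ _ _ => False) d := by
  have h0 := M.Fc_self d
  refine ⟨fun _ _ _ _ _ h => h, fun _ => ⟨d, true, h0, fun _ _ _ _ h => h.elim⟩,
    fun _ => ⟨d, true, d, d, true, h0, h0, h0, fun _ _ _ _ h => h.elim⟩,
    fun _ => ⟨d, true, true, h0, fun _ _ _ _ h => h.elim⟩⟩

theorem red_zip (M : Mp D) (hOk : M.Ok) (ih : M.IH) (a : D) (ha : a ∈ M.S) (h : M.L2 a)
    (r : D) (hr : r ∈ M.S) : M.TC r := by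
  have hb : M.φ a ∈ M.S := M.φS a ha
  have F2 : M.L2 a ∨ M.L3 a ∨ M.L4 a ∨ M.L5 a := Or.inl h
  by_cases h2 : M.α a = M.φ a
  · have h3 : M.α (M.φ a) = a := by rw [← h2, M.αα a ha]
    have hall : ∀ d ∈ M.S, d = a ∨ d = M.φ a := by
      refine hOk.conn (fun d => d = a ∨ d = M.φ a) (fun d hd => ⟨?_, ?_⟩) (fun d hd => ⟨?_, ?_⟩)
        ⟨a, ha, Or.inl rfl⟩
      · rintro (h4 | h4)
        · right
          rw [h4, h2]
        · left
          rw [h4, h3]
      · rintro (h4 | h4)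
        · right
          rw [← h2, ← h4, M.αα d hd]
        · left
          rw [← M.αα d hd, h4, h3]
      · rintro (h4 | h4)
        · right
          rw [h4]
        · left
          rw [h4, h.2]
      · rintro (h4 | h4)
        · right
          exact M.φinj d hd _ hb (by rw [h4, h.2])
        · left
          exact M.φinj d hd _ ha h4
    refine ⟨fun _ _ _ => False, ⟨fun _ _ _ h => h.elim, fun d _ => VAt_none M d⟩, ?_⟩
    intro c x hx y hy
    have hl : M.Lnk (fun x y => False ∨ (x = r ∧ y = M.α r)) a (M.φ a) := by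
      rcases hall r hr with h4 | h4
      · refine M.Lnk_of (Or.inr ⟨h4.symm, ?_⟩)
        rw [h4, h2]
      · refine M.Lnk_symm (M.Lnk_of (Or.inr ⟨h4.symm, ?_⟩))
        rw [h4, h3]
    rcases hall x hx with h4 | h4 <;> rcases hall y hy with h5 | h5
    · rw [h4, h5]
      exact M.Lnk_refl _ _
    · rw [h4, h5]
      exact hl
    · rw [h4, h5]
      exact M.Lnk_symm hl
    · rw [h4, h5]
      exact M.Lnk_refl _ _
  · obtain ⟨M', P', hS', hout, hR, hcov⟩ := M.fold_ex_digon
      ⟨hOk.planar, hOk.conn, hOk.loopless⟩ a ha h h2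
    have mem : ∀ d, d ∈ M'.S ↔ d ∈ M.S ∧ d ≠ a ∧ d ≠ M.φ a := by
      intro d
      rw [hS', Finset.mem_erase, Finset.mem_erase]
      tauto
    have hFc : ∀ d, M.Fc a d → d = a ∨ d = M.φ a := by
      intro d hc
      rcases hc with h4 | h4 | h4 | h4 | h4
      · exact Or.inl h4
      · exact Or.inr h4
      · rw [h.2] at h4
        exact Or.inl h4
      · rw [h.2] at h4
        exact Or.inr h4
      · rw [h.2, h.2] at h4
        exact Or.inl h4
    have hsub : M'.S ⊆ M.S := hR.sub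
    have hA : M.Agree M' (fun d => M.Fc a d) := by
      refine ⟨fun d hd => M.Fc_φ ha F2 hd, fun d hd hc => ?_⟩
      have h4 : d ∈ M'.S :=
        (mem d).2 ⟨hd, fun h5 => hc (Or.inl h5), fun h5 => hc (Or.inr (Or.inl h5))⟩
      exact ⟨h4, hout d h4⟩
    have hno : ∀ d ∈ M'.S, ¬ M.Fc a d := by
      intro d hd hc
      obtain ⟨_, h4, h5⟩ := (mem d).1 hd
      rcases hFc d hc with h6 | h6
      · exact h4 h6
      · exact h5 h6
    have hOk' : M'.Ok := ⟨P'.planar, P'.conn, P'.loopless,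
      agree_face M M' _ hA hOk.face hsub (fun d hd hc => absurd hc (hno d hd))⟩
    have hcard : M'.S.card < M.S.card := by
      refine Finset.card_lt_card ⟨hsub, fun h4 => ?_⟩
      exact ((mem a).1 (h4 ha)).2.1 rfl
    have h3 : M.α (M.φ a) ≠ a := by
      intro h4
      have h5 := M.αα _ hb
      rw [h4] at h5
      exact h2 h5
    have hr' : ∃ r' ∈ M'.S, (r' = r ∧ M.α r' = M.α r) ∨ (r' = M.α r ∧ M.α r' = r) := by
      by_cases h4 : r = a
      · refine ⟨M.α r, (mem _).2 ⟨M.αS r hr, ?_, ?_⟩, Or.inr ⟨rfl, M.αα r hr⟩⟩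
        · rw [h4]
          exact M.αne a ha
        · rw [h4]
          exact h2
      · by_cases h5 : r = M.φ a
        · refine ⟨M.α r, (mem _).2 ⟨M.αS r hr, ?_, ?_⟩, Or.inr ⟨rfl, M.αα r hr⟩⟩
          · rw [h5]
            exact h3
          · rw [h5]
            exact M.αne _ hb
        · exact ⟨r, (mem _).2 ⟨hr, h4, h5⟩, Or.inl ⟨rfl, rfl⟩⟩
    obtain ⟨r', hr'S, hr'⟩ := hr'
    obtain ⟨R', hV, hTot⟩ := ih M' hcard hOk' r' hr'S
    refine scheme_TC M M' (fun d => M.Fc a d) hA r R' (fun _ _ _ => False) hV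
      (fun _ _ _ h => h.elim) (fun d _ _ => VAt_none M d) ?_
    intro c x hx y hy
    obtain ⟨x', hx', lx⟩ := hcov x hx
    obtain ⟨y', hy', ly⟩ := hcov y hy
    have e := M.Lnk_equiv (fun x y => ((R' c x y ∧ x ∈ M.S ∧ ¬ M.Fc a x) ∨ False) ∨
        (x = r ∧ y = M.α r))
    refine e.trans (M.V_Lnk lx) (e.trans ?_ (e.symm (M.V_Lnk ly)))
    refine M.Lnk_le e (fun a ha => M.V_Lnk (M.V_σ ha)) ?_
      (red_use hR (R' c) r' hr'S (hTot c x' hx' y' hy'))
    rintro u w ((h4 | h4) | ⟨h4, h5⟩)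
    · have hu : u ∈ M'.S := hV.1 c u w h4
      exact M.Lnk_of (Or.inl (Or.inl ⟨h4, hsub hu, hno u hu⟩))
    · exact h4.elim
    · rw [h4, h5]
      rcases hr' with ⟨h6, h7⟩ | ⟨h6, h7⟩
      · rw [h7, h6]
        exact M.Lnk_of (Or.inr ⟨rfl, rfl⟩)
      · rw [h7, h6]
        exact M.Lnk_symm (M.Lnk_of (Or.inr ⟨rfl, rfl⟩))

end Mp
end TwoPlane
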